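import Mathlib

/-!
# The hash functions, tuples, digits
-/

namespace Pool.Agent.Helper650_HSK

/-- Horner evaluation modulo `p` at `θ` of the last `L` digits in base `p` of `f`. -/
def hsh (p θ : ℕ) : ℕ → ℕ → ℕ
  | 0, _ => 0
  | L + 1, f => (hsh p θ L (f / p) * θ + f % p) % p

/-- All lists of length `n` with entries in `l`. -/
def tupL {β : Type} (l : List β) : ℕ → List (List β)
  | 0 => [[]]
  | n + 1 => l.flatMap (fun x => (tupL l n).map (fun t => x :: t))

/-- All lists of length `n` with entries below `p`. -/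
def tup (p n : ℕ) : List (List ℕ) := tupL (List.range p) n

/-- The first `n` digits of `N` in base `p`, least significant first. -/
def dig (p : ℕ) : ℕ → ℕ → List ℕ
  | 0, _ => []
  | n + 1, N => (N % p) :: dig p n (N / p)

/-- The number formed by the first `L` of the `R` digits of `z`. -/
def pre (p R L z : ℕ) : ℕ := z / p ^ (R - L)

theorem mem_tupL {β : Type} {l : List β} : ∀ {n : ℕ} {t : List β},
    t ∈ tupL l n ↔ t.length = n ∧ ∀ x ∈ t, x ∈ l
  | 0, t => by
    simp only [tupL, List.mem_singleton]
    constructor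
    · rintro rfl; simp
    · rintro ⟨h, -⟩; exact List.length_eq_zero_iff.1 h
  | n + 1, t => by
    simp only [tupL, List.mem_flatMap, List.mem_map, mem_tupL (n := n)]
    constructor
    · rintro ⟨x, hx, t', ⟨h1, h2⟩, rfl⟩
      refine ⟨by simp [h1], ?_⟩
      intro y hy
      rcases List.mem_cons.1 hy with rfl | hy
      · exact hx
      · exact h2 y hy
    · rintro ⟨h1, h2⟩
      cases t with
      | nil => simp at h1
      | cons x t =>
        exact ⟨x, h2 x (by simp), t, ⟨by simpa using h1, fun y hy => h2 y (by simp [hy])⟩, rfl⟩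

theorem mem_tup {p n : ℕ} {t : List ℕ} : t ∈ tup p n ↔ t.length = n ∧ ∀ x ∈ t, x < p := by
  simp [tup, mem_tupL]

theorem length_flatMap_const {β γ : Type} (l : List β) (f : β → List γ) (c : ℕ)
    (h : ∀ x ∈ l, (f x).length = c) : (l.flatMap f).length = l.length * c := by
  induction l with
  | nil => simp
  | cons a l ih =>
    rw [List.flatMap_cons, List.length_append, h a (by simp),
      ih (fun x hx => h x (List.mem_cons_of_mem _ hx)), List.length_cons]
    ring

theorem length_flatMap_le {β γ : Type} (l : List β) (f : β → List γ) (c : ℕ)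
    (h : ∀ x ∈ l, (f x).length ≤ c) : (l.flatMap f).length ≤ l.length * c := by
  induction l with
  | nil => simp
  | cons a l ih =>
    rw [List.flatMap_cons, List.length_append, List.length_cons]
    have h1 := h a (by simp)
    have h2 := ih (fun x hx => h x (List.mem_cons_of_mem _ hx))
    nlinarith

theorem length_tupL {β : Type} (l : List β) : ∀ n : ℕ, (tupL l n).length = l.length ^ n
  | 0 => by simp [tupL]
  | n + 1 => by
    rw [tupL, length_flatMap_const _ _ (l.length ^ n) (fun x _ => by
      rw [List.length_map, length_tupL l n])]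
    ring

theorem length_tup (p n : ℕ) : (tup p n).length = p ^ n := by
  rw [tup, length_tupL, List.length_range]

theorem length_dig (p : ℕ) : ∀ n N : ℕ, (dig p n N).length = n
  | 0, _ => rfl
  | n + 1, N => by rw [dig, List.length_cons, length_dig p n]

theorem dig_lt {p : ℕ} (hp : 0 < p) : ∀ {n N x : ℕ}, x ∈ dig p n N → x < p
  | 0, _, _, h => by simp [dig] at h
  | n + 1, N, x, h => by
    rw [dig, List.mem_cons] at h
    rcases h with rfl | h
    · exact Nat.mod_lt _ hp
    · exact dig_lt hp h

/-- Equal digits from position `t` on: equal quotients. -/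
theorem dig_drop_inj {p : ℕ} (hp : 1 < p) : ∀ {n t N N' : ℕ}, N < p ^ n → N' < p ^ n →
    (dig p n N).drop t = (dig p n N').drop t → N / p ^ t = N' / p ^ t
  | 0, t, N, N', h, h', _ => by
    simp only [pow_zero, Nat.lt_one_iff] at h h'
    rw [h, h']
  | n + 1, 0, N, N', h, h', hd => by
    simp only [List.drop_zero, dig, List.cons.injEq] at hd
    have h1 : N / p < p ^ n := by
      rw [Nat.div_lt_iff_lt_mul (by omega), ← pow_succ]; exact h
    have h2 : N' / p < p ^ n := by
      rw [Nat.div_lt_iff_lt_mul (by omega), ← pow_succ]; exact h'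
    have h3 := dig_drop_inj (t := 0) hp h1 h2 (by simpa using hd.2)
    simp only [pow_zero, Nat.div_one] at h3 ⊢
    rw [← Nat.div_add_mod N p, ← Nat.div_add_mod N' p, h3, hd.1]
  | n + 1, t + 1, N, N', h, h', hd => by
    simp only [dig, List.drop_succ_cons] at hd
    have h1 : N / p < p ^ n := by
      rw [Nat.div_lt_iff_lt_mul (by omega), ← pow_succ]; exact h
    have h2 : N' / p < p ^ n := by
      rw [Nat.div_lt_iff_lt_mul (by omega), ← pow_succ]; exact h'
    have h3 := dig_drop_inj (t := t) hp h1 h2 hd
    rw [pow_succ', ← Nat.div_div_eq_div_mul, ← Nat.div_div_eq_div_mul, h3]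

theorem hsh_lt {p : ℕ} (hp : 0 < p) (θ : ℕ) : ∀ L f : ℕ, hsh p θ L f < p
  | 0, _ => hp
  | _ + 1, _ => Nat.mod_lt _ hp

theorem hsh_succ' (p θ L x a : ℕ) (ha : a < p) :
    hsh p θ (L + 1) (x * p + a) = (hsh p θ L x * θ + a) % p := by
  have hp : 0 < p := by omega
  rw [hsh]
  have h1 : (x * p + a) / p = x := by
    rw [Nat.add_comm, Nat.add_mul_div_right _ _ hp, Nat.div_eq_of_lt ha, zero_add]
  have h2 : (x * p + a) % p = a := by
    rw [Nat.add_comm, Nat.add_mul_mod_self_right, Nat.mod_eq_of_lt ha]
  rw [h1, h2]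

end Pool.Agent.Helper650_HSK
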