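import Pool.Agent.Helper650_HSK.Cnf
import Pool.Agent.Helper650_HSK.Hash

/-!
# The formula: variables and clauses not depending on the edges
-/

namespace Pool.Agent.Helper650_HSK

/-- digit `m` of the `j`-th number of the list is `a` -/
def nS (j m a : ℕ) : Name := [0, j, m, a]
/-- the numbers `j` and `j + 1` of the list have the same first `l` digits -/
def nC (j l : ℕ) : Name := [1, j, l]
/-- coordinate `e` of the seed of level `i` is `θ` -/
def nT (i e θ : ℕ) : Name := [2, i, e, θ]
/-- the hash of the first `l` digits of number `j`, level `i`, coordinate `e`, is `x` -/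
def nH (i j l e x : ℕ) : Name := [3, i, j, l, e, x]
/-- the node `(s, j, l, β)` is required -/
def nR (s j l β : ℕ) : Name := [4, s, j, l, β]
/-- level `i` is good for the node `(s, j, l, β)` -/
def nG (i s j l β : ℕ) : Name := [5, i, s, j, l, β]
/-- coordinate `e` of the address of the node `(s, j, l, β)` at level `i` is `z` -/
def nA (i s j l β e z : ℕ) : Name := [6, i, s, j, l, β, e, z]
/-- network of level `i` and depth `l`, stage `t`: the packet at position `π` has coordinate `e` of
its address equal to `x` -/
def nN (i l t e x : ℕ) (π : List ℕ) : Name := 7 :: i :: l :: t :: e :: x :: π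
/-- the cell `c` of level `i` and depth `l` is marked -/
def nY (i l : ℕ) (c : List ℕ) : Name := 8 :: i :: l :: c
/-- block `b` of the seed of level `i` is `s` -/
def nD (i b : ℕ) (s : List ℕ) : Name := 9 :: i :: b :: s
/-- the cell `c` of level `i` and depth `l` is not marked and block `b` of the seed is `s` -/
def nL (i l b : ℕ) (s c : List ℕ) : Name := 10 :: i :: l :: b :: (s ++ c)

open List (range)

/-- every digit has a value -/
def fS (R k p : ℕ) : List Clause :=
  (range R).flatMap fun m => (range (k + 2)).map fun j => (range p).map fun a => (nS j m a, true)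

/-- every seed coordinate has a value -/
def fT (w g p : ℕ) : List Clause :=
  (range w).flatMap fun i => (range g).map fun e => (range p).map fun θ => (nT i e θ, true)

/-- computation of the hashes -/
def fH (R w g k p : ℕ) : List Clause :=
  (range w).flatMap fun i => (range R).flatMap fun l => (range g).flatMap fun e =>
    (range (k + 2)).flatMap fun j => (range p).flatMap fun x => (range p).flatMap fun a =>
      (range p).map fun θ =>
        [(nH i j l e x, false), (nS j l a, false), (nT i e θ, false),
          (nH i j (l + 1) e ((x * θ + a) % p), true)]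

/-- a required node has a good level in each of the sets of levels `Ws` -/
def fW (R : ℕ) (Ws : List (List ℕ)) (k p : ℕ) : List Clause :=
  (range R).flatMap fun l => (range 2).flatMap fun s => Ws.flatMap fun W =>
    (range (k + 1)).flatMap fun j => (range p).map fun β =>
      (nR s j l β, false) :: W.map (fun i => (nG i s j l β, true))

/-- the packets of the network at stage `0` -/
def fI (R w g G k p : ℕ) : List Clause :=
  (range w).flatMap fun i => (range R).flatMap fun l => (range 2).flatMap fun s =>
    (range g).flatMap fun e => (range (k + 1)).flatMap fun j => (range p).flatMap fun β =>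
      (range p).flatMap fun z0 => (range p).flatMap fun z1 => (range p).map fun z =>
        [(nG i s j l β, false), (nA i s j l β 0 z0, false), (nA i s j l β 1 z1, false),
          (nA i s j l β e z, false),
          (nN i l 0 e z (z0 :: z1 :: dig p G ((2 * j + s) * p + β)), true)]

/-- the first and the last number of the list -/
def fE (R k p : ℕ) : List Clause :=
  (range R).map (fun m => [(nS 0 m 0, true)]) ++
    (range R).map (fun m => [(nS (k + 1) m (p - 1), true)])

/-- common prefixes -/
def fC (R k p : ℕ) : List Clause :=
  (range R).flatMap fun l => (range (k + 1)).flatMap fun j =>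
    [(nC j (l + 1), false), (nC j l, true)] ::
      (range p).flatMap fun a => ((range p).filter (fun b => decide (b ≠ a))).map fun b =>
        [(nC j (l + 1), false), (nS j l a, false), (nS (j + 1) l b, false)]

/-- the hash of the empty string -/
def fH0 (w g k : ℕ) : List Clause :=
  (range w).flatMap fun i => (range g).flatMap fun e => (range (k + 2)).map fun j =>
    [(nH i j 0 e 0, true)]

/-- the required nodes -/
def fR (R k p : ℕ) : List Clause :=
  (range R).flatMap fun l => (range (k + 1)).flatMap fun j => (range p).flatMap fun β =>
    (((range p).filter (fun a => decide (a < β))).flatMap fun a =>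
      [(nS j l a, false), (nC j l, true), (nR 0 j l β, true)] ::
        ((range p).filter (fun b => decide (β < b))).map fun b =>
          [(nS j l a, false), (nS (j + 1) l b, false), (nR 0 j l β, true)]) ++
    ((range p).filter (fun b => decide (β < b))).map fun b =>
      [(nS (j + 1) l b, false), (nC j l, true), (nR 1 j l β, true)]

/-- the addresses of the nodes -/
def fA (R w g k p : ℕ) : List Clause :=
  (range w).flatMap fun i => (range R).flatMap fun l => (range 2).flatMap fun s =>
    (range g).flatMap fun e => (range (k + 1)).flatMap fun j => (range p).flatMap fun β =>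
      (range p).flatMap fun x => (range p).map fun θ =>
        [(nH i (j + s) l e x, false), (nT i e θ, false),
          (nA i s j l β e ((x * θ + β) % p), true)]

/-- the network -/
def fN (R w g G p : ℕ) : List Clause :=
  (range w).flatMap fun i => (range R).flatMap fun l => (range g).flatMap fun e =>
    (range G).flatMap fun t => (tup p (t + 2)).flatMap fun u => (range p).flatMap fun b =>
      (tup p (G - 1 - t)).flatMap fun v => (range p).flatMap fun z => (range p).map fun x =>
        [(nN i l t (t + 2) z (u ++ b :: v), false), (nN i l t e x (u ++ b :: v), false),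
          (nN i l (t + 1) e x (u ++ z :: v), true)]

/-- the cells reached by packets are not marked -/
def fO (R w g G p : ℕ) : List Clause :=
  (range w).flatMap fun i => (range R).flatMap fun l => (tup p g).flatMap fun π =>
    (range p).map fun x => [(nN i l G 0 x π, false), (nY i l π, false)]

/-- The long clauses, except those for the seeds. -/
def wideB (R w g G : ℕ) (Ws : List (List ℕ)) (k p : ℕ) : List Clause :=
  fS R k p ++ fH R w g k p ++ fW R Ws k p ++ fI R w g G k p

/-- The short clauses. -/
def narrowB (R w g G k p : ℕ) : List Clause :=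
  fE R k p ++ fC R k p ++ fH0 w g k ++ fR R k p ++ fA R w g k p ++ fN R w g G p ++ fO R w g G p

section Sem

variable {A : Name → Bool} {R w g G k p : ℕ}

theorem sat_fS : SatAll A (fS R k p) ↔ ∀ m < R, ∀ j < k + 2, ∃ a < p, A (nS j m a) = true := by
  simp [fS, satAll_flatMap, satAll_map, SatC]

theorem sat_fT : SatAll A (fT w g p) ↔ ∀ i < w, ∀ e < g, ∃ θ < p, A (nT i e θ) = true := by
  simp [fT, satAll_flatMap, satAll_map, SatC]

theorem sat_fH : SatAll A (fH R w g k p) ↔ ∀ i < w, ∀ l < R, ∀ e < g, ∀ j < k + 2, ∀ x < p,
    ∀ a < p, ∀ θ < p, A (nH i j l e x) = true → A (nS j l a) = true → A (nT i e θ) = true →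
      A (nH i j (l + 1) e ((x * θ + a) % p)) = true := by
  simp only [fH, satAll_flatMap, satAll_map, List.mem_range]
  have key : ∀ a b c e : Name, SatC A [(a, false), (b, false), (c, false), (e, true)] ↔
      (A a = true → A b = true → A c = true → A e = true) := by
    intro a b c e
    simp only [SatC, List.mem_cons, List.not_mem_nil, or_false, exists_eq_or_imp, exists_eq_left]
    cases A a <;> cases A b <;> cases A c <;> simp
  simp only [key]

theorem sat_fW {Ws : List (List ℕ)} : SatAll A (fW R Ws k p) ↔ ∀ l < R, ∀ s < 2, ∀ W ∈ Ws,
    ∀ j < k + 1, ∀ β < p, A (nR s j l β) = true → ∃ i ∈ W, A (nG i s j l β) = true := by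
  simp only [fW, satAll_flatMap, satAll_map, List.mem_range]
  have key : ∀ (a : Name) (W : List ℕ) (f : ℕ → Name),
      SatC A ((a, false) :: W.map (fun i => (f i, true))) ↔
      (A a = true → ∃ i ∈ W, A (f i) = true) := by
    intro a W f
    simp only [SatC, List.mem_cons, List.mem_map, exists_eq_or_imp]
    cases A a <;> simp
  simp only [key]

theorem sat_fI : SatAll A (fI R w g G k p) ↔ ∀ i < w, ∀ l < R, ∀ s < 2, ∀ e < g, ∀ j < k + 1,
    ∀ β < p, ∀ z0 < p, ∀ z1 < p, ∀ z < p, A (nG i s j l β) = true →
      A (nA i s j l β 0 z0) = true → A (nA i s j l β 1 z1) = true → A (nA i s j l β e z) = true →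
      A (nN i l 0 e z (z0 :: z1 :: dig p G ((2 * j + s) * p + β))) = true := by
  simp only [fI, satAll_flatMap, satAll_map, List.mem_range]
  have key : ∀ a b c e f : Name,
      SatC A [(a, false), (b, false), (c, false), (e, false), (f, true)] ↔
      (A a = true → A b = true → A c = true → A e = true → A f = true) := by
    intro a b c e f
    simp only [SatC, List.mem_cons, List.not_mem_nil, or_false, exists_eq_or_imp, exists_eq_left]
    cases A a <;> cases A b <;> cases A c <;> cases A e <;> simp
  simp only [key]

theorem sat_fE : SatAll A (fE R k p) ↔ (∀ m < R, A (nS 0 m 0) = true) ∧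
    ∀ m < R, A (nS (k + 1) m (p - 1)) = true := by
  simp [fE, satAll_append, satAll_map, SatC]

theorem satC2 {a b : Name} : SatC A [(a, false), (b, true)] ↔ (A a = true → A b = true) := by
  simp only [SatC, List.mem_cons, List.not_mem_nil, or_false, exists_eq_or_imp, exists_eq_left]
  cases A a <;> simp

theorem satC3 {a b c : Name} : SatC A [(a, false), (b, false), (c, false)] ↔
    (A a = true → A b = true → A c = false) := by
  simp only [SatC, List.mem_cons, List.not_mem_nil, or_false, exists_eq_or_imp, exists_eq_left]
  cases A a <;> cases A b <;> simp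

theorem satC3' {a b c : Name} : SatC A [(a, false), (b, false), (c, true)] ↔
    (A a = true → A b = true → A c = true) := by
  simp only [SatC, List.mem_cons, List.not_mem_nil, or_false, exists_eq_or_imp, exists_eq_left]
  cases A a <;> cases A b <;> simp

theorem satC3'' {a b c : Name} : SatC A [(a, false), (b, true), (c, true)] ↔
    (A a = true → A b = false → A c = true) := by
  simp only [SatC, List.mem_cons, List.not_mem_nil, or_false, exists_eq_or_imp, exists_eq_left]
  cases A a <;> cases A b <;> simp

theorem satC3''' {a b c : Name} : SatC A [(a, true), (b, false), (c, true)] ↔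
    (A a = false → A b = true → A c = true) := by
  simp only [SatC, List.mem_cons, List.not_mem_nil, or_false, exists_eq_or_imp, exists_eq_left]
  cases A a <;> cases A b <;> simp

theorem satC2' {a b : Name} : SatC A [(a, false), (b, false)] ↔ (A a = true → A b = false) := by
  simp only [SatC, List.mem_cons, List.not_mem_nil, or_false, exists_eq_or_imp, exists_eq_left]
  cases A a <;> simp

theorem satC1 {a : Name} : SatC A [(a, true)] ↔ A a = true := by
  simp [SatC]

theorem sat_fC : SatAll A (fC R k p) ↔ ∀ l < R, ∀ j < k + 1,
    (A (nC j (l + 1)) = true → A (nC j l) = true) ∧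
    ∀ a < p, ∀ b < p, b ≠ a → A (nC j (l + 1)) = true → A (nS j l a) = true →
      A (nS (j + 1) l b) = false := by
  simp only [fC, satAll_flatMap, satAll_cons, satAll_map, List.mem_range, satC2, satC3,
    List.mem_filter, decide_eq_true_eq, and_imp]

theorem sat_fH0 : SatAll A (fH0 w g k) ↔ ∀ i < w, ∀ e < g, ∀ j < k + 2,
    A (nH i j 0 e 0) = true := by
  simp only [fH0, satAll_flatMap, satAll_map, List.mem_range, satC1]

theorem sat_fR : SatAll A (fR R k p) ↔ ∀ l < R, ∀ j < k + 1, ∀ β < p,
    (∀ a < p, a < β → (A (nS j l a) = true → A (nC j l) = false → A (nR 0 j l β) = true) ∧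
      ∀ b < p, β < b → A (nS j l a) = true → A (nS (j + 1) l b) = true →
        A (nR 0 j l β) = true) ∧
    ∀ b < p, β < b → A (nS (j + 1) l b) = true → A (nC j l) = false →
      A (nR 1 j l β) = true := by
  simp only [fR, satAll_flatMap, satAll_append, satAll_cons, satAll_map, List.mem_range, satC3',
    satC3'', List.mem_filter, decide_eq_true_eq, and_imp]

theorem sat_fA : SatAll A (fA R w g k p) ↔ ∀ i < w, ∀ l < R, ∀ s < 2, ∀ e < g, ∀ j < k + 1,
    ∀ β < p, ∀ x < p, ∀ θ < p, A (nH i (j + s) l e x) = true → A (nT i e θ) = true →
      A (nA i s j l β e ((x * θ + β) % p)) = true := by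
  simp only [fA, satAll_flatMap, satAll_map, List.mem_range, satC3']

theorem sat_fN : SatAll A (fN R w g G p) ↔ ∀ i < w, ∀ l < R, ∀ e < g, ∀ t < G,
    ∀ u ∈ tup p (t + 2), ∀ b < p, ∀ v ∈ tup p (G - 1 - t), ∀ z < p, ∀ x < p,
      A (nN i l t (t + 2) z (u ++ b :: v)) = true → A (nN i l t e x (u ++ b :: v)) = true →
        A (nN i l (t + 1) e x (u ++ z :: v)) = true := by
  simp only [fN, satAll_flatMap, satAll_map, List.mem_range, satC3']

theorem sat_fO : SatAll A (fO R w g G p) ↔ ∀ i < w, ∀ l < R, ∀ π ∈ tup p g, ∀ x < p,
    A (nN i l G 0 x π) = true → A (nY i l π) = false := by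
  simp only [fO, satAll_flatMap, satAll_map, List.mem_range, satC2']

end Sem

end Pool.Agent.Helper650_HSK
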