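import Pool.Agent.Helper650_HSK.Defs

/-!
# Formulas in conjunctive normal form and hitting sets
-/

namespace Pool.Agent.Helper650_HSK

open Pool.Agent.NPC

/-- Names of propositional variables. -/
abbrev Name : Type := List ℕ

/-- Literals: `(x, true)` is `x`, `(x, false)` is the negation of `x`. -/
abbrev Lit : Type := Name × Bool

/-- Clauses. -/
abbrev Clause : Type := List Lit

/-- The assignment `A` satisfies the clause `C`. -/
def SatC (A : Name → Bool) (C : Clause) : Prop := ∃ l ∈ C, A l.1 = l.2

/-- The assignment `A` satisfies all clauses of `F`. -/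
def SatAll (A : Name → Bool) (F : List Clause) : Prop := ∀ C ∈ F, SatC A C

theorem satAll_append {A : Name → Bool} {F F' : List Clause} :
    SatAll A (F ++ F') ↔ SatAll A F ∧ SatAll A F' := by
  simp only [SatAll, List.mem_append]
  exact ⟨fun h => ⟨fun C hC => h C (Or.inl hC), fun C hC => h C (Or.inr hC)⟩,
    fun h C hC => hC.elim (h.1 C) (h.2 C)⟩

theorem satAll_flatMap {β : Type} {A : Name → Bool} {l : List β} {F : β → List Clause} :
    SatAll A (l.flatMap F) ↔ ∀ x ∈ l, SatAll A (F x) := by
  simp only [SatAll, List.mem_flatMap]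
  exact ⟨fun h x hx C hC => h C ⟨x, hx, hC⟩, fun h C ⟨x, hx, hC⟩ => h x hx C hC⟩

theorem satAll_map {β : Type} {A : Name → Bool} {l : List β} {F : β → Clause} :
    SatAll A (l.map F) ↔ ∀ x ∈ l, SatC A (F x) := by
  simp only [SatAll, List.mem_map]
  exact ⟨fun h x hx => h _ ⟨x, hx, rfl⟩, fun h C ⟨x, hx, hC⟩ => hC ▸ h x hx⟩

theorem satAll_cons {A : Name → Bool} {C : Clause} {F : List Clause} :
    SatAll A (C :: F) ↔ SatC A C ∧ SatAll A F := by
  simp [SatAll]

theorem satAll_nil {A : Name → Bool} : SatAll A [] := by simp [SatAll]

/-! ### Long clauses -/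

/-- Auxiliary variables for splitting long clauses. -/
def nZ (m t : ℕ) : Name := [21, m, t]

/-- The clauses replacing the long clause `C` of index `m`. -/
def chain (m : ℕ) (C : Clause) : List Clause :=
  [(nZ m 0, true)] :: [(nZ m C.length, false)] ::
    C.zipIdx.map (fun q => [(nZ m q.2, false), q.1, (nZ m (q.2 + 1), true)])

/-- Splitting all clauses of a list. -/
def split (W : List Clause) : List Clause := W.zipIdx.flatMap (fun q => chain q.2 q.1)

/-- The auxiliary variables used for splitting. -/
def zvars (W : List Clause) : List Name :=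
  W.zipIdx.flatMap (fun q => (List.range (q.1.length + 1)).map (fun t => nZ q.2 t))

/-! ### The hypergraph of a formula -/

/-- The vertex of a literal, `V` being the list of variables. -/
def enc (V : List Name) (l : Lit) : ℕ := 2 * V.idxOf l.1 + (if l.2 = true then 1 else 0)

/-- The hypergraph of the formula `F` with list of variables `V`. -/
def hypOf (V : List Name) (F : List Clause) : ℕ × List (List ℕ) :=
  (2 * V.length, (List.range V.length).map (fun i => [2 * i, 2 * i + 1]) ++
    F.map (fun C => (C.map (enc V)).dedup))

end Pool.Agent.Helper650_HSK
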