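import Pool.Agent.NPC.Dec
import Pool.Agent.H601R2.PP
import Pool.Agent.R544.Util2

/-!
# Hitting sets of hypergraphs of bounded rank: definitions

Instances of `d`-Hitting-Set are coded as data `((n, E), k)`: the vertices are `0, ..., n - 1`, the
edges are the members of the list `E` (each edge is the list of its vertices) and `k` is the
parameter.
-/

namespace Pool.Agent.Helper650_HSK

open Pool.Agent.NPC

/-- Instances `((n, E), k)` of the hitting set problem: number of vertices, list of edges,
parameter. -/
abbrev Inst : Type := (ℕ × List (List ℕ)) × ℕ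

/-- `(n, E)` is a `d`-hypergraph with vertex set `{0, ..., n - 1}`: every edge is a nonempty list of
at most `d` distinct vertices. -/
def IsHyp (d : ℕ) (H : ℕ × List (List ℕ)) : Prop :=
  ∀ e ∈ H.2, e ≠ [] ∧ e.Nodup ∧ e.length ≤ d ∧ ∀ v ∈ e, v < H.1

/-- `S` meets every edge of `E`. -/
def Hits (S : Finset ℕ) (E : List (List ℕ)) : Prop := ∀ e ∈ E, ∃ v ∈ e, v ∈ S

/-- The instance `((n, E), k)` is a yes-instance: some hitting set of the hypergraph `(n, E)` has at
most `k` elements. -/
def Yes (x : Inst) : Prop :=
  ∃ S : Finset ℕ, S ⊆ Finset.range x.1.1 ∧ S.card ≤ x.2 ∧ Hits S x.1.2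

end Pool.Agent.Helper650_HSK
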