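import Pool.Agent.Helper650_HSK.Kernel
import Pool.Agent.H671R2.PolyAuto

/-!
# The greedy kernel is computable in polynomial time
-/

namespace Pool.Agent.Helper650_HSK

open Pool.Agent.NPC

/-- TARGET 1. -/
theorem poly_idxOf {α β : Type} [TEnc α] [TEnc β] [DecidableEq β] {l : α → List β} {b : α → β}
    (hl : Poly l) (hb : Poly b) : Poly (fun a => (l a).idxOf (b a)) := by
  obtain ⟨r, hr⟩ := hl.sz_le
  have key : ∀ (l : List β) (b : β),
      l.foldr (fun x i => if x = b then 0 else i + 1) 0 = l.idxOf b := by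
    intro l b
    induction l with
    | nil => rfl
    | cons x l ih =>
      rw [List.foldr_cons, ih, List.idxOf_cons]
      by_cases h : x = b
      · simp [h]
      · have h' : (x == b) = false := by simpa using h
        simp [h, h']
  refine (Poly.foldr (s := fun _ => 0) (F := fun a x (i : ℕ) => if x = b a then 0 else i + 1) hl
    (NPC.Poly.const _) ?_ (Polynomial.C 4 * r + Polynomial.C 1) ?_).congr fun a => key _ _
  · exact Poly.ite (p := fun p : α × β × ℕ => p.2.1 = b p.1)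
      (Poly.decide_eq (NPC.Poly.fst (NPC.Poly.snd NPC.Poly.id)) (hb.comp (NPC.Poly.fst NPC.Poly.id))) (NPC.Poly.const _)
      (Poly.succ (NPC.Poly.snd (NPC.Poly.snd NPC.Poly.id)))
  · intro a k _
    rw [key]
    have h1 := sz_nat_le (((l a).drop k).idxOf (b a))
    have h2 := Poly.size_le_self (((l a).drop k).idxOf (b a))
    have h3 : ((l a).drop k).idxOf (b a) ≤ ((l a).drop k).length := List.idxOf_le_length
    have h4 := length_lt_sz ((l a).drop k)
    have h5 := Poly.sz_drop_le (l a) k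
    have h6 := hr a
    simp only [Polynomial.eval_add, Polynomial.eval_mul, Polynomial.eval_C]
    omega

/-- TARGET 2. -/
theorem poly_pow_const {α : Type} [TEnc α] {f : α → ℕ} (hf : Poly f) (c : ℕ) :
    Poly (fun a => f a ^ c) := by
  induction c with
  | zero => exact (NPC.Poly.const 1).congr fun a => (pow_zero _).symm
  | succ c ih => exact (Poly.mul ih hf).congr fun a => (pow_succ _ _).symm

theorem poly_subs (m : ℕ) : Poly (fun p : ℕ × List ℕ => subs p.1 m p.2) := by
  induction m with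
  | zero => exact (NPC.Poly.const [([], 1)]).congr fun p => by rw [subs]
  | succ m ih =>
    have h0 : Poly (fun p : ℕ × List ℕ => [(([] : List ℕ), (p.1 + 1) ^ (m + 1))]) :=
      NPC.Poly.cons (Poly.pair (NPC.Poly.const _) (poly_pow_const (Poly.succ (NPC.Poly.fst NPC.Poly.id)) (m + 1)))
        (NPC.Poly.const _)
    have hs : Poly (fun p : (ℕ × List ℕ) × ℕ × List ℕ => subs p.1.1 m p.2.2) :=
      ih.comp (Poly.pair (NPC.Poly.fst (NPC.Poly.fst NPC.Poly.id)) (NPC.Poly.snd (NPC.Poly.snd NPC.Poly.id)))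
    have h1 : Poly (fun p : (ℕ × List ℕ) × ℕ × List ℕ =>
        (subs p.1.1 m p.2.2).map (fun q => (q.1, (p.1.1 + 1) * q.2)) ++
        (subs p.1.1 m p.2.2).map (fun q => (p.2.1 :: q.1, q.2))) := by
      refine Poly.append ?_ ?_
      · refine NPC.Poly.map (F := fun (p : (ℕ × List ℕ) × ℕ × List ℕ) (q : List ℕ × ℕ) =>
          (q.1, (p.1.1 + 1) * q.2)) hs ?_
        exact Poly.pair (NPC.Poly.fst (NPC.Poly.snd NPC.Poly.id))
          (Poly.mul (Poly.succ (NPC.Poly.fst (NPC.Poly.fst (NPC.Poly.fst NPC.Poly.id)))) (NPC.Poly.snd (NPC.Poly.snd NPC.Poly.id)))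
      · refine NPC.Poly.map (F := fun (p : (ℕ × List ℕ) × ℕ × List ℕ) (q : List ℕ × ℕ) =>
          (p.2.1 :: q.1, q.2)) hs ?_
        exact Poly.pair (NPC.Poly.cons (NPC.Poly.fst (NPC.Poly.snd (NPC.Poly.fst NPC.Poly.id)))
          (NPC.Poly.fst (NPC.Poly.snd NPC.Poly.id))) (NPC.Poly.snd (NPC.Poly.snd NPC.Poly.id))
    refine (Poly.listCases (l := fun p : ℕ × List ℕ => p.2)
      (g := fun p => [(([] : List ℕ), (p.1 + 1) ^ (m + 1))])
      (h := fun p v e => (subs p.1 m e).map (fun q => (q.1, (p.1 + 1) * q.2)) ++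
        (subs p.1 m e).map (fun q => (v :: q.1, q.2))) (NPC.Poly.snd NPC.Poly.id) h0 h1).congr ?_
    rintro ⟨k, l⟩
    cases l <;> rw [subs]

theorem poly_deg {α : Type} [TEnc α] {M : α → List (List ℕ)} {C : α → List ℕ} (hM : Poly M)
    (hC : Poly C) : Poly (fun a => deg (M a) (C a)) := by
  unfold deg
  refine Poly.length (Poly.filter (p := fun a (e : List ℕ) =>
    (C a).all (fun v => decide (v ∈ e))) hM ?_)
  refine Poly.all (α := α × List ℕ) (l := fun p => C p.1) (p := fun p v => decide (v ∈ p.2))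
    (hC.comp (NPC.Poly.fst NPC.Poly.id)) ?_
  exact Poly.decide_mem (NPC.Poly.snd NPC.Poly.id) (NPC.Poly.snd (NPC.Poly.fst NPC.Poly.id))

theorem poly_keep (d : ℕ) {α : Type} [TEnc α] {k : α → ℕ} {M : α → List (List ℕ)} {e : α → List ℕ}
    (hk : Poly k) (hM : Poly M) (he : Poly e) : Poly (fun a => keep d (k a) (M a) (e a)) := by
  unfold keep
  have h1 : Poly (fun a => subs (k a) d (e a)) := (poly_subs d).comp (Poly.pair hk he)
  refine Poly.all (p := fun a (q : List ℕ × ℕ) => decide (deg (M a) q.1 < q.2)) h1 ?_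
  exact Poly.decide_lt (poly_deg (hM.comp (NPC.Poly.fst NPC.Poly.id)) (NPC.Poly.fst (NPC.Poly.snd NPC.Poly.id)))
    (NPC.Poly.snd (NPC.Poly.snd NPC.Poly.id))

theorem greedy_sublist (d k : ℕ) (E : List (List ℕ)) : ∀ M : List (List ℕ),
    ∃ L, L.Sublist E ∧ E.foldl (fun M e => bif keep d k M e then M ++ [e] else M) M = M ++ L := by
  induction E with
  | nil => intro M; exact ⟨[], List.Sublist.refl _, by simp⟩
  | cons e E ih =>
    intro M
    rw [List.foldl_cons]
    cases h : keep d k M e with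
    | true =>
      obtain ⟨L, hL, h2⟩ := ih (M ++ [e])
      refine ⟨e :: L, hL.cons_cons e, ?_⟩
      rw [cond_true, h2]
      simp
    | false =>
      obtain ⟨L, hL, h2⟩ := ih M
      exact ⟨L, hL.cons e, by rw [cond_false, h2]⟩

theorem poly_greedy (d : ℕ) : Poly (fun x : Inst => greedy d x.2 x.1.2) := by
  unfold greedy
  have hE : Poly (fun x : Inst => x.1.2) := NPC.Poly.snd (NPC.Poly.fst NPC.Poly.id)
  obtain ⟨r, hr⟩ := hE.sz_le
  refine Poly.foldl (s := fun _ => [])
    (F := fun (x : Inst) M e => bif keep d x.2 M e then M ++ [e] else M) hE (NPC.Poly.const _) ?_ r ?_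
  · have h1 : Poly (fun p : Inst × List (List ℕ) × List ℕ => keep d p.1.2 p.2.1 p.2.2) :=
      poly_keep d (NPC.Poly.snd (NPC.Poly.fst NPC.Poly.id)) (NPC.Poly.fst (NPC.Poly.snd NPC.Poly.id))
        (NPC.Poly.snd (NPC.Poly.snd NPC.Poly.id))
    exact Poly.cond h1 (Poly.append (NPC.Poly.fst (NPC.Poly.snd NPC.Poly.id))
      (NPC.Poly.cons (NPC.Poly.snd (NPC.Poly.snd NPC.Poly.id)) (NPC.Poly.const _))) (NPC.Poly.fst (NPC.Poly.snd NPC.Poly.id))
  · intro x k _
    obtain ⟨L, hL, h2⟩ := greedy_sublist d x.2 (x.1.2.take k) []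
    rw [h2, List.nil_append]
    exact (R544.sz_sublist (hL.trans (List.take_sublist k _))).trans (hr x)

/-- TARGET 3. -/
theorem poly_shrink (d : ℕ) : Poly (shrink d) := by
  unfold shrink
  have hg := poly_greedy d
  have hv : Poly (fun x : Inst => (greedy d x.2 x.1.2).flatten.dedup) :=
    R544.poly_dedup (Poly.flatten hg)
  refine Poly.pair (Poly.pair (Poly.length hv) ?_) (NPC.Poly.snd NPC.Poly.id)
  refine NPC.Poly.map (F := fun (x : Inst) (e : List ℕ) =>
    e.map (fun v => (greedy d x.2 x.1.2).flatten.dedup.idxOf v)) hg ?_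
  refine NPC.Poly.map (α := Inst × List ℕ) (l := fun p => p.2)
    (F := fun p v => (greedy d p.1.2 p.1.1.2).flatten.dedup.idxOf v) (NPC.Poly.snd NPC.Poly.id) ?_
  exact poly_idxOf (hv.comp (NPC.Poly.fst (NPC.Poly.fst NPC.Poly.id))) (NPC.Poly.snd NPC.Poly.id)

end Pool.Agent.Helper650_HSK
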