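import Pool.Agent.Helper650_HSK.Cnf
import Pool.Agent.Helper650_HSK.KernelPoly

/-!
# Long clauses and the hypergraph of a formula
-/

namespace Pool.Agent.Helper650_HSK

open Pool.Agent.NPC

theorem h371_mem_zipIdx {β : Type} {l : List β} {x : β} (h : x ∈ l) :
    ∃ m, (x, m) ∈ l.zipIdx := by
  obtain ⟨m, hm, rfl⟩ := List.mem_iff_getElem.1 h
  exact ⟨m, by rw [List.mem_zipIdx_iff_getElem?]; simp [hm]⟩

theorem h371_mem_split {W : List Clause} {m : ℕ} {C c : Clause} (h : (C, m) ∈ W.zipIdx)
    (hc : c ∈ chain m C) : c ∈ split W := by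
  rw [split, List.mem_flatMap]
  exact ⟨(C, m), h, hc⟩

/-- TARGET 1. -/
theorem satAll_of_split {A : Name → Bool} {W : List Clause} (h : SatAll A (split W)) :
    SatAll A W := by
  intro C hC
  obtain ⟨m, hm⟩ := h371_mem_zipIdx hC
  by_contra hcon
  unfold SatC at hcon
  push Not at hcon
  have h0 : A (nZ m 0) = true := by
    obtain ⟨l, hl, hl'⟩ := h _ (h371_mem_split hm (c := [(nZ m 0, true)]) (by simp [chain]))
    rw [List.mem_singleton] at hl
    subst hl
    exact hl'
  have h1 : A (nZ m C.length) = false := by
    obtain ⟨l, hl, hl'⟩ := h _ (h371_mem_split hm (c := [(nZ m C.length, false)])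
      (by simp [chain]))
    rw [List.mem_singleton] at hl
    subst hl
    exact hl'
  have h2 : ∀ t, t < C.length → A (nZ m t) = true → A (nZ m (t + 1)) = true := by
    intro t ht hA
    obtain ⟨l, hl, hl'⟩ := h _ (h371_mem_split hm
      (c := [(nZ m t, false), C[t], (nZ m (t + 1), true)]) (by
        unfold chain
        exact List.mem_cons_of_mem _ (List.mem_cons_of_mem _ (List.mem_map.2
          ⟨(C[t], t), by rw [List.mem_zipIdx_iff_getElem?]; simp [ht], rfl⟩))))
    simp only [List.mem_cons, List.not_mem_nil, or_false] at hl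
    rcases hl with rfl | rfl | rfl
    · simp [hA] at hl'
    · exact absurd hl' (hcon _ (List.getElem_mem ht))
    · exact hl'
  have h3 : ∀ t, t ≤ C.length → A (nZ m t) = true := by
    intro t
    induction t with
    | zero => intro _; exact h0
    | succ t ih => intro ht; exact h2 t (by omega) (ih (by omega))
  rw [h3 _ le_rfl] at h1
  exact absurd h1 (by simp)

/-- The assignment for `exists_split`. -/
def h371A (A : Name → Bool) (W : List Clause) (x : Name) : Bool :=
  if x.head? = some 21 then
    ((W.getD (x.getD 1 0) []).take (x.getD 2 0)).all (fun l => !(A l.1 == l.2))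
  else A x

/-- TARGET 2. -/
theorem exists_split {A : Name → Bool} {W : List Clause} (h : SatAll A W)
    (hW : ∀ C ∈ W, ∀ l ∈ C, l.1.head? ≠ some 21) :
    ∃ A' : Name → Bool, (∀ x : Name, x.head? ≠ some 21 → A' x = A x) ∧ SatAll A' (split W) := by
  refine ⟨h371A A W, fun x hx => by simp [h371A, hx], ?_⟩
  intro c hc
  rw [split, List.mem_flatMap] at hc
  obtain ⟨⟨C, m⟩, hCm, hc⟩ := hc
  rw [List.mem_zipIdx_iff_getElem?] at hCm
  simp only at hCm
  have hCW : C ∈ W := List.mem_of_getElem? hCm
  have hz : ∀ t, h371A A W (nZ m t) = (C.take t).all (fun l => !(A l.1 == l.2)) := by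
    intro t
    simp [h371A, nZ, List.getD, hCm]
  unfold chain at hc
  simp only [List.mem_cons, List.mem_map] at hc
  rcases hc with rfl | rfl | ⟨⟨l, t⟩, hlt, rfl⟩
  · exact ⟨_, List.mem_singleton_self _, by rw [hz]; simp⟩
  · refine ⟨_, List.mem_singleton_self _, ?_⟩
    simp only
    rw [hz]
    obtain ⟨l, hl, hl'⟩ := h C hCW
    rw [List.take_length, List.all_eq_false]
    exact ⟨l, hl, by simp [hl']⟩
  · rw [List.mem_zipIdx_iff_getElem?] at hlt
    simp only at hlt
    have hlC : l ∈ C := List.mem_of_getElem? hlt
    by_cases h1 : h371A A W (nZ m t) = true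
    · by_cases h2 : A l.1 = l.2
      · refine ⟨l, by simp, ?_⟩
        rw [← h2]
        simp [h371A, hW C hCW l hlC]
      · refine ⟨(nZ m (t + 1), true), by simp, ?_⟩
        simp only
        rw [hz, List.take_add_one, List.all_append, ← hz, h1, hlt]
        simp [h2]
    · exact ⟨(nZ m t, false), by simp, by simpa using h1⟩

/-- TARGET 3. -/
theorem yes_hypOf_iff {V : List Name} {F : List Clause} (hF : ∀ C ∈ F, ∀ l ∈ C, l.1 ∈ V) :
    Yes (hypOf V F, V.length) ↔ ∃ A : Name → Bool, SatAll A F := by
  constructor
  · rintro ⟨S, hS, hcard, hhit⟩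
    simp only [hypOf] at hS hcard hhit
    have hpair : ∀ i < V.length, 2 * i ∈ S ∨ 2 * i + 1 ∈ S := by
      intro i hi
      obtain ⟨v, hv, hvS⟩ := hhit [2 * i, 2 * i + 1] (by
        rw [List.mem_append, List.mem_map]
        exact Or.inl ⟨i, List.mem_range.2 hi, rfl⟩)
      simp only [List.mem_cons, List.not_mem_nil, or_false] at hv
      rcases hv with rfl | rfl
      · exact Or.inl hvS
      · exact Or.inr hvS
    have himg : S.image (fun v => v / 2) = Finset.range V.length := by
      ext i
      rw [Finset.mem_image, Finset.mem_range]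
      constructor
      · rintro ⟨v, hv, rfl⟩
        have := Finset.mem_range.1 (hS hv)
        omega
      · intro hi
        rcases hpair i hi with h | h
        · exact ⟨_, h, by omega⟩
        · exact ⟨_, h, by omega⟩
    have hinj : Set.InjOn (fun v => v / 2) (S : Set ℕ) := by
      apply Finset.card_image_iff.1
      apply le_antisymm Finset.card_image_le
      rw [himg, Finset.card_range]
      exact hcard
    refine ⟨fun x => decide (2 * V.idxOf x + 1 ∈ S), fun C hC => ?_⟩
    obtain ⟨v, hv, hvS⟩ := hhit ((C.map (enc V)).dedup) (by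
      rw [List.mem_append, List.mem_map]
      exact Or.inr (List.mem_map.2 ⟨C, hC, rfl⟩))
    rw [List.mem_dedup, List.mem_map] at hv
    obtain ⟨l, hl, rfl⟩ := hv
    refine ⟨l, hl, ?_⟩
    obtain ⟨x, b⟩ := l
    cases b with
    | true =>
      simp only [enc, if_true] at hvS
      simp [hvS]
    | false =>
      simp only [enc, Bool.false_eq_true, if_false, add_zero] at hvS
      simp only [decide_eq_false_iff_not]
      intro h
      have := hinj (Finset.mem_coe.2 hvS) (Finset.mem_coe.2 h) (by simp only; omega)
      omega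
  · rintro ⟨A, hA⟩
    set b : ℕ → ℕ := fun i => 2 * i + (if A (V.getD i []) = true then 1 else 0) with hb
    have hb2 : ∀ i, b i = 2 * i ∨ b i = 2 * i + 1 := by
      intro i
      simp only [hb]
      split_ifs
      · right; rfl
      · left; rfl
    refine ⟨(Finset.range V.length).image b, ?_, ?_, ?_⟩
    · intro v hv
      rw [Finset.mem_image] at hv
      obtain ⟨i, hi, rfl⟩ := hv
      rw [Finset.mem_range] at hi
      simp only [hypOf, Finset.mem_range]
      rcases hb2 i with h | h <;> omega
    · exact Finset.card_image_le.trans (by simp)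
    · intro e he
      simp only [hypOf, List.mem_append, List.mem_map, List.mem_range] at he
      rcases he with ⟨i, hi, rfl⟩ | ⟨C, hC, rfl⟩
      · refine ⟨b i, ?_, Finset.mem_image_of_mem _ (Finset.mem_range.2 hi)⟩
        rcases hb2 i with h | h <;> simp [h]
      · obtain ⟨l, hl, hl'⟩ := hA C hC
        have hlV := hF C hC l hl
        have hidx : V.idxOf l.1 < V.length := List.idxOf_lt_length_of_mem hlV
        refine ⟨enc V l, ?_, ?_⟩
        · rw [List.mem_dedup, List.mem_map]
          exact ⟨l, hl, rfl⟩
        · rw [Finset.mem_image]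
          refine ⟨V.idxOf l.1, Finset.mem_range.2 hidx, ?_⟩
          simp only [hb, enc]
          have : V.getD (V.idxOf l.1) [] = l.1 := by
            rw [List.getD_eq_getElem _ _ hidx, List.getElem_idxOf hidx]
          rw [this, hl']

/-- TARGET 4. -/
theorem isHyp_hypOf {d : ℕ} (hd : 2 ≤ d) {V : List Name} {F : List Clause}
    (hF : ∀ C ∈ F, ∀ l ∈ C, l.1 ∈ V) (hF' : ∀ C ∈ F, C ≠ [] ∧ C.length ≤ d) :
    IsHyp d (hypOf V F) := by
  intro e he
  simp only [hypOf, List.mem_append, List.mem_map, List.mem_range] at he ⊢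
  rcases he with ⟨i, hi, rfl⟩ | ⟨C, hC, rfl⟩
  · refine ⟨by simp, by simp, by simpa using hd, ?_⟩
    intro v hv
    simp only [List.mem_cons, List.not_mem_nil, or_false] at hv
    omega
  · refine ⟨?_, List.nodup_dedup _, ?_, ?_⟩
    · intro h0
      rw [List.dedup_eq_nil, List.map_eq_nil_iff] at h0
      exact (hF' C hC).1 h0
    · have h1 := (List.dedup_sublist (C.map (enc V))).length_le
      rw [List.length_map] at h1
      exact h1.trans (hF' C hC).2
    · intro v hv
      rw [List.mem_dedup, List.mem_map] at hv
      obtain ⟨l, hl, rfl⟩ := hv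
      have hidx : V.idxOf l.1 < V.length := List.idxOf_lt_length_of_mem (hF C hC l hl)
      unfold enc
      split_ifs <;> omega

/-- TARGET 5. -/
theorem split_lits {W : List Clause} {C : Clause} (hC : C ∈ split W) :
    C ≠ [] ∧ C.length ≤ 3 ∧ ∀ l ∈ C, l.1 ∈ zvars W ∨ ∃ C' ∈ W, l ∈ C' := by
  rw [split, List.mem_flatMap] at hC
  obtain ⟨⟨C', m⟩, hCm, hc⟩ := hC
  have hz : ∀ t, t ≤ C'.length → nZ m t ∈ zvars W := by
    intro t ht
    rw [zvars, List.mem_flatMap]
    exact ⟨(C', m), hCm, List.mem_map.2 ⟨t, List.mem_range.2 (by simp only; omega), rfl⟩⟩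
  have hCW : C' ∈ W := by
    rw [List.mem_zipIdx_iff_getElem?] at hCm
    exact List.mem_of_getElem? hCm
  unfold chain at hc
  simp only [List.mem_cons, List.mem_map] at hc
  rcases hc with rfl | rfl | ⟨⟨l, t⟩, hlt, rfl⟩
  · refine ⟨by simp, by simp, ?_⟩
    intro l hl
    rw [List.mem_singleton] at hl
    subst hl
    exact Or.inl (hz 0 (Nat.zero_le _))
  · refine ⟨by simp, by simp, ?_⟩
    intro l hl
    rw [List.mem_singleton] at hl
    subst hl
    exact Or.inl (hz _ le_rfl)
  · rw [List.mem_zipIdx_iff_getElem?] at hlt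
    simp only at hlt
    have hlC : l ∈ C' := List.mem_of_getElem? hlt
    have ht : t < C'.length := by
      rw [List.getElem?_eq_some_iff] at hlt
      exact hlt.1
    refine ⟨by simp, by simp, ?_⟩
    intro l' hl'
    simp only [List.mem_cons, List.not_mem_nil, or_false] at hl'
    rcases hl' with rfl | rfl | rfl
    · exact Or.inl (hz _ ht.le)
    · exact Or.inr ⟨C', hCW, hlC⟩
    · exact Or.inl (hz _ ht)

/-- TARGET 6. -/
theorem length_zvars_le {W : List Clause} {r : ℕ} (h : ∀ C ∈ W, C.length ≤ r) :
    (zvars W).length ≤ W.length * (r + 1) := by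
  have key : ∀ (W : List Clause) (k : ℕ), (∀ C ∈ W, C.length ≤ r) →
      ((W.zipIdx k).flatMap (fun q => (List.range (q.1.length + 1)).map
        (fun t => nZ q.2 t))).length ≤ W.length * (r + 1) := by
    intro W
    induction W with
    | nil => intro k _; simp
    | cons C W ih =>
      intro k hW
      have h1 := ih (k + 1) fun C' hC' => hW C' (List.mem_cons_of_mem _ hC')
      have h2 := hW C List.mem_cons_self
      rw [List.zipIdx_cons, List.flatMap_cons, List.length_append, List.length_map,
        List.length_range, List.length_cons, add_mul]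
      simp only at h1 ⊢
      omega
  exact key W 0 h

/-- TARGET 7 (polynomial time: `unfold`, `fun_prop`; `idxOf` needs a lemma, `poly_dedup` is in
`Pool.Agent.R544.Util2`). -/
theorem poly_split_zvars {α : Type} [TEnc α] {W : α → List Clause} (hW : Poly W) :
    Poly (fun a => split (W a)) ∧ Poly (fun a => zvars (W a)) := by
  constructor
  · unfold split chain nZ
    fun_prop
  · unfold zvars nZ
    apply Poly.flatMap (F := fun _ (q : Clause × ℕ) =>
      (List.range (q.1.length + 1)).map (fun t => [21, q.2, t])) (by fun_prop)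
    have h1 : Poly (fun p : α × Clause × ℕ => List.range (p.2.1.length + 1)) := by
      apply UPoly.range
      apply UPoly.add _ (UPoly.const 1)
      apply UPoly.length
      fun_prop
    apply NPC.Poly.map (F := fun (p : α × Clause × ℕ) t => [21, p.2.2, t]) h1
    fun_prop

theorem h371_idxOf {β : Type} [BEq β] [LawfulBEq β] [DecidableEq β] (x : β) (l : List β) :
    ((l.zipIdx.filter (fun q => decide (q.1 = x))).head?.elim l.length (fun q => q.2)) =
      l.idxOf x := by
  have key : ∀ (l : List β) (k : ℕ),
      (((l.zipIdx k).filter (fun q => decide (q.1 = x))).head?.elim (k + l.length)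
        (fun q => q.2)) = k + l.idxOf x := by
    intro l
    induction l with
    | nil => intro k; simp
    | cons y l ih =>
      intro k
      rw [List.zipIdx_cons, List.filter_cons]
      by_cases h : y = x
      · subst h
        simp
      · have h1 := ih (k + 1)
        rw [List.idxOf_cons_ne _ (fun h' => h h')]
        simp only [h, decide_false, Bool.false_eq_true, if_false, List.length_cons]
        rw [show k + (l.length + 1) = k + 1 + l.length by omega, h1]
        omega
  simpa using key l 0

theorem h371_poly_idxOf {α β : Type} [TEnc α] [TEnc β] [BEq β] [LawfulBEq β] {x : α → β}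
    {l : α → List β} (hx : Poly x) (hl : Poly l) : Poly (fun a => (l a).idxOf (x a)) := by
  classical
  refine (Poly.optElim (o := fun a => ((l a).zipIdx.filter (fun q => decide (q.1 = x a))).head?)
    (g := fun a => (l a).length) (h := fun _ q => q.2) ?_ ?_ ?_).congr fun a => h371_idxOf _ _
  · fun_prop
  · fun_prop
  · fun_prop

/-- TARGET 8. -/
theorem poly_hypOf {α : Type} [TEnc α] {V : α → List Name} {F : α → List Clause} (hV : Poly V)
    (hF : Poly F) : Poly (fun a => hypOf (V a) (F a)) := by
  unfold hypOf
  apply Poly.pair (by fun_prop)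
  apply Poly.append
  · apply NPC.Poly.map (F := fun _ i => [2 * i, 2 * i + 1]) (Poly.range_length hV)
    fun_prop
  · apply NPC.Poly.map (F := fun a C => (C.map (enc (V a))).dedup) hF
    apply R544.poly_dedup
    apply NPC.Poly.map (F := fun (p : α × Clause) l => enc (V p.1) l) (by fun_prop)
    unfold enc
    have h1 : Poly (fun p : (α × Clause) × Lit => (V p.1.1).idxOf p.2.1) :=
      h371_poly_idxOf (by fun_prop) (by fun_prop)
    fun_prop

end Pool.Agent.Helper650_HSK
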