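import Pool.Agent.Helper650_HSK.Form
import Pool.Agent.Helper650_HSK.Split

/-!
# The formulas are computable in polynomial time
-/

namespace Pool.Agent.Helper650_HSK

open Pool.Agent.NPC
open List (range)

variable {α : Type} [TEnc α]

/-! ### Tools -/

theorem j8_flatMap_const {β γ : Type} [TEnc γ] (l : List β) {f : β → α → List γ}
    (h : ∀ x, NPC.Poly (f x)) : NPC.Poly (fun a => l.flatMap (fun x => f x a)) := by
  induction l with
  | nil => exact NPC.Poly.const _
  | cons x l ih => exact NPC.Poly.append (h x) ih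

theorem j8_map_const {β γ : Type} [TEnc γ] (l : List β) {f : β → α → γ}
    (h : ∀ x, NPC.Poly (f x)) : NPC.Poly (fun a => l.map (fun x => f x a)) := by
  induction l with
  | nil => exact NPC.Poly.const _
  | cons x l ih => exact NPC.Poly.cons (h x) ih

theorem j8_pow {f : α → ℕ} (hf : NPC.Poly f) (n : ℕ) : NPC.Poly (fun a => f a ^ n) := by
  induction n with
  | zero => exact NPC.Poly.const 1
  | succ n ih => exact (NPC.Poly.mul ih hf).congr fun a => by rw [pow_succ]

theorem j8_tupL {β : Type} [TEnc β] {l : α → List β} (hl : NPC.Poly l) (n : ℕ) :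
    NPC.Poly (fun a => tupL (l a) n) := by
  induction n with
  | zero => exact NPC.Poly.const _
  | succ n ih =>
    unfold tupL
    exact NPC.Poly.flatMap (F := fun a x => (tupL (l a) n).map (fun t => x :: t)) hl
      (NPC.Poly.map (F := fun (p : α × β) t => p.2 :: t) (ih.comp (NPC.Poly.fst NPC.Poly.id))
      (NPC.Poly.cons (NPC.Poly.snd (NPC.Poly.fst NPC.Poly.id)) (NPC.Poly.snd NPC.Poly.id)))

theorem j8_dig {p : α → ℕ} (hp : NPC.Poly p) (n : ℕ) :
    ∀ {N : α → ℕ}, NPC.Poly N → NPC.Poly (fun a => dig (p a) n (N a)) := by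
  induction n with
  | zero => intro N _; exact NPC.Poly.const _
  | succ n ih =>
    intro N hN
    unfold dig
    exact NPC.Poly.cons (NPC.Poly.mod hN hp) (ih (NPC.Poly.div hN hp))

theorem j8_hsh {p θ : α → ℕ} (hp : NPC.Poly p) (hθ : NPC.Poly θ) (L : ℕ) :
    ∀ {f : α → ℕ}, NPC.Poly f → NPC.Poly (fun a => hsh (p a) (θ a) L (f a)) := by
  induction L with
  | zero => intro f _; exact NPC.Poly.const _
  | succ L ih =>
    intro f hf
    unfold hsh
    exact NPC.Poly.mod (NPC.Poly.add (NPC.Poly.mul (ih (NPC.Poly.div hf hp)) hθ)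
      (NPC.Poly.mod hf hp)) hp

theorem j8_pre {p z : α → ℕ} (hp : NPC.Poly p) (hz : NPC.Poly z) (R L : ℕ) :
    NPC.Poly (fun a => pre (p a) R L (z a)) := by
  unfold pre
  exact NPC.Poly.div hz (j8_pow hp _)

theorem j8_adr {p v : α → ℕ} {τ : α → List ℕ} (hp : NPC.Poly p) (hτ : NPC.Poly τ)
    (hv : NPC.Poly v) (R g l : ℕ) : NPC.Poly (fun a => adr (p a) R g (τ a) l (v a)) := by
  unfold adr
  refine j8_map_const _ fun e => ?_
  exact j8_hsh hp (NPC.Poly.getD hτ (NPC.Poly.const e) (NPC.Poly.const 0)) _
    (j8_pre hp (NPC.Poly.add hv (NPC.Poly.const 1)) _ _)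

/-- TARGET 1. -/
theorem poly_tup {p : α → ℕ} (hp : UPoly p) (n : ℕ) : NPC.Poly (fun a => tup (p a) n) :=
  j8_tupL hp.range n

/-! ### The lists of variables -/

section Vars

variable {J J' P : α → List ℕ} {p : α → ℕ} {T T' : α → List (List ℕ)}

theorem j8_vS (R : ℕ) (hJ : NPC.Poly J) (hP : NPC.Poly P) : NPC.Poly (fun a =>
    (range R).flatMap fun m => (J a).flatMap fun j => (P a).map fun x => nS j m x) := by
  unfold nS
  fun_prop

theorem j8_vC (R : ℕ) (hJ : NPC.Poly J) : NPC.Poly (fun a =>
    (range (R + 1)).flatMap fun l => (J a).map fun j => nC j l) := by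
  unfold nC
  fun_prop

theorem j8_vT (w g : ℕ) (hP : NPC.Poly P) : NPC.Poly (fun a =>
    (range w).flatMap fun i => (range g).flatMap fun e => (P a).map fun θ => nT i e θ) := by
  unfold nT
  fun_prop

theorem j8_vH (R w g : ℕ) (hJ : NPC.Poly J) (hP : NPC.Poly P) : NPC.Poly (fun a =>
    (range w).flatMap fun i => (range (R + 1)).flatMap fun l => (range g).flatMap fun e =>
    (J a).flatMap fun j => (P a).map fun x => nH i j l e x) := by
  unfold nH
  fun_prop

theorem j8_vR (R : ℕ) (hJ : NPC.Poly J) (hP : NPC.Poly P) : NPC.Poly (fun a =>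
    (range R).flatMap fun l => (range 2).flatMap fun s => (J a).flatMap fun j =>
    (P a).map fun β => nR s j l β) := by
  unfold nR
  fun_prop

theorem j8_vG (R w : ℕ) (hJ : NPC.Poly J) (hP : NPC.Poly P) : NPC.Poly (fun a =>
    (range w).flatMap fun i => (range R).flatMap fun l => (range 2).flatMap fun s =>
    (J a).flatMap fun j => (P a).map fun β => nG i s j l β) := by
  unfold nG
  fun_prop

theorem j8_vA (R w g : ℕ) (hJ : NPC.Poly J) (hP : NPC.Poly P) : NPC.Poly (fun a =>
    (range w).flatMap fun i => (range R).flatMap fun l => (range 2).flatMap fun s =>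
    (range g).flatMap fun e => (J a).flatMap fun j => (P a).flatMap fun β =>
      (P a).map fun z => nA i s j l β e z) := by
  unfold nA
  fun_prop

theorem j8_vN (R w g G : ℕ) (hP : NPC.Poly P) (hT : NPC.Poly T) : NPC.Poly (fun a =>
    (range w).flatMap fun i => (range R).flatMap fun l => (range (G + 1)).flatMap fun t =>
    (range g).flatMap fun e => (P a).flatMap fun x => (T a).map fun π =>
      nN i l t e x π) := by
  unfold nN
  fun_prop

theorem j8_vY (R w : ℕ) (hT : NPC.Poly T) : NPC.Poly (fun a =>
    (range w).flatMap fun i => (range R).flatMap fun l => (T a).map fun c => nY i l c) := by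
  unfold nY
  fun_prop

theorem j8_vD (w d : ℕ) (hT : NPC.Poly T) : NPC.Poly (fun a =>
    (range w).flatMap fun i => (range d).flatMap fun b => (T a).map fun s => nD i b s) := by
  unfold nD
  fun_prop

theorem j8_vL (R w d : ℕ) (hT' : NPC.Poly T') (hT : NPC.Poly T) : NPC.Poly (fun a =>
    (range w).flatMap fun i => (range R).flatMap fun l => (range d).flatMap fun b =>
    (T' a).flatMap fun s => (T a).map fun c => nL i l b s c) := by
  unfold nL
  fun_prop

/-! ### The clauses -/

theorem j8_fS (R : ℕ) (hJ : NPC.Poly J) (hP : NPC.Poly P) : NPC.Poly (fun a =>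
    (range R).flatMap fun m => (J a).map fun j => (P a).map fun x =>
      ((nS j m x, true) : Lit)) := by
  unfold nS
  fun_prop

theorem j8_fT (w g : ℕ) (hP : NPC.Poly P) : NPC.Poly (fun a =>
    (range w).flatMap fun i => (range g).map fun e => (P a).map fun θ =>
      ((nT i e θ, true) : Lit)) := by
  unfold nT
  fun_prop

theorem j8_fH (R w g : ℕ) (hJ : NPC.Poly J) (hP : NPC.Poly P) (hp : NPC.Poly p) :
    NPC.Poly (fun a =>
    (range w).flatMap fun i => (range R).flatMap fun l => (range g).flatMap fun e =>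
    (J a).flatMap fun j => (P a).flatMap fun x => (P a).flatMap fun y =>
      (P a).map fun θ =>
        ([(nH i j l e x, false), (nS j l y, false), (nT i e θ, false),
          (nH i j (l + 1) e ((x * θ + y) % p a), true)] : Clause)) := by
  unfold nH nS nT
  fun_prop

theorem j8_fW (R : ℕ) (Ws : List (List ℕ)) (hJ : NPC.Poly J) (hP : NPC.Poly P) :
    NPC.Poly (fun a =>
    (range R).flatMap fun l => (range 2).flatMap fun s => Ws.flatMap fun W =>
    (J a).flatMap fun j => (P a).map fun β =>
      ((nR s j l β, false) :: W.map (fun i => (nG i s j l β, true)) : Clause)) := by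
  unfold nR nG
  fun_prop

theorem j8_fI (R w g G : ℕ) (hJ : NPC.Poly J) (hP : NPC.Poly P) (hp : NPC.Poly p) :
    NPC.Poly (fun a =>
    (range w).flatMap fun i => (range R).flatMap fun l => (range 2).flatMap fun s =>
    (range g).flatMap fun e => (J a).flatMap fun j => (P a).flatMap fun β =>
      (P a).flatMap fun z0 => (P a).flatMap fun z1 => (P a).map fun z =>
        ([(nG i s j l β, false), (nA i s j l β 0 z0, false), (nA i s j l β 1 z1, false),
          (nA i s j l β e z, false),
          (nN i l 0 e z (z0 :: z1 :: dig (p a) G ((2 * j + s) * p a + β)), true)] : Clause)) := by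
  have h : NPC.Poly (fun x : ℕ × ℕ => dig x.1 G x.2) :=
    j8_dig (NPC.Poly.fst NPC.Poly.id) G (NPC.Poly.snd NPC.Poly.id)
  unfold nG nA nN
  fun_prop

theorem j8_fE (R : ℕ) {k : α → ℕ} (hk : NPC.Poly k) (hp : NPC.Poly p) : NPC.Poly (fun a =>
    (((range R).map (fun m => [(nS 0 m 0, true)]) ++
    (range R).map (fun m => [(nS (k a + 1) m (p a - 1), true)])) : List Clause)) := by
  unfold nS
  fun_prop

theorem j8_fC (R : ℕ) (hJ : NPC.Poly J) (hP : NPC.Poly P) : NPC.Poly (fun a =>
    ((range R).flatMap fun l => (J a).flatMap fun j =>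
    [(nC j (l + 1), false), (nC j l, true)] ::
      (P a).flatMap fun x => ((P a).filter (fun b => decide (b ≠ x))).map fun b =>
        [(nC j (l + 1), false), (nS j l x, false), (nS (j + 1) l b, false)] : List Clause)) := by
  unfold nC nS
  fun_prop

theorem j8_fH0 (w g : ℕ) (hJ : NPC.Poly J) : NPC.Poly (fun a =>
    ((range w).flatMap fun i => (range g).flatMap fun e => (J a).map fun j =>
    [(nH i j 0 e 0, true)] : List Clause)) := by
  unfold nH
  fun_prop

theorem j8_fR (R : ℕ) (hJ : NPC.Poly J) (hP : NPC.Poly P) : NPC.Poly (fun a =>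
    ((range R).flatMap fun l => (J a).flatMap fun j => (P a).flatMap fun β =>
    (((P a).filter (fun x => decide (x < β))).flatMap fun x =>
      [(nS j l x, false), (nC j l, true), (nR 0 j l β, true)] ::
        ((P a).filter (fun b => decide (β < b))).map fun b =>
          [(nS j l x, false), (nS (j + 1) l b, false), (nR 0 j l β, true)]) ++
    ((P a).filter (fun b => decide (β < b))).map fun b =>
      [(nS (j + 1) l b, false), (nC j l, true), (nR 1 j l β, true)] : List Clause)) := by
  unfold nC nS nR
  fun_prop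

theorem j8_fA (R w g : ℕ) (hJ : NPC.Poly J) (hP : NPC.Poly P) (hp : NPC.Poly p) :
    NPC.Poly (fun a =>
    ((range w).flatMap fun i => (range R).flatMap fun l => (range 2).flatMap fun s =>
    (range g).flatMap fun e => (J a).flatMap fun j => (P a).flatMap fun β =>
      (P a).flatMap fun x => (P a).map fun θ =>
        [(nH i (j + s) l e x, false), (nT i e θ, false),
          (nA i s j l β e ((x * θ + β) % p a), true)] : List Clause)) := by
  unfold nH nT nA
  fun_prop

theorem j8_fN (R w g G : ℕ) (hP : NPC.Poly P) :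
    NPC.Poly (fun a =>
    ((range w).flatMap fun i => (range R).flatMap fun l => (range g).flatMap fun e =>
    (range G).flatMap fun t => (tupL (P a) (t + 2)).flatMap fun u => (P a).flatMap fun b =>
      (tupL (P a) (G - 1 - t)).flatMap fun v => (P a).flatMap fun z => (P a).map fun x =>
        [(nN i l t (t + 2) z (u ++ b :: v), false), (nN i l t e x (u ++ b :: v), false),
          (nN i l (t + 1) e x (u ++ z :: v), true)] : List Clause)) := by
  refine j8_flatMap_const _ fun i => ?_
  refine j8_flatMap_const _ fun l => ?_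
  refine j8_flatMap_const _ fun e => ?_
  refine j8_flatMap_const _ fun t => ?_
  have h1 : NPC.Poly (fun l : List ℕ => tupL l (t + 2)) := j8_tupL NPC.Poly.id _
  have h2 : NPC.Poly (fun l : List ℕ => tupL l (G - 1 - t)) := j8_tupL NPC.Poly.id _
  unfold nN
  fun_prop

theorem j8_fO (R w G : ℕ) (hP : NPC.Poly P) (hT : NPC.Poly T) :
    NPC.Poly (fun a =>
    ((range w).flatMap fun i => (range R).flatMap fun l => (T a).flatMap fun π =>
    (P a).map fun x => [(nN i l G 0 x π, false), (nY i l π, false)] : List Clause)) := by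
  unfold nN nY
  fun_prop

theorem j8_fD (w d g' : ℕ) (hT : NPC.Poly T) :
    NPC.Poly (fun a =>
    ((range w).flatMap fun i => (range d).flatMap fun b => (T a).map fun s =>
    (s.zipIdx.map fun q => (nT i (b * g' + q.2) q.1, false)) ++ [(nD i b s, true)] :
      List Clause)) := by
  unfold nT nD
  fun_prop

theorem j8_fL (R w d : ℕ) (hT' : NPC.Poly T') (hT : NPC.Poly T) :
    NPC.Poly (fun a =>
    ((range w).flatMap fun i => (range R).flatMap fun l => (range d).flatMap fun b =>
    (T' a).flatMap fun s => (T a).map fun c =>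
      [(nY i l c, true), (nD i b s, false), (nL i l b s c, true)] : List Clause)) := by
  unfold nY nD nL
  fun_prop

theorem j8_vtx {b : α → ℕ} {l : α → List ℕ} (hl : NPC.Poly l) (hb : NPC.Poly b) :
    NPC.Poly (fun a => vtx (l a) (b a)) := by
  unfold vtx
  have h : NPC.Poly (fun a => (l a).headD 0) :=
    (NPC.Poly.optGetD (NPC.Poly.head? hl) (NPC.Poly.const 0)).congr fun a => by
      cases l a <;> rfl
  fun_prop

theorem j8_fX (R w g d : ℕ) {E : α → List (List ℕ)} {TT : α → List (List (List ℕ))}
    (hp : NPC.Poly p) (hTT : NPC.Poly TT) (hE : NPC.Poly E) :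
    NPC.Poly (fun a =>
    ((E a).flatMap fun e => (range w).flatMap fun i => (TT a).flatMap fun T =>
    (tup R d).map fun ls => (range d).map fun b =>
      (nL i (ls.getD b 0) b (T.getD b []) (adr (p a) R g T.flatten (ls.getD b 0) (vtx e b)),
        false) : List Clause)) := by
  refine NPC.Poly.flatMap (F := fun (a : α) (e : List ℕ) =>
    ((range w).flatMap fun i => (TT a).flatMap fun T =>
    (tup R d).map fun ls => (range d).map fun b =>
      (nL i (ls.getD b 0) b (T.getD b []) (adr (p a) R g T.flatten (ls.getD b 0) (vtx e b)),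
        false) : List Clause)) hE ?_
  refine j8_flatMap_const (range w) (f := fun i (x : α × List ℕ) =>
    ((TT x.1).flatMap fun T => (tup R d).map fun ls => (range d).map fun b =>
      (nL i (ls.getD b 0) b (T.getD b [])
        (adr (p x.1) R g T.flatten (ls.getD b 0) (vtx x.2 b)), false) : List Clause))
    fun i => ?_
  refine NPC.Poly.flatMap (F := fun (x : α × List ℕ) (T : List (List ℕ)) =>
    ((tup R d).map fun ls => (range d).map fun b =>
      (nL i (ls.getD b 0) b (T.getD b []) (adr (p x.1) R g T.flatten (ls.getD b 0) (vtx x.2 b)),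
        false) : List Clause)) (hTT.comp (NPC.Poly.fst NPC.Poly.id)) ?_
  refine j8_map_const (tup R d) (f := fun ls (x : (α × List ℕ) × List (List ℕ)) =>
    ((range d).map fun b => (nL i (ls.getD b 0) b (x.2.getD b [])
      (adr (p x.1.1) R g x.2.flatten (ls.getD b 0) (vtx x.1.2 b)), false) : Clause))
    fun ls => ?_
  refine j8_map_const (range d) (f := fun b (x : (α × List ℕ) × List (List ℕ)) =>
    ((nL i (ls.getD b 0) b (x.2.getD b [])
      (adr (p x.1.1) R g x.2.flatten (ls.getD b 0) (vtx x.1.2 b)), false) : Lit)) fun b => ?_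
  have h1 : NPC.Poly (fun x : (α × List ℕ) × List (List ℕ) =>
      adr (p x.1.1) R g x.2.flatten (ls.getD b 0) (vtx x.1.2 b)) :=
    j8_adr (by fun_prop) (by fun_prop)
      (j8_vtx (by fun_prop) (NPC.Poly.const _)) _ _ _
  unfold nL
  fun_prop

theorem j8_fU (w g : ℕ) {σ : α → List (List ℕ)} (hσ : NPC.Poly σ) :
    NPC.Poly (fun a =>
    ((range w).flatMap fun i => (range g).map fun e =>
      [(nT i e (((σ a).getD i []).getD e 0), true)] : List Clause)) := by
  unfold nT
  fun_prop

theorem j8_fY (R w g d : ℕ) {E σ : α → List (List ℕ)}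
    (hp : NPC.Poly p) (hσ : NPC.Poly σ) (hE : NPC.Poly E) :
    NPC.Poly (fun a =>
    ((E a).flatMap fun e => (range w).flatMap fun i => (tup R d).map fun ls =>
      (range d).map fun b =>
    (nY i (ls.getD b 0) (adr (p a) R g ((σ a).getD i []) (ls.getD b 0) (vtx e b)), true) :
      List Clause)) := by
  refine NPC.Poly.flatMap (F := fun a e => (range w).flatMap fun i => (tup R d).map fun ls =>
      (range d).map fun b =>
    (nY i (ls.getD b 0) (adr (p a) R g ((σ a).getD i []) (ls.getD b 0) (vtx e b)), true)) hE ?_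
  refine j8_flatMap_const _ fun i => ?_
  refine j8_map_const _ fun ls => ?_
  refine j8_map_const _ fun b => ?_
  have h1 : NPC.Poly (fun x : α × List ℕ =>
      adr (p x.1) R g ((σ x.1).getD i []) (ls.getD b 0) (vtx x.2 b)) :=
    j8_adr (by fun_prop) (by fun_prop)
      (j8_vtx (by fun_prop) (NPC.Poly.const _)) _ _ _
  unfold nY
  fun_prop

end Vars

/-! ### The formulas -/

theorem j8_vBase (R w g G : ℕ) {k p : α → ℕ} (hk : UPoly k) (hp : UPoly p) :
    NPC.Poly (fun a => vBase R w g G (k a) (p a)) := by
  have hk1 : NPC.Poly (fun a => range (k a + 1)) := (hk.add (UPoly.const 1)).range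
  have hk2 : NPC.Poly (fun a => range (k a + 2)) := (hk.add (UPoly.const 2)).range
  have hP := hp.range
  have hT := j8_tupL hP g
  exact ((((((((j8_vS R hk2 hP).append (j8_vC R hk1)).append (j8_vT w g hP)).append
    (j8_vH R w g hk2 hP)).append (j8_vR R hk1 hP)).append (j8_vG R w hk1 hP)).append
    (j8_vA R w g hk1 hP)).append (j8_vN R w g G hP hT)).append (j8_vY R w hT)

theorem j8_wideB (R w g G : ℕ) (Ws : List (List ℕ)) {k p : α → ℕ} (hk : UPoly k)
    (hp : UPoly p) : NPC.Poly (fun a => wideB R w g G Ws (k a) (p a)) := by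
  have hk1 : NPC.Poly (fun a => range (k a + 1)) := (hk.add (UPoly.const 1)).range
  have hk2 : NPC.Poly (fun a => range (k a + 2)) := (hk.add (UPoly.const 2)).range
  have hP := hp.range
  exact (((j8_fS R hk2 hP).append (j8_fH R w g hk2 hP hp.toPoly)).append
    (j8_fW R Ws hk1 hP)).append (j8_fI R w g G hk1 hP hp.toPoly)

theorem j8_narrowB (R w g G : ℕ) {k p : α → ℕ} (hk : UPoly k)
    (hp : UPoly p) : NPC.Poly (fun a => narrowB R w g G (k a) (p a)) := by
  have hk1 : NPC.Poly (fun a => range (k a + 1)) := (hk.add (UPoly.const 1)).range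
  have hk2 : NPC.Poly (fun a => range (k a + 2)) := (hk.add (UPoly.const 2)).range
  have hP := hp.range
  have hT := j8_tupL hP g
  exact ((((((j8_fE R hk.toPoly hp.toPoly).append (j8_fC R hk1 hP)).append
    (j8_fH0 w g hk2)).append (j8_fR R hk1 hP)).append (j8_fA R w g hk1 hP hp.toPoly)).append
    (j8_fN R w g G hP)).append (j8_fO R w G hP hT)

theorem j8_wideA (R w g G : ℕ) (Ws : List (List ℕ)) (d g' : ℕ) {k p : α → ℕ} (hk : UPoly k)
    (hp : UPoly p) : NPC.Poly (fun a => wideA R w g G Ws d g' (k a) (p a)) :=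
  ((j8_wideB R w g G Ws hk hp).append (j8_fT w g hp.range)).append
    (j8_fD w d g' (j8_tupL hp.range g'))

/-- TARGET 2. -/
theorem poly_formA (R w g G : ℕ) (Ws : List (List ℕ)) (d g' : ℕ) {k p : α → ℕ}
    {E : α → List (List ℕ)} (hk : UPoly k) (hp : UPoly p) (hE : NPC.Poly E) :
    NPC.Poly (fun a => formA R w g G Ws d g' (k a) (p a) (E a)) ∧
      NPC.Poly (fun a => varsA R w g G Ws d g' (k a) (p a)) := by
  have h1 := poly_split_zvars (j8_wideA R w g G Ws d g' hk hp)
  have hT := j8_tupL hp.range g
  have hT' := j8_tupL hp.range g'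
  constructor
  · exact h1.1.append (((j8_narrowB R w g G hk hp).append (j8_fL R w d hT' hT)).append
      (j8_fX R w g d hp.toPoly (j8_tupL hT' d) hE))
  · exact (((j8_vBase R w g G hk hp).append (j8_vD w d hT')).append
      (j8_vL R w d hT' hT)).append h1.2

/-- TARGET 3. -/
theorem poly_formB (R w g G : ℕ) (Ws : List (List ℕ)) (d : ℕ) {k p : α → ℕ}
    {E σ : α → List (List ℕ)} (hk : UPoly k) (hp : UPoly p) (hσ : NPC.Poly σ)
    (hE : NPC.Poly E) :
    NPC.Poly (fun a => formB R w g G Ws d (k a) (p a) (σ a) (E a)) ∧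
      NPC.Poly (fun a => varsB R w g G Ws (k a) (p a)) := by
  have h1 := poly_split_zvars (j8_wideB R w g G Ws hk hp)
  constructor
  · exact h1.1.append (((j8_narrowB R w g G hk hp).append (j8_fU w g hσ)).append
      (j8_fY R w g d hp.toPoly hσ hE))
  · exact (j8_vBase R w g G hk hp).append h1.2

/-! ### Lengths -/

theorem j8_sz_replicate (n : ℕ) : sz (List.replicate n ()) = 2 * n + 1 := by
  induction n with
  | zero => rfl
  | succ n ih =>
    rw [List.replicate_succ, sz_list_cons, ih, sz_unit]
    omega

theorem j8_length_fX (R w g d g' p : ℕ) (E : List (List ℕ)) :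
    (fX R w g d g' p E).length = E.length * (w * ((p ^ g') ^ d * R ^ d)) := by
  unfold fX
  refine length_flatMap_const _ _ _ fun e _ => ?_
  rw [length_flatMap_const _ _ ((p ^ g') ^ d * R ^ d), List.length_range]
  intro i _
  rw [length_flatMap_const _ _ (R ^ d), length_tupL, length_tup]
  intro T _
  rw [List.length_map, length_tup]

theorem j8_length_fY (R w g d p : ℕ) (σ E : List (List ℕ)) :
    (fY R w g d p σ E).length = E.length * (w * R ^ d) := by
  unfold fY
  refine length_flatMap_const _ _ _ fun e _ => ?_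
  rw [length_flatMap_const _ _ (R ^ d), List.length_range]
  intro i _
  rw [List.length_map, length_tup]

theorem j8_length_fU (w g : ℕ) (σ : List (List ℕ)) : (fU w g σ).length = w * g := by
  unfold fU
  rw [length_flatMap_const _ _ g, List.length_range]
  intro i _
  rw [List.length_map, List.length_range]

theorem j8_bound {β γ : Type} [TEnc β] [TEnc γ] {f : List Unit × List Unit × List Unit → List β}
    {f' : List Unit × List Unit × List Unit → List γ} (hf : NPC.Poly f) (hf' : NPC.Poly f') :
    ∃ h : Polynomial ℕ, ∀ k p e : ℕ,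
      (f (List.replicate k (), List.replicate p (), List.replicate e ())).length +
      (f' (List.replicate k (), List.replicate p (), List.replicate e ())).length ≤
        h.eval (k + p + e) := by
  obtain ⟨q, hq⟩ := hf.sz_le
  obtain ⟨q', hq'⟩ := hf'.sz_le
  refine ⟨(q + q').comp (Polynomial.C 2 * Polynomial.X + Polynomial.C 5), fun k p e => ?_⟩
  set x : List Unit × List Unit × List Unit :=
    (List.replicate k (), List.replicate p (), List.replicate e ()) with hx
  have h1 : sz x = 2 * (k + p + e) + 5 := by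
    rw [hx, sz_pair, sz_pair, j8_sz_replicate, j8_sz_replicate, j8_sz_replicate]
    ring
  have h2 := hq x
  have h3 := hq' x
  have h4 := length_lt_sz (f x)
  have h5 := length_lt_sz (f' x)
  rw [h1] at h2 h3
  simp only [Polynomial.eval_comp, Polynomial.eval_add, Polynomial.eval_mul, Polynomial.eval_C,
    Polynomial.eval_X]
  omega

/-- TARGET 4 (number of edges and vertices, for the size of the output). -/
theorem length_formA_le (R w g G : ℕ) (Ws : List (List ℕ)) (d g' : ℕ) :
    ∃ h : Polynomial ℕ, ∀ (k p : ℕ) (E : List (List ℕ)),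
      (formA R w g G Ws d g' k p E).length + (varsA R w g G Ws d g' k p).length ≤
        h.eval (k + p + E.length) := by
  have h1 : UPoly (fun x : List Unit × List Unit × List Unit => x.1.length) :=
    UPoly.length (by fun_prop)
  have h2 : UPoly (fun x : List Unit × List Unit × List Unit => x.2.1.length) :=
    UPoly.length (by fun_prop)
  have h3 : NPC.Poly (fun x : List Unit × List Unit × List Unit =>
      x.2.2.map (fun _ => ([] : List ℕ))) := by fun_prop
  obtain ⟨h4, h5⟩ := poly_formA R w g G Ws d g' h1 h2 h3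
  obtain ⟨h, hh⟩ := j8_bound h4 h5
  refine ⟨h, fun k p E => ?_⟩
  refine le_trans (le_of_eq ?_) (hh k p E.length)
  simp only [List.length_replicate]
  congr 1
  simp only [formA, narrowA, List.length_append, j8_length_fX, List.length_map,
    List.length_replicate]

/-- TARGET 5. -/
theorem length_formB_le (R w g G : ℕ) (Ws : List (List ℕ)) (d : ℕ) :
    ∃ h : Polynomial ℕ, ∀ (k p : ℕ) (σ E : List (List ℕ)),
      (formB R w g G Ws d k p σ E).length + (varsB R w g G Ws k p).length ≤
        h.eval (k + p + E.length) := by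
  have h1 : UPoly (fun x : List Unit × List Unit × List Unit => x.1.length) :=
    UPoly.length (by fun_prop)
  have h2 : UPoly (fun x : List Unit × List Unit × List Unit => x.2.1.length) :=
    UPoly.length (by fun_prop)
  have h3 : NPC.Poly (fun x : List Unit × List Unit × List Unit =>
      x.2.2.map (fun _ => ([] : List ℕ))) := by fun_prop
  obtain ⟨h4, h5⟩ := poly_formB R w g G Ws d (σ := fun _ => []) h1 h2 (NPC.Poly.const _) h3
  obtain ⟨h, hh⟩ := j8_bound h4 h5
  refine ⟨h, fun k p σ E => ?_⟩
  refine le_trans (le_of_eq ?_) (hh k p E.length)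
  simp only [List.length_replicate]
  congr 1
  simp only [formB, narrowB', List.length_append, j8_length_fY, j8_length_fU, List.length_map,
    List.length_replicate]

end Pool.Agent.Helper650_HSK
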