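import Pool.Agent.Helper650_HSK.Defs
import Pool.Agent.H671R2.PolyAuto

/-!
# Choice of the prime and the exponents, search for the prime, size of an instance
-/

namespace Pool.Agent.Helper650_HSK

/-- TARGET 1. -/
theorem exists_prime_param (h b : ℕ) (hh : 1 ≤ h) (hb : 2 ≤ b) :
    ∃ C : ℕ, ∀ k : ℕ, ∃ p : ℕ, p.Prime ∧ b ≤ p ∧ 2 * (k + 2) ≤ p ^ h ∧ p ^ h ≤ C * (k + 1) := by
  classical
  refine ⟨(4 * b) ^ h * 4, fun k => ?_⟩
  have hex : ∃ m : ℕ, b ≤ m ∧ 2 * (k + 2) ≤ m ^ h := by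
    refine ⟨b + 2 * (k + 2), by omega, ?_⟩
    calc 2 * (k + 2) ≤ b + 2 * (k + 2) := by omega
      _ = (b + 2 * (k + 2)) ^ 1 := by ring
      _ ≤ (b + 2 * (k + 2)) ^ h := Nat.pow_le_pow_right (by omega) hh
  obtain ⟨hm1, hm2⟩ := Nat.find_spec hex
  have hmin := fun n (hn : n < Nat.find hex) => Nat.find_min hex hn
  set m := Nat.find hex with hm
  obtain ⟨p, hp, hmp, hp2⟩ := Nat.exists_prime_lt_and_le_two_mul m (by omega)
  refine ⟨p, hp, by omega, hm2.trans (Nat.pow_le_pow_left (by omega) h), ?_⟩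
  have h1 : p ^ h ≤ (2 * m) ^ h := Nat.pow_le_pow_left hp2 h
  rcases Nat.eq_or_lt_of_le hm1 with hbm | hbm
  · calc p ^ h ≤ (2 * m) ^ h := h1
      _ ≤ (4 * b) ^ h := Nat.pow_le_pow_left (by omega) h
      _ = (4 * b) ^ h * 1 := by ring
      _ ≤ (4 * b) ^ h * (4 * (k + 1)) := Nat.mul_le_mul_left _ (by omega)
      _ = (4 * b) ^ h * 4 * (k + 1) := by ring
  · have h2 := hmin (m - 1) (by omega)
    have h3 : (m - 1) ^ h < 2 * (k + 2) := by
      by_contra hcon
      exact h2 ⟨by omega, by omega⟩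
    calc p ^ h ≤ (2 * m) ^ h := h1
      _ ≤ (4 * (m - 1)) ^ h := Nat.pow_le_pow_left (by omega) h
      _ = 4 ^ h * (m - 1) ^ h := by rw [mul_pow]
      _ ≤ 4 ^ h * (4 * (k + 1)) := Nat.mul_le_mul_left _ (by omega)
      _ ≤ (4 * b) ^ h * (4 * (k + 1)) := Nat.mul_le_mul_right _ (Nat.pow_le_pow_left (by omega) h)
      _ = (4 * b) ^ h * 4 * (k + 1) := by ring

theorem exponent_aux (h u : ℕ) (e : ℝ) (hh : 1 ≤ h) (hue : (u : ℝ) ≤ e * h) :
    ∀ C C' : ℕ, ∃ D : ℝ, ∀ N p k : ℕ, p ^ h ≤ C' * (k + 1) →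
      N ≤ C * p ^ u → (N : ℝ) ≤ D * ((k : ℝ) + 1) ^ e := by
  intro C C'
  refine ⟨(C : ℝ) * (C' : ℝ) ^ ((u : ℝ) / h), fun N p k h1 h2 => ?_⟩
  have hh0 : (0 : ℝ) < h := by exact_mod_cast hh
  have h1' : (p : ℝ) ^ h ≤ (C' : ℝ) * ((k : ℝ) + 1) := by exact_mod_cast h1
  have h2' : (N : ℝ) ≤ (C : ℝ) * (p : ℝ) ^ u := by exact_mod_cast h2
  have hs : 0 ≤ (u : ℝ) / h := by positivity
  have hk : (1 : ℝ) ≤ (k : ℝ) + 1 := by
    have : (0 : ℝ) ≤ k := Nat.cast_nonneg k
    linarith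
  have h3 : (p : ℝ) ^ u = ((p : ℝ) ^ h) ^ ((u : ℝ) / h) := by
    rw [← Real.rpow_natCast (p : ℝ) h, ← Real.rpow_mul (Nat.cast_nonneg p),
      mul_div_cancel₀ _ hh0.ne', Real.rpow_natCast]
  calc (N : ℝ) ≤ (C : ℝ) * (p : ℝ) ^ u := h2'
    _ = (C : ℝ) * ((p : ℝ) ^ h) ^ ((u : ℝ) / h) := by rw [h3]
    _ ≤ (C : ℝ) * ((C' : ℝ) * ((k : ℝ) + 1)) ^ ((u : ℝ) / h) := by
        refine mul_le_mul_of_nonneg_left ?_ (Nat.cast_nonneg C)
        exact Real.rpow_le_rpow (by positivity) h1' hs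
    _ = (C : ℝ) * (C' : ℝ) ^ ((u : ℝ) / h) * ((k : ℝ) + 1) ^ ((u : ℝ) / h) := by
        rw [Real.mul_rpow (Nat.cast_nonneg C') (by linarith)]; ring
    _ ≤ (C : ℝ) * (C' : ℝ) ^ ((u : ℝ) / h) * ((k : ℝ) + 1) ^ e := by
        refine mul_le_mul_of_nonneg_left ?_ (by positivity)
        refine Real.rpow_le_rpow_of_exponent_le hk ?_
        rw [div_le_iff₀ hh0]; exact hue

/-- TARGET 2. For `d ≥ 1` and `ε > 0` there is `g' ≥ 2` such that, with `g = d * g'` (at least `4`),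
a bound by `C * p ^ (g + g')` gives the exponent `1 + 1 / d + ε` in terms of `k`. -/
theorem exists_exponent_A (d : ℕ) (hd : 3 ≤ d) (ε : ℝ) (hε : 0 < ε) :
    ∃ g' : ℕ, 2 ≤ g' ∧ ∀ C C' : ℕ, ∃ D : ℝ, ∀ N p k : ℕ, p ^ (d * g' - 3) ≤ C' * (k + 1) →
      N ≤ C * p ^ (d * g' + g') → (N : ℝ) ≤ D * ((k : ℝ) + 1) ^ (1 + 1 / (d : ℝ) + ε) := by
  obtain ⟨n, hn⟩ := exists_nat_ge (3 * (1 + 1 / (d : ℝ) + ε) / (ε * d))
  have hd0 : (3 : ℝ) ≤ d := by exact_mod_cast hd
  refine ⟨n + 2, by omega, exponent_aux _ _ _ ?_ ?_⟩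
  · have : 3 * 2 ≤ d * (n + 2) := Nat.mul_le_mul hd (by omega)
    omega
  · have h6 : 3 ≤ d * (n + 2) := by
      have : 3 * 2 ≤ d * (n + 2) := Nat.mul_le_mul hd (by omega)
      omega
    rw [Nat.cast_sub h6]
    push_cast
    have hed : 0 < ε * d := by positivity
    rw [div_le_iff₀ hed] at hn
    have hid : (1 / (d : ℝ)) * d = 1 := by field_simp
    have h7 : (1 + 1 / (d : ℝ) + ε) * ((d : ℝ) * ((n : ℝ) + 2) - 3)
        = d * (n + 2) + (n + 2) + (ε * d * (n + 2) - 3 * (1 + 1 / (d : ℝ) + ε)) := by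
      have : (1 / (d : ℝ)) * (d * ((n : ℝ) + 2)) = n + 2 := by rw [← mul_assoc, hid, one_mul]
      linear_combination this
    rw [h7]
    have h8 : 0 ≤ ε * d * 2 := by positivity
    nlinarith [hn, h8]

/-- TARGET 3. -/
theorem exists_exponent_B (ε : ℝ) (hε : 0 < ε) :
    ∃ g : ℕ, 4 ≤ g ∧ ∀ C C' : ℕ, ∃ D : ℝ, ∀ N p k : ℕ, p ^ (g - 3) ≤ C' * (k + 1) →
      N ≤ C * p ^ (g + 2) → (N : ℝ) ≤ D * ((k : ℝ) + 1) ^ (1 + ε) := by
  obtain ⟨n, hn⟩ := exists_nat_ge ((5 + 3 * ε) / ε)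
  refine ⟨n + 4, by omega, exponent_aux _ _ _ (by omega) ?_⟩
  rw [Nat.cast_sub (by omega : 3 ≤ n + 4)]
  push_cast
  rw [div_le_iff₀ hε] at hn
  nlinarith [hn, hε]



open Pool.Agent.NPC




/-- Primality test. -/
def isP (p : ℕ) : Bool :=
  decide (2 ≤ p) && (List.range p).all (fun m => decide (m < 2) || decide (p % m ≠ 0))

/-- Search for the prime. -/
def findP (C h b k : ℕ) : ℕ :=
  ((List.range (C * (k + 1) + 1)).filter (fun p => isP p && (decide (b ≤ p) &&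
    (decide (2 * (k + 2) ≤ p ^ h) && decide (p ^ h ≤ C * (k + 1)))))).headD 0

theorem isP_iff (p : ℕ) : isP p = true ↔ p.Prime := by
  unfold isP
  rw [Nat.prime_def_lt', Bool.and_eq_true, decide_eq_true_iff, List.all_eq_true]
  constructor
  · rintro ⟨h1, h2⟩
    refine ⟨h1, fun m hm hmp hd => ?_⟩
    have h3 := h2 m (List.mem_range.2 hmp)
    rw [Bool.or_eq_true, decide_eq_true_iff, decide_eq_true_iff] at h3
    rcases h3 with h3 | h3
    · omega
    · exact h3 (Nat.mod_eq_zero_of_dvd hd)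
  · rintro ⟨h1, h2⟩
    refine ⟨h1, fun m hm => ?_⟩
    rw [Bool.or_eq_true, decide_eq_true_iff, decide_eq_true_iff]
    by_cases hm2 : m < 2
    · exact Or.inl hm2
    · right
      intro h3
      exact h2 m (not_lt.1 hm2) (List.mem_range.1 hm) (Nat.dvd_of_mod_eq_zero h3)

theorem headD_mem {l : List ℕ} (h : l ≠ []) : l.headD 0 ∈ l := by
  cases l with
  | nil => exact absurd rfl h
  | cons a l => simp

/-- TARGET 1. -/
theorem findP_spec {C h b k : ℕ} (hh : 1 ≤ h)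
    (hex : ∃ p : ℕ, p.Prime ∧ b ≤ p ∧ 2 * (k + 2) ≤ p ^ h ∧ p ^ h ≤ C * (k + 1)) :
    (findP C h b k).Prime ∧ b ≤ findP C h b k ∧ 2 * (k + 2) ≤ findP C h b k ^ h ∧
      findP C h b k ^ h ≤ C * (k + 1) := by
  obtain ⟨p, hp, h1, h2, h3⟩ := hex
  have hple : p ≤ p ^ h := Nat.le_self_pow (by omega) p
  have hmem : findP C h b k ∈ (List.range (C * (k + 1) + 1)).filter (fun p => isP p &&
      (decide (b ≤ p) && (decide (2 * (k + 2) ≤ p ^ h) && decide (p ^ h ≤ C * (k + 1))))) := by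
    apply headD_mem
    apply List.ne_nil_of_mem (a := p)
    rw [List.mem_filter, List.mem_range]
    refine ⟨by omega, ?_⟩
    simp only [Bool.and_eq_true, decide_eq_true_iff]
    exact ⟨(isP_iff p).2 hp, h1, h2, h3⟩
  have h4 := (List.mem_filter.1 hmem).2
  simp only [Bool.and_eq_true, decide_eq_true_iff] at h4
  exact ⟨(isP_iff _).1 h4.1, h4.2.1, h4.2.2.1, h4.2.2.2⟩

/-- TARGET 2. -/
theorem findP_le (C h b k : ℕ) : findP C h b k ≤ C * (k + 1) := by
  unfold findP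
  generalize hl : (List.range (C * (k + 1) + 1)).filter (fun p => isP p &&
      (decide (b ≤ p) && (decide (2 * (k + 2) ≤ p ^ h) && decide (p ^ h ≤ C * (k + 1))))) = l
  by_cases h0 : l = []
  · rw [h0]
    simp
  · have h1 := headD_mem h0
    rw [← hl] at h1
    have h2 := List.mem_range.1 (List.mem_filter.1 h1).1
    rw [hl] at h2
    omega

theorem poly_powc {α : Type} [TEnc α] {f : α → ℕ} (hf : Poly f) : ∀ h : ℕ, Poly (fun a => f a ^ h)
  | 0 => by simpa using NPC.Poly.const 1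
  | h + 1 => by
    simp only [pow_succ]
    exact Poly.mul (poly_powc hf h) hf

theorem poly_isP {α : Type} [TEnc α] {f : α → ℕ} (hf : UPoly f) : Poly (fun a => isP (f a)) := by
  unfold isP
  have h1 : Poly f := hf.toPoly
  have h2 : Poly (fun a => List.range (f a)) := hf.range
  fun_prop

/-- TARGET 3. -/
theorem uPoly_findP {α : Type} [TEnc α] {k : α → ℕ} (C h b : ℕ) (hk : UPoly k) :
    UPoly (fun a => findP C h b (k a)) := by
  have hu : UPoly (fun a => C * (k a + 1)) := (UPoly.const C).mul (hk.add (UPoly.const 1))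
  refine UPoly.of_le ?_ hu (fun a => findP_le C h b (k a))
  have hr : Poly (fun a => List.range (C * (k a + 1) + 1)) := (hu.add (UPoly.const 1)).range
  have hkp : Poly k := hk.toPoly
  -- the primality test on elements of the list: numbers bounded in unary
  have hq : Poly (fun x : α × ℕ => (isP (min x.2 (C * (k x.1 + 1))) && (decide (b ≤ x.2) &&
      (decide (2 * (k x.1 + 2) ≤ x.2 ^ h) && decide (x.2 ^ h ≤ C * (k x.1 + 1)))))) := by
    have hs : Poly (fun x : α × ℕ => x.2) := Poly.snd Poly.id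
    have hp1 : Poly (fun x : α × ℕ => isP (min x.2 (C * (k x.1 + 1)))) :=
      poly_isP (R544.uPoly_min hs (hu.comp (Poly.fst Poly.id)))
    have hk1 : Poly (fun x : α × ℕ => k x.1) := hkp.comp (Poly.fst Poly.id)
    have hpow : Poly (fun x : α × ℕ => x.2 ^ h) := poly_powc hs h
    fun_prop
  have hf := Poly.filter (p := fun a n => (isP (min n (C * (k a + 1))) && (decide (b ≤ n) &&
      (decide (2 * (k a + 2) ≤ n ^ h) && decide (n ^ h ≤ C * (k a + 1)))))) hr hq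
  have hh := Poly.head? hf
  refine (Poly.optGetD hh (NPC.Poly.const 0)).congr fun a => ?_
  unfold findP
  rw [List.headD_eq_head?_getD]
  congr 2
  apply List.filter_congr
  intro n hn
  have : n ≤ C * (k a + 1) := by
    have := List.mem_range.1 hn
    omega
  rw [min_eq_left this]

/-- TARGET 4: the length of the code of a hypergraph instance with edges of size at most `d` is
bounded by a polynomial in the numbers of vertices and edges and the parameter. -/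
theorem length_bits_le (d : ℕ) : ∃ h : Polynomial ℕ, ∀ x : Inst, IsHyp d x.1 →
    (bits x).length ≤ h.eval (x.1.1 + x.1.2.length + x.2) := by
  have hnat : ∀ n : ℕ, sz n ≤ 4 * n + 1 := fun n =>
    (sz_nat_le n).trans (by have := NPC.Poly.size_le_self n; omega)
  refine ⟨(Polynomial.C 4 * Polynomial.X + Polynomial.C 1) +
    (Polynomial.X * (Polynomial.C d * (Polynomial.C 4 * Polynomial.X + Polynomial.C 2) +
      Polynomial.C 2) + Polynomial.C 1) +
    Polynomial.C 1 + (Polynomial.C 4 * Polynomial.X + Polynomial.C 1) + Polynomial.C 1, ?_⟩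
  rintro ⟨⟨n, E⟩, k⟩ hx
  simp only [Polynomial.eval_add, Polynomial.eval_mul, Polynomial.eval_C, Polynomial.eval_X]
  set N := n + E.length + k with hN
  rw [bits_length, sz_pair, sz_pair]
  have h1 : sz n ≤ 4 * N + 1 := (hnat n).trans (by omega)
  have h2 : sz k ≤ 4 * N + 1 := (hnat k).trans (by omega)
  have h3 : sz E ≤ N * (d * (4 * N + 2) + 2) + 1 := by
    have h4 : ∀ e ∈ E, sz e ≤ d * (4 * N + 2) + 1 := by
      intro e he
      obtain ⟨_, _, hed, hev⟩ := hx e he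
      refine (sz_le_length_mul e (4 * N + 1) fun v hv => ?_).trans ?_
      · have h5 : v < n := hev v hv
        exact (hnat v).trans (by omega)
      · have : e.length * (4 * N + 1 + 1) ≤ d * (4 * N + 2) := Nat.mul_le_mul_right _ hed
        omega
    refine (sz_le_length_mul E _ h4).trans ?_
    have : E.length * (d * (4 * N + 2) + 1 + 1) ≤ N * (d * (4 * N + 2) + 2) :=
      Nat.mul_le_mul_right _ (by omega)
    omega
  omega

end Pool.Agent.Helper650_HSK
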