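import Pool.Agent.Helper650_HSK.Form
import Pool.Agent.Helper650_HSK.Split

/-!
# Variables and widths of the clauses, number of variables
-/

namespace Pool.Agent.Helper650_HSK

open List (range)

/-! ### Membership in the lists of variables -/

theorem V1_mem_vS {R k p m j a : ℕ} (h1 : m < R) (h2 : j < k + 2) (h3 : a < p) :
    nS j m a ∈ vS R k p := by
  simp only [vS, List.mem_flatMap, List.mem_map, List.mem_range]
  exact ⟨m, h1, j, h2, a, h3, rfl⟩

theorem V1_mem_vC {R k j l : ℕ} (h1 : l < R + 1) (h2 : j < k + 1) : nC j l ∈ vC R k := by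
  simp only [vC, List.mem_flatMap, List.mem_map, List.mem_range]
  exact ⟨l, h1, j, h2, rfl⟩

theorem V1_mem_vT {w g p i e θ : ℕ} (h1 : i < w) (h2 : e < g) (h3 : θ < p) :
    nT i e θ ∈ vT w g p := by
  simp only [vT, List.mem_flatMap, List.mem_map, List.mem_range]
  exact ⟨i, h1, e, h2, θ, h3, rfl⟩

theorem V1_mem_vH {R w g k p i j l e x : ℕ} (h1 : i < w) (h2 : j < k + 2) (h3 : l < R + 1)
    (h4 : e < g) (h5 : x < p) : nH i j l e x ∈ vH R w g k p := by
  simp only [vH, List.mem_flatMap, List.mem_map, List.mem_range]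
  exact ⟨i, h1, l, h3, e, h4, j, h2, x, h5, rfl⟩

theorem V1_mem_vR {R k p s j l β : ℕ} (h1 : s < 2) (h2 : j < k + 1) (h3 : l < R)
    (h4 : β < p) : nR s j l β ∈ vR R k p := by
  simp only [vR, List.mem_flatMap, List.mem_map, List.mem_range]
  exact ⟨l, h3, s, h1, j, h2, β, h4, rfl⟩

theorem V1_mem_vG {R w k p i s j l β : ℕ} (h0 : i < w) (h1 : s < 2) (h2 : j < k + 1)
    (h3 : l < R) (h4 : β < p) : nG i s j l β ∈ vG R w k p := by
  simp only [vG, List.mem_flatMap, List.mem_map, List.mem_range]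
  exact ⟨i, h0, l, h3, s, h1, j, h2, β, h4, rfl⟩

theorem V1_mem_vA {R w g k p i s j l β e z : ℕ} (h0 : i < w) (h1 : s < 2) (h2 : j < k + 1)
    (h3 : l < R) (h4 : β < p) (h5 : e < g) (h6 : z < p) :
    nA i s j l β e z ∈ vA R w g k p := by
  simp only [vA, List.mem_flatMap, List.mem_map, List.mem_range]
  exact ⟨i, h0, l, h3, s, h1, e, h5, j, h2, β, h4, z, h6, rfl⟩

theorem V1_mem_vN {R w g G p i l t e x : ℕ} {π : List ℕ} (h0 : i < w) (h1 : l < R)
    (h2 : t < G + 1) (h3 : e < g) (h4 : x < p) (h5 : π ∈ tup p g) :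
    nN i l t e x π ∈ vN R w g G p := by
  simp only [vN, List.mem_flatMap, List.mem_map, List.mem_range]
  exact ⟨i, h0, l, h1, t, h2, e, h3, x, h4, π, h5, rfl⟩

theorem V1_mem_vY {R w g p i l : ℕ} {c : List ℕ} (h0 : i < w) (h1 : l < R)
    (h5 : c ∈ tup p g) : nY i l c ∈ vY R w g p := by
  simp only [vY, List.mem_flatMap, List.mem_map, List.mem_range]
  exact ⟨i, h0, l, h1, c, h5, rfl⟩

theorem V1_mem_vD {w d g' p i b : ℕ} {s : List ℕ} (h0 : i < w) (h1 : b < d)
    (h5 : s ∈ tup p g') : nD i b s ∈ vD w d g' p := by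
  simp only [vD, List.mem_flatMap, List.mem_map, List.mem_range]
  exact ⟨i, h0, b, h1, s, h5, rfl⟩

theorem V1_mem_vL {R w g d g' p i l b : ℕ} {s c : List ℕ} (h0 : i < w) (h1 : l < R) (h2 : b < d)
    (h3 : s ∈ tup p g') (h4 : c ∈ tup p g) : nL i l b s c ∈ vL R w g d g' p := by
  simp only [vL, List.mem_flatMap, List.mem_map, List.mem_range]
  exact ⟨i, h0, l, h1, b, h2, s, h3, c, h4, rfl⟩

/-- All variables of the clauses of `F` are in `V`. -/
def V1In (V : List Name) (F : List Clause) : Prop := ∀ C ∈ F, ∀ l ∈ C, l.1 ∈ V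

theorem V1In_append {V : List Name} {F F' : List Clause} (h : V1In V F) (h' : V1In V F') :
    V1In V (F ++ F') := by
  intro C hC
  rcases List.mem_append.1 hC with h1 | h1
  · exact h C h1
  · exact h' C h1

/-- All the variables which can occur are in `V`. -/
structure V1Base (V : List Name) (R w g G k p : ℕ) : Prop where
  inS : ∀ x ∈ vS R k p, x ∈ V
  inC : ∀ x ∈ vC R k, x ∈ V
  inT : ∀ x ∈ vT w g p, x ∈ V
  inH : ∀ x ∈ vH R w g k p, x ∈ V
  inR : ∀ x ∈ vR R k p, x ∈ V
  inG : ∀ x ∈ vG R w k p, x ∈ V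
  inA : ∀ x ∈ vA R w g k p, x ∈ V
  inN : ∀ x ∈ vN R w g G p, x ∈ V
  inY : ∀ x ∈ vY R w g p, x ∈ V

theorem V1Base_of {V : List Name} {R w g G k p : ℕ} (h : ∀ x ∈ vBase R w g G k p, x ∈ V) :
    V1Base V R w g G k p := by
  simp only [vBase, List.mem_append] at h
  constructor <;> intro x hx <;> apply h <;> simp only [hx, true_or, or_true]

variable {V : List Name} {R w g G k p : ℕ}

theorem V1_fS (hV : V1Base V R w g G k p) : V1In V (fS R k p) := by
  intro C hC l hl
  simp only [fS, List.mem_flatMap, List.mem_map, List.mem_range] at hC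
  obtain ⟨m, hm, j, hj, rfl⟩ := hC
  simp only [List.mem_map, List.mem_range] at hl
  obtain ⟨a, ha, rfl⟩ := hl
  exact hV.inS _ (V1_mem_vS hm hj ha)

theorem V1_fT (hV : V1Base V R w g G k p) : V1In V (fT w g p) := by
  intro C hC l hl
  simp only [fT, List.mem_flatMap, List.mem_map, List.mem_range] at hC
  obtain ⟨m, hm, j, hj, rfl⟩ := hC
  simp only [List.mem_map, List.mem_range] at hl
  obtain ⟨a, ha, rfl⟩ := hl
  exact hV.inT _ (V1_mem_vT hm hj ha)

theorem V1_fH (hp : 1 ≤ p) (hV : V1Base V R w g G k p) : V1In V (fH R w g k p) := by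
  intro C hC c hc
  simp only [fH, List.mem_flatMap, List.mem_map, List.mem_range] at hC
  obtain ⟨i, hi, l, hl, e, he, j, hj, x, hx, a, ha, θ, hθ, rfl⟩ := hC
  simp only [List.mem_cons, List.not_mem_nil, or_false] at hc
  rcases hc with rfl | rfl | rfl | rfl
  · exact hV.inH _ (V1_mem_vH hi hj (by omega) he hx)
  · exact hV.inS _ (V1_mem_vS hl hj ha)
  · exact hV.inT _ (V1_mem_vT hi he hθ)
  · exact hV.inH _ (V1_mem_vH hi hj (by omega) he (Nat.mod_lt _ hp))

theorem V1_fW {Ws : List (List ℕ)} (hWs : ∀ W ∈ Ws, ∀ i ∈ W, i < w)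
    (hV : V1Base V R w g G k p) : V1In V (fW R Ws k p) := by
  intro C hC c hc
  simp only [fW, List.mem_flatMap, List.mem_map, List.mem_range] at hC
  obtain ⟨l, hl, s, hs, W, hW, j, hj, β, hβ, rfl⟩ := hC
  simp only [List.mem_cons, List.mem_map] at hc
  rcases hc with rfl | ⟨i, hi, rfl⟩
  · exact hV.inR _ (V1_mem_vR hs hj hl hβ)
  · exact hV.inG _ (V1_mem_vG (hWs W hW i hi) hs hj hl hβ)

theorem V1_fI (hG : g = G + 2) (hp : 1 ≤ p) (hV : V1Base V R w g G k p) :
    V1In V (fI R w g G k p) := by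
  intro C hC c hc
  simp only [fI, List.mem_flatMap, List.mem_map, List.mem_range] at hC
  obtain ⟨i, hi, l, hl, s, hs, e, he, j, hj, β, hβ, z0, hz0, z1, hz1, z, hz, rfl⟩ := hC
  simp only [List.mem_cons, List.not_mem_nil, or_false] at hc
  rcases hc with rfl | rfl | rfl | rfl | rfl
  · exact hV.inG _ (V1_mem_vG hi hs hj hl hβ)
  · exact hV.inA _ (V1_mem_vA hi hs hj hl hβ (by omega) hz0)
  · exact hV.inA _ (V1_mem_vA hi hs hj hl hβ (by omega) hz1)
  · exact hV.inA _ (V1_mem_vA hi hs hj hl hβ he hz)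
  · refine hV.inN _ (V1_mem_vN hi hl (by omega) he hz ?_)
    rw [mem_tup]
    refine ⟨?_, ?_⟩
    · rw [List.length_cons, List.length_cons, length_dig, hG]
    · intro x hx
      rcases List.mem_cons.1 hx with rfl | hx
      · exact hz0
      rcases List.mem_cons.1 hx with rfl | hx
      · exact hz1
      exact dig_lt hp hx

theorem V1_fE (hp : 1 ≤ p) (hV : V1Base V R w g G k p) : V1In V (fE R k p) := by
  intro C hC c hc
  simp only [fE, List.mem_append, List.mem_map, List.mem_range] at hC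
  rcases hC with ⟨m, hm, rfl⟩ | ⟨m, hm, rfl⟩
  · rw [List.mem_singleton] at hc
    subst hc
    exact hV.inS _ (V1_mem_vS hm (by omega) (by omega))
  · rw [List.mem_singleton] at hc
    subst hc
    exact hV.inS _ (V1_mem_vS hm (by omega) (by omega))

theorem V1_fC (hV : V1Base V R w g G k p) : V1In V (fC R k p) := by
  intro C hC c hc
  simp only [fC, List.mem_flatMap, List.mem_map, List.mem_range, List.mem_cons,
    List.mem_filter, decide_eq_true_eq] at hC
  obtain ⟨l, hl, j, hj, h⟩ := hC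
  rcases h with rfl | ⟨a, ha, b, ⟨hb, -⟩, rfl⟩
  · simp only [List.mem_cons, List.not_mem_nil, or_false] at hc
    rcases hc with rfl | rfl
    · exact hV.inC _ (V1_mem_vC (by omega) hj)
    · exact hV.inC _ (V1_mem_vC (by omega) hj)
  · simp only [List.mem_cons, List.not_mem_nil, or_false] at hc
    rcases hc with rfl | rfl | rfl
    · exact hV.inC _ (V1_mem_vC (by omega) hj)
    · exact hV.inS _ (V1_mem_vS hl (by omega) ha)
    · exact hV.inS _ (V1_mem_vS hl (by omega) hb)

theorem V1_fH0 (hp : 1 ≤ p) (hV : V1Base V R w g G k p) : V1In V (fH0 w g k) := by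
  intro C hC c hc
  simp only [fH0, List.mem_flatMap, List.mem_map, List.mem_range] at hC
  obtain ⟨i, hi, e, he, j, hj, rfl⟩ := hC
  rw [List.mem_singleton] at hc
  subst hc
  exact hV.inH _ (V1_mem_vH hi hj (by omega) he (by omega))

theorem V1_fR (hV : V1Base V R w g G k p) : V1In V (fR R k p) := by
  intro C hC c hc
  simp only [fR, List.mem_flatMap, List.mem_map, List.mem_range, List.mem_cons, List.mem_append,
    List.mem_filter, decide_eq_true_eq] at hC
  obtain ⟨l, hl, j, hj, β, hβ, h⟩ := hC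
  rcases h with ⟨a, ⟨ha, haβ⟩, rfl | ⟨b, ⟨hb, -⟩, rfl⟩⟩ | ⟨b, ⟨hb, -⟩, rfl⟩
  · simp only [List.mem_cons, List.not_mem_nil, or_false] at hc
    rcases hc with rfl | rfl | rfl
    · exact hV.inS _ (V1_mem_vS hl (by omega) ha)
    · exact hV.inC _ (V1_mem_vC (by omega) hj)
    · exact hV.inR _ (V1_mem_vR (by omega) hj hl hβ)
  · simp only [List.mem_cons, List.not_mem_nil, or_false] at hc
    rcases hc with rfl | rfl | rfl
    · exact hV.inS _ (V1_mem_vS hl (by omega) ha)
    · exact hV.inS _ (V1_mem_vS hl (by omega) hb)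
    · exact hV.inR _ (V1_mem_vR (by omega) hj hl hβ)
  · simp only [List.mem_cons, List.not_mem_nil, or_false] at hc
    rcases hc with rfl | rfl | rfl
    · exact hV.inS _ (V1_mem_vS hl (by omega) hb)
    · exact hV.inC _ (V1_mem_vC (by omega) hj)
    · exact hV.inR _ (V1_mem_vR (by omega) hj hl hβ)

theorem V1_fA (hp : 1 ≤ p) (hV : V1Base V R w g G k p) : V1In V (fA R w g k p) := by
  intro C hC c hc
  simp only [fA, List.mem_flatMap, List.mem_map, List.mem_range] at hC
  obtain ⟨i, hi, l, hl, s, hs, e, he, j, hj, β, hβ, x, hx, θ, hθ, rfl⟩ := hC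
  simp only [List.mem_cons, List.not_mem_nil, or_false] at hc
  rcases hc with rfl | rfl | rfl
  · exact hV.inH _ (V1_mem_vH hi (by omega) (by omega) he hx)
  · exact hV.inT _ (V1_mem_vT hi he hθ)
  · exact hV.inA _ (V1_mem_vA hi hs hj hl hβ he (Nat.mod_lt _ hp))

theorem V1_tup_mid {t : ℕ} {u v : List ℕ} {b : ℕ} (hG : g = G + 2) (ht : t < G)
    (hu : u ∈ tup p (t + 2)) (hb : b < p) (hv : v ∈ tup p (G - 1 - t)) :
    u ++ b :: v ∈ tup p g := by
  rw [mem_tup] at hu hv ⊢
  refine ⟨?_, ?_⟩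
  · rw [List.length_append, List.length_cons, hu.1, hv.1]
    omega
  · intro x hx
    rcases List.mem_append.1 hx with h | h
    · exact hu.2 x h
    · rcases List.mem_cons.1 h with rfl | h
      · exact hb
      · exact hv.2 x h

theorem V1_fN (hG : g = G + 2) (hV : V1Base V R w g G k p) : V1In V (fN R w g G p) := by
  intro C hC c hc
  simp only [fN, List.mem_flatMap, List.mem_map, List.mem_range] at hC
  obtain ⟨i, hi, l, hl, e, he, t, ht, u, hu, b, hb, v, hv, z, hz, x, hx, rfl⟩ := hC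
  simp only [List.mem_cons, List.not_mem_nil, or_false] at hc
  rcases hc with rfl | rfl | rfl
  · exact hV.inN _ (V1_mem_vN hi hl (by omega) (by omega) hz (V1_tup_mid hG ht hu hb hv))
  · exact hV.inN _ (V1_mem_vN hi hl (by omega) he hx (V1_tup_mid hG ht hu hb hv))
  · exact hV.inN _ (V1_mem_vN hi hl (by omega) he hx (V1_tup_mid hG ht hu hz hv))

theorem V1_fO (hG : g = G + 2) (hV : V1Base V R w g G k p) : V1In V (fO R w g G p) := by
  intro C hC c hc
  simp only [fO, List.mem_flatMap, List.mem_map, List.mem_range] at hC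
  obtain ⟨i, hi, l, hl, π, hπ, x, hx, rfl⟩ := hC
  simp only [List.mem_cons, List.not_mem_nil, or_false] at hc
  rcases hc with rfl | rfl
  · exact hV.inN _ (V1_mem_vN hi hl (by omega) (by omega) hx hπ)
  · exact hV.inY _ (V1_mem_vY hi hl hπ)

theorem V1_fD {d g' : ℕ} (hg' : g = d * g') (hV : V1Base V R w g G k p)
    (hD : ∀ x ∈ vD w d g' p, x ∈ V) : V1In V (fD w d g' p) := by
  intro C hC c hc
  simp only [fD, List.mem_flatMap, List.mem_map, List.mem_range] at hC
  obtain ⟨i, hi, b, hb, s, hs, rfl⟩ := hC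
  simp only [List.mem_append, List.mem_map, List.mem_singleton] at hc
  rcases hc with ⟨⟨a, m⟩, hq, rfl⟩ | rfl
  · rw [mem_tup] at hs
    rw [List.mem_zipIdx_iff_getElem?] at hq
    simp only at hq
    rw [List.getElem?_eq_some_iff] at hq
    obtain ⟨h1, h2⟩ := hq
    refine hV.inT _ (V1_mem_vT hi ?_ ?_)
    · simp only
      rw [hs.1] at h1
      rw [hg']
      calc b * g' + m < b * g' + g' := by omega
        _ = (b + 1) * g' := by ring
        _ ≤ d * g' := Nat.mul_le_mul_right _ hb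
    · simp only
      rw [← h2]
      exact hs.2 _ (List.getElem_mem h1)
  · exact hD _ (V1_mem_vD hi hb hs)

theorem V1_fL {d g' : ℕ} (hV : V1Base V R w g G k p)
    (hD : ∀ x ∈ vD w d g' p, x ∈ V) (hL : ∀ x ∈ vL R w g d g' p, x ∈ V) :
    V1In V (fL R w g d g' p) := by
  intro C hC c hc
  simp only [fL, List.mem_flatMap, List.mem_map, List.mem_range] at hC
  obtain ⟨i, hi, l, hl, b, hb, s, hs, c', hc', rfl⟩ := hC
  simp only [List.mem_cons, List.not_mem_nil, or_false] at hc
  rcases hc with rfl | rfl | rfl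
  · exact hV.inY _ (V1_mem_vY hi hl hc')
  · exact hD _ (V1_mem_vD hi hb hs)
  · exact hL _ (V1_mem_vL hi hl hb hs hc')

theorem V1_adr (hp : 1 ≤ p) (τ : List ℕ) (l v : ℕ) : adr p R g τ l v ∈ tup p g := by
  rw [mem_tup]
  refine ⟨by simp [adr], ?_⟩
  intro x hx
  simp only [adr, List.mem_map, List.mem_range] at hx
  obtain ⟨e, -, rfl⟩ := hx
  exact hsh_lt hp _ _ _

theorem V1_getD_mem {β : Type} {l : List β} {i : ℕ} (h : i < l.length) (x : β) :
    l.getD i x ∈ l := by
  rw [List.getD_eq_getElem _ _ h]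
  exact List.getElem_mem h

theorem V1_fX {d g' : ℕ} {E : List (List ℕ)} (hp : 1 ≤ p)
    (hL : ∀ x ∈ vL R w g d g' p, x ∈ V) :
    V1In V (fX R w g d g' p E) := by
  intro C hC c hc
  simp only [fX, List.mem_flatMap, List.mem_map, List.mem_range] at hC
  obtain ⟨e, he, i, hi, T, hT, ls, hls, rfl⟩ := hC
  simp only [List.mem_map, List.mem_range] at hc
  obtain ⟨b, hb, rfl⟩ := hc
  rw [mem_tupL] at hT
  rw [mem_tup] at hls
  refine hL _ (V1_mem_vL hi ?_ hb ?_ (V1_adr hp _ _ _))
  · exact hls.2 _ (V1_getD_mem (by rw [hls.1]; exact hb) _)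
  · exact hT.2 _ (V1_getD_mem (by rw [hT.1]; exact hb) _)

theorem V1_fU {σ : List (List ℕ)} (hσ : ∀ i < w, ∀ e < g, (σ.getD i []).getD e 0 < p)
    (hV : V1Base V R w g G k p) : V1In V (fU w g σ) := by
  intro C hC c hc
  simp only [fU, List.mem_flatMap, List.mem_map, List.mem_range] at hC
  obtain ⟨i, hi, e, he, rfl⟩ := hC
  rw [List.mem_singleton] at hc
  subst hc
  exact hV.inT _ (V1_mem_vT hi he (hσ i hi e he))

theorem V1_fY {d : ℕ} {σ E : List (List ℕ)} (hp : 1 ≤ p) (hV : V1Base V R w g G k p) :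
    V1In V (fY R w g d p σ E) := by
  intro C hC c hc
  simp only [fY, List.mem_flatMap, List.mem_map, List.mem_range] at hC
  obtain ⟨e, he, i, hi, ls, hls, rfl⟩ := hC
  simp only [List.mem_map, List.mem_range] at hc
  obtain ⟨b, hb, rfl⟩ := hc
  rw [mem_tup] at hls
  refine hV.inY _ (V1_mem_vY hi ?_ (V1_adr hp _ _ _))
  exact hls.2 _ (V1_getD_mem (by rw [hls.1]; exact hb) _)

theorem V1_wideB {Ws : List (List ℕ)} (hG : g = G + 2) (hp : 1 ≤ p)
    (hWs : ∀ W ∈ Ws, ∀ i ∈ W, i < w) (hV : V1Base V R w g G k p) :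
    V1In V (wideB R w g G Ws k p) :=
  V1In_append (V1In_append (V1In_append (V1_fS hV) (V1_fH hp hV)) (V1_fW hWs hV)) (V1_fI hG hp hV)

theorem V1_narrowB (hG : g = G + 2) (hp : 1 ≤ p) (hV : V1Base V R w g G k p) :
    V1In V (narrowB R w g G k p) :=
  V1In_append (V1In_append (V1In_append (V1In_append (V1In_append (V1In_append (V1_fE hp hV)
    (V1_fC hV)) (V1_fH0 hp hV)) (V1_fR hV)) (V1_fA hp hV)) (V1_fN hG hV)) (V1_fO hG hV)

theorem V1_split {W : List Clause} (h : V1In V W) (hz : ∀ x ∈ zvars W, x ∈ V) :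
    V1In V (split W) := by
  intro C hC l hl
  rcases (split_lits hC).2.2 l hl with h1 | ⟨C', h1, h2⟩
  · exact hz _ h1
  · exact h C' h1 l h2

/-- TARGET 1. -/
theorem formA_vars {R w g G d g' k p : ℕ} {Ws : List (List ℕ)} {E : List (List ℕ)} (hG : g = G + 2)
    (hg' : g = d * g') (hp : 1 ≤ p) (hWs : ∀ W ∈ Ws, ∀ i ∈ W, i < w) :
    ∀ C ∈ formA R w g G Ws d g' k p E, ∀ l ∈ C, l.1 ∈ varsA R w g G Ws d g' k p := by
  have hV : V1Base (varsA R w g G Ws d g' k p) R w g G k p := by
    apply V1Base_of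
    intro x hx
    simp only [varsA, List.mem_append, hx, true_or]
  have hD : ∀ x ∈ vD w d g' p, x ∈ varsA R w g G Ws d g' k p := by
    intro x hx
    simp only [varsA, List.mem_append, hx, true_or, or_true]
  have hL : ∀ x ∈ vL R w g d g' p, x ∈ varsA R w g G Ws d g' k p := by
    intro x hx
    simp only [varsA, List.mem_append, hx, true_or, or_true]
  have hz : ∀ x ∈ zvars (wideA R w g G Ws d g' k p), x ∈ varsA R w g G Ws d g' k p := by
    intro x hx
    simp only [varsA, List.mem_append, hx, or_true]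
  exact V1In_append (V1_split (V1In_append (V1In_append (V1_wideB hG hp hWs hV) (V1_fT hV))
    (V1_fD hg' hV hD)) hz) (V1In_append (V1In_append (V1_narrowB hG hp hV) (V1_fL hV hD hL))
    (V1_fX hp hL))

/-- TARGET 5. -/
theorem formB_vars {R w g G d k p : ℕ} {Ws : List (List ℕ)} {σ E : List (List ℕ)} (hG : g = G + 2)
    (hp : 1 ≤ p) (hWs : ∀ W ∈ Ws, ∀ i ∈ W, i < w)
    (hσ : ∀ i < w, ∀ e < g, (σ.getD i []).getD e 0 < p) :
    ∀ C ∈ formB R w g G Ws d k p σ E, ∀ l ∈ C, l.1 ∈ varsB R w g G Ws k p := by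
  have hV : V1Base (varsB R w g G Ws k p) R w g G k p := by
    apply V1Base_of
    intro x hx
    simp only [varsB, List.mem_append, hx, true_or]
  have hz : ∀ x ∈ zvars (wideB R w g G Ws k p), x ∈ varsB R w g G Ws k p := by
    intro x hx
    simp only [varsB, List.mem_append, hx, or_true]
  exact V1In_append (V1_split (V1_wideB hG hp hWs hV) hz)
    (V1In_append (V1In_append (V1_narrowB hG hp hV) (V1_fU hσ hV)) (V1_fY hp hV))

/-! ### Widths -/

/-- All clauses of `F` are not empty and have at most `d` literals. -/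
def V1Wd (d : ℕ) (F : List Clause) : Prop := ∀ C ∈ F, C ≠ [] ∧ C.length ≤ d

theorem V1Wd_append {d : ℕ} {F F' : List Clause} (h : V1Wd d F) (h' : V1Wd d F') :
    V1Wd d (F ++ F') := by
  intro C hC
  rcases List.mem_append.1 hC with h1 | h1
  · exact h C h1
  · exact h' C h1

theorem V1w_fE {d : ℕ} (hd : 3 ≤ d) : V1Wd d (fE R k p) := by
  intro C hC
  simp only [fE, List.mem_append, List.mem_map, List.mem_range] at hC
  rcases hC with ⟨m, hm, rfl⟩ | ⟨m, hm, rfl⟩
  · exact ⟨by simp, by simp only [List.length_cons, List.length_nil]; omega⟩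
  · exact ⟨by simp, by simp only [List.length_cons, List.length_nil]; omega⟩

theorem V1w_fC {d : ℕ} (hd : 3 ≤ d) : V1Wd d (fC R k p) := by
  intro C hC
  simp only [fC, List.mem_flatMap, List.mem_map, List.mem_range, List.mem_cons,
    List.mem_filter, decide_eq_true_eq] at hC
  obtain ⟨l, hl, j, hj, h⟩ := hC
  rcases h with rfl | ⟨a, ha, b, ⟨hb, -⟩, rfl⟩
  · exact ⟨by simp, by simp only [List.length_cons, List.length_nil]; omega⟩
  · exact ⟨by simp, by simp only [List.length_cons, List.length_nil]; omega⟩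

theorem V1w_fH0 {d : ℕ} (hd : 3 ≤ d) : V1Wd d (fH0 w g k) := by
  intro C hC
  simp only [fH0, List.mem_flatMap, List.mem_map, List.mem_range] at hC
  obtain ⟨i, hi, e, he, j, hj, rfl⟩ := hC
  exact ⟨by simp, by simp only [List.length_cons, List.length_nil]; omega⟩

theorem V1w_fR {d : ℕ} (hd : 3 ≤ d) : V1Wd d (fR R k p) := by
  intro C hC
  simp only [fR, List.mem_flatMap, List.mem_map, List.mem_range, List.mem_cons, List.mem_append,
    List.mem_filter, decide_eq_true_eq] at hC
  obtain ⟨l, hl, j, hj, β, hβ, h⟩ := hC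
  rcases h with ⟨a, ⟨ha, haβ⟩, rfl | ⟨b, ⟨hb, -⟩, rfl⟩⟩ | ⟨b, ⟨hb, -⟩, rfl⟩
  · exact ⟨by simp, by simp only [List.length_cons, List.length_nil]; omega⟩
  · exact ⟨by simp, by simp only [List.length_cons, List.length_nil]; omega⟩
  · exact ⟨by simp, by simp only [List.length_cons, List.length_nil]; omega⟩

theorem V1w_fA {d : ℕ} (hd : 3 ≤ d) : V1Wd d (fA R w g k p) := by
  intro C hC
  simp only [fA, List.mem_flatMap, List.mem_map, List.mem_range] at hC
  obtain ⟨i, hi, l, hl, s, hs, e, he, j, hj, β, hβ, x, hx, θ, hθ, rfl⟩ := hC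
  exact ⟨by simp, by simp only [List.length_cons, List.length_nil]; omega⟩

theorem V1w_fN {d : ℕ} (hd : 3 ≤ d) : V1Wd d (fN R w g G p) := by
  intro C hC
  simp only [fN, List.mem_flatMap, List.mem_map, List.mem_range] at hC
  obtain ⟨i, hi, l, hl, e, he, t, ht, u, hu, b, hb, v, hv, z, hz, x, hx, rfl⟩ := hC
  exact ⟨by simp, by simp only [List.length_cons, List.length_nil]; omega⟩

theorem V1w_fO {d : ℕ} (hd : 3 ≤ d) : V1Wd d (fO R w g G p) := by
  intro C hC
  simp only [fO, List.mem_flatMap, List.mem_map, List.mem_range] at hC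
  obtain ⟨i, hi, l, hl, π, hπ, x, hx, rfl⟩ := hC
  exact ⟨by simp, by simp only [List.length_cons, List.length_nil]; omega⟩

theorem V1w_fL {d d' g' : ℕ} (hd : 3 ≤ d) : V1Wd d (fL R w g d' g' p) := by
  intro C hC
  simp only [fL, List.mem_flatMap, List.mem_map, List.mem_range] at hC
  obtain ⟨i, hi, l, hl, b, hb, s, hs, c', hc', rfl⟩ := hC
  exact ⟨by simp, by simp only [List.length_cons, List.length_nil]; omega⟩

theorem V1w_map {d : ℕ} (hd : 3 ≤ d) (f : ℕ → Lit) :
    (range d).map f ≠ [] ∧ ((range d).map f).length ≤ d := by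
  refine ⟨?_, by simp⟩
  intro h
  have := congrArg List.length h
  simp only [List.length_map, List.length_range, List.length_nil] at this
  omega

theorem V1w_fX {d g' : ℕ} {E : List (List ℕ)} (hd : 3 ≤ d) : V1Wd d (fX R w g d g' p E) := by
  intro C hC
  simp only [fX, List.mem_flatMap, List.mem_map, List.mem_range] at hC
  obtain ⟨e, he, i, hi, T, hT, ls, hls, rfl⟩ := hC
  exact V1w_map hd _

theorem V1w_fU {d : ℕ} {σ : List (List ℕ)} (hd : 3 ≤ d) : V1Wd d (fU w g σ) := by
  intro C hC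
  simp only [fU, List.mem_flatMap, List.mem_map, List.mem_range] at hC
  obtain ⟨i, hi, e, he, rfl⟩ := hC
  exact ⟨by simp, by simp only [List.length_cons, List.length_nil]; omega⟩

theorem V1w_fY {d : ℕ} {σ E : List (List ℕ)} (hd : 3 ≤ d) : V1Wd d (fY R w g d p σ E) := by
  intro C hC
  simp only [fY, List.mem_flatMap, List.mem_map, List.mem_range] at hC
  obtain ⟨e, he, i, hi, ls, hls, rfl⟩ := hC
  exact V1w_map hd _

theorem V1w_narrowB {d : ℕ} (hd : 3 ≤ d) : V1Wd d (narrowB R w g G k p) :=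
  V1Wd_append (V1Wd_append (V1Wd_append (V1Wd_append (V1Wd_append (V1Wd_append (V1w_fE hd)
    (V1w_fC hd)) (V1w_fH0 hd)) (V1w_fR hd)) (V1w_fA hd)) (V1w_fN hd)) (V1w_fO hd)

theorem V1w_split {d : ℕ} (hd : 3 ≤ d) (W : List Clause) : V1Wd d (split W) := by
  intro C hC
  obtain ⟨h1, h2, -⟩ := split_lits hC
  exact ⟨h1, h2.trans hd⟩

/-- TARGET 2. -/
theorem formA_width {R w g G d g' k p : ℕ} {Ws : List (List ℕ)} {E : List (List ℕ)} (hd : 3 ≤ d) :
    ∀ C ∈ formA R w g G Ws d g' k p E, C ≠ [] ∧ C.length ≤ d :=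
  V1Wd_append (V1w_split hd _) (V1Wd_append (V1Wd_append (V1w_narrowB hd) (V1w_fL hd)) (V1w_fX hd))

/-- TARGET 6. -/
theorem formB_width {R w g G d k p : ℕ} {Ws : List (List ℕ)} {σ E : List (List ℕ)} (hd : 3 ≤ d) :
    ∀ C ∈ formB R w g G Ws d k p σ E, C ≠ [] ∧ C.length ≤ d :=
  V1Wd_append (V1w_split hd _) (V1Wd_append (V1Wd_append (V1w_narrowB hd) (V1w_fU hd)) (V1w_fY hd))

/-! ### The names in the long clauses -/

/-- TARGET 3. -/
theorem wideA_head {R w g G d g' k p : ℕ} {Ws : List (List ℕ)} :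
    ∀ C ∈ wideA R w g G Ws d g' k p, ∀ l ∈ C, l.1.head? ≠ some 21 := by
  intro C hC c hc
  simp only [wideA, wideB, List.mem_append] at hC
  rcases hC with ((((hC | hC) | hC) | hC) | hC) | hC
  · simp only [fS, List.mem_flatMap, List.mem_map, List.mem_range] at hC
    obtain ⟨m, hm, j, hj, rfl⟩ := hC
    simp only [List.mem_map, List.mem_range] at hc
    obtain ⟨a, ha, rfl⟩ := hc
    simp [nS]
  · simp only [fH, List.mem_flatMap, List.mem_map, List.mem_range] at hC
    obtain ⟨i, hi, l, hl, e, he, j, hj, x, hx, a, ha, θ, hθ, rfl⟩ := hC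
    simp only [List.mem_cons, List.not_mem_nil, or_false] at hc
    rcases hc with rfl | rfl | rfl | rfl <;> simp [nS, nH, nT]
  · simp only [fW, List.mem_flatMap, List.mem_map, List.mem_range] at hC
    obtain ⟨l, hl, s, hs, W, hW, j, hj, β, hβ, rfl⟩ := hC
    simp only [List.mem_cons, List.mem_map] at hc
    rcases hc with rfl | ⟨i, hi, rfl⟩ <;> simp [nR, nG]
  · simp only [fI, List.mem_flatMap, List.mem_map, List.mem_range] at hC
    obtain ⟨i, hi, l, hl, s, hs, e, he, j, hj, β, hβ, z0, hz0, z1, hz1, z, hz, rfl⟩ := hC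
    simp only [List.mem_cons, List.not_mem_nil, or_false] at hc
    rcases hc with rfl | rfl | rfl | rfl | rfl <;> simp [nG, nA, nN]
  · simp only [fT, List.mem_flatMap, List.mem_map, List.mem_range] at hC
    obtain ⟨m, hm, j, hj, rfl⟩ := hC
    simp only [List.mem_map, List.mem_range] at hc
    obtain ⟨a, ha, rfl⟩ := hc
    simp [nT]
  · simp only [fD, List.mem_flatMap, List.mem_map, List.mem_range] at hC
    obtain ⟨i, hi, b, hb, s, hs, rfl⟩ := hC
    simp only [List.mem_append, List.mem_map, List.mem_singleton] at hc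
    rcases hc with ⟨q, hq, rfl⟩ | rfl <;> simp [nT, nD]

/-! ### Counting -/

theorem V1_len_wideB (R w g G : ℕ) (Ws : List (List ℕ)) (k p : ℕ) :
    (wideB R w g G Ws k p).length = R * (k + 2) + w * (R * (g * ((k + 2) * (p * (p * p))))) +
      R * (2 * (Ws.length * ((k + 1) * p))) +
      w * (R * (2 * (g * ((k + 1) * (p * (p * (p * p))))))) := by
  have h1 : (fS R k p).length = R * (k + 2) := by simp [fS]
  have h2 : (fH R w g k p).length = w * (R * (g * ((k + 2) * (p * (p * p))))) := by simp [fH]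
  have h3 : (fW R Ws k p).length = R * (2 * (Ws.length * ((k + 1) * p))) := by
    rw [fW, length_flatMap_const _ _ (2 * (Ws.length * ((k + 1) * p))), List.length_range]
    intro l _
    rw [length_flatMap_const _ _ (Ws.length * ((k + 1) * p)), List.length_range]
    intro s _
    simp
  have h4 : (fI R w g G k p).length = w * (R * (2 * (g * ((k + 1) * (p * (p * (p * p))))))) := by
    rw [fI, length_flatMap_const _ _ (R * (2 * (g * ((k + 1) * (p * (p * (p * p))))))),
      List.length_range]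
    intro i _
    rw [length_flatMap_const _ _ (2 * (g * ((k + 1) * (p * (p * (p * p)))))), List.length_range]
    intro l _
    rw [length_flatMap_const _ _ (g * ((k + 1) * (p * (p * (p * p))))), List.length_range]
    intro s _
    simp
  rw [wideB, List.length_append, List.length_append, List.length_append, h1, h2, h3, h4]

theorem V1_len_wideA (R w g G : ℕ) (Ws : List (List ℕ)) (d g' k p : ℕ) :
    (wideA R w g G Ws d g' k p).length = (wideB R w g G Ws k p).length + w * g +
      w * (d * p ^ g') := by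
  have h1 : (fT w g p).length = w * g := by simp [fT]
  have h2 : (fD w d g' p).length = w * (d * p ^ g') := by simp [fD, length_tup]
  rw [wideA, List.length_append, List.length_append, h1, h2]

theorem V1_len_vBase (R w g G k p : ℕ) :
    (vBase R w g G k p).length = R * ((k + 2) * p) + (R + 1) * (k + 1) + w * (g * p) +
      w * ((R + 1) * (g * ((k + 2) * p))) + R * (2 * ((k + 1) * p)) +
      w * (R * (2 * ((k + 1) * p))) + w * (R * (2 * (g * ((k + 1) * (p * p))))) +
      w * (R * ((G + 1) * (g * (p * p ^ g)))) + w * (R * p ^ g) := by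
  have h1 : (vS R k p).length = R * ((k + 2) * p) := by simp [vS]
  have h2 : (vC R k).length = (R + 1) * (k + 1) := by simp [vC]
  have h3 : (vT w g p).length = w * (g * p) := by simp [vT]
  have h4 : (vH R w g k p).length = w * ((R + 1) * (g * ((k + 2) * p))) := by simp [vH]
  have h5 : (vR R k p).length = R * (2 * ((k + 1) * p)) := by
    rw [vR, length_flatMap_const _ _ (2 * ((k + 1) * p)), List.length_range]
    intro l _
    rw [length_flatMap_const _ _ ((k + 1) * p), List.length_range]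
    intro s _
    simp
  have h6 : (vG R w k p).length = w * (R * (2 * ((k + 1) * p))) := by
    rw [vG, length_flatMap_const _ _ (R * (2 * ((k + 1) * p))), List.length_range]
    intro i _
    rw [length_flatMap_const _ _ (2 * ((k + 1) * p)), List.length_range]
    intro l _
    rw [length_flatMap_const _ _ ((k + 1) * p), List.length_range]
    intro s _
    simp
  have h7 : (vA R w g k p).length = w * (R * (2 * (g * ((k + 1) * (p * p))))) := by
    rw [vA, length_flatMap_const _ _ (R * (2 * (g * ((k + 1) * (p * p))))), List.length_range]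
    intro i _
    rw [length_flatMap_const _ _ (2 * (g * ((k + 1) * (p * p)))), List.length_range]
    intro l _
    rw [length_flatMap_const _ _ (g * ((k + 1) * (p * p))), List.length_range]
    intro s _
    simp
  have h8 : (vN R w g G p).length = w * (R * ((G + 1) * (g * (p * p ^ g)))) := by
    simp [vN, length_tup]
  have h9 : (vY R w g p).length = w * (R * p ^ g) := by simp [vY, length_tup]
  simp only [vBase, List.length_append]
  rw [h1, h2, h3, h4, h5, h6, h7, h8, h9]

theorem V1_wideB_len {Ws : List (List ℕ)} {m : ℕ} (hW : ∀ W ∈ Ws, W.length + 1 ≤ m)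
    (hm : m ≤ p) (h5 : 5 ≤ p) : ∀ C ∈ wideB R w g G Ws k p, C.length ≤ p := by
  intro C hC
  simp only [wideB, List.mem_append] at hC
  rcases hC with ((hC | hC) | hC) | hC
  · simp only [fS, List.mem_flatMap, List.mem_map, List.mem_range] at hC
    obtain ⟨m, hm, j, hj, rfl⟩ := hC
    simp
  · simp only [fH, List.mem_flatMap, List.mem_map, List.mem_range] at hC
    obtain ⟨i, hi, l, hl, e, he, j, hj, x, hx, a, ha, θ, hθ, rfl⟩ := hC
    simp only [List.length_cons, List.length_nil]
    omega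
  · simp only [fW, List.mem_flatMap, List.mem_map, List.mem_range] at hC
    obtain ⟨l, hl, s, hs, W, hWW, j, hj, β, hβ, rfl⟩ := hC
    rw [List.length_cons, List.length_map]
    exact (hW W hWW).trans hm
  · simp only [fI, List.mem_flatMap, List.mem_map, List.mem_range] at hC
    obtain ⟨i, hi, l, hl, s, hs, e, he, j, hj, β, hβ, z0, hz0, z1, hz1, z, hz, rfl⟩ := hC
    simp only [List.length_cons, List.length_nil]
    omega

theorem V1_wideA_len {Ws : List (List ℕ)} {m d g' : ℕ} (hW : ∀ W ∈ Ws, W.length + 1 ≤ m)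
    (hm : m ≤ p) (h5 : 5 ≤ p) (hg' : g' + 1 ≤ p) :
    ∀ C ∈ wideA R w g G Ws d g' k p, C.length ≤ p := by
  intro C hC
  simp only [wideA, List.mem_append] at hC
  rcases hC with (hC | hC) | hC
  · exact V1_wideB_len hW hm h5 C hC
  · simp only [fT, List.mem_flatMap, List.mem_map, List.mem_range] at hC
    obtain ⟨m, hm, j, hj, rfl⟩ := hC
    simp
  · simp only [fD, List.mem_flatMap, List.mem_map, List.mem_range] at hC
    obtain ⟨i, hi, b, hb, s, hs, rfl⟩ := hC
    rw [mem_tup] at hs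
    rw [List.length_append, List.length_map, List.length_zipIdx, hs.1]
    simpa using hg'

/-- a bound for the lengths of the members of `Ws` -/
theorem V1_exists_m (Ws : List (List ℕ)) : ∃ m, ∀ W ∈ Ws, W.length + 1 ≤ m := by
  induction Ws with
  | nil => exact ⟨0, by simp⟩
  | cons W Ws ih =>
    obtain ⟨m, hm⟩ := ih
    refine ⟨max m (W.length + 1), ?_⟩
    intro W' hW'
    rcases List.mem_cons.1 hW' with rfl | h
    · exact le_max_right _ _
    · exact (hm W' h).trans (le_max_left _ _)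

/-- the powers occurring in the count -/
theorem V1_pows {g k p : ℕ} (hg : 4 ≤ g) (hp : 1 ≤ p) (hk : 2 * (k + 2) ≤ p ^ (g - 3)) :
    (k + 2) * (p * (p * (p * (p * p)))) ≤ p ^ (g + 2) := by
  have h1 : k + 2 ≤ p ^ (g - 3) := by omega
  calc (k + 2) * (p * (p * (p * (p * p)))) ≤ p ^ (g - 3) * (p * (p * (p * (p * p)))) :=
        Nat.mul_le_mul_right _ h1
    _ = p ^ (g - 3 + 5) := by rw [pow_add]; ring
    _ = p ^ (g + 2) := by congr 1; omega

theorem V1_base_le {R w g G k p X : ℕ} (hp : 1 ≤ p) (hX1 : (k + 2) * (p * (p * (p * (p * p)))) ≤ X)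
    (hX2 : p * p ^ g ≤ X) : (vBase R w g G k p).length ≤
      (R + (R + 1) + w * g + w * (R + 1) * g + 2 * R + 2 * w * R + 2 * w * R * g +
        w * R * (G + 1) * g + w * R) * X := by
  have a1 : 1 ≤ p * p := Nat.mul_pos hp hp
  have a2 : 1 ≤ p * (p * p) := Nat.mul_pos hp a1
  have a3 : 1 ≤ p * (p * (p * p)) := Nat.mul_pos hp a2
  have a4 : 1 ≤ p * (p * (p * (p * p))) := Nat.mul_pos hp a3
  have b0 : (k + 2) * (p * p) ≤ X := by
    refine le_trans ?_ hX1
    refine Nat.mul_le_mul_left _ ?_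
    calc p * p = p * p * 1 := by ring
      _ ≤ p * p * (p * (p * p)) := Nat.mul_le_mul_left _ a2
      _ = p * (p * (p * (p * p))) := by ring
  have b1 : (k + 2) * p ≤ X := by
    refine le_trans ?_ b0
    refine Nat.mul_le_mul_left _ ?_
    exact Nat.le_mul_of_pos_left p hp
  have b2 : k + 1 ≤ X := by
    have : k + 2 ≤ (k + 2) * p := Nat.le_mul_of_pos_right _ hp
    omega
  have b3 : (k + 1) * p ≤ X := (Nat.mul_le_mul_right p (by omega)).trans b1
  have b4 : (k + 1) * (p * p) ≤ X := (Nat.mul_le_mul_right _ (by omega)).trans b0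
  have b5 : p ≤ X := by
    have : p ≤ (k + 2) * p := Nat.le_mul_of_pos_left p (by omega)
    exact this.trans b1
  have b6 : p ^ g ≤ X := by
    have : p ^ g ≤ p * p ^ g := Nat.le_mul_of_pos_left _ hp
    exact this.trans hX2
  rw [V1_len_vBase]
  have c1 : R * ((k + 2) * p) ≤ R * X := Nat.mul_le_mul_left _ b1
  have c2 : (R + 1) * (k + 1) ≤ (R + 1) * X := Nat.mul_le_mul_left _ b2
  have c3 : w * (g * p) ≤ w * (g * X) := Nat.mul_le_mul_left _ (Nat.mul_le_mul_left _ b5)
  have c4 : w * ((R + 1) * (g * ((k + 2) * p))) ≤ w * ((R + 1) * (g * X)) :=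
    Nat.mul_le_mul_left _ (Nat.mul_le_mul_left _ (Nat.mul_le_mul_left _ b1))
  have c5 : R * (2 * ((k + 1) * p)) ≤ R * (2 * X) :=
    Nat.mul_le_mul_left _ (Nat.mul_le_mul_left _ b3)
  have c6 : w * (R * (2 * ((k + 1) * p))) ≤ w * (R * (2 * X)) := Nat.mul_le_mul_left _ c5
  have c7 : w * (R * (2 * (g * ((k + 1) * (p * p))))) ≤ w * (R * (2 * (g * X))) :=
    Nat.mul_le_mul_left _ (Nat.mul_le_mul_left _ (Nat.mul_le_mul_left _ (Nat.mul_le_mul_left _ b4)))
  have c8 : w * (R * ((G + 1) * (g * (p * p ^ g)))) ≤ w * (R * ((G + 1) * (g * X))) :=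
    Nat.mul_le_mul_left _ (Nat.mul_le_mul_left _ (Nat.mul_le_mul_left _ (Nat.mul_le_mul_left _ hX2)))
  have c9 : w * (R * p ^ g) ≤ w * (R * X) := Nat.mul_le_mul_left _ (Nat.mul_le_mul_left _ b6)
  calc _ ≤ R * X + (R + 1) * X + w * (g * X) + w * ((R + 1) * (g * X)) + R * (2 * X) +
        w * (R * (2 * X)) + w * (R * (2 * (g * X))) + w * (R * ((G + 1) * (g * X))) +
        w * (R * X) := by
        gcongr
    _ = _ := by ring

theorem V1_wideB_le {R w g G k p X : ℕ} {Ws : List (List ℕ)} (hp : 1 ≤ p)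
    (hX1 : (k + 2) * (p * (p * (p * (p * p)))) ≤ X) :
    (wideB R w g G Ws k p).length * (p + 1) ≤
      2 * (R + w * R * g + 2 * R * Ws.length + 2 * w * R * g) * X := by
  have a1 : 1 ≤ p * p := Nat.mul_pos hp hp
  have a2 : 1 ≤ p * (p * p) := Nat.mul_pos hp a1
  have a3 : 1 ≤ p * (p * (p * p)) := Nat.mul_pos hp a2
  set K := (k + 2) * (p * (p * (p * p))) with hK
  have b1 : k + 2 ≤ K := Nat.le_mul_of_pos_right _ a3
  have b2 : (k + 2) * (p * (p * p)) ≤ K :=
    Nat.mul_le_mul_left _ (Nat.le_mul_of_pos_left _ hp)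
  have b3 : (k + 1) * p ≤ K := by
    refine Nat.mul_le_mul (by omega) ?_
    exact Nat.le_mul_of_pos_right _ a2
  have b4 : (k + 1) * (p * (p * (p * p))) ≤ K := Nat.mul_le_mul_right _ (by omega)
  have c : (wideB R w g G Ws k p).length ≤
      (R + w * R * g + 2 * R * Ws.length + 2 * w * R * g) * K := by
    rw [V1_len_wideB]
    calc _ ≤ R * K + w * (R * (g * K)) + R * (2 * (Ws.length * K)) +
        w * (R * (2 * (g * K))) := by gcongr
      _ = _ := by ring
  calc (wideB R w g G Ws k p).length * (p + 1)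
      ≤ ((R + w * R * g + 2 * R * Ws.length + 2 * w * R * g) * K) * (2 * p) :=
        Nat.mul_le_mul c (by omega)
    _ = 2 * (R + w * R * g + 2 * R * Ws.length + 2 * w * R * g) *
        ((k + 2) * (p * (p * (p * (p * p))))) := by rw [hK]; ring
    _ ≤ _ := Nat.mul_le_mul_left _ hX1

/-- TARGET 7. -/
theorem length_varsB_le (R w g G : ℕ) (Ws : List (List ℕ)) (hG : g = G + 2) (hg : 4 ≤ g) :
    ∃ C b : ℕ, ∀ k p : ℕ, b ≤ p → 2 * (k + 2) ≤ p ^ (g - 3) →
      (varsB R w g G Ws k p).length ≤ C * p ^ (g + 2) := by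
  obtain ⟨m, hm⟩ := V1_exists_m Ws
  refine ⟨(R + (R + 1) + w * g + w * (R + 1) * g + 2 * R + 2 * w * R + 2 * w * R * g +
        w * R * (G + 1) * g + w * R) + 2 * (R + w * R * g + 2 * R * Ws.length + 2 * w * R * g),
        max 5 m, ?_⟩
  intro k p hb hk
  have h5 : 5 ≤ p := (le_max_left _ _).trans hb
  have hmp : m ≤ p := (le_max_right _ _).trans hb
  have hp : 1 ≤ p := by omega
  have hX1 := V1_pows hg hp hk
  have hX2 : p * p ^ g ≤ p ^ (g + 2) := by
    rw [← pow_succ']
    exact Nat.pow_le_pow_right hp (by omega)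
  have h1 := V1_base_le (R := R) (w := w) (G := G) hp hX1 hX2
  have h2 := V1_wideB_le (R := R) (w := w) (g := g) (G := G) (Ws := Ws) hp hX1
  have h3 := length_zvars_le (V1_wideB_len (R := R) (w := w) (g := g) (G := G) (k := k) hm hmp h5)
  rw [varsB, List.length_append, add_mul]
  exact add_le_add h1 (h3.trans h2)

/-- TARGET 4. -/
theorem length_varsA_le (R w g G d g' : ℕ) (Ws : List (List ℕ)) (hG : g = G + 2) (hg : 4 ≤ g)
    (hg' : 2 ≤ g') :
    ∃ C b : ℕ, ∀ k p : ℕ, b ≤ p → 2 * (k + 2) ≤ p ^ (g - 3) →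
      (varsA R w g G Ws d g' k p).length ≤ C * p ^ (g + g') := by
  obtain ⟨m, hm⟩ := V1_exists_m Ws
  refine ⟨(R + (R + 1) + w * g + w * (R + 1) * g + 2 * R + 2 * w * R + 2 * w * R * g +
        w * R * (G + 1) * g + w * R) + w * d + w * R * d +
        (2 * (R + w * R * g + 2 * R * Ws.length + 2 * w * R * g) + 2 * w * g + 2 * w * d),
        max (max 5 m) (g' + 1), ?_⟩
  intro k p hb hk
  have h5 : 5 ≤ p := (le_max_left _ _).trans ((le_max_left _ _).trans hb)
  have hmp : m ≤ p := (le_max_right _ _).trans ((le_max_left _ _).trans hb)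
  have hgp : g' + 1 ≤ p := (le_max_right _ _).trans hb
  have hp : 1 ≤ p := by omega
  have hpow : p ^ (g + 2) ≤ p ^ (g + g') := Nat.pow_le_pow_right hp (by omega)
  have hX1 := (V1_pows hg hp hk).trans hpow
  have hX2 : p * p ^ g ≤ p ^ (g + g') := by
    rw [← pow_succ']
    exact Nat.pow_le_pow_right hp (by omega)
  set X := p ^ (g + g') with hX
  have h1 := V1_base_le (R := R) (w := w) (G := G) hp hX1 hX2
  have h2 := V1_wideB_le (R := R) (w := w) (g := g) (G := G) (Ws := Ws) hp hX1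
  have h3 := length_zvars_le (V1_wideA_len (R := R) (w := w) (g := g) (G := G) (k := k) (d := d)
    hm hmp h5 hgp)
  have h4 : p * p ^ g' ≤ X := by
    rw [hX, ← pow_succ']
    exact Nat.pow_le_pow_right hp (by omega)
  have h6 : p ^ g' ≤ X := by
    have : p ^ g' ≤ p * p ^ g' := Nat.le_mul_of_pos_left _ hp
    exact this.trans h4
  have h7 : p ≤ X := by
    have : p ≤ p * p ^ g' := Nat.le_mul_of_pos_right _ (Nat.pow_pos hp)
    exact this.trans h4
  have h8 : (wideA R w g G Ws d g' k p).length * (p + 1) ≤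
      (2 * (R + w * R * g + 2 * R * Ws.length + 2 * w * R * g) + 2 * w * g + 2 * w * d) * X := by
    rw [V1_len_wideA, add_mul, add_mul]
    have e1 : w * g * (p + 1) ≤ 2 * w * g * X := by
      calc w * g * (p + 1) ≤ w * g * (2 * p) := Nat.mul_le_mul_left _ (by omega)
        _ = 2 * w * g * p := by ring
        _ ≤ _ := Nat.mul_le_mul_left _ h7
    have e2 : w * (d * p ^ g') * (p + 1) ≤ 2 * w * d * X := by
      calc w * (d * p ^ g') * (p + 1) ≤ w * (d * p ^ g') * (2 * p) :=
            Nat.mul_le_mul_left _ (by omega)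
        _ = 2 * w * d * (p * p ^ g') := by ring
        _ ≤ _ := Nat.mul_le_mul_left _ h4
    calc _ ≤ 2 * (R + w * R * g + 2 * R * Ws.length + 2 * w * R * g) * X + 2 * w * g * X +
          2 * w * d * X := add_le_add (add_le_add h2 e1) e2
      _ = _ := by ring
  have h9 : (vD w d g' p).length = w * (d * p ^ g') := by simp [vD, length_tup]
  have h10 : (vL R w g d g' p).length = w * (R * (d * (p ^ g' * p ^ g))) := by
    simp [vL, length_tup]
  have h11 : (vD w d g' p).length ≤ w * d * X := by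
    rw [h9, ← mul_assoc]
    exact Nat.mul_le_mul_left _ h6
  have h12 : (vL R w g d g' p).length ≤ w * R * d * X := by
    rw [h10, hX, pow_add]
    apply le_of_eq
    ring
  rw [varsA, List.length_append, List.length_append, List.length_append, add_mul, add_mul, add_mul]
  exact add_le_add (add_le_add (add_le_add h1 h11) h12) (h3.trans h8)

end Pool.Agent.Helper650_HSK
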