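import Pool.Agent.Helper650_HSK.MainA
import Pool.Agent.Helper650_HSK.Vars
import Pool.Agent.Helper650_HSK.FPoly
import Pool.Agent.Helper650_HSK.Prm
import Pool.Agent.Helper650_HSK.KernelPoly

/-!
# The kernelization with unknown seeds
-/

namespace Pool.Agent.Helper650_HSK

open Pool.Agent.NPC
open List (range)

theorem names_head {R w g G k p d g' : ℕ} {x : Name}
    (hx : x ∈ vBase R w g G k p ++ vD w d g' p ++ vL R w g d g' p) : x.head? ≠ some 21 := by
  simp only [vBase, vS, vC, vT, vH, vR, vG, vA, vN, vY, vD, vL, List.mem_append, List.mem_flatMap,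
    List.mem_map] at hx
  rcases hx with ((((((((((hx | hx) | hx) | hx) | hx) | hx) | hx) | hx) | hx) | hx) | hx)
  · obtain ⟨_, _, _, _, _, _, rfl⟩ := hx; simp [nS]
  · obtain ⟨_, _, _, _, rfl⟩ := hx; simp [nC]
  · obtain ⟨_, _, _, _, _, _, rfl⟩ := hx; simp [nT]
  · obtain ⟨_, _, _, _, _, _, _, _, _, _, rfl⟩ := hx; simp [nH]
  · obtain ⟨_, _, _, _, _, _, _, _, rfl⟩ := hx; simp [nR]
  · obtain ⟨_, _, _, _, _, _, _, _, _, _, rfl⟩ := hx; simp [nG]
  · obtain ⟨_, _, _, _, _, _, _, _, _, _, _, _, _, _, rfl⟩ := hx; simp [nA]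
  · obtain ⟨_, _, _, _, _, _, _, _, _, _, _, _, rfl⟩ := hx; simp [nN]
  · obtain ⟨_, _, _, _, _, _, rfl⟩ := hx; simp [nY]
  · obtain ⟨_, _, _, _, _, _, rfl⟩ := hx; simp [nD]
  · obtain ⟨_, _, _, _, _, _, _, _, _, _, rfl⟩ := hx; simp [nL]

theorem narrowA_head {R w g G d g' k p : ℕ} {E : List (List ℕ)} (hG : g = G + 2)
    (hp : 1 ≤ p) : ∀ C ∈ narrowA R w g G d g' k p E, ∀ l ∈ C, l.1.head? ≠ some 21 := by
  intro C hC l hl
  have hV : V1Base (vBase R w g G k p ++ vD w d g' p ++ vL R w g d g' p) R w g G k p := by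
    apply V1Base_of
    intro x hx
    simp only [List.mem_append, hx, true_or]
  have hD : ∀ x ∈ vD w d g' p, x ∈ vBase R w g G k p ++ vD w d g' p ++ vL R w g d g' p := by
    intro x hx
    simp only [List.mem_append, hx, true_or, or_true]
  have hL : ∀ x ∈ vL R w g d g' p, x ∈ vBase R w g G k p ++ vD w d g' p ++ vL R w g d g' p := by
    intro x hx
    simp only [List.mem_append, hx, or_true]
  exact names_head (V1In_append (V1In_append (V1_narrowB hG hp hV) (V1_fL hV hD hL))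
    (V1_fX hp hL) C hC l hl)

/-- The kernelization. -/
def kerA (R w g G : ℕ) (Ws : List (List ℕ)) (d g' C b : ℕ) (x : Inst) : Inst :=
  bif decide ((shrink d x).1.1 ≤ x.2) then ((0, []), 0) else
    (hypOf (varsA R w g G Ws d g' (min x.2 (shrink d x).1.1)
        (findP C (g - 3) b (min x.2 (shrink d x).1.1)))
      (formA R w g G Ws d g' (min x.2 (shrink d x).1.1)
        (findP C (g - 3) b (min x.2 (shrink d x).1.1)) (shrink d x).1.2),
      (varsA R w g G Ws d g' (min x.2 (shrink d x).1.1)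
        (findP C (g - 3) b (min x.2 (shrink d x).1.1))).length)

theorem uPoly_shrink (d : ℕ) : UPoly (fun x : Inst => (shrink d x).1.1) :=
  UPoly.length (l := fun x : Inst => (greedy d x.2 x.1.2).flatten.dedup)
    (R544.poly_dedup (NPC.Poly.flatten (poly_greedy d)))

theorem poly_kerA (R w g G : ℕ) (Ws : List (List ℕ)) (d g' C b : ℕ) :
    NPC.Poly (kerA R w g G Ws d g' C b) := by
  have hs := poly_shrink d
  have hu := uPoly_shrink d
  have hk : UPoly (fun x : Inst => min x.2 (shrink d x).1.1) :=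
    R544.uPoly_min (NPC.Poly.snd NPC.Poly.id) hu
  have hp := uPoly_findP C (g - 3) b hk
  have hE : NPC.Poly (fun x : Inst => (shrink d x).1.2) := NPC.Poly.snd (NPC.Poly.fst hs)
  obtain ⟨h1, h2⟩ := poly_formA R w g G Ws d g' hk hp hE
  unfold kerA
  refine NPC.Poly.cond (NPC.Poly.decide_le hu.toPoly (NPC.Poly.snd NPC.Poly.id))
    (NPC.Poly.const _) ?_
  exact NPC.Poly.pair (poly_hypOf h2 h1) (NPC.Poly.length h2)

theorem yes_of_le {d : ℕ} {x : Inst} (hx : IsHyp d x.1) (h : x.1.1 ≤ x.2) : Yes x :=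
  ⟨Finset.range x.1.1, subset_rfl, by rw [Finset.card_range]; exact h, fun e he => by
    obtain ⟨h1, _, _, h2⟩ := hx e he
    obtain ⟨v, hv⟩ := List.exists_mem_of_ne_nil e h1
    exact ⟨v, hv, Finset.mem_range.2 (h2 v hv)⟩⟩

theorem yes_zero : Yes (((0, []), 0) : Inst) :=
  ⟨∅, by simp, by simp, fun e he => by simp at he⟩

theorem cond_of {R w g G w0 d k p n g' : ℕ} (hd : 3 ≤ d) (hg' : 2 ≤ g') (hgg : g = d * g')
    (hG : G = g - 2) (hw0 : w0 = 2 * g) (hw : w = d * w0) (hR : R = (g - 3) * d + (d + 2))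
    (hp : p.Prime) (hb1 : (G + 2) * R ^ g ≤ p) (hb2 : 4 * (R * 2 ^ w) ≤ p)
    (hpk : 2 * (k + 2) ≤ p ^ (g - 3)) (hn : n ≤ d * (k + 1) ^ d) :
    Cond R w g G w0 d ((range w).sublistsLen w0) k p n := by
  have h6 : 6 ≤ g := by
    rw [hgg]
    exact Nat.mul_le_mul hd hg'
  have hpp := hp.two_le
  have h1 : p ^ (g - 3) ≤ p ^ G := Nat.pow_le_pow_right hp.pos (by omega)
  refine ⟨hp, by omega, by omega, ?_, by omega, hb1, hb2, by omega, by omega, hw, ?_, ?_⟩
  · calc 2 * (k + 1) * p ≤ p ^ (g - 3) * p := Nat.mul_le_mul_right _ (by omega)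
      _ = p ^ G := by rw [← pow_succ]; congr 1; omega
  · intro W
    rw [List.mem_sublistsLen]
  · have h2 : (k + 1) ^ d ≤ p ^ ((g - 3) * d) := by
      rw [pow_mul]
      exact Nat.pow_le_pow_left (by omega) d
    have h3 : d + 2 ≤ p ^ (d + 2) := (Nat.lt_two_pow_self (n := d + 2)).le.trans
      (Nat.pow_le_pow_left hpp _)
    have h4 : 1 ≤ (k + 1) ^ d := Nat.one_le_pow _ _ (by omega)
    calc n + 2 ≤ d * (k + 1) ^ d + 2 := by omega
      _ ≤ (d + 2) * (k + 1) ^ d := by nlinarith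
      _ ≤ p ^ (d + 2) * p ^ ((g - 3) * d) := Nat.mul_le_mul h3 h2
      _ = p ^ R := by rw [← pow_add, hR]; congr 1; omega

theorem main_A (d : ℕ) (hd : 3 ≤ d) (ε : ℝ) (hε : 0 < ε) :
    ∃ (K : List Bool → List Bool) (C : ℝ) (h : Polynomial ℕ), PolyTime K ∧
      ∀ x : Inst, IsHyp d x.1 → ∃ y : Inst, K (bits x) = bits y ∧ IsHyp d y.1 ∧
        (Yes x ↔ Yes y) ∧ y.2 ≤ y.1.1 ∧ (bits y).length ≤ h.eval x.2 ∧
        (y.1.1 : ℝ) ≤ C * ((x.2 : ℝ) + 1) ^ (1 + 1 / (d : ℝ) + ε) := by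
  obtain ⟨g', hg', hexp⟩ := exists_exponent_A d hd ε hε
  obtain ⟨g, hgg⟩ : ∃ g, g = d * g' := ⟨_, rfl⟩
  obtain ⟨G, hG⟩ : ∃ G, G = g - 2 := ⟨_, rfl⟩
  obtain ⟨w0, hw0⟩ : ∃ w0, w0 = 2 * g := ⟨_, rfl⟩
  obtain ⟨w, hw⟩ : ∃ w, w = d * w0 := ⟨_, rfl⟩
  obtain ⟨R, hR⟩ : ∃ R, R = (g - 3) * d + (d + 2) := ⟨_, rfl⟩
  obtain ⟨Ws, hWs⟩ : ∃ Ws, Ws = (range w).sublistsLen w0 := ⟨_, rfl⟩
  have h6 : 6 ≤ g := by
    rw [hgg]
    exact Nat.mul_le_mul hd hg'
  obtain ⟨C1, b1, hC1⟩ := length_varsA_le R w g G d g' Ws (by omega) (by omega) hg'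
  obtain ⟨b, hb⟩ : ∃ b, b = max (max 2 b1) (max ((G + 2) * R ^ g) (4 * (R * 2 ^ w))) := ⟨_, rfl⟩
  obtain ⟨C2, hC2⟩ := exists_prime_param (g - 3) b (by omega) (by omega)
  obtain ⟨D, hD⟩ := hexp (2 * C1) C2
  obtain ⟨q, hq⟩ := length_formA_le R w g G Ws d g'
  obtain ⟨r, hr⟩ := length_bits_le d
  have hPoly := poly_kerA R w g G Ws d g' C2 b
  refine ⟨_, max D 0, r.comp (Polynomial.C 4 * q.comp (Polynomial.X + Polynomial.C C2 *
    (Polynomial.X + 1) + (Polynomial.X + 1) ^ d)),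
    polyTime_opt (NPC.Poly.optMap (o := unbits Inst) (f := fun _ a => kerA R w g G Ws d g' C2 b a)
      poly_unbits (hPoly.comp (NPC.Poly.snd NPC.Poly.id))), ?_⟩
  intro x hx
  refine ⟨kerA R w g G Ws d g' C2 b x, by simp [unbits_bits], ?_⟩
  obtain ⟨hs1, hs2, hs3, hs4, hs5⟩ := shrink_ok d (by omega) x hx
  by_cases htriv : (shrink d x).1.1 ≤ x.2
  · have hker : kerA R w g G Ws d g' C2 b x = ((0, []), 0) := by
      rw [kerA, decide_eq_true htriv]
      rfl
    rw [hker]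
    refine ⟨fun e he => by simp at he, ?_, le_rfl, ?_, ?_⟩
    · rw [hs2]
      exact ⟨fun _ => yes_zero, fun _ => yes_of_le hs1 (by rw [hs3]; exact htriv)⟩
    · refine (hr _ (fun e he => by simp at he)).trans ?_
      rw [Polynomial.eval_comp]
      exact eval_mono r (by simp)
    · have : (0 : ℝ) ≤ max D 0 := le_max_right _ _
      simp only [Nat.cast_zero]
      positivity
  · have hmin : min x.2 (shrink d x).1.1 = x.2 := min_eq_left (by omega)
    obtain ⟨p, hpdef⟩ : ∃ p, p = findP C2 (g - 3) b x.2 := ⟨_, rfl⟩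
    obtain ⟨hp1, hp2, hp3, hp4⟩ := findP_spec (C := C2) (b := b) (k := x.2)
      (h := g - 3) (by omega) (hC2 x.2)
    rw [← hpdef] at hp1 hp2 hp3 hp4
    have hker : kerA R w g G Ws d g' C2 b x = (hypOf (varsA R w g G Ws d g' x.2 p)
        (formA R w g G Ws d g' x.2 p (shrink d x).1.2), (varsA R w g G Ws d g' x.2 p).length) := by
      rw [kerA, decide_eq_false htriv, hmin, ← hpdef]
      rfl
    have hcond : Cond R w g G w0 d Ws x.2 p (shrink d x).1.1 := by
      rw [hWs]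
      exact cond_of hd hg' hgg hG hw0 hw hR hp1 (by omega) (by omega) hp3 hs4
    have hE : EdgesOk d (shrink d x).1.1 (shrink d x).1.2 := fun e he => by
      obtain ⟨h1, _, h3, h4⟩ := hs1 e he
      exact ⟨h1, h3, h4⟩
    have hWs' : ∀ W ∈ Ws, ∀ i ∈ W, i < w := fun W hW i hi =>
      List.mem_range.1 (((hcond.hWs W).1 hW).1.subset hi)
    have hvars := formA_vars (R := R) (k := x.2) (E := (shrink d x).1.2) (Ws := Ws)
      hcond.hg hgg hp1.one_le hWs'
    have hwidth := formA_width (R := R) (w := w) (g := g) (G := G) (g' := g') (k := x.2) (p := p)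
      (Ws := Ws) (E := (shrink d x).1.2) hd
    have hyp : IsHyp d (hypOf (varsA R w g G Ws d g' x.2 p)
        (formA R w g G Ws d g' x.2 p (shrink d x).1.2)) := isHyp_hypOf (by omega) hvars hwidth
    rw [hker]
    refine ⟨hyp, ?_, ?_, ?_, ?_⟩
    · rw [hs2, yes_hypOf_iff hvars]
      constructor
      · rintro ⟨S, h1, h2, h3⟩
        rw [hs3] at h2
        exact formA_complete hcond hgg hE h1 h2 h3 wideA_head (narrowA_head hcond.hg hp1.one_le)
      · rintro ⟨A, hA⟩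
        obtain ⟨S, h1, h2, h3⟩ := formA_sound hcond hgg hE hA
        exact ⟨S, h1, by rw [hs3]; exact h2, h3⟩
    · show (varsA R w g G Ws d g' x.2 p).length ≤ 2 * (varsA R w g G Ws d g' x.2 p).length
      omega
    · refine (hr _ hyp).trans ?_
      have h1 : (hypOf (varsA R w g G Ws d g' x.2 p)
          (formA R w g G Ws d g' x.2 p (shrink d x).1.2)).2.length =
          (varsA R w g G Ws d g' x.2 p).length +
            (formA R w g G Ws d g' x.2 p (shrink d x).1.2).length := by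
        simp [hypOf]
      have h2 := hq x.2 p (shrink d x).1.2
      have h3 : p ≤ C2 * (x.2 + 1) := by rw [hpdef]; exact findP_le _ _ _ _
      rw [Polynomial.eval_comp]
      refine eval_mono r ?_
      simp only [h1]
      rw [Polynomial.eval_mul, Polynomial.eval_C, Polynomial.eval_comp]
      have h4 : q.eval (x.2 + p + (shrink d x).1.2.length) ≤
          q.eval (Polynomial.eval x.2 (Polynomial.X + Polynomial.C C2 *
            (Polynomial.X + 1) + (Polynomial.X + 1) ^ d)) := by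
        refine eval_mono q ?_
        simp only [Polynomial.eval_add, Polynomial.eval_mul, Polynomial.eval_X,
          Polynomial.eval_C, Polynomial.eval_one, Polynomial.eval_pow]
        omega
      have h5 : (hypOf (varsA R w g G Ws d g' x.2 p)
          (formA R w g G Ws d g' x.2 p (shrink d x).1.2)).1 =
            2 * (varsA R w g G Ws d g' x.2 p).length := rfl
      rw [h5]
      omega
    · have h1 := hC1 x.2 p (by omega) hp3
      have h2 := hD (2 * (varsA R w g G Ws d g' x.2 p).length) p x.2 (by rw [← hgg]; exact hp4)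
        (by rw [← hgg, mul_assoc]; exact Nat.mul_le_mul_left _ h1)
      have h3 : (0 : ℝ) ≤ ((x.2 : ℝ) + 1) ^ (1 + 1 / (d : ℝ) + ε) := by positivity
      exact h2.trans (mul_le_mul_of_nonneg_right (le_max_left _ _) h3)

end Pool.Agent.Helper650_HSK
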