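import Pool.Agent.Helper650_HSK.MainB
import Pool.Agent.Helper650_HSK.FinA

/-!
# The kernelization with a list of instances, one for each sequence of seeds
-/

namespace Pool.Agent.Helper650_HSK

open Pool.Agent.NPC
open List (range)

theorem wideB_head {R w g G k p : ℕ} {Ws : List (List ℕ)} :
    ∀ C ∈ wideB R w g G Ws k p, ∀ l ∈ C, l.1.head? ≠ some 21 := by
  intro C hC
  have h1 : C ∈ wideA R w g G Ws 0 0 k p := by
    rw [wideA, List.mem_append, List.mem_append]
    exact Or.inl (Or.inl hC)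
  exact wideA_head C h1

theorem narrowB'_head {R w g G d k p : ℕ} {σ E : List (List ℕ)} (hG : g = G + 2)
    (hp : 1 ≤ p) (hσ : ∀ i < w, ∀ e < g, (σ.getD i []).getD e 0 < p) :
    ∀ C ∈ narrowB' R w g G d k p σ E, ∀ l ∈ C, l.1.head? ≠ some 21 := by
  intro C hC l hl
  have hV : V1Base (vBase R w g G k p ++ vD w 0 0 p ++ vL R w g 0 0 p) R w g G k p := by
    apply V1Base_of
    intro x hx
    simp only [List.mem_append, hx, true_or]
  exact names_head (V1In_append (V1In_append (V1_narrowB hG hp hV) (V1_fU hσ hV))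
    (V1_fY hp hV) C hC l hl)

/-- The instance for the sequence of seeds `σ`. -/
def insB (R w g G : ℕ) (Ws : List (List ℕ)) (d k p : ℕ) (E σ : List (List ℕ)) : Inst :=
  (hypOf (varsB R w g G Ws k p) (formB R w g G Ws d k p σ E), (varsB R w g G Ws k p).length)

/-- The list of instances. -/
def kerB (R w g G : ℕ) (Ws : List (List ℕ)) (d C b : ℕ) (x : Inst) : List Inst :=
  bif decide ((shrink d x).1.1 ≤ x.2) then [((0, []), 0)] else
    (tupL (tup (findP C (g - 3) b (min x.2 (shrink d x).1.1)) g) w).map (fun σ =>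
      insB R w g G Ws d (min x.2 (shrink d x).1.1)
        (findP C (g - 3) b (min x.2 (shrink d x).1.1)) (shrink d x).1.2 σ)

theorem poly_kerB (R w g G : ℕ) (Ws : List (List ℕ)) (d C b : ℕ) :
    NPC.Poly (kerB R w g G Ws d C b) := by
  have hs := poly_shrink d
  have hu := uPoly_shrink d
  have hk : UPoly (fun x : Inst => min x.2 (shrink d x).1.1) :=
    R544.uPoly_min (NPC.Poly.snd NPC.Poly.id) hu
  have hp := uPoly_findP C (g - 3) b hk
  have hE : NPC.Poly (fun x : Inst => (shrink d x).1.2) := NPC.Poly.snd (NPC.Poly.fst hs)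
  unfold kerB
  refine NPC.Poly.cond (NPC.Poly.decide_le hu.toPoly (NPC.Poly.snd NPC.Poly.id))
    (NPC.Poly.const _) ?_
  refine NPC.Poly.map (F := fun (x : Inst) σ => insB R w g G Ws d (min x.2 (shrink d x).1.1)
        (findP C (g - 3) b (min x.2 (shrink d x).1.1)) (shrink d x).1.2 σ)
    (j8_tupL (poly_tup hp g) w) ?_
  have hfst : NPC.Poly (fun q : Inst × List (List ℕ) => q.1) := NPC.Poly.fst NPC.Poly.id
  obtain ⟨h1, h2⟩ := poly_formB R w g G Ws d (α := Inst × List (List ℕ))
    (k := fun q => min q.1.2 (shrink d q.1).1.1)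
    (p := fun q => findP C (g - 3) b (min q.1.2 (shrink d q.1).1.1))
    (E := fun q => (shrink d q.1).1.2) (σ := fun q => q.2) (hk.comp hfst) (hp.comp hfst)
    (NPC.Poly.snd NPC.Poly.id) (hE.comp hfst)
  exact NPC.Poly.pair (poly_hypOf h2 h1) (NPC.Poly.length h2)

theorem cond_of' {R w g G w0 d k p n c : ℕ} (hd : 3 ≤ d) (h4 : 4 ≤ g)
    (hG : G = g - 2) (hw0 : w0 = 2 * g + (g - 3) * c) (hw : w = d * w0)
    (hR : R = (g - 3) * d + (d + 2))
    (hp : p.Prime) (hb1 : (G + 2) * R ^ g ≤ p) (hb2 : 4 * (R * 2 ^ w) ≤ p)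
    (hpk : 2 * (k + 2) ≤ p ^ (g - 3)) (hn : n ≤ d * (k + 1) ^ d) :
    Cond R w g G w0 d ((range w).sublistsLen w0) k p n := by
  have hpp := hp.two_le
  have h1 : p ^ (g - 3) ≤ p ^ G := Nat.pow_le_pow_right hp.pos (by omega)
  refine ⟨hp, by omega, by omega, ?_, by omega, hb1, hb2, ?_, by omega, hw, ?_, ?_⟩
  · calc 2 * (k + 1) * p ≤ p ^ (g - 3) * p := Nat.mul_le_mul_right _ (by omega)
      _ = p ^ G := by rw [← pow_succ]; congr 1; omega
  · have : G + 1 ≤ 2 * g := by omega
    exact this.trans (by rw [hw0]; exact Nat.le_add_right _ _)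
  · intro W
    rw [List.mem_sublistsLen]
  · have h2 : (k + 1) ^ d ≤ p ^ ((g - 3) * d) := by
      rw [pow_mul]
      exact Nat.pow_le_pow_left (by omega) d
    have h3 : d + 2 ≤ p ^ (d + 2) := (Nat.lt_two_pow_self (n := d + 2)).le.trans
      (Nat.pow_le_pow_left hpp _)
    have h4 : 1 ≤ (k + 1) ^ d := Nat.one_le_pow _ _ (by omega)
    calc n + 2 ≤ d * (k + 1) ^ d + 2 := by omega
      _ ≤ (d + 2) * (k + 1) ^ d := by nlinarith
      _ ≤ p ^ (d + 2) * p ^ ((g - 3) * d) := Nat.mul_le_mul h3 h2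
      _ = p ^ R := by rw [← pow_add, hR]; congr 1; omega

/-- At most a fraction `1 / Q` of the sequences of seeds is bad. -/
theorem count_no {R w g G w0 d k p n Q : ℕ} {Ws E : List (List ℕ)}
    (h : Cond R w g G w0 d Ws k p n) (hE : EdgesOk d n E)
    (hQ : Q * (R * 2 ^ w) * p ^ G ≤ p ^ w0) {S : Finset ℕ} (hS : S ⊆ Finset.range n)
    (hSk : S.card ≤ k) (hSE : Hits S E) (P : List (List ℕ) → Bool)
    (hP : ∀ σ ∈ tupL (tup p g) w, P σ = true →
      ¬ ∃ A : Name → Bool, SatAll A (formB R w g G Ws d k p σ E)) :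
    Q * ((tupL (tup p g) w).filter P).length ≤ (tupL (tup p g) w).length := by
  classical
  have hn := h.hn
  obtain ⟨Z, hZ, hZ0, hZ1, hZR, hZS⟩ := exists_sorted (N := p ^ R) S hSk (fun v hv => by
    have := Finset.mem_range.1 (hS hv)
    omega) (by omega)
  have hcard := card_badSeq' (w0 := w0) h.hp h.hg h.hR h.hk h.hk' h.hpR hQ hZ hZR
  have h1 : ((tupL (tup p g) w).filter P).length ≤
      (Finset.univ.filter (fun τ : Fin w → Fin g → Fin p =>
        BadSeq p R g G k w w0 Z τ)).card := by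
    have hnd : (tupL (tup p g) w).Nodup := nodup_tupL (nodup_tupL List.nodup_range g) w
    rw [← List.toFinset_card_of_nodup (hnd.filter P)]
    refine Finset.card_le_card_of_injOn (toTau p g w h.hp.pos) ?_ ?_
    · intro σ hσ
      rw [Finset.mem_coe, List.mem_toFinset, List.mem_filter] at hσ
      rw [Finset.mem_coe, Finset.mem_filter]
      refine ⟨Finset.mem_univ _, ?_⟩
      by_contra hbad
      exact hP σ hσ.1 hσ.2 (formB_complete h hE hσ.1 hSE hZ hZ0 hZ1 hZS hbad wideB_head
        (narrowB'_head h.hg h.hp.one_le (fun i hi e he => seed_lt hσ.1 hi he)))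
    · intro σ hσ σ' hσ' he
      rw [Finset.mem_coe, List.mem_toFinset, List.mem_filter] at hσ hσ'
      exact toTau_inj h.hp.pos hσ.1 hσ'.1 he
  have h2 : (tupL (tup p g) w).length = (p ^ g) ^ w := by
    rw [length_tupL, length_tup]
  rw [h2]
  exact (Nat.mul_le_mul_left _ h1).trans hcard

open Classical in
theorem main_B (d : ℕ) (hd : 3 ≤ d) (c : ℕ) (ε : ℝ) (hε : 0 < ε) :
    ∃ (K : List Bool → List Bool) (C : ℝ) (h : Polynomial ℕ), PolyTime K ∧
      ∀ x : Inst, IsHyp d x.1 → ∃ ys : List Inst, K (bits x) = bits ys ∧ ys ≠ [] ∧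
        ys.length ≤ h.eval x.2 ∧
        (∀ y ∈ ys, IsHyp d y.1 ∧ (Yes y → Yes x) ∧ y.2 ≤ y.1.1 ∧
          (bits y).length ≤ h.eval x.2 ∧ (y.1.1 : ℝ) ≤ C * ((x.2 : ℝ) + 1) ^ (1 + ε)) ∧
        (Yes x → (x.2 + 1) ^ c * (ys.filter (fun y => decide (¬ Yes y))).length ≤
          ys.length) := by
  obtain ⟨g, h4, hexp⟩ := exists_exponent_B ε hε
  obtain ⟨G, hG⟩ : ∃ G, G = g - 2 := ⟨_, rfl⟩
  obtain ⟨w0, hw0⟩ : ∃ w0, w0 = 2 * g + (g - 3) * c := ⟨_, rfl⟩
  obtain ⟨w, hw⟩ : ∃ w, w = d * w0 := ⟨_, rfl⟩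
  obtain ⟨R, hR⟩ : ∃ R, R = (g - 3) * d + (d + 2) := ⟨_, rfl⟩
  obtain ⟨Ws, hWs⟩ : ∃ Ws, Ws = (range w).sublistsLen w0 := ⟨_, rfl⟩
  obtain ⟨C1, b1, hC1⟩ := length_varsB_le R w g G Ws (by omega) h4
  obtain ⟨b, hb⟩ : ∃ b, b = max (max 2 b1) (max ((G + 2) * R ^ g) (4 * (R * 2 ^ w))) := ⟨_, rfl⟩
  obtain ⟨C2, hC2⟩ := exists_prime_param (g - 3) b (by omega) (by omega)
  obtain ⟨D, hD⟩ := hexp (2 * C1) C2
  obtain ⟨q, hq⟩ := length_formB_le R w g G Ws d
  obtain ⟨r, hr⟩ := length_bits_le d
  have hPoly := poly_kerB R w g G Ws d C2 b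
  refine ⟨_, max D 0, r.comp (Polynomial.C 4 * q.comp (Polynomial.X + Polynomial.C C2 *
    (Polynomial.X + 1) + (Polynomial.X + 1) ^ d)) +
      ((Polynomial.C C2 * (Polynomial.X + 1)) ^ g) ^ w + 1,
    polyTime_opt (NPC.Poly.optMap (o := unbits Inst) (f := fun _ a => kerB R w g G Ws d C2 b a)
      poly_unbits (hPoly.comp (NPC.Poly.snd NPC.Poly.id))), ?_⟩
  intro x hx
  refine ⟨kerB R w g G Ws d C2 b x, by simp [unbits_bits], ?_⟩
  obtain ⟨hs1, hs2, hs3, hs4, hs5⟩ := shrink_ok d (by omega) x hx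
  by_cases htriv : (shrink d x).1.1 ≤ x.2
  · have hker : kerB R w g G Ws d C2 b x = [((0, []), 0)] := by
      rw [kerB, decide_eq_true htriv]
      rfl
    have hyes : Yes x := hs2.2 (yes_of_le hs1 (by rw [hs3]; exact htriv))
    rw [hker]
    refine ⟨by simp, ?_, ?_, ?_⟩
    · simp only [List.length_singleton, Polynomial.eval_add, Polynomial.eval_one]
      omega
    · intro y hy
      rw [List.mem_singleton] at hy
      subst hy
      refine ⟨fun e he => by simp at he, fun _ => hyes, le_rfl, ?_, ?_⟩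
      · refine (hr _ (fun e he => by simp at he)).trans ?_
        simp only [Polynomial.eval_add, Polynomial.eval_one]
        rw [Polynomial.eval_comp]
        have := eval_mono r (Nat.zero_le (Polynomial.eval x.2 (Polynomial.C 4 * q.comp
          (Polynomial.X + Polynomial.C C2 * (Polynomial.X + 1) + (Polynomial.X + 1) ^ d))))
        simp only [List.length_nil, Nat.add_zero]
        omega
      · have : (0 : ℝ) ≤ max D 0 := le_max_right _ _
        simp only [Nat.cast_zero]
        positivity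
    · intro _
      have : decide (¬ Yes (((0, []), 0) : Inst)) = false := by
        simp [yes_zero]
      rw [List.filter_cons_of_neg (by simp [yes_zero])]
      simp
  · have hmin : min x.2 (shrink d x).1.1 = x.2 := min_eq_left (by omega)
    obtain ⟨p, hpdef⟩ : ∃ p, p = findP C2 (g - 3) b x.2 := ⟨_, rfl⟩
    obtain ⟨hp1, hp2, hp3, hp4⟩ := findP_spec (C := C2) (b := b) (k := x.2)
      (h := g - 3) (by omega) (hC2 x.2)
    rw [← hpdef] at hp1 hp2 hp3 hp4
    have hple : p ≤ C2 * (x.2 + 1) := by rw [hpdef]; exact findP_le _ _ _ _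
    have hker : kerB R w g G Ws d C2 b x = (tupL (tup p g) w).map (fun σ =>
        insB R w g G Ws d x.2 p (shrink d x).1.2 σ) := by
      rw [kerB, decide_eq_false htriv, hmin, ← hpdef]
      rfl
    have hcond : Cond R w g G w0 d Ws x.2 p (shrink d x).1.1 := by
      rw [hWs]
      exact cond_of' hd h4 hG hw0 hw hR hp1 (by omega) (by omega) hp3 hs4
    have hE : EdgesOk d (shrink d x).1.1 (shrink d x).1.2 := fun e he => by
      obtain ⟨h1, _, h3, h4⟩ := hs1 e he
      exact ⟨h1, h3, h4⟩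
    have hWs' : ∀ W ∈ Ws, ∀ i ∈ W, i < w := fun W hW i hi =>
      List.mem_range.1 (((hcond.hWs W).1 hW).1.subset hi)
    have hvars : ∀ σ ∈ tupL (tup p g) w, ∀ C ∈ formB R w g G Ws d x.2 p σ (shrink d x).1.2,
        ∀ l ∈ C, l.1 ∈ varsB R w g G Ws x.2 p := fun σ hσ =>
      formB_vars hcond.hg hp1.one_le hWs' (fun i hi e he => seed_lt hσ hi he)
    have hlen : (tupL (tup p g) w).length = (p ^ g) ^ w := by rw [length_tupL, length_tup]
    rw [hker]
    refine ⟨?_, ?_, ?_, ?_⟩
    · intro h0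
      have h1 := congrArg List.length h0
      rw [List.length_map, hlen, List.length_nil] at h1
      have : 0 < (p ^ g) ^ w := pow_pos (pow_pos hp1.pos _) _
      omega
    · rw [List.length_map, hlen]
      have h1 : (p ^ g) ^ w ≤ ((C2 * (x.2 + 1)) ^ g) ^ w :=
        Nat.pow_le_pow_left (Nat.pow_le_pow_left hple g) w
      simp only [Polynomial.eval_add, Polynomial.eval_mul, Polynomial.eval_X,
        Polynomial.eval_C, Polynomial.eval_one, Polynomial.eval_pow]
      omega
    · intro y hy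
      rw [List.mem_map] at hy
      obtain ⟨σ, hσ, rfl⟩ := hy
      have hyp : IsHyp d (insB R w g G Ws d x.2 p (shrink d x).1.2 σ).1 :=
        isHyp_hypOf (by omega) (hvars σ hσ) (formB_width hd)
      refine ⟨hyp, ?_, ?_, ?_, ?_⟩
      · intro hy
        rw [hs2]
        rw [insB, yes_hypOf_iff (hvars σ hσ)] at hy
        obtain ⟨A, hA⟩ := hy
        obtain ⟨S, h1, h2, h3⟩ := formB_sound hcond hE hσ hA
        exact ⟨S, h1, by rw [hs3]; exact h2, h3⟩
      · show (varsB R w g G Ws x.2 p).length ≤ 2 * (varsB R w g G Ws x.2 p).length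
        omega
      · refine (hr _ hyp).trans ?_
        have h1 : (insB R w g G Ws d x.2 p (shrink d x).1.2 σ).1.2.length =
            (varsB R w g G Ws x.2 p).length +
              (formB R w g G Ws d x.2 p σ (shrink d x).1.2).length := by
          simp [insB, hypOf]
        have h2 := hq x.2 p σ (shrink d x).1.2
        have h4 : q.eval (x.2 + p + (shrink d x).1.2.length) ≤
            q.eval (Polynomial.eval x.2 (Polynomial.X + Polynomial.C C2 *
              (Polynomial.X + 1) + (Polynomial.X + 1) ^ d)) := by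
          refine eval_mono q ?_
          simp only [Polynomial.eval_add, Polynomial.eval_mul, Polynomial.eval_X,
            Polynomial.eval_C, Polynomial.eval_one, Polynomial.eval_pow]
          omega
        have h5 : (insB R w g G Ws d x.2 p (shrink d x).1.2 σ).1.1 =
              2 * (varsB R w g G Ws x.2 p).length := rfl
        have h6 : (insB R w g G Ws d x.2 p (shrink d x).1.2 σ).2 =
              (varsB R w g G Ws x.2 p).length := rfl
        rw [Polynomial.eval_add, Polynomial.eval_add, Polynomial.eval_comp]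
        refine le_trans (eval_mono r ?_) ((Nat.le_add_right _ _).trans (Nat.le_add_right _ _))
        rw [Polynomial.eval_mul, Polynomial.eval_C, Polynomial.eval_comp, h1, h5, h6]
        omega
      · have h1 := hC1 x.2 p (by omega) hp3
        have h2 := hD (2 * (varsB R w g G Ws x.2 p).length) p x.2 hp4
          (by rw [mul_assoc]; exact Nat.mul_le_mul_left _ h1)
        have h3 : (0 : ℝ) ≤ ((x.2 : ℝ) + 1) ^ (1 + ε) := by positivity
        exact h2.trans (mul_le_mul_of_nonneg_right (le_max_left _ _) h3)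
    · intro hyes
      obtain ⟨S, h1, h2, h3⟩ := hs2.1 hyes
      rw [hs3] at h2
      rw [List.length_map, List.filter_map, List.length_map]
      refine count_no (Q := (x.2 + 1) ^ c) hcond hE ?_ h1 h2 h3 _ ?_
      · have h5 : (x.2 + 1) ^ c ≤ p ^ ((g - 3) * c) := by
          rw [pow_mul]
          exact Nat.pow_le_pow_left (by omega) c
        have h6 : R * 2 ^ w ≤ p := by omega
        calc (x.2 + 1) ^ c * (R * 2 ^ w) * p ^ G ≤ p ^ ((g - 3) * c) * p * p ^ G :=
              Nat.mul_le_mul_right _ (Nat.mul_le_mul h5 h6)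
          _ = p ^ ((g - 3) * c + 1 + G) := by rw [pow_add, pow_add, pow_one]
          _ ≤ p ^ w0 := Nat.pow_le_pow_right hp1.pos (by omega)
      · intro σ hσ hno hA
        simp only [Function.comp_apply, decide_eq_true_eq] at hno
        apply hno
        rw [insB, yes_hypOf_iff (hvars σ hσ)]
        exact hA

end Pool.Agent.Helper650_HSK
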