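import Pool.Agent.Helper650_HSK.Base

/-!
# The two formulas: lists of variables, clauses for the edges
-/

namespace Pool.Agent.Helper650_HSK

open List (range)

/-! ### Variables -/

def vS (R k p : ℕ) : List Name :=
  (range R).flatMap fun m => (range (k + 2)).flatMap fun j => (range p).map fun a => nS j m a

def vC (R k : ℕ) : List Name :=
  (range (R + 1)).flatMap fun l => (range (k + 1)).map fun j => nC j l

def vT (w g p : ℕ) : List Name :=
  (range w).flatMap fun i => (range g).flatMap fun e => (range p).map fun θ => nT i e θ

def vH (R w g k p : ℕ) : List Name :=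
  (range w).flatMap fun i => (range (R + 1)).flatMap fun l => (range g).flatMap fun e =>
    (range (k + 2)).flatMap fun j => (range p).map fun x => nH i j l e x

def vR (R k p : ℕ) : List Name :=
  (range R).flatMap fun l => (range 2).flatMap fun s => (range (k + 1)).flatMap fun j =>
    (range p).map fun β => nR s j l β

def vG (R w k p : ℕ) : List Name :=
  (range w).flatMap fun i => (range R).flatMap fun l => (range 2).flatMap fun s =>
    (range (k + 1)).flatMap fun j => (range p).map fun β => nG i s j l β

def vA (R w g k p : ℕ) : List Name :=
  (range w).flatMap fun i => (range R).flatMap fun l => (range 2).flatMap fun s =>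
    (range g).flatMap fun e => (range (k + 1)).flatMap fun j => (range p).flatMap fun β =>
      (range p).map fun z => nA i s j l β e z

def vN (R w g G p : ℕ) : List Name :=
  (range w).flatMap fun i => (range R).flatMap fun l => (range (G + 1)).flatMap fun t =>
    (range g).flatMap fun e => (range p).flatMap fun x => (tup p g).map fun π => nN i l t e x π

def vY (R w g p : ℕ) : List Name :=
  (range w).flatMap fun i => (range R).flatMap fun l => (tup p g).map fun c => nY i l c

def vD (w d g' p : ℕ) : List Name :=
  (range w).flatMap fun i => (range d).flatMap fun b => (tup p g').map fun s => nD i b s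

def vL (R w g d g' p : ℕ) : List Name :=
  (range w).flatMap fun i => (range R).flatMap fun l => (range d).flatMap fun b =>
    (tup p g').flatMap fun s => (tup p g).map fun c => nL i l b s c

/-- The variables not depending on the edges and not used for splitting. -/
def vBase (R w g G k p : ℕ) : List Name :=
  vS R k p ++ vC R k ++ vT w g p ++ vH R w g k p ++ vR R k p ++ vG R w k p ++ vA R w g k p ++
    vN R w g G p ++ vY R w g p

/-! ### Clauses for the edges -/

/-- The vertex number `b` of the edge `e`, the first vertex being repeated if `e` has at most `b`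
vertices. -/
def vtx (e : List ℕ) (b : ℕ) : ℕ := e.getD b (e.headD 0)

/-- The address of the first `l + 1` digits of (the number of) the vertex `v` under the seed `τ`. -/
def adr (p R g : ℕ) (τ : List ℕ) (l v : ℕ) : List ℕ :=
  (range g).map fun e => hsh p (τ.getD e 0) (l + 1) (pre p R (l + 1) (v + 1))

/-- the blocks of the seeds -/
def fD (w d g' p : ℕ) : List Clause :=
  (range w).flatMap fun i => (range d).flatMap fun b => (tup p g').map fun s =>
    (s.zipIdx.map fun q => (nT i (b * g' + q.2) q.1, false)) ++ [(nD i b s, true)]

/-- unmarked cells together with a block of the seed -/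
def fL (R w g d g' p : ℕ) : List Clause :=
  (range w).flatMap fun i => (range R).flatMap fun l => (range d).flatMap fun b =>
    (tup p g').flatMap fun s => (tup p g).map fun c =>
      [(nY i l c, true), (nD i b s, false), (nL i l b s c, true)]

/-- the clauses for the edges, all seeds -/
def fX (R w g d g' p : ℕ) (E : List (List ℕ)) : List Clause :=
  E.flatMap fun e => (range w).flatMap fun i => (tupL (tup p g') d).flatMap fun T =>
    (tup R d).map fun ls => (range d).map fun b =>
      (nL i (ls.getD b 0) b (T.getD b []) (adr p R g T.flatten (ls.getD b 0) (vtx e b)), false)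

/-- the seeds are given -/
def fU (w g : ℕ) (σ : List (List ℕ)) : List Clause :=
  (range w).flatMap fun i => (range g).map fun e => [(nT i e ((σ.getD i []).getD e 0), true)]

/-- the clauses for the edges, given seeds -/
def fY (R w g d p : ℕ) (σ : List (List ℕ)) (E : List (List ℕ)) : List Clause :=
  E.flatMap fun e => (range w).flatMap fun i => (tup R d).map fun ls => (range d).map fun b =>
    (nY i (ls.getD b 0) (adr p R g (σ.getD i []) (ls.getD b 0) (vtx e b)), true)

/-! ### The formulas -/

def wideA (R w g G : ℕ) (Ws : List (List ℕ)) (d g' k p : ℕ) : List Clause :=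
  wideB R w g G Ws k p ++ fT w g p ++ fD w d g' p

def narrowA (R w g G d g' k p : ℕ) (E : List (List ℕ)) : List Clause :=
  narrowB R w g G k p ++ fL R w g d g' p ++ fX R w g d g' p E

/-- The formula with the seeds to be found. -/
def formA (R w g G : ℕ) (Ws : List (List ℕ)) (d g' k p : ℕ) (E : List (List ℕ)) : List Clause :=
  split (wideA R w g G Ws d g' k p) ++ narrowA R w g G d g' k p E

/-- Its variables. -/
def varsA (R w g G : ℕ) (Ws : List (List ℕ)) (d g' k p : ℕ) : List Name :=
  vBase R w g G k p ++ vD w d g' p ++ vL R w g d g' p ++ zvars (wideA R w g G Ws d g' k p)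

def narrowB' (R w g G d k p : ℕ) (σ : List (List ℕ)) (E : List (List ℕ)) : List Clause :=
  narrowB R w g G k p ++ fU w g σ ++ fY R w g d p σ E

/-- The formula with the seeds `σ`. -/
def formB (R w g G : ℕ) (Ws : List (List ℕ)) (d k p : ℕ) (σ : List (List ℕ))
    (E : List (List ℕ)) : List Clause :=
  split (wideB R w g G Ws k p) ++ narrowB' R w g G d k p σ E

/-- Its variables. -/
def varsB (R w g G : ℕ) (Ws : List (List ℕ)) (k p : ℕ) : List Name :=
  vBase R w g G k p ++ zvars (wideB R w g G Ws k p)

end Pool.Agent.Helper650_HSK
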