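import Pool.Agent.Helper650_HSK.Hash

/-!
# Counting collisions; good sequences of seeds
-/

namespace Pool.Agent.Helper650_HSK

open Polynomial in
/-- the digit polynomial -/
noncomputable def dpoly (p : ℕ) : ℕ → ℕ → (ZMod p)[X]
  | 0, _ => 0
  | L + 1, f => dpoly p L (f / p) * X + C ((f % p : ℕ) : ZMod p)

open Polynomial in
theorem dpoly_eval (p θ : ℕ) (L f : ℕ) :
    ((hsh p θ L f : ℕ) : ZMod p) = (dpoly p L f).eval (θ : ZMod p) := by
  induction L generalizing f with
  | zero => simp [hsh, dpoly]
  | succ L ih =>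
    rw [hsh, dpoly]
    rw [ZMod.natCast_mod]
    push_cast
    rw [ih]
    simp

open Polynomial in
theorem dpoly_degree (p : ℕ) (L f : ℕ) : (dpoly p L f).degree < L ∨ dpoly p L f = 0 := by
  induction L generalizing f with
  | zero => right; rfl
  | succ L ih =>
    left
    rw [dpoly]
    refine lt_of_le_of_lt (degree_add_le _ _) (max_lt ?_ ?_)
    · rcases ih (f / p) with h | h
      · by_cases h0 : dpoly p L (f / p) = 0
        · rw [h0, zero_mul, degree_zero]; exact WithBot.bot_lt_coe _
        · refine lt_of_le_of_lt (degree_mul_le _ _) ?_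
          have hX : (X : (ZMod p)[X]).degree ≤ 1 := degree_X_le
          rw [degree_eq_natDegree h0] at h ⊢
          have h1 : (dpoly p L (f / p)).natDegree < L := by exact_mod_cast h
          calc ((dpoly p L (f / p)).natDegree : WithBot ℕ) + (X : (ZMod p)[X]).degree
              ≤ ((dpoly p L (f / p)).natDegree : WithBot ℕ) + 1 := by gcongr
            _ < ((L + 1 : ℕ) : WithBot ℕ) := by
                exact_mod_cast Nat.add_lt_add_right h1 1
      · rw [h, zero_mul, degree_zero]; exact WithBot.bot_lt_coe _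
    · refine lt_of_le_of_lt degree_C_le ?_
      exact_mod_cast Nat.succ_pos L

open Polynomial in
theorem dpoly_inj (p : ℕ) (hp : p.Prime) (L f f' : ℕ) (hf : f < p ^ L) (hf' : f' < p ^ L)
    (h : dpoly p L f = dpoly p L f') : f = f' := by
  have : Fact p.Prime := ⟨hp⟩
  induction L generalizing f f' with
  | zero => simp at hf hf'; omega
  | succ L ih =>
    rw [dpoly, dpoly] at h
    have h0 : ((f % p : ℕ) : ZMod p) = ((f' % p : ℕ) : ZMod p) := by
      have := congrArg (fun q : (ZMod p)[X] => q.coeff 0) h
      simpa using this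
    have h1 : dpoly p L (f / p) = dpoly p L (f' / p) := by
      rw [h0] at h
      have := add_right_cancel h
      exact mul_right_cancel₀ X_ne_zero this
    have h2 : f / p = f' / p := by
      apply ih _ _ _ _ h1
      · rw [Nat.div_lt_iff_lt_mul hp.pos]; rwa [pow_succ] at hf
      · rw [Nat.div_lt_iff_lt_mul hp.pos]; rwa [pow_succ] at hf'
    have h3 : f % p = f' % p := by
      have := (ZMod.natCast_eq_natCast_iff' _ _ _).mp h0
      simpa using this
    rw [← Nat.div_add_mod f p, ← Nat.div_add_mod f' p, h2, h3]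

/-- TARGET 1. -/
theorem card_hsh_eq_le (p : ℕ) (hp : p.Prime) (L f f' : ℕ) (hf : f < p ^ L) (hf' : f' < p ^ L)
    (hne : f ≠ f') :
    (Finset.univ.filter (fun θ : Fin p => hsh p θ L f = hsh p θ L f')).card ≤ L := by
  have : Fact p.Prime := ⟨hp⟩
  classical
  open Polynomial in
  set P : (ZMod p)[X] := dpoly p L f - dpoly p L f' with hP
  have hP0 : P ≠ 0 := fun h => hne (dpoly_inj p hp L f f' hf hf' (sub_eq_zero.mp h))
  have hdeg : P.natDegree ≤ L := by
    rw [Polynomial.natDegree_le_iff_degree_le]
    refine (Polynomial.degree_sub_le _ _).trans (max_le ?_ ?_)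
    · rcases dpoly_degree p L f with h | h
      · exact h.le
      · rw [h]; simp
    · rcases dpoly_degree p L f' with h | h
      · exact h.le
      · rw [h]; simp
  have hle : (Finset.univ.filter (fun θ : Fin p => hsh p θ L f = hsh p θ L f')).card ≤
      P.roots.toFinset.card := by
    refine Finset.card_le_card_of_injOn (fun θ : Fin p => ((θ : ℕ) : ZMod p)) ?_ ?_
    · intro θ hθ
      simp only [Finset.coe_filter, Finset.mem_univ, true_and, Set.mem_ofPred_eq] at hθ
      simp only [Finset.mem_coe, Multiset.mem_toFinset]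
      rw [Polynomial.mem_roots hP0, Polynomial.IsRoot, hP, Polynomial.eval_sub,
        ← dpoly_eval, ← dpoly_eval, hθ, sub_self]
    · intro a _ b _ hab
      have := (ZMod.natCast_eq_natCast_iff' _ _ _).mp hab
      rw [Nat.mod_eq_of_lt a.2, Nat.mod_eq_of_lt b.2] at this
      exact Fin.ext this
  exact hle.trans ((Multiset.toFinset_card_le _).trans ((Polynomial.card_roots' P).trans hdeg))

/-- TARGET 2. -/
theorem card_addr_eq_le (p : ℕ) (hp : p.Prime) (g L t f f' : ℕ) (ht : t ≤ g) (hf : f < p ^ L)
    (hf' : f' < p ^ L) (hne : f ≠ f') :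
    (Finset.univ.filter (fun τ : Fin g → Fin p =>
      ∀ e : Fin g, e.1 < t → hsh p (τ e) L f = hsh p (τ e) L f')).card ≤ L ^ t * p ^ (g - t) := by
  classical
  have hset : (Finset.univ.filter (fun τ : Fin g → Fin p =>
      ∀ e : Fin g, e.1 < t → hsh p (τ e) L f = hsh p (τ e) L f')) =
      Fintype.piFinset (fun e : Fin g => if e.1 < t then
        Finset.univ.filter (fun θ : Fin p => hsh p θ L f = hsh p θ L f') else Finset.univ) := by
    ext τ
    simp only [Finset.mem_filter, Finset.mem_univ, true_and, Fintype.mem_piFinset]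
    refine forall_congr' fun e => ?_
    by_cases he : e.1 < t <;> simp [he]
  rw [hset, Fintype.card_piFinset]
  have hb : ∀ e : Fin g, (if e.1 < t then
        Finset.univ.filter (fun θ : Fin p => hsh p θ L f = hsh p θ L f') else
        (Finset.univ : Finset (Fin p))).card ≤ if e.1 < t then L else p := by
    intro e
    by_cases he : e.1 < t
    · simp only [he, if_true]; exact card_hsh_eq_le p hp L f f' hf hf' hne
    · simp [he]
  refine (Finset.prod_le_prod' fun e _ => hb e).trans ?_
  rw [Finset.prod_ite, Finset.prod_const, Finset.prod_const]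
  have h1 : (Finset.univ.filter (fun e : Fin g => e.1 < t)).card = t := by
    rw [Fin.card_filter_val_lt]; exact min_eq_right ht
  have h2 : (Finset.univ.filter (fun e : Fin g => ¬ e.1 < t)).card = g - t := by
    have := Finset.card_filter_add_card_filter_not (s := (Finset.univ : Finset (Fin g)))
      (p := fun e : Fin g => e.1 < t)
    rw [h1, Finset.card_univ, Fintype.card_fin] at this
    omega
  rw [h1, h2]





open Classical in
/-- TARGET 1. -/
theorem card_bad_seqs {T ι : Type} [Fintype T] (F : Finset ι) (Bad : ι → T → Prop) (M w w0 : ℕ)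
    (hM : 1 ≤ M)
    (hBad : ∀ ν ∈ F, M * (Finset.univ.filter (fun s : T => Bad ν s)).card ≤ Fintype.card T) :
    (Finset.univ.filter (fun t : Fin w → T => ∃ ν ∈ F,
      w0 ≤ (Finset.univ.filter (fun i : Fin w => Bad ν (t i))).card)).card * M ^ w0 ≤
        F.card * (2 * Fintype.card T) ^ w := by
  have h1 : ∀ ν ∈ F, ∑ t : Fin w → T, M ^ (Finset.univ.filter (fun i : Fin w => Bad ν (t i))).card ≤
      (2 * Fintype.card T) ^ w := by
    intro ν hν
    have h2 : ∀ t : Fin w → T, M ^ (Finset.univ.filter (fun i : Fin w => Bad ν (t i))).card =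
        ∏ i, (if Bad ν (t i) then M else 1) := by
      intro t
      rw [Finset.prod_ite, Finset.prod_const, Finset.prod_const_one, mul_one]
    rw [Finset.sum_congr rfl fun t _ => h2 t, ← Fintype.sum_pow (fun s : T => if Bad ν s then M else 1)]
    refine Nat.pow_le_pow_left ?_ w
    rw [Finset.sum_ite, Finset.sum_const, Finset.sum_const, smul_eq_mul, smul_eq_mul, mul_one]
    have h3 := hBad ν hν
    have h4 : (Finset.univ.filter (fun s : T => ¬ Bad ν s)).card ≤ Fintype.card T :=
      Finset.card_le_univ _
    rw [mul_comm] at h3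
    omega
  calc (Finset.univ.filter (fun t : Fin w → T => ∃ ν ∈ F,
      w0 ≤ (Finset.univ.filter (fun i : Fin w => Bad ν (t i))).card)).card * M ^ w0
      = ∑ t ∈ Finset.univ.filter (fun t : Fin w → T => ∃ ν ∈ F,
        w0 ≤ (Finset.univ.filter (fun i : Fin w => Bad ν (t i))).card), M ^ w0 := by
        rw [Finset.sum_const, smul_eq_mul]
    _ ≤ ∑ t ∈ Finset.univ.filter (fun t : Fin w → T => ∃ ν ∈ F,
        w0 ≤ (Finset.univ.filter (fun i : Fin w => Bad ν (t i))).card),
        ∑ ν ∈ F, M ^ (Finset.univ.filter (fun i : Fin w => Bad ν (t i))).card := by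
        refine Finset.sum_le_sum fun t ht => ?_
        obtain ⟨ν, hν, hw⟩ := (Finset.mem_filter.1 ht).2
        calc M ^ w0 ≤ M ^ (Finset.univ.filter (fun i : Fin w => Bad ν (t i))).card :=
              Nat.pow_le_pow_right hM hw
          _ ≤ _ := Finset.single_le_sum
              (f := fun ν => M ^ (Finset.univ.filter (fun i : Fin w => Bad ν (t i))).card)
              (fun _ _ => Nat.zero_le _) hν
    _ ≤ ∑ t : Fin w → T, ∑ ν ∈ F, M ^ (Finset.univ.filter (fun i : Fin w => Bad ν (t i))).card :=
        Finset.sum_le_sum_of_subset (Finset.filter_subset _ _)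
    _ = ∑ ν ∈ F, ∑ t : Fin w → T, M ^ (Finset.univ.filter (fun i : Fin w => Bad ν (t i))).card :=
        Finset.sum_comm
    _ ≤ ∑ ν ∈ F, (2 * Fintype.card T) ^ w := Finset.sum_le_sum h1
    _ = F.card * (2 * Fintype.card T) ^ w := by rw [Finset.sum_const, smul_eq_mul]

end Pool.Agent.Helper650_HSK
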