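import Pool.Agent.Helper650_HSK.Sound
import Pool.Agent.Helper650_HSK.HC

/-!
# The required nodes of a sorted list, and seeds which are good for them
-/

namespace Pool.Agent.Helper650_HSK

open List (range)

/-- Digit `m` of the number `Z j`. -/
def dgt (p R : ℕ) (Z : ℕ → ℕ) (j m : ℕ) : ℕ := pre p R (m + 1) (Z j) % p

/-- `Z j` and `Z (j + 1)` have the same first `l` digits. -/
def Cpr (p R : ℕ) (Z : ℕ → ℕ) (j l : ℕ) : Prop := pre p R l (Z j) = pre p R l (Z (j + 1))

/-- The required nodes. -/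
def Req (p R : ℕ) (Z : ℕ → ℕ) (s j l β : ℕ) : Prop :=
  (s = 0 ∧ dgt p R Z j l < β ∧ (¬ Cpr p R Z j l ∨ β < dgt p R Z (j + 1) l)) ∨
    (s = 1 ∧ β < dgt p R Z (j + 1) l ∧ ¬ Cpr p R Z j l)

/-- The string of digits (as a number) of a node. -/
def str (p R : ℕ) (Z : ℕ → ℕ) (s j l β : ℕ) : ℕ := pre p R l (Z (j + s)) * p + β

/-- The index of a node. -/
def idx (p s j β : ℕ) : ℕ := (2 * j + s) * p + β

/-- The position of a node at stage `t` of the network. -/
def pos (p R g G : ℕ) (Z : ℕ → ℕ) (θ : ℕ → ℕ) (t s j l β : ℕ) : List ℕ :=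
  (addr p g θ (l + 1) (str p R Z s j l β)).take (t + 2) ++ (dig p G (idx p s j β)).drop t

/-- The seed `θ` is good for the node `(s, j, l, β)`. -/
def Good (p R g G k : ℕ) (Z : ℕ → ℕ) (θ : ℕ → ℕ) (s j l β : ℕ) : Prop :=
  (∀ j' < k + 2, addr p g θ (l + 1) (str p R Z s j l β) ≠
    addr p g θ (l + 1) (pre p R (l + 1) (Z j'))) ∧
  ∀ s' < 2, ∀ j' < k + 1, ∀ β' < p, Req p R Z s' j' l β' → ∀ t ≤ G,
    pos p R g G Z θ t s' j' l β' = pos p R g G Z θ t s j l β → s' = s ∧ j' = j ∧ β' = β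

section

variable {p R g G k w w0 : ℕ} {Z : ℕ → ℕ}

theorem pre_lt {l z : ℕ} (hl : l ≤ R) (hz : z < p ^ R) : pre p R l z < p ^ l := by
  rw [pre]
  apply Nat.div_lt_of_lt_mul
  rw [← pow_add]
  exact hz.trans_eq (by congr 1; omega)

theorem req_between (hp : 0 < p) {s j l β : ℕ} (hj : Z j ≤ Z (j + 1)) (hl : l < R) (hβ : β < p)
    (h : Req p R Z s j l β) : pre p R (l + 1) (Z j) < str p R Z s j l β ∧
      str p R Z s j l β < pre p R (l + 1) (Z (j + 1)) := by
  have h1 := pre_succ (p := p) (z := Z j) hl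
  have h2 := pre_succ (p := p) (z := Z (j + 1)) hl
  have h3 : pre p R l (Z j) ≤ pre p R l (Z (j + 1)) := pre_mono hj
  have h4 : pre p R (l + 1) (Z j) % p < p := Nat.mod_lt _ hp
  rcases h with ⟨rfl, ha, hb⟩ | ⟨rfl, ha, hb⟩
  · simp only [dgt] at ha hb
    simp only [str, Nat.add_zero]
    constructor
    · rw [h1]; omega
    · rcases hb with hb | hb
      · have h5 : pre p R l (Z j) < pre p R l (Z (j + 1)) := lt_of_le_of_ne h3 hb
        have h6 : (pre p R l (Z j) + 1) * p ≤ pre p R l (Z (j + 1)) * p :=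
          Nat.mul_le_mul_right _ h5
        rw [add_mul, one_mul] at h6
        omega
      · have h6 : pre p R l (Z j) * p ≤ pre p R l (Z (j + 1)) * p := Nat.mul_le_mul_right _ h3
        omega
  · simp only [dgt] at ha
    simp only [str]
    have h5 : pre p R l (Z j) < pre p R l (Z (j + 1)) := lt_of_le_of_ne h3 hb
    have h6 : (pre p R l (Z j) + 1) * p ≤ pre p R l (Z (j + 1)) * p :=
      Nat.mul_le_mul_right _ h5
    rw [add_mul, one_mul] at h6
    constructor
    · omega
    · omega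

theorem mono_of_step {f : ℕ → ℕ} {m : ℕ} (h : ∀ j < m, f j ≤ f (j + 1)) {a b : ℕ} (hab : a ≤ b)
    (hb : b ≤ m) : f a ≤ f b := by
  obtain ⟨n, rfl⟩ := Nat.exists_eq_add_of_le hab
  induction n with
  | zero => exact le_rfl
  | succ n ih => exact (ih (by omega) (by omega)).trans (h (a + n) (by omega))

/-- Required nodes are not on the paths of the list. -/
theorem req_ne (hp : 0 < p) (hZ : ∀ j < k + 1, Z j ≤ Z (j + 1)) {s j l β : ℕ} (hj : j < k + 1)
    (hl : l < R) (hβ : β < p) (h : Req p R Z s j l β) {j' : ℕ} (hj' : j' < k + 2) :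
    str p R Z s j l β ≠ pre p R (l + 1) (Z j') := by
  obtain ⟨h1, h2⟩ := req_between hp (hZ j hj) hl hβ h
  rcases Nat.lt_or_ge j j' with h3 | h3
  · have h4 : pre p R (l + 1) (Z (j + 1)) ≤ pre p R (l + 1) (Z j') :=
      pre_mono (mono_of_step hZ (by omega) (by omega))
    omega
  · have h4 : pre p R (l + 1) (Z j') ≤ pre p R (l + 1) (Z j) :=
      pre_mono (mono_of_step hZ h3 (by omega))
    omega

/-- Distinct required nodes of the same depth have distinct strings. -/
theorem str_inj (hp : 0 < p) (hZ : ∀ j < k + 1, Z j ≤ Z (j + 1)) {s j l β s' j' β' : ℕ}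
    (hj : j < k + 1) (hl : l < R) (hβ : β < p) (h : Req p R Z s j l β) (hj' : j' < k + 1)
    (hβ' : β' < p) (h' : Req p R Z s' j' l β') (he : str p R Z s j l β = str p R Z s' j' l β') :
    s = s' ∧ j = j' ∧ β = β' := by
  have h1 := req_between hp (hZ j hj) hl hβ h
  have h2 := req_between hp (hZ j' hj') hl hβ' h'
  have h3 : j = j' := by
    rcases lt_trichotomy j j' with hlt | heq | hgt
    · have h4 : pre p R (l + 1) (Z (j + 1)) ≤ pre p R (l + 1) (Z j') :=
        pre_mono (mono_of_step hZ (by omega) (by omega))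
      omega
    · exact heq
    · have h4 : pre p R (l + 1) (Z (j' + 1)) ≤ pre p R (l + 1) (Z j) :=
        pre_mono (mono_of_step hZ (by omega) (by omega))
      omega
  subst h3
  have hmod : β = β' := by
    have := congrArg (· % p) he
    simpa [str, Nat.mul_add_mod, Nat.mod_eq_of_lt hβ, Nat.mod_eq_of_lt hβ'] using this
  have hdiv : pre p R l (Z (j + s)) = pre p R l (Z (j + s')) := by
    have := congrArg (· / p) he
    simp only [str] at this
    rw [Nat.add_comm, Nat.add_mul_div_right _ _ hp, Nat.div_eq_of_lt hβ, Nat.add_comm _ β',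
      Nat.add_mul_div_right _ _ hp, Nat.div_eq_of_lt hβ', Nat.zero_add, Nat.zero_add] at this
    exact this
  refine ⟨?_, rfl, hmod⟩
  rcases h with ⟨rfl, ha, hb⟩ | ⟨rfl, ha, hb⟩ <;> rcases h' with ⟨rfl, ha', hb'⟩ | ⟨rfl, ha', hb'⟩
  · rfl
  · exact absurd hdiv hb'
  · exact absurd hdiv.symm hb
  · rfl

end

end Pool.Agent.Helper650_HSK
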