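import Pool.Agent.Helper650_HSK.Seeds
import Pool.Agent.Helper650_HSK.Form

/-!
# The assignment belonging to a sorted list and good seeds
-/

namespace Pool.Agent.Helper650_HSK

open List (range)

/-- Data of the assignment. -/
structure Dat where
  (p R g G k g' : ℕ)
  (Z : ℕ → ℕ)
  (τ : ℕ → ℕ → ℕ)

open Classical in
/-- The assignment. -/
noncomputable def asg (D : Dat) : Name → Bool
  | [0, j, m, a] => decide (a = dgt D.p D.R D.Z j m)
  | [1, j, l] => decide (Cpr D.p D.R D.Z j l)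
  | [2, i, e, θ] => decide (θ = D.τ i e)
  | [3, i, j, l, e, x] => decide (x = hsh D.p (D.τ i e) l (pre D.p D.R l (D.Z j)))
  | [4, s, j, l, β] => decide (Req D.p D.R D.Z s j l β)
  | [5, i, s, j, l, β] => decide (Req D.p D.R D.Z s j l β ∧
      Good D.p D.R D.g D.G D.k D.Z (D.τ i) s j l β)
  | [6, i, s, j, l, β, e, z] =>
      decide (z = hsh D.p (D.τ i e) (l + 1) (str D.p D.R D.Z s j l β))
  | 7 :: i :: l :: t :: e :: x :: π => decide (∃ s < 2, ∃ j < D.k + 1, ∃ β < D.p,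
      Req D.p D.R D.Z s j l β ∧ Good D.p D.R D.g D.G D.k D.Z (D.τ i) s j l β ∧
      pos D.p D.R D.g D.G D.Z (D.τ i) t s j l β = π ∧
      x = hsh D.p (D.τ i e) (l + 1) (str D.p D.R D.Z s j l β))
  | 8 :: i :: l :: c => decide (∃ j < D.k + 2,
      c = addr D.p D.g (D.τ i) (l + 1) (pre D.p D.R (l + 1) (D.Z j)))
  | 9 :: i :: b :: s => decide (s = (range D.g').map (fun e => D.τ i (b * D.g' + e)))
  | 10 :: i :: l :: b :: c =>
      decide ((¬ ∃ j < D.k + 2,
        c.drop D.g' = addr D.p D.g (D.τ i) (l + 1) (pre D.p D.R (l + 1) (D.Z j))) ∧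
        c.take D.g' = (range D.g').map (fun e => D.τ i (b * D.g' + e)))
  | _ => false

section

variable {D : Dat}

theorem asg_S {j m a : ℕ} : asg D (nS j m a) = true ↔ a = dgt D.p D.R D.Z j m := by
  simp [nS, asg]

theorem asg_C {j l : ℕ} : asg D (nC j l) = true ↔ Cpr D.p D.R D.Z j l := by
  simp [nC, asg]

theorem asg_T {i e θ : ℕ} : asg D (nT i e θ) = true ↔ θ = D.τ i e := by
  simp [nT, asg]

theorem asg_H {i j l e x : ℕ} : asg D (nH i j l e x) = true ↔
    x = hsh D.p (D.τ i e) l (pre D.p D.R l (D.Z j)) := by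
  simp [nH, asg]

theorem asg_R {s j l β : ℕ} : asg D (nR s j l β) = true ↔ Req D.p D.R D.Z s j l β := by
  simp [nR, asg]

theorem asg_G {i s j l β : ℕ} : asg D (nG i s j l β) = true ↔ Req D.p D.R D.Z s j l β ∧
    Good D.p D.R D.g D.G D.k D.Z (D.τ i) s j l β := by
  simp [nG, asg]

theorem asg_A {i s j l β e z : ℕ} : asg D (nA i s j l β e z) = true ↔
    z = hsh D.p (D.τ i e) (l + 1) (str D.p D.R D.Z s j l β) := by
  simp [nA, asg]

theorem asg_N {i l t e x : ℕ} {π : List ℕ} : asg D (nN i l t e x π) = true ↔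
    ∃ s < 2, ∃ j < D.k + 1, ∃ β < D.p,
      Req D.p D.R D.Z s j l β ∧ Good D.p D.R D.g D.G D.k D.Z (D.τ i) s j l β ∧
      pos D.p D.R D.g D.G D.Z (D.τ i) t s j l β = π ∧
      x = hsh D.p (D.τ i e) (l + 1) (str D.p D.R D.Z s j l β) := by
  simp [nN, asg]

theorem asg_Y {i l : ℕ} {c : List ℕ} : asg D (nY i l c) = true ↔ ∃ j < D.k + 2,
    c = addr D.p D.g (D.τ i) (l + 1) (pre D.p D.R (l + 1) (D.Z j)) := by
  simp [nY, asg]

theorem asg_D {i b : ℕ} {s : List ℕ} : asg D (nD i b s) = true ↔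
    s = (range D.g').map (fun e => D.τ i (b * D.g' + e)) := by
  simp [nD, asg]

theorem asg_L {i l b : ℕ} {s c : List ℕ} (hs : s.length = D.g') :
    asg D (nL i l b s c) = true ↔ asg D (nY i l c) = false ∧ asg D (nD i b s) = true := by
  rw [← Bool.not_eq_true, asg_Y, asg_D]
  have h1 : (s ++ c).drop D.g' = c := by rw [← hs]; simp
  have h2 : (s ++ c).take D.g' = s := by rw [← hs]; simp
  simp only [nL, asg, decide_eq_true_eq, h1, h2]

end

/-- The hypotheses on the data. -/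
structure Ok (D : Dat) (w w0 : ℕ) (Ws : List (List ℕ)) : Prop where
  hp : 0 < D.p
  hg : D.g = D.G + 2
  hτ : ∀ i e, D.τ i e < D.p
  hZ : ∀ j < D.k + 1, D.Z j ≤ D.Z (j + 1)
  hZ0 : D.Z 0 = 0
  hZ1 : D.Z (D.k + 1) + 1 = D.p ^ D.R
  hWs : ∀ W ∈ Ws, W.Sublist (range w) ∧ W.length = w0
  hgood : ∀ l < D.R, ∀ s < 2, ∀ j < D.k + 1, ∀ β < D.p, Req D.p D.R D.Z s j l β →
    ∀ W : List ℕ, W.Sublist (range w) →
      (∀ i ∈ W, ¬ Good D.p D.R D.g D.G D.k D.Z (D.τ i) s j l β) → W.length < w0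

section

variable {D : Dat} {w w0 : ℕ} {Ws : List (List ℕ)}

theorem dgt_lt (h : Ok D w w0 Ws) (j m : ℕ) : dgt D.p D.R D.Z j m < D.p := Nat.mod_lt _ h.hp

theorem pre_step {j l : ℕ} (hl : l < D.R) :
    pre D.p D.R (l + 1) (D.Z j) = pre D.p D.R l (D.Z j) * D.p + dgt D.p D.R D.Z j l :=
  pre_succ hl

theorem take_pos (D : Dat) (hg : D.g = D.G + 2) (θ : ℕ → ℕ) (t s j l β : ℕ) (ht : t < D.G) :
    ∃ u v : List ℕ, ∃ b : ℕ, u.length = t + 2 ∧
      pos D.p D.R D.g D.G D.Z θ t s j l β = u ++ b :: v ∧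
      pos D.p D.R D.g D.G D.Z θ (t + 1) s j l β =
        u ++ hsh D.p (θ (t + 2)) (l + 1) (str D.p D.R D.Z s j l β) :: v := by
  set c := addr D.p D.g θ (l + 1) (str D.p D.R D.Z s j l β) with hc
  set n := dig D.p D.G (idx D.p s j β) with hn
  have hcl : c.length = D.g := length_addr _ _ _ _ _
  have hnl : n.length = D.G := length_dig _ _ _
  have ht' : t < n.length := by omega
  have htc : t + 2 < c.length := by omega
  refine ⟨c.take (t + 2), n.drop (t + 1), n[t], by rw [List.length_take]; omega, ?_, ?_⟩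
  · rw [pos, ← hc, ← hn, List.drop_eq_getElem_cons ht']
  · rw [pos, ← hc, ← hn, show t + 1 + 2 = t + 2 + 1 from rfl, ← List.take_concat_get' c (t + 2) htc,
      List.append_assoc, List.singleton_append]
    congr 2
    simp [hc, addr]

/-- The long clauses hold. -/
theorem honest_wide (h : Ok D w w0 Ws) : SatAll (asg D) (wideB D.R w D.g D.G Ws D.k D.p) := by
  simp only [wideB, satAll_append]
  refine ⟨⟨⟨?_, ?_⟩, ?_⟩, ?_⟩
  · rw [sat_fS]
    intro m _ j _
    exact ⟨_, dgt_lt h j m, asg_S.2 rfl⟩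
  · rw [sat_fH]
    intro i _ l hl e _ j _ x _ a ha θ _ h1 h2 h3
    rw [asg_H] at h1 ⊢
    rw [asg_S] at h2
    rw [asg_T] at h3
    subst h1 h2 h3
    rw [pre_step hl, hsh_succ' _ _ _ _ _ ha]
  · rw [sat_fW]
    intro l hl s hs W hW j hj β hβ hreq
    rw [asg_R] at hreq
    by_contra hcon
    push Not at hcon
    have h1 := h.hgood l hl s hs j hj β hβ hreq W (h.hWs W hW).1 (fun i hi hg => by
      exact hcon i hi (asg_G.2 ⟨hreq, hg⟩))
    have h2 := (h.hWs W hW).2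
    omega
  · rw [sat_fI]
    intro i _ l _ s hs e _ j hj β hβ z0 _ z1 _ z _ h1 h2 h3 h4
    rw [asg_G] at h1
    rw [asg_A] at h2 h3 h4
    rw [asg_N]
    refine ⟨s, hs, j, hj, β, hβ, h1.1, h1.2, ?_, h4⟩
    rw [pos, List.drop_zero, idx]
    have h5 : (addr D.p D.g (D.τ i) (l + 1) (str D.p D.R D.Z s j l β)).take (0 + 2) = [z0, z1] := by
      rw [addr, ← List.map_take, List.take_range, h.hg]
      rw [show min (0 + 2) (D.G + 2) = 2 by omega, h2, h3]
      rfl
    rw [h5]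
    rfl

/-- The short clauses hold. -/
theorem honest_narrow (h : Ok D w w0 Ws) (hG : 0 < D.g) :
    SatAll (asg D) (narrowB D.R w D.g D.G D.k D.p) := by
  simp only [narrowB, satAll_append]
  refine ⟨⟨⟨⟨⟨⟨?_, ?_⟩, ?_⟩, ?_⟩, ?_⟩, ?_⟩, ?_⟩
  · rw [sat_fE]
    constructor
    · intro m _
      rw [asg_S, dgt, h.hZ0, pre, Nat.zero_div, Nat.zero_mod]
    · intro m hm
      rw [asg_S, dgt]
      have h1 : pre D.p D.R (m + 1) (D.Z (D.k + 1)) + 1 = D.p ^ (m + 1) := by
        rw [pre]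
        have h2 : D.Z (D.k + 1) = D.p ^ (D.R - (m + 1)) * D.p ^ (m + 1) - 1 := by
          rw [← pow_add, show D.R - (m + 1) + (m + 1) = D.R by omega, ← h.hZ1]
          omega
        have h3 : 0 < D.p ^ (m + 1) := pow_pos h.hp _
        have h4 : 0 < D.p ^ (D.R - (m + 1)) := pow_pos h.hp _
        obtain ⟨q, hq⟩ : ∃ q, D.p ^ (m + 1) = q + 1 := ⟨D.p ^ (m + 1) - 1, by omega⟩
        have h5 : D.Z (D.k + 1) = D.p ^ (D.R - (m + 1)) - 1 + D.p ^ (D.R - (m + 1)) * q := by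
          rw [h2, hq, mul_add, mul_one]
          omega
        rw [h5, Nat.add_mul_div_left _ _ h4, Nat.div_eq_of_lt (by omega), zero_add, hq]
      have h6 : pre D.p D.R (m + 1) (D.Z (D.k + 1)) = (D.p ^ m - 1) * D.p + (D.p - 1) := by
        have h7 : 0 < D.p ^ m := pow_pos h.hp _
        have h8 : (D.p ^ m - 1 + 1) * D.p = D.p ^ (m + 1) := by
          rw [pow_succ]; congr 1; omega
        have := h.hp
        rw [add_mul, one_mul] at h8
        omega
      rw [h6, Nat.mul_add_mod', Nat.mod_eq_of_lt]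
      have := h.hp
      omega
  · rw [sat_fC]
    intro l hl j hj
    constructor
    · intro h1
      rw [asg_C] at h1 ⊢
      exact pre_eq_of_pre_eq h1 (by omega) (by omega)
    · intro a _ b _ hba h1 h2
      rw [asg_C] at h1
      rw [asg_S] at h2
      rw [← Bool.not_eq_true, asg_S]
      intro h3
      apply hba
      rw [h2, h3, dgt, dgt, h1]
  · rw [sat_fH0]
    intro i _ e _ j _
    rw [asg_H, hsh]
  · rw [sat_fR]
    intro l hl j hj β hβ
    constructor
    · intro a _ haβ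
      constructor
      · intro h1 h2
        rw [asg_S] at h1
        rw [← Bool.not_eq_true, asg_C] at h2
        rw [asg_R]
        exact Or.inl ⟨rfl, h1 ▸ haβ, Or.inl h2⟩
      · intro b _ hβb h1 h2
        rw [asg_S] at h1 h2
        rw [asg_R]
        exact Or.inl ⟨rfl, h1 ▸ haβ, Or.inr (h2 ▸ hβb)⟩
    · intro b _ hβb h1 h2
      rw [asg_S] at h1
      rw [← Bool.not_eq_true, asg_C] at h2
      rw [asg_R]
      exact Or.inr ⟨rfl, h1 ▸ hβb, h2⟩
  · rw [sat_fA]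
    intro i _ l hl s _ e _ j _ β hβ x _ θ _ h1 h2
    rw [asg_H] at h1
    rw [asg_T] at h2
    rw [asg_A, str, hsh_succ' _ _ _ _ _ hβ, h1, h2]
  · rw [sat_fN]
    intro i _ l _ e _ t ht u hu b _ v hv z _ x _ h1 h2
    rw [asg_N] at h1 h2 ⊢
    obtain ⟨s, hs, j, hj, β, hβ, hr, hgd, hpos, hz⟩ := h1
    obtain ⟨s', hs', j', hj', β', hβ', hr', hgd', hpos', hx⟩ := h2
    obtain ⟨rfl, rfl, rfl⟩ := hgd.2 s' hs' j' hj' β' hβ' hr' t (by omega) (hpos'.trans hpos.symm)
    refine ⟨s', hs', j', hj', β', hβ', hr, hgd, ?_, hx⟩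
    obtain ⟨u', v', b', hu', h3, h4⟩ := take_pos D h.hg (D.τ i) t s' j' l β' ht
    rw [hpos] at h3
    have h5 := List.append_inj h3 (by rw [hu', (mem_tup.1 hu).1])
    rw [h4, ← h5.1, hz]
    simp only [List.cons.injEq] at h5
    rw [h5.2.2]
  · rw [sat_fO]
    intro i _ l _ π hπ x _ h1
    rw [asg_N] at h1
    obtain ⟨s, hs, j, hj, β, hβ, hr, hgd, hpos, hx⟩ := h1
    rw [← Bool.not_eq_true, asg_Y]
    rintro ⟨j', hj', he⟩
    apply hgd.1 j' hj'
    rw [← he, ← hpos, pos, List.take_of_length_le (by rw [length_addr, h.hg]),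
      List.drop_of_length_le (by rw [length_dig]), List.append_nil]

end

end Pool.Agent.Helper650_HSK
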