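import Pool.Agent.NPC.Dec
import Pool.Agent.H601R2.PP
import Pool.Agent.R544.Util2
import Pool.Agent.H671R2.PolyAuto

/-!
# Job P2: search for the prime, size of an instance

`sz` is the size of the coding tree (`Pool.Agent.NPC.Enc`), `bits` the coding by bit strings.
-/

namespace Pool.Agent.Helper650_HSK

open Pool.Agent.NPC

abbrev Inst : Type := (ℕ × List (List ℕ)) × ℕ

def IsHyp (d : ℕ) (H : ℕ × List (List ℕ)) : Prop :=
  ∀ e ∈ H.2, e ≠ [] ∧ e.Nodup ∧ e.length ≤ d ∧ ∀ v ∈ e, v < H.1

/-- Primality test. -/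
def isP (p : ℕ) : Bool :=
  decide (2 ≤ p) && (List.range p).all (fun m => decide (m < 2) || decide (p % m ≠ 0))

/-- Search for the prime. -/
def findP (C h b k : ℕ) : ℕ :=
  ((List.range (C * (k + 1) + 1)).filter (fun p => isP p && (decide (b ≤ p) &&
    (decide (2 * (k + 2) ≤ p ^ h) && decide (p ^ h ≤ C * (k + 1)))))).headD 0

theorem isP_iff (p : ℕ) : isP p = true ↔ p.Prime := by
  unfold isP
  rw [Nat.prime_def_lt', Bool.and_eq_true, decide_eq_true_iff, List.all_eq_true]
  constructor
  · rintro ⟨h1, h2⟩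
    refine ⟨h1, fun m hm hmp hd => ?_⟩
    have h3 := h2 m (List.mem_range.2 hmp)
    rw [Bool.or_eq_true, decide_eq_true_iff, decide_eq_true_iff] at h3
    rcases h3 with h3 | h3
    · omega
    · exact h3 (Nat.mod_eq_zero_of_dvd hd)
  · rintro ⟨h1, h2⟩
    refine ⟨h1, fun m hm => ?_⟩
    rw [Bool.or_eq_true, decide_eq_true_iff, decide_eq_true_iff]
    by_cases hm2 : m < 2
    · exact Or.inl hm2
    · right
      intro h3
      exact h2 m (not_lt.1 hm2) (List.mem_range.1 hm) (Nat.dvd_of_mod_eq_zero h3)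

theorem headD_mem {l : List ℕ} (h : l ≠ []) : l.headD 0 ∈ l := by
  cases l with
  | nil => exact absurd rfl h
  | cons a l => simp

/-- TARGET 1. -/
theorem findP_spec {C h b k : ℕ} (hh : 1 ≤ h)
    (hex : ∃ p : ℕ, p.Prime ∧ b ≤ p ∧ 2 * (k + 2) ≤ p ^ h ∧ p ^ h ≤ C * (k + 1)) :
    (findP C h b k).Prime ∧ b ≤ findP C h b k ∧ 2 * (k + 2) ≤ findP C h b k ^ h ∧
      findP C h b k ^ h ≤ C * (k + 1) := by
  obtain ⟨p, hp, h1, h2, h3⟩ := hex
  have hple : p ≤ p ^ h := Nat.le_self_pow (by omega) p
  have hmem : findP C h b k ∈ (List.range (C * (k + 1) + 1)).filter (fun p => isP p &&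
      (decide (b ≤ p) && (decide (2 * (k + 2) ≤ p ^ h) && decide (p ^ h ≤ C * (k + 1))))) := by
    apply headD_mem
    apply List.ne_nil_of_mem (a := p)
    rw [List.mem_filter, List.mem_range]
    refine ⟨by omega, ?_⟩
    simp only [Bool.and_eq_true, decide_eq_true_iff]
    exact ⟨(isP_iff p).2 hp, h1, h2, h3⟩
  have h4 := (List.mem_filter.1 hmem).2
  simp only [Bool.and_eq_true, decide_eq_true_iff] at h4
  exact ⟨(isP_iff _).1 h4.1, h4.2.1, h4.2.2.1, h4.2.2.2⟩

/-- TARGET 2. -/
theorem findP_le (C h b k : ℕ) : findP C h b k ≤ C * (k + 1) := by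
  unfold findP
  generalize hl : (List.range (C * (k + 1) + 1)).filter (fun p => isP p &&
      (decide (b ≤ p) && (decide (2 * (k + 2) ≤ p ^ h) && decide (p ^ h ≤ C * (k + 1))))) = l
  by_cases h0 : l = []
  · rw [h0]
    simp
  · have h1 := headD_mem h0
    rw [← hl] at h1
    have h2 := List.mem_range.1 (List.mem_filter.1 h1).1
    rw [hl] at h2
    omega

theorem poly_powc {α : Type} [TEnc α] {f : α → ℕ} (hf : Poly f) : ∀ h : ℕ, Poly (fun a => f a ^ h)
  | 0 => by simpa using NPC.Poly.const 1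
  | h + 1 => by
    simp only [pow_succ]
    exact Poly.mul (poly_powc hf h) hf

theorem poly_isP {α : Type} [TEnc α] {f : α → ℕ} (hf : UPoly f) : Poly (fun a => isP (f a)) := by
  unfold isP
  have h1 : Poly f := hf.toPoly
  have h2 : Poly (fun a => List.range (f a)) := hf.range
  fun_prop

/-- TARGET 3. -/
theorem uPoly_findP {α : Type} [TEnc α] {k : α → ℕ} (C h b : ℕ) (hk : UPoly k) :
    UPoly (fun a => findP C h b (k a)) := by
  have hu : UPoly (fun a => C * (k a + 1)) := (UPoly.const C).mul (hk.add (UPoly.const 1))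
  refine UPoly.of_le ?_ hu (fun a => findP_le C h b (k a))
  have hr : Poly (fun a => List.range (C * (k a + 1) + 1)) := (hu.add (UPoly.const 1)).range
  have hkp : Poly k := hk.toPoly
  -- the primality test on elements of the list: numbers bounded in unary
  have hq : Poly (fun x : α × ℕ => (isP (min x.2 (C * (k x.1 + 1))) && (decide (b ≤ x.2) &&
      (decide (2 * (k x.1 + 2) ≤ x.2 ^ h) && decide (x.2 ^ h ≤ C * (k x.1 + 1)))))) := by
    have hs : Poly (fun x : α × ℕ => x.2) := Poly.snd Poly.id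
    have hp1 : Poly (fun x : α × ℕ => isP (min x.2 (C * (k x.1 + 1)))) :=
      poly_isP (R544.uPoly_min hs (hu.comp (Poly.fst Poly.id)))
    have hk1 : Poly (fun x : α × ℕ => k x.1) := hkp.comp (Poly.fst Poly.id)
    have hpow : Poly (fun x : α × ℕ => x.2 ^ h) := poly_powc hs h
    fun_prop
  have hf := Poly.filter (p := fun a n => (isP (min n (C * (k a + 1))) && (decide (b ≤ n) &&
      (decide (2 * (k a + 2) ≤ n ^ h) && decide (n ^ h ≤ C * (k a + 1)))))) hr hq
  have hh := Poly.head? hf
  refine (Poly.optGetD hh (NPC.Poly.const 0)).congr fun a => ?_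
  unfold findP
  rw [List.headD_eq_head?_getD]
  congr 2
  apply List.filter_congr
  intro n hn
  have : n ≤ C * (k a + 1) := by
    have := List.mem_range.1 hn
    omega
  rw [min_eq_left this]

/-- TARGET 4: the length of the code of a hypergraph instance with edges of size at most `d` is
bounded by a polynomial in the numbers of vertices and edges and the parameter. -/
theorem length_bits_le (d : ℕ) : ∃ h : Polynomial ℕ, ∀ x : Inst, IsHyp d x.1 →
    (bits x).length ≤ h.eval (x.1.1 + x.1.2.length + x.2) := by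
  have hnat : ∀ n : ℕ, sz n ≤ 4 * n + 1 := fun n =>
    (sz_nat_le n).trans (by have := NPC.Poly.size_le_self n; omega)
  refine ⟨(Polynomial.C 4 * Polynomial.X + Polynomial.C 1) +
    (Polynomial.X * (Polynomial.C d * (Polynomial.C 4 * Polynomial.X + Polynomial.C 2) +
      Polynomial.C 2) + Polynomial.C 1) +
    Polynomial.C 1 + (Polynomial.C 4 * Polynomial.X + Polynomial.C 1) + Polynomial.C 1, ?_⟩
  rintro ⟨⟨n, E⟩, k⟩ hx
  simp only [Polynomial.eval_add, Polynomial.eval_mul, Polynomial.eval_C, Polynomial.eval_X]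
  set N := n + E.length + k with hN
  rw [bits_length, sz_pair, sz_pair]
  have h1 : sz n ≤ 4 * N + 1 := (hnat n).trans (by omega)
  have h2 : sz k ≤ 4 * N + 1 := (hnat k).trans (by omega)
  have h3 : sz E ≤ N * (d * (4 * N + 2) + 2) + 1 := by
    have h4 : ∀ e ∈ E, sz e ≤ d * (4 * N + 2) + 1 := by
      intro e he
      obtain ⟨_, _, hed, hev⟩ := hx e he
      refine (sz_le_length_mul e (4 * N + 1) fun v hv => ?_).trans ?_
      · have h5 : v < n := hev v hv
        exact (hnat v).trans (by omega)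
      · have : e.length * (4 * N + 1 + 1) ≤ d * (4 * N + 2) := Nat.mul_le_mul_right _ hed
        omega
    refine (sz_le_length_mul E _ h4).trans ?_
    have : E.length * (d * (4 * N + 2) + 1 + 1) ≤ N * (d * (4 * N + 2) + 2) :=
      Nat.mul_le_mul_right _ (by omega)
    omega
  omega

end Pool.Agent.Helper650_HSK
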