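import Pool.Agent.Helper650_HSK.Defs

/-!
# The greedy polynomial kernel for hitting sets
-/

namespace Pool.Agent.Helper650_HSK

open Pool.Agent.NPC

/-- The sublists `C` of the first `m` elements of a list, with the thresholds `(k+1)^(m-|C|)`. -/
def subs (k : ℕ) : ℕ → List ℕ → List (List ℕ × ℕ)
  | 0, _ => [([], 1)]
  | m + 1, [] => [([], (k + 1) ^ (m + 1))]
  | m + 1, v :: e => (subs k m e).map (fun q => (q.1, (k + 1) * q.2)) ++
      (subs k m e).map (fun q => (v :: q.1, q.2))

/-- The number of edges of `M` containing `C`. -/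
def deg (M : List (List ℕ)) (C : List ℕ) : ℕ :=
  (M.filter (fun e => C.all (fun v => decide (v ∈ e)))).length

/-- The test for keeping an edge. -/
def keep (d k : ℕ) (M : List (List ℕ)) (e : List ℕ) : Bool :=
  (subs k d e).all (fun q => decide (deg M q.1 < q.2))

/-- The greedy kernel. -/
def greedy (d k : ℕ) (E : List (List ℕ)) : List (List ℕ) :=
  E.foldl (fun M e => bif keep d k M e then M ++ [e] else M) []

/-- The instance obtained from the kept edges, with the vertices renamed `0, 1, ...`. -/
def shrink (d : ℕ) (x : Inst) : Inst :=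
  (((greedy d x.2 x.1.2).flatten.dedup.length, (greedy d x.2 x.1.2).map
    (fun e => e.map (fun v => (greedy d x.2 x.1.2).flatten.dedup.idxOf v))), x.2)

/-! ### The thresholds -/

theorem k1_subs_mem (k : ℕ) : ∀ (m : ℕ) (e : List ℕ), e.length ≤ m → ∀ q ∈ subs k m e,
    q.1.Sublist e ∧ q.2 = (k + 1) ^ (m - q.1.length) := by
  intro m
  induction m with
  | zero =>
    intro e he q hq
    have : q = ([], 1) := by simpa [subs] using hq
    subst this
    simp
  | succ m ih =>
    intro e he q hq
    cases e with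
    | nil =>
      have : q = ([], (k + 1) ^ (m + 1)) := by simpa [subs] using hq
      subst this
      simp
    | cons v e =>
      have he' : e.length ≤ m := by simpa using he
      rw [subs, List.mem_append, List.mem_map, List.mem_map] at hq
      rcases hq with ⟨q', hq', rfl⟩ | ⟨q', hq', rfl⟩
      · obtain ⟨h1, h2⟩ := ih e he' q' hq'
        refine ⟨h1.cons v, ?_⟩
        have hl : q'.1.length ≤ m := h1.length_le.trans he'
        show (k + 1) * q'.2 = (k + 1) ^ (m + 1 - q'.1.length)
        rw [h2, Nat.sub_add_comm hl, pow_succ, mul_comm]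
      · obtain ⟨h1, h2⟩ := ih e he' q' hq'
        refine ⟨h1.cons_cons v, ?_⟩
        show q'.2 = (k + 1) ^ (m + 1 - (v :: q'.1).length)
        rw [h2, List.length_cons, Nat.add_sub_add_right]

theorem k1_mem_subs (k : ℕ) : ∀ (m : ℕ) (e : List ℕ), e.length ≤ m → ∀ C : List ℕ,
    C.Sublist e → (C, (k + 1) ^ (m - C.length)) ∈ subs k m e := by
  intro m
  induction m with
  | zero =>
    intro e he C hC
    have h1 : e = [] := List.length_eq_zero_iff.1 (Nat.le_zero.1 he)
    subst h1
    have h2 : C = [] := List.sublist_nil.1 hC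
    subst h2
    simp [subs]
  | succ m ih =>
    intro e he C hC
    cases e with
    | nil =>
      have h2 : C = [] := List.sublist_nil.1 hC
      subst h2
      simp [subs]
    | cons v e =>
      have he' : e.length ≤ m := by simpa using he
      rw [subs, List.mem_append, List.mem_map, List.mem_map]
      cases hC with
      | cons _ h =>
        left
        refine ⟨_, ih e he' C h, ?_⟩
        have hl : C.length ≤ m := h.length_le.trans he'
        simp only [Prod.mk.injEq, true_and]
        rw [Nat.sub_add_comm hl, pow_succ, mul_comm]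
      | cons_cons _ h =>
        right
        rename_i C'
        refine ⟨_, ih e he' C' h, ?_⟩
        simp only [Prod.mk.injEq, true_and, List.length_cons, Nat.add_sub_add_right]

/-! ### Degrees -/

/-- The number of edges containing a finite set. -/
def k1deg (M : List (List ℕ)) (C : Finset ℕ) : ℕ := M.countP (fun e => decide (∀ v ∈ C, v ∈ e))

theorem k1_deg_eq (M : List (List ℕ)) (C : List ℕ) : deg M C = k1deg M C.toFinset := by
  unfold deg k1deg
  rw [← List.countP_eq_length_filter]
  refine List.countP_congr fun e _ => ?_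
  simp

theorem k1_deg_append (M : List (List ℕ)) (e : List ℕ) (C : Finset ℕ) :
    k1deg (M ++ [e]) C = k1deg M C + if (∀ v ∈ C, v ∈ e) then 1 else 0 := by
  unfold k1deg
  rw [List.countP_append]
  congr 1
  by_cases h : ∀ v ∈ C, v ∈ e <;> simp [h]

theorem k1_keep_iff (d k : ℕ) (M : List (List ℕ)) (e : List ℕ) (hn : e.Nodup)
    (he : e.length ≤ d) :
    keep d k M e = true ↔ ∀ C : Finset ℕ, C ⊆ e.toFinset → k1deg M C < (k + 1) ^ (d - C.card) := by
  unfold keep
  rw [List.all_eq_true]
  constructor
  · intro h C hC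
    have hsub : (e.filter (fun v => decide (v ∈ C))).Sublist e := List.filter_sublist
    have := h _ (k1_mem_subs k d e he _ hsub)
    have hfs : (e.filter (fun v => decide (v ∈ C))).toFinset = C := by
      ext v
      simp only [List.mem_toFinset, List.mem_filter, decide_eq_true_eq]
      exact ⟨fun h => h.2, fun h => ⟨List.mem_toFinset.1 (hC h), h⟩⟩
    have hcard : (e.filter (fun v => decide (v ∈ C))).length = C.card := by
      rw [← List.toFinset_card_of_nodup (hn.filter _), hfs]
    rw [decide_eq_true_eq, k1_deg_eq, hfs, hcard] at this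
    exact this
  · intro h q hq
    obtain ⟨h1, h2⟩ := k1_subs_mem k d e he q hq
    rw [decide_eq_true_eq, k1_deg_eq, h2]
    have hqn : q.1.Nodup := hn.sublist h1
    rw [← List.toFinset_card_of_nodup hqn]
    refine h _ fun v hv => ?_
    rw [List.mem_toFinset] at hv ⊢
    exact h1.subset hv

/-! ### The greedy kernel -/

/-- The invariants of the greedy kernel. -/
structure K1Inv (d k : ℕ) (E M : List (List ℕ)) : Prop where
  sub : ∀ e ∈ M, e ∈ E
  deg_le : ∀ C : Finset ℕ, C.card ≤ d → k1deg M C ≤ (k + 1) ^ (d - C.card)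
  rej : ∀ e ∈ E, e ∈ M ∨ ∃ C : Finset ℕ, C ⊆ e.toFinset ∧ (k + 1) ^ (d - C.card) ≤ k1deg M C

theorem k1_inv (d k : ℕ) : ∀ (E : List (List ℕ)), (∀ e ∈ E, e.Nodup ∧ e.length ≤ d) →
    K1Inv d k E (greedy d k E) := by
  intro E
  induction E using List.reverseRecOn with
  | nil =>
    intro _
    refine ⟨fun e he => he, fun C _ => ?_, fun e he => absurd he List.not_mem_nil⟩
    simp [greedy, k1deg]
  | append_singleton E e ih =>
    intro hE
    have ih' := ih fun e' he' => hE e' (List.mem_append_left _ he')
    have he := hE e (List.mem_append_right _ (List.mem_singleton.2 rfl))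
    have hg : greedy d k (E ++ [e]) =
        bif keep d k (greedy d k E) e then greedy d k E ++ [e] else greedy d k E := by
      simp [greedy, List.foldl_append]
    rw [hg]
    cases hk : keep d k (greedy d k E) e with
    | true =>
      rw [cond_true]
      have hk' := (k1_keep_iff d k _ e he.1 he.2).1 hk
      refine ⟨fun e' he' => ?_, fun C hC => ?_, fun e' he' => ?_⟩
      · rw [List.mem_append] at he' ⊢
        exact he'.imp (ih'.sub e') id
      · rw [k1_deg_append]
        by_cases h : ∀ v ∈ C, v ∈ e
        · rw [if_pos h]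
          exact hk' C fun v hv => List.mem_toFinset.2 (h v hv)
        · rw [if_neg h]
          exact ih'.deg_le C hC
      · rw [List.mem_append] at he'
        rcases he' with he' | he'
        · rcases ih'.rej e' he' with h | ⟨C, h1, h2⟩
          · exact Or.inl (List.mem_append_left _ h)
          · refine Or.inr ⟨C, h1, h2.trans ?_⟩
            rw [k1_deg_append]
            exact Nat.le_add_right _ _
        · exact Or.inl (List.mem_append_right _ he')
    | false =>
      rw [cond_false]
      refine ⟨fun e' he' => List.mem_append_left _ (ih'.sub e' he'), ih'.deg_le, fun e' he' => ?_⟩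
      rw [List.mem_append] at he'
      rcases he' with he' | he'
      · exact ih'.rej e' he'
      · rw [List.mem_singleton] at he'
        subst he'
        right
        have : ¬ ∀ C : Finset ℕ, C ⊆ e'.toFinset →
            k1deg (greedy d k E) C < (k + 1) ^ (d - C.card) := by
          rw [← k1_keep_iff d k _ e' he.1 he.2, hk]
          simp
        push Not at this
        exact this

theorem k1_countP_le (M : List (List ℕ)) (p : List ℕ → Prop) [DecidablePred p]
    (q : ℕ → List ℕ → Prop) [∀ v, DecidablePred (q v)] (S : Finset ℕ)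
    (h : ∀ e ∈ M, p e → ∃ v ∈ S, q v e) :
    M.countP (fun e => decide (p e)) ≤ ∑ v ∈ S, M.countP (fun e => decide (q v e)) := by
  induction M with
  | nil => simp
  | cons e M ih =>
    have ih' := ih fun e' he' => h e' (List.mem_cons_of_mem _ he')
    simp only [List.countP_cons, Finset.sum_add_distrib]
    refine Nat.add_le_add ih' ?_
    by_cases hp : p e
    · obtain ⟨v, hv, hq⟩ := h e List.mem_cons_self hp
      simp only [hp, decide_true, if_true]
      calc 1 = if decide (q v e) = true then 1 else 0 := by simp [hq]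
        _ ≤ _ := Finset.single_le_sum (f := fun v => if decide (q v e) = true then 1 else 0)
          (fun _ _ => Nat.zero_le _) hv
    · simp [hp]

/-- A small hitting set meets each set of large degree. -/
theorem k1_meets (d k : ℕ) (E M : List (List ℕ)) (hE : ∀ e ∈ E, e.Nodup ∧ e.length ≤ d)
    (hM : K1Inv d k E M) (S : Finset ℕ) (hS : S.card ≤ k) (hit : Hits S M) (C : Finset ℕ)
    (hC : C.card ≤ d) (hdeg : (k + 1) ^ (d - C.card) ≤ k1deg M C) : ∃ v ∈ C, v ∈ S := by
  by_contra hno
  push Not at hno
  have hpos : 0 < k1deg M C := lt_of_lt_of_le (by positivity) hdeg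
  have key : ∀ e ∈ M, (∀ v ∈ C, v ∈ e) → ∃ v ∈ S, v ∉ C ∧ (∀ w ∈ insert v C, w ∈ e) := by
    intro e he hCe
    obtain ⟨v, hv, hvS⟩ := hit e he
    have hvC : v ∉ C := fun h => hno v h hvS
    refine ⟨v, hvS, hvC, fun w hw => ?_⟩
    rcases Finset.mem_insert.1 hw with rfl | hw
    · exact hv
    · exact hCe w hw
  rcases Nat.lt_or_ge C.card d with hlt | hge
  · have h1 : k1deg M C ≤ ∑ v ∈ S, M.countP (fun e => decide (v ∉ C ∧ ∀ w ∈ insert v C, w ∈ e)) := by
      unfold k1deg
      exact k1_countP_le M (fun e => ∀ v ∈ C, v ∈ e)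
        (fun v e => v ∉ C ∧ ∀ w ∈ insert v C, w ∈ e) S key
    have h2 : ∀ v ∈ S, M.countP (fun e => decide (v ∉ C ∧ ∀ w ∈ insert v C, w ∈ e)) ≤
        (k + 1) ^ (d - C.card - 1) := by
      intro v _
      by_cases hv : v ∈ C
      · simp [hv]
      · have hc : (insert v C).card = C.card + 1 := Finset.card_insert_of_notMem hv
        have := hM.deg_le (insert v C) (by rw [hc]; exact hlt)
        rw [hc, ← Nat.sub_sub] at this
        refine le_trans (le_of_eq ?_) this
        unfold k1deg
        refine List.countP_congr fun e _ => ?_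
        simp [hv]
    have h3 : k1deg M C ≤ k * (k + 1) ^ (d - C.card - 1) := by
      calc k1deg M C ≤ _ := h1
        _ ≤ ∑ _v ∈ S, (k + 1) ^ (d - C.card - 1) := Finset.sum_le_sum h2
        _ = S.card * (k + 1) ^ (d - C.card - 1) := by rw [Finset.sum_const, smul_eq_mul]
        _ ≤ k * (k + 1) ^ (d - C.card - 1) := Nat.mul_le_mul_right _ hS
    have h4 : (k + 1) ^ (d - C.card) = (k + 1) * (k + 1) ^ (d - C.card - 1) := by
      rw [← pow_succ']
      congr 1
      omega
    have h5 : 0 < (k + 1) ^ (d - C.card - 1) := by positivity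
    rw [h4] at hdeg
    nlinarith
  · unfold k1deg at hpos
    rw [List.countP_pos_iff] at hpos
    obtain ⟨e, he, hCe⟩ := hpos
    rw [decide_eq_true_eq] at hCe
    obtain ⟨v, hv, hvC, hw⟩ := key e he hCe
    have hsub : insert v C ⊆ e.toFinset := fun w hw' => List.mem_toFinset.2 (hw w hw')
    have hc : (insert v C).card = C.card + 1 := Finset.card_insert_of_notMem hvC
    have h1 := Finset.card_le_card hsub
    have h2 := hE e (hM.sub e he)
    rw [List.toFinset_card_of_nodup h2.1, hc] at h1
    omega

/-- A set of at most `k` vertices which meets all kept edges meets all edges. -/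
theorem k1_hits (d k : ℕ) (E : List (List ℕ)) (hE : ∀ e ∈ E, e.Nodup ∧ e.length ≤ d)
    (S : Finset ℕ) (hS : S.card ≤ k) (hit : Hits S (greedy d k E)) : Hits S E := by
  intro e he
  have hinv := k1_inv d k E hE
  rcases hinv.rej e he with h | ⟨C, h1, h2⟩
  · exact hit e h
  · have hcard : C.card ≤ d := by
      have h3 := Finset.card_le_card h1
      rw [List.toFinset_card_of_nodup (hE e he).1] at h3
      exact h3.trans (hE e he).2
    obtain ⟨v, hv, hvS⟩ := k1_meets d k E _ hE hinv S hS hit C hcard h2
    exact ⟨v, List.mem_toFinset.1 (h1 hv), hvS⟩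

/-- TARGET 1. -/
theorem shrink_ok (d : ℕ) (hd : 1 ≤ d) (x : Inst) (hx : IsHyp d x.1) :
    IsHyp d (shrink d x).1 ∧ (Yes x ↔ Yes (shrink d x)) ∧ (shrink d x).2 = x.2 ∧
      (shrink d x).1.1 ≤ d * (x.2 + 1) ^ d ∧ (shrink d x).1.2.length ≤ (x.2 + 1) ^ d := by
  have hE : ∀ e ∈ x.1.2, e.Nodup ∧ e.length ≤ d := fun e he => ⟨(hx e he).2.1, (hx e he).2.2.1⟩
  have hinv := k1_inv d x.2 x.1.2 hE
  have hlen : (greedy d x.2 x.1.2).length ≤ (x.2 + 1) ^ d := by
    have := hinv.deg_le ∅ (by simp)
    simpa [k1deg] using this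
  set M := greedy d x.2 x.1.2 with hM
  set V := M.flatten.dedup with hV
  have hmemV : ∀ e ∈ M, ∀ v ∈ e, v ∈ V := by
    intro e he v hv
    rw [hV, List.mem_dedup, List.mem_flatten]
    exact ⟨e, he, hv⟩
  have hVn : ∀ v ∈ V, v < x.1.1 := by
    intro v hv
    rw [hV, List.mem_dedup, List.mem_flatten] at hv
    obtain ⟨e, he, hv⟩ := hv
    exact (hx e (hinv.sub e he)).2.2.2 v hv
  have hs : shrink d x = ((V.length, M.map (fun e => e.map (fun v => V.idxOf v))), x.2) := rfl
  rw [hs]
  refine ⟨?_, ⟨?_, ?_⟩, rfl, ?_, ?_⟩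
  · intro e' he'
    obtain ⟨e, he, rfl⟩ := List.mem_map.1 he'
    obtain ⟨h1, h2, h3, h4⟩ := hx e (hinv.sub e he)
    refine ⟨by simpa using h1, ?_, by simpa using h3, ?_⟩
    · refine h2.map_on fun a ha b hb hab => ?_
      exact (List.idxOf_inj (hmemV e he a ha)).1 hab
    · intro v hv
      obtain ⟨w, hw, rfl⟩ := List.mem_map.1 hv
      exact List.idxOf_lt_length_iff.2 (hmemV e he w hw)
  · rintro ⟨S, hS1, hS2, hS3⟩
    refine ⟨(S.filter (· ∈ V)).image (fun v => V.idxOf v), ?_, ?_, ?_⟩
    · intro i hi
      obtain ⟨v, hv, rfl⟩ := Finset.mem_image.1 hi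
      exact Finset.mem_range.2 (List.idxOf_lt_length_iff.2 (Finset.mem_filter.1 hv).2)
    · exact Finset.card_image_le.trans ((Finset.card_filter_le _ _).trans hS2)
    · intro e' he'
      obtain ⟨e, he, rfl⟩ := List.mem_map.1 he'
      obtain ⟨v, hv, hvS⟩ := hS3 e (hinv.sub e he)
      refine ⟨V.idxOf v, List.mem_map.2 ⟨v, hv, rfl⟩, ?_⟩
      exact Finset.mem_image.2 ⟨v, Finset.mem_filter.2 ⟨hvS, hmemV e he v hv⟩, rfl⟩
  · rintro ⟨S, hS1, hS2, hS3⟩
    have hcard : (S.image (fun i => V.getD i 0)).card ≤ x.2 := Finset.card_image_le.trans hS2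
    refine ⟨S.image (fun i => V.getD i 0), ?_, hcard, ?_⟩
    · intro v hv
      obtain ⟨i, hi, rfl⟩ := Finset.mem_image.1 hv
      have hi' : i < V.length := Finset.mem_range.1 (hS1 hi)
      rw [Finset.mem_range]
      refine hVn _ ?_
      rw [List.getD_eq_getElem _ _ hi']
      exact List.getElem_mem hi'
    · refine k1_hits d x.2 x.1.2 hE _ hcard ?_
      intro e he
      obtain ⟨i, hi, hiS⟩ := hS3 _ (List.mem_map.2 ⟨e, he, rfl⟩)
      obtain ⟨v, hv, rfl⟩ := List.mem_map.1 hi
      refine ⟨v, hv, Finset.mem_image.2 ⟨_, hiS, ?_⟩⟩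
      have hlt := List.idxOf_lt_length_iff.2 (hmemV e he v hv)
      show V.getD (V.idxOf v) 0 = v
      rw [List.getD_eq_getElem _ _ hlt]
      exact List.getElem_idxOf hlt
  · have h1 : V.length ≤ M.flatten.length := (List.dedup_sublist _).length_le
    have h2 : M.flatten.length ≤ d * M.length := by
      rw [List.length_flatten]
      have : ∀ n ∈ M.map List.length, n ≤ d := by
        intro n hn
        obtain ⟨e, he, rfl⟩ := List.mem_map.1 hn
        exact (hE e (hinv.sub e he)).2
      have := List.sum_le_card_nsmul _ _ this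
      simpa [mul_comm] using this
    show V.length ≤ _
    calc V.length ≤ M.flatten.length := h1
      _ ≤ d * M.length := h2
      _ ≤ d * (x.2 + 1) ^ d := Nat.mul_le_mul_left _ hlen
  · show (M.map _).length ≤ _
    rw [List.length_map]
    exact hlen

end Pool.Agent.Helper650_HSK
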