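import Mathlib

/-!
# Job LO1: greedy hitting sets and the counting core of a lower bound

Plain words.  TARGET 1: every set of the family `F` has at least `L` of the `n` points, so some point
is in at least `L/n` of the sets; take it, remove the sets it meets, repeat `s` times.  After `s`
steps at most `|F| (1 - L/n)^s < 1` sets are left.  (Induction on `s`; if `F` is empty take `Z = ∅`;
if not, `L * |F| ≤ ∑_x |{A ∈ F | x ∈ A}|`, and a point `x` with `L * |F| ≤ n * |{A ∈ F | x ∈ A}|`
exists; the case `L = 0` is impossible for nonempty `F` since then `|F| n^s < n^s`.)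

TARGET 2: for a set `e` of size `d` and `C ∈ Cl e` let `W C` be the union of all `e'` of size `d` with
`C ∈ Cl e'`; so `e ⊆ W C`.  The number of possible `C` (sets of size at most `d` in `Fin N`) is at
most `(N+1)^d`.  Call `C ∈ Cl e` private if `W C = e`; the number of `e` having a private `C` is at
most `(N+1)^d` (`C` determines `e = W C`).  Let `e` have no private `C`.  Then at least `k - s + 1`
of the `C ∈ Cl e` have `|W C \ e| < L`: otherwise choose by TARGET 1 a set `Z1` of at most `s` points
meeting all `W C \ e` with `|W C \ e| ≥ L`, `Z1` inside the union of these sets, one point of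
`W C \ e` for each of the other `C ∈ Cl e` (at most `k - s` of them), and enlarge the union of these
points to a set `Z` of size exactly `k` disjoint from `e` (possible since `k + d ≤ n`); then no
`C ∈ Cl e` is as in the hypothesis, a contradiction.  Each `C` with `|W C| ≤ L + d` is in `Cl e` for
at most `(L+d)^d` sets `e` of size `d` (subsets of `W C`; `Nat.choose_le_pow` or so).  Double counting
gives `(choose n d - (N+1)^d) (k - s + 1) ≤ (N+1)^d (L+d)^d`.
-/

namespace Pool.Agent.Helper650_HSK

theorem h349_point {α : Type} [Fintype α] [DecidableEq α] (L : ℕ) (F : Finset (Finset α))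
    (hF : ∀ A ∈ F, L ≤ A.card) (hn : 0 < Fintype.card α) :
    ∃ x : α, L * F.card ≤ Fintype.card α * (F.filter (fun A => x ∈ A)).card := by
  by_contra hcon
  push Not at hcon
  have h1 : ∑ x : α, (F.filter (fun A => x ∈ A)).card = ∑ A ∈ F, A.card := by
    simp only [Finset.card_filter]
    rw [Finset.sum_comm]
    refine Finset.sum_congr rfl fun A _ => ?_
    simp
  have h2 : L * F.card ≤ ∑ A ∈ F, A.card := by
    calc L * F.card = ∑ _A ∈ F, L := by simp [mul_comm]
      _ ≤ _ := Finset.sum_le_sum hF
  have h3 : ∑ x : α, Fintype.card α * (F.filter (fun A => x ∈ A)).card <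
      ∑ _x : α, L * F.card := by
    have : Nonempty α := Fintype.card_pos_iff.1 hn
    exact Finset.sum_lt_sum_of_nonempty Finset.univ_nonempty fun x _ => hcon x
  rw [← Finset.mul_sum, h1, Finset.sum_const, Finset.card_univ, smul_eq_mul] at h3
  have h4 := Nat.lt_of_mul_lt_mul_left h3
  omega

/-- TARGET 1. -/
theorem lo_greedy {α : Type} [Fintype α] [DecidableEq α] (L s : ℕ) (F : Finset (Finset α))
    (hF : ∀ A ∈ F, L ≤ A.card)
    (h : F.card * (Fintype.card α - L) ^ s < Fintype.card α ^ s) :
    ∃ Z : Finset α, Z ⊆ F.biUnion id ∧ Z.card ≤ s ∧ ∀ A ∈ F, ∃ x ∈ A, x ∈ Z := by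
  induction s generalizing F with
  | zero =>
    have : F = ∅ := by
      rw [← Finset.card_eq_zero]
      simpa using h
    subst this
    exact ⟨∅, by simp, by simp, by simp⟩
  | succ s ih =>
    rcases F.eq_empty_or_nonempty with rfl | hne
    · exact ⟨∅, by simp, by simp, by simp⟩
    have hFc : 0 < F.card := Finset.card_pos.2 hne
    have hL : 0 < L := by
      rcases Nat.eq_zero_or_pos L with h0 | h0
      · exfalso
        subst h0
        simp only [Nat.sub_zero] at h
        have : 1 * Fintype.card α ^ (s + 1) ≤ F.card * Fintype.card α ^ (s + 1) :=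
          Nat.mul_le_mul_right _ hFc
        omega
      · exact h0
    obtain ⟨A₀, hA₀⟩ := hne
    have hnL : L ≤ Fintype.card α := (hF A₀ hA₀).trans (Finset.card_le_univ _)
    have hn : 0 < Fintype.card α := by omega
    obtain ⟨x, hx⟩ := h349_point L F hF hn
    have hsplit : (F.filter (fun A => x ∈ A)).card + (F.filter (fun A => ¬ x ∈ A)).card = F.card :=
      Finset.card_filter_add_card_filter_not (s := F) (p := fun A => x ∈ A)
    have hlt : (F.filter (fun A => ¬ x ∈ A)).card * (Fintype.card α - L) ^ s <
        Fintype.card α ^ s := by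
      have h1 : Fintype.card α * (F.filter (fun A => ¬ x ∈ A)).card ≤
          (Fintype.card α - L) * F.card := by
        obtain ⟨c, hc⟩ := Nat.exists_eq_add_of_le hnL
        rw [hc] at hx ⊢
        have : L + c - L = c := by omega
        rw [this]
        nlinarith
      have h2 : Fintype.card α * ((F.filter (fun A => ¬ x ∈ A)).card *
          (Fintype.card α - L) ^ s) < Fintype.card α * Fintype.card α ^ s := by
        calc Fintype.card α * ((F.filter (fun A => ¬ x ∈ A)).card * (Fintype.card α - L) ^ s)
            = (Fintype.card α * (F.filter (fun A => ¬ x ∈ A)).card) *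
                (Fintype.card α - L) ^ s := by ring
          _ ≤ ((Fintype.card α - L) * F.card) * (Fintype.card α - L) ^ s :=
              Nat.mul_le_mul_right _ h1
          _ = F.card * (Fintype.card α - L) ^ (s + 1) := by ring
          _ < Fintype.card α ^ (s + 1) := h
          _ = Fintype.card α * Fintype.card α ^ s := by ring
      exact Nat.lt_of_mul_lt_mul_left h2
    obtain ⟨Z, hZ1, hZ2, hZ3⟩ := ih (F.filter (fun A => ¬ x ∈ A))
      (fun A hA => hF A (Finset.mem_of_mem_filter A hA)) hlt
    refine ⟨insert x Z, ?_, (Finset.card_insert_le _ _).trans (by omega), ?_⟩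
    · intro y hy
      rcases Finset.mem_insert.1 hy with rfl | hy
      · have : 0 < (F.filter (fun A => y ∈ A)).card := by
          by_contra h0
          have h0' : (F.filter (fun A => y ∈ A)).card = 0 := by omega
          rw [h0'] at hx
          have : 0 < L * F.card := Nat.mul_pos hL hFc
          omega
        obtain ⟨A, hA⟩ := Finset.card_pos.1 this
        rw [Finset.mem_filter] at hA
        exact Finset.mem_biUnion.2 ⟨A, hA.1, hA.2⟩
      · obtain ⟨A, hA, hyA⟩ := Finset.mem_biUnion.1 (hZ1 hy)
        exact Finset.mem_biUnion.2 ⟨A, Finset.mem_of_mem_filter A hA, hyA⟩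
    · intro A hA
      by_cases hxA : x ∈ A
      · exact ⟨x, hxA, Finset.mem_insert_self _ _⟩
      · obtain ⟨y, hy, hyZ⟩ := hZ3 A (Finset.mem_filter.2 ⟨hA, hxA⟩)
        exact ⟨y, hy, Finset.mem_insert_of_mem hyZ⟩

/-- The number of sets of size at most `d` in `Fin N`. -/
theorem h349_small (N d : ℕ) :
    ((Finset.univ : Finset (Finset (Fin N))).filter (fun C => C.card ≤ d)).card ≤ (N + 1) ^ d := by
  classical
  have h1 : ((Finset.univ : Finset (Finset (Fin N))).filter (fun C => C.card ≤ d)) ⊆
      (Finset.univ : Finset (Fin d → Option (Fin N))).image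
        (fun g => Finset.univ.filter (fun x => ∃ i, g i = some x)) := by
    intro C hC
    rw [Finset.mem_filter] at hC
    rw [Finset.mem_image]
    refine ⟨fun i => if h : (i : ℕ) < C.card then some (C.equivFin.symm ⟨i, h⟩ : Fin N) else none,
      Finset.mem_univ _, ?_⟩
    ext x
    simp only [Finset.mem_filter, Finset.mem_univ, true_and]
    constructor
    · rintro ⟨i, hi⟩
      by_cases h : (i : ℕ) < C.card
      · rw [dif_pos h] at hi
        have := Option.some_injective _ hi
        rw [← this]
        exact (C.equivFin.symm ⟨i, h⟩).2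
      · rw [dif_neg h] at hi
        exact absurd hi (by simp)
    · intro hx
      have hlt : ((C.equivFin ⟨x, hx⟩ : Fin C.card) : ℕ) < d :=
        lt_of_lt_of_le (C.equivFin ⟨x, hx⟩).2 hC.2
      refine ⟨⟨(C.equivFin ⟨x, hx⟩ : Fin C.card), hlt⟩, ?_⟩
      simp
  refine (Finset.card_le_card h1).trans (Finset.card_image_le.trans ?_)
  simp

/-- TARGET 2. -/
theorem lo_core (d n k N s L : ℕ) (hn : k + d ≤ n) (hs : s ≤ k)
    (Cl : Finset (Fin n) → Finset (Finset (Fin N))) (hcard : ∀ e, ∀ C ∈ Cl e, C.card ≤ d)
    (h : ∀ Z e : Finset (Fin n), Z.card = k → e.card = d → Disjoint e Z →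
      ∃ C ∈ Cl e, ∀ e' : Finset (Fin n), e'.card = d → C ∈ Cl e' → Disjoint e' Z)
    (hL : (N + 1) ^ d * (n - L) ^ s < n ^ s) :
    n.choose d ≤ 2 * (N + 1) ^ d ∨
      n.choose d * (k - s + 1) ≤ 2 * ((N + 1) ^ d * (L + d) ^ d) := by
  classical
  set CC := (Finset.univ : Finset (Finset (Fin N))).filter (fun C => C.card ≤ d) with hCC
  have hCCc : CC.card ≤ (N + 1) ^ d := h349_small N d
  have hClCC : ∀ e, Cl e ⊆ CC := fun e C hC =>
    Finset.mem_filter.2 ⟨Finset.mem_univ _, hcard e C hC⟩
  set E := (Finset.univ : Finset (Fin n)).powersetCard d with hE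
  have hEc : E.card = n.choose d := by simp [hE]
  have hEm : ∀ e, e ∈ E ↔ e.card = d := by simp [hE, Finset.mem_powersetCard]
  let W : Finset (Fin N) → Finset (Fin n) := fun C => (E.filter (fun e => C ∈ Cl e)).biUnion id
  have hW : ∀ e ∈ E, ∀ C ∈ Cl e, e ⊆ W C := by
    intro e he C hC x hx
    exact Finset.mem_biUnion.2 ⟨e, Finset.mem_filter.2 ⟨he, hC⟩, hx⟩
  set Ep := E.filter (fun e => ∃ C ∈ Cl e, W C = e) with hEp
  set En := E.filter (fun e => ¬ ∃ C ∈ Cl e, W C = e) with hEn
  have hsplit : Ep.card + En.card = E.card :=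
    Finset.card_filter_add_card_filter_not (s := E) (p := fun e => ∃ C ∈ Cl e, W C = e)
  have hEpc : Ep.card ≤ (N + 1) ^ d := by
    refine le_trans ?_ hCCc
    have : Ep ⊆ CC.image W := by
      intro e he
      obtain ⟨_, C, hC, hCe⟩ := Finset.mem_filter.1 he
      exact Finset.mem_image.2 ⟨C, hClCC e hC, hCe⟩
    exact (Finset.card_le_card this).trans Finset.card_image_le
  set G : Finset (Fin n) → Finset (Finset (Fin N)) :=
    fun e => (Cl e).filter (fun C => (W C \ e).card < L) with hG
  have hGc : ∀ e ∈ En, k - s + 1 ≤ (G e).card := by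
    intro e he
    obtain ⟨heE, hpriv⟩ := Finset.mem_filter.1 he
    push Not at hpriv
    by_contra hlt
    push Not at hlt
    set F := ((Cl e).filter (fun C => L ≤ (W C \ e).card)).image (fun C => W C \ e) with hF
    have hFc : F.card ≤ (N + 1) ^ d :=
      (Finset.card_image_le.trans (Finset.card_filter_le _ _)).trans
        ((Finset.card_le_card (hClCC e)).trans hCCc)
    obtain ⟨Z1, hZ1a, hZ1b, hZ1c⟩ := lo_greedy L s F (by
      intro A hA
      obtain ⟨C, hC, rfl⟩ := Finset.mem_image.1 hA
      exact (Finset.mem_filter.1 hC).2) (by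
      rw [Fintype.card_fin]
      exact lt_of_le_of_lt (Nat.mul_le_mul_right _ hFc) hL)
    have hex : ∀ C ∈ Cl e, ∃ x, x ∈ W C \ e := by
      intro C hC
      by_contra hcon
      push Not at hcon
      apply hpriv C hC
      refine Finset.Subset.antisymm ?_ (hW e heE C hC)
      intro x hx
      by_contra hxe
      exact hcon x (Finset.mem_sdiff.2 ⟨hx, hxe⟩)
    have hn0 : 0 < n := by
      rcases Nat.eq_zero_or_pos n with h0 | h0
      · exfalso
        subst h0
        rcases Nat.eq_zero_or_pos s with h1 | h1
        · subst h1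
          have := Nat.one_le_pow d (N + 1) (by omega)
          simp only [pow_zero, mul_one] at hL
          omega
        · simp [h1.ne'] at hL
      · exact h0
    have : Nonempty (Fin n) := ⟨⟨0, hn0⟩⟩
    choose! pt hpt using hex
    set Z0 := Z1 ∪ (G e).image pt with hZ0
    have hZ0c : Z0.card ≤ k := by
      have h1 := Finset.card_union_le Z1 ((G e).image pt)
      have h2 : ((G e).image pt).card ≤ (G e).card := Finset.card_image_le
      rw [hZ0]
      omega
    have hZ0e : Z0 ⊆ eᶜ := by
      intro x hx
      rw [Finset.mem_compl]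
      rcases Finset.mem_union.1 hx with hx | hx
      · obtain ⟨A, hA, hxA⟩ := Finset.mem_biUnion.1 (hZ1a hx)
        obtain ⟨C, _, rfl⟩ := Finset.mem_image.1 hA
        exact (Finset.mem_sdiff.1 hxA).2
      · obtain ⟨C, hC, rfl⟩ := Finset.mem_image.1 hx
        exact (Finset.mem_sdiff.1 (hpt C (Finset.mem_filter.1 hC).1)).2
    have hec : e.card = d := (hEm e).1 heE
    obtain ⟨Z, hZa, hZb, hZc⟩ := Finset.exists_subsuperset_card_eq hZ0e hZ0c (by
      rw [Finset.card_compl, Fintype.card_fin, hec]; omega)
    have hdis : Disjoint e Z := by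
      rw [Finset.disjoint_left]
      intro x hx hxZ
      exact (Finset.mem_compl.1 (hZb hxZ)) hx
    obtain ⟨C, hC, hCd⟩ := h Z e hZc hec hdis
    have hWZ : ∀ x ∈ W C, x ∉ Z := by
      intro x hx
      obtain ⟨e', he', hxe'⟩ := Finset.mem_biUnion.1 hx
      obtain ⟨he'E, he'C⟩ := Finset.mem_filter.1 he'
      exact Finset.disjoint_left.1 (hCd e' ((hEm e').1 he'E) he'C) hxe'
    by_cases hsm : (W C \ e).card < L
    · have hx := hpt C hC
      apply hWZ (pt C) (Finset.mem_sdiff.1 hx).1
      apply hZa
      exact Finset.mem_union_right _ (Finset.mem_image.2 ⟨C, Finset.mem_filter.2 ⟨hC, hsm⟩, rfl⟩)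
    · push Not at hsm
      obtain ⟨x, hx, hxZ⟩ := hZ1c (W C \ e) (Finset.mem_image.2
        ⟨C, Finset.mem_filter.2 ⟨hC, hsm⟩, rfl⟩)
      exact hWZ x (Finset.mem_sdiff.1 hx).1 (hZa (Finset.mem_union_left _ hxZ))
  have hcount : ∑ e ∈ En, (G e).card ≤ (N + 1) ^ d * (L + d) ^ d := by
    have h1 : ∑ e ∈ En, (G e).card = ∑ C ∈ CC, (En.filter (fun e => C ∈ G e)).card := by
      have h2 : ∀ e ∈ En, (G e).card = ∑ C ∈ CC, if C ∈ G e then 1 else 0 := by
        intro e _
        rw [← Finset.card_filter]
        have h3 : CC.filter (fun C => C ∈ G e) = G e := by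
          ext C
          rw [Finset.mem_filter]
          constructor
          · exact fun hC => hC.2
          · intro hC
            exact ⟨hClCC e (Finset.mem_filter.1 hC).1, hC⟩
        rw [h3]
      rw [Finset.sum_congr rfl h2, Finset.sum_comm]
      refine Finset.sum_congr rfl fun C _ => ?_
      rw [Finset.card_filter]
    rw [h1]
    have h3 : ∀ C ∈ CC, (En.filter (fun e => C ∈ G e)).card ≤ (L + d) ^ d := by
      intro C _
      rcases (En.filter (fun e => C ∈ G e)).eq_empty_or_nonempty with h0 | ⟨e₀, he₀⟩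
      · rw [h0]; simp
      · obtain ⟨he1, he2⟩ := Finset.mem_filter.1 he₀
        obtain ⟨he3, he4⟩ := Finset.mem_filter.1 he2
        have hWc : (W C).card ≤ L + d := by
          have h5 : (W C).card ≤ (W C \ e₀).card + e₀.card := by
            have := Finset.card_le_card (Finset.subset_union_left (s₁ := W C) (s₂ := e₀))
            have h6 : W C ∪ e₀ = (W C \ e₀) ∪ e₀ := by
              rw [Finset.sdiff_union_self_eq_union]
            rw [h6] at this
            exact this.trans (Finset.card_union_le _ _)
          have h7 := (hEm e₀).1 (Finset.mem_filter.1 he1).1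
          omega
        have hsub : En.filter (fun e => C ∈ G e) ⊆ (W C).powersetCard d := by
          intro e he
          obtain ⟨g1, g2⟩ := Finset.mem_filter.1 he
          have g3 := (Finset.mem_filter.1 g1).1
          rw [Finset.mem_powersetCard]
          exact ⟨hW e g3 C (Finset.mem_filter.1 g2).1, (hEm e).1 g3⟩
        refine (Finset.card_le_card hsub).trans ?_
        rw [Finset.card_powersetCard]
        exact (Nat.choose_le_pow _ _).trans (Nat.pow_le_pow_left hWc d)
    calc ∑ C ∈ CC, (En.filter (fun e => C ∈ G e)).card ≤ ∑ _C ∈ CC, (L + d) ^ d :=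
          Finset.sum_le_sum h3
      _ = CC.card * (L + d) ^ d := by simp
      _ ≤ _ := Nat.mul_le_mul_right _ hCCc
  have hlow : En.card * (k - s + 1) ≤ ∑ e ∈ En, (G e).card := by
    calc En.card * (k - s + 1) = ∑ _e ∈ En, (k - s + 1) := by simp
      _ ≤ _ := Finset.sum_le_sum hGc
  by_cases hbig : n.choose d ≤ 2 * (N + 1) ^ d
  · exact Or.inl hbig
  · right
    have h8 : n.choose d ≤ 2 * En.card := by omega
    calc n.choose d * (k - s + 1) ≤ 2 * En.card * (k - s + 1) := Nat.mul_le_mul_right _ h8
      _ = 2 * (En.card * (k - s + 1)) := by ring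
      _ ≤ 2 * ((N + 1) ^ d * (L + d) ^ d) := Nat.mul_le_mul_left _ (hlow.trans hcount)

end Pool.Agent.Helper650_HSK

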