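import Mathlib

/-!
# Job LO2: the numerical part of a lower bound

Plain words.  Given `k ≥ 1`, `2 k ≤ n ≤ (k+1)^B`, `N ≥ 1` and the hypothesis (the conclusion of a
counting lemma, for all `s ≤ k` and `L`), show `N ≥ c min(n, k^(1+1/d)) k^(-ε)`.
Small cases: if `N ≥ n` this is clear (with `c ≤ 1`), and if `k ≤ k0` (constant, in particular if
`k < d` or `k = 1`) it is clear since `N ≥ 1` and `min(n, k^(1+1/d)) ≤ k0^2` (take `c` small).
So let `N < n`, `k ≥ max(d, 2)`, hence `k + d ≤ n`.  Take `s = k / 2` (at least `k/3`) and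
`L = ⌊d n log(n+1) / s⌋ + 1`.  Then `(1 - L/n)^s ≤ exp(-L s / n) < (n+1)^(-d) ≤ (N+1)^(-d)`, (if `L ≥ n` the
left side below is `0`) so that `(N+1)^d (n-L)^s < n^s`.  First alternative: `(n/d)^d ≤ choose n d ≤
2 (N+1)^d ≤ (2(N+1))^d` (`Nat.pow_le_choose` or so gives `(n/d)^d ≤ choose n d` in `ℝ`), so
`n ≤ 2 d (N+1) ≤ 4 d N`.  Second alternative: `(n/d)^d (k/4) ≤ (N+1)^d (L+d)^d`, so
`(k/4)^(1/d) n ≤ d (N+1) (L+d)`; here `L + d ≤ C n log(n+1) / k` for a constant `C` (use `n ≥ 2k`,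
`n ≥ k`, `log (n+1) ≥ log 2`), hence `(k/4)^(1/d) k ≤ d C (N+1) log(n+1)`, and
`log(n+1) ≤ (B+1) log(k+2)`-ish `≤ C' k^ε`.
-/

namespace Pool.Agent.Helper650_HSK

theorem h298_choose (d n : ℕ) (hd : 1 ≤ d) (hdn : 2 * d ≤ n) :
    (n : ℝ) ^ d ≤ (2 * d : ℝ) ^ d * (n.choose d : ℝ) := by
  have h1 : ((n + 1 - d : ℕ) : ℝ) ^ d ≤ (Nat.factorial d : ℝ) * (n.choose d : ℝ) := by
    have := Nat.pow_sub_le_descFactorial n d
    have h2 := Nat.descFactorial_eq_factorial_mul_choose n d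
    rw [h2] at this
    exact_mod_cast this
  have h2 : (Nat.factorial d : ℝ) ≤ (d : ℝ) ^ d := by exact_mod_cast Nat.factorial_le_pow d
  have h3 : (n : ℝ) ≤ 2 * ((n + 1 - d : ℕ) : ℝ) := by
    have : n ≤ 2 * (n + 1 - d) := by omega
    exact_mod_cast this
  calc (n : ℝ) ^ d ≤ (2 * ((n + 1 - d : ℕ) : ℝ)) ^ d := pow_le_pow_left₀ (by positivity) h3 d
    _ = 2 ^ d * ((n + 1 - d : ℕ) : ℝ) ^ d := mul_pow _ _ _
    _ ≤ 2 ^ d * ((Nat.factorial d : ℝ) * (n.choose d : ℝ)) := by gcongr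
    _ ≤ 2 ^ d * ((d : ℝ) ^ d * (n.choose d : ℝ)) := by gcongr
    _ = _ := by rw [mul_pow]; ring

set_option maxHeartbeats 4000000 in
/-- The main case. -/
theorem h298_main (d : ℕ) (hd : 1 ≤ d) (B : ℕ) (ε : ℝ) (hε : 0 < ε) (k n N : ℕ)
    (hk2 : 2 ≤ k) (hkd : d ≤ k) (hkn : 2 * k ≤ n) (hn : n ≤ (k + 1) ^ B) (hN : 1 ≤ N)
    (hNn : N < n)
    (H : ∀ s L : ℕ, s ≤ k → (N + 1) ^ d * (n - L) ^ s < n ^ s →
        (n.choose d ≤ 2 * (N + 1) ^ d ∨
          n.choose d * (k - s + 1) ≤ 2 * ((N + 1) ^ d * (L + d) ^ d))) :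
    (n : ℝ) ≤ 8 * d * N ∨
      (k : ℝ) ^ (1 + 1 / (d : ℝ)) * (k : ℝ) ^ (-ε) ≤ 160 * d ^ 2 * (B + 1) / ε * N := by
  have hdR : (1 : ℝ) ≤ d := by exact_mod_cast hd
  have hkR : (2 : ℝ) ≤ k := by exact_mod_cast hk2
  have hnR : 2 * (k : ℝ) ≤ n := by exact_mod_cast hkn
  have hNR : (1 : ℝ) ≤ N := by exact_mod_cast hN
  have hn0 : (0 : ℝ) < n := by linarith
  set s := k / 2 with hs
  have hs1 : 1 ≤ s := by omega
  have hs3 : k ≤ 3 * s := by omega
  have hsk : s ≤ k := by omega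
  have hs1R : (1 : ℝ) ≤ s := by exact_mod_cast hs1
  have hs3R : (k : ℝ) ≤ 3 * s := by exact_mod_cast hs3
  have hlog : 1 ≤ Real.log ((n : ℝ) + 1) := by
    rw [Real.le_log_iff_exp_le (by linarith)]
    have := Real.exp_one_lt_d9
    linarith
  set X : ℝ := d * n * Real.log ((n : ℝ) + 1) / s with hX
  have hX0 : 0 ≤ X := by positivity
  set L := ⌊X⌋₊ + 1 with hL
  have hLX : X < L := by rw [hL]; push_cast; exact Nat.lt_floor_add_one X
  have hLX2 : (L : ℝ) ≤ X + 1 := by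
    rw [hL]; push_cast; linarith [Nat.floor_le hX0]
  have hlt : (N + 1) ^ d * (n - L) ^ s < n ^ s := by
    by_cases hLn : n ≤ L
    · rw [Nat.sub_eq_zero_of_le hLn, zero_pow (by omega), mul_zero]
      apply pow_pos
      omega
    · push Not at hLn
      have h1 : (((N + 1) ^ d * (n - L) ^ s : ℕ) : ℝ) < ((n ^ s : ℕ) : ℝ) := by
        push_cast [Nat.cast_sub hLn.le]
        have h2 : ((n : ℝ) - L) = n * (1 - L / n) := by
          field_simp
        have h3 : (1 - (L : ℝ) / n) ≤ Real.exp (-((L : ℝ) / n)) := by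
          have := Real.add_one_le_exp (-((L : ℝ) / n))
          linarith
        have h4 : 0 ≤ (1 - (L : ℝ) / n) := by
          have : (L : ℝ) < n := by exact_mod_cast hLn
          have : (L : ℝ) / n < 1 := by rw [div_lt_one hn0]; exact this
          linarith
        have h5 : (1 - (L : ℝ) / n) ^ s ≤ Real.exp (-((L : ℝ) * s / n)) := by
          calc (1 - (L : ℝ) / n) ^ s ≤ (Real.exp (-((L : ℝ) / n))) ^ s :=
                pow_le_pow_left₀ h4 h3 s
            _ = Real.exp (-((L : ℝ) * s / n)) := by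
                rw [← Real.exp_nat_mul]; congr 1; ring
        have h6 : Real.exp (-((L : ℝ) * s / n)) < Real.exp (-(d * Real.log ((n : ℝ) + 1))) := by
          apply Real.exp_lt_exp.mpr
          apply neg_lt_neg
          rw [lt_div_iff₀ hn0]
          rw [hX, div_lt_iff₀ (by linarith)] at hLX
          linarith
        have h7 : Real.exp (-(d * Real.log ((n : ℝ) + 1))) = (((n : ℝ) + 1) ^ d)⁻¹ := by
          rw [Real.exp_neg, Real.exp_nat_mul, Real.exp_log (by linarith)]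
        have h8 : ((N : ℝ) + 1) ^ d ≤ ((n : ℝ) + 1) ^ d := by
          apply pow_le_pow_left₀ (by positivity)
          have : (N : ℝ) < n := by exact_mod_cast hNn
          linarith
        rw [h2, mul_pow]
        calc ((N : ℝ) + 1) ^ d * ((n : ℝ) ^ s * (1 - (L : ℝ) / n) ^ s)
            ≤ ((n : ℝ) + 1) ^ d * ((n : ℝ) ^ s * (1 - (L : ℝ) / n) ^ s) := by
              apply mul_le_mul_of_nonneg_right h8
              positivity
          _ < ((n : ℝ) + 1) ^ d * ((n : ℝ) ^ s * (((n : ℝ) + 1) ^ d)⁻¹) := by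
              apply mul_lt_mul_of_pos_left _ (by positivity)
              apply mul_lt_mul_of_pos_left _ (by positivity)
              rw [← h7]
              exact lt_of_le_of_lt h5 h6
          _ = (n : ℝ) ^ s := by
              field_simp
      exact_mod_cast h1
  have hch := h298_choose d n hd (by omega)
  rcases H s L hsk hlt with h1 | h1
  · left
    have h1R : (n.choose d : ℝ) ≤ 2 * ((N : ℝ) + 1) ^ d := by exact_mod_cast h1
    have h2 : (n : ℝ) ^ d ≤ (4 * d * ((N : ℝ) + 1)) ^ d := by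
      calc (n : ℝ) ^ d ≤ (2 * d : ℝ) ^ d * (n.choose d : ℝ) := hch
        _ ≤ (2 * d : ℝ) ^ d * (2 * ((N : ℝ) + 1) ^ d) := by gcongr
        _ ≤ (2 * d : ℝ) ^ d * (2 ^ d * ((N : ℝ) + 1) ^ d) := by
            gcongr
            calc (2 : ℝ) = 2 ^ 1 := by norm_num
              _ ≤ 2 ^ d := pow_le_pow_right₀ (by norm_num) hd
        _ = _ := by rw [← mul_pow, ← mul_pow]; congr 1; ring
    have h3 : (n : ℝ) ≤ 4 * d * ((N : ℝ) + 1) :=
      le_of_pow_le_pow_left₀ (by omega) (by positivity) h2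
    nlinarith
  · right
    have h1R : (n.choose d : ℝ) * ((k : ℝ) / 2) ≤ 2 * (((N : ℝ) + 1) ^ d * ((L : ℝ) + d) ^ d) := by
      have h2 : (n.choose d : ℝ) * ((k - s + 1 : ℕ) : ℝ) ≤
          2 * (((N : ℝ) + 1) ^ d * ((L : ℝ) + d) ^ d) := by exact_mod_cast h1
      refine le_trans ?_ h2
      apply mul_le_mul_of_nonneg_left _ (by positivity)
      have : k ≤ 2 * (k - s + 1) := by omega
      have : (k : ℝ) ≤ 2 * ((k - s + 1 : ℕ) : ℝ) := by exact_mod_cast this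
      linarith
    have h2 : (n : ℝ) ^ d * k ≤ (8 * d * (((N : ℝ) + 1) * ((L : ℝ) + d))) ^ d := by
      calc (n : ℝ) ^ d * k ≤ ((2 * d : ℝ) ^ d * (n.choose d : ℝ)) * k := by gcongr
        _ = 2 * ((2 * d : ℝ) ^ d) * ((n.choose d : ℝ) * ((k : ℝ) / 2)) := by ring
        _ ≤ 2 * ((2 * d : ℝ) ^ d) * (2 * (((N : ℝ) + 1) ^ d * ((L : ℝ) + d) ^ d)) := by gcongr
        _ = 4 * ((2 * d : ℝ) ^ d * (((N : ℝ) + 1) ^ d * ((L : ℝ) + d) ^ d)) := by ring
        _ ≤ 4 ^ d * ((2 * d : ℝ) ^ d * (((N : ℝ) + 1) ^ d * ((L : ℝ) + d) ^ d)) := by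
            gcongr
            calc (4 : ℝ) = 4 ^ 1 := by norm_num
              _ ≤ 4 ^ d := pow_le_pow_right₀ (by norm_num) hd
        _ = _ := by rw [← mul_pow, ← mul_pow, ← mul_pow]; congr 1; ring
    have hk0 : (0 : ℝ) < k := by linarith
    have h3 : (n : ℝ) * (k : ℝ) ^ (1 / (d : ℝ)) ≤ 8 * d * (((N : ℝ) + 1) * ((L : ℝ) + d)) := by
      apply le_of_pow_le_pow_left₀ (n := d) (by omega) (by positivity)
      rw [mul_pow]
      have : ((k : ℝ) ^ (1 / (d : ℝ))) ^ d = k := by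
        rw [← Real.rpow_natCast, ← Real.rpow_mul hk0.le]
        rw [one_div_mul_cancel (by positivity), Real.rpow_one]
      rw [this]
      exact h2
    have h4 : (L : ℝ) + d ≤ 5 * d * (n * Real.log ((n : ℝ) + 1) / k) := by
      have e1 : X ≤ 3 * d * (n * Real.log ((n : ℝ) + 1) / k) := by
        rw [hX, div_le_iff₀ (by linarith)]
        have : 3 * (d : ℝ) * (n * Real.log ((n : ℝ) + 1) / k) * s =
            d * n * Real.log ((n : ℝ) + 1) * (3 * s / k) := by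
          field_simp
        rw [this]
        have h6 : 1 ≤ 3 * (s : ℝ) / k := by rw [le_div_iff₀ hk0]; linarith
        have h7 : 0 ≤ (d : ℝ) * n * Real.log ((n : ℝ) + 1) := by positivity
        nlinarith
      have e2 : 1 ≤ n * Real.log ((n : ℝ) + 1) / k := by
        rw [le_div_iff₀ hk0]
        nlinarith
      nlinarith
    have h5 : (k : ℝ) ^ (1 + 1 / (d : ℝ)) ≤ 80 * d ^ 2 * N * Real.log ((n : ℝ) + 1) := by
      rw [Real.rpow_add hk0, Real.rpow_one]
      have e1 : (n : ℝ) * (k : ℝ) ^ (1 / (d : ℝ)) ≤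
          8 * d * ((2 * (N : ℝ)) * (5 * d * (n * Real.log ((n : ℝ) + 1) / k))) := by
        refine h3.trans ?_
        apply mul_le_mul_of_nonneg_left _ (by positivity)
        apply mul_le_mul _ h4 (by positivity) (by positivity)
        linarith
      have e2 : 8 * d * ((2 * (N : ℝ)) * (5 * d * (n * Real.log ((n : ℝ) + 1) / k))) =
          n * (80 * d ^ 2 * N * Real.log ((n : ℝ) + 1) / k) := by
        field_simp
        ring
      rw [e2] at e1
      have e3 := le_of_mul_le_mul_left e1 hn0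
      rw [le_div_iff₀ hk0] at e3
      linarith
    have h6 : Real.log ((n : ℝ) + 1) ≤ (B + 1) * (2 * ((k : ℝ) ^ ε / ε)) := by
      have e1 : n + 1 ≤ (k + 1) ^ (B + 1) := by
        calc n + 1 ≤ (k + 1) ^ B + 1 := by omega
          _ ≤ (k + 1) ^ B + (k + 1) ^ B := by
              have := Nat.one_le_pow B (k + 1) (by omega)
              omega
          _ = (k + 1) ^ B * 2 := by ring
          _ ≤ (k + 1) ^ B * (k + 1) := Nat.mul_le_mul_left _ (by omega)
          _ = (k + 1) ^ (B + 1) := (pow_succ _ _).symm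
      have e2 : ((n : ℝ) + 1) ≤ ((k : ℝ) + 1) ^ (B + 1) := by exact_mod_cast e1
      have e3 : Real.log ((n : ℝ) + 1) ≤ (B + 1) * Real.log ((k : ℝ) + 1) := by
        have := Real.log_le_log (by linarith) e2
        rw [Real.log_pow] at this
        push_cast at this
        exact this
      have e4 : Real.log ((k : ℝ) + 1) ≤ 2 * Real.log k := by
        have h7 : (k : ℝ) + 1 ≤ (k : ℝ) ^ 2 := by nlinarith
        have := Real.log_le_log (by linarith) h7
        rw [Real.log_pow] at this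
        push_cast at this
        exact this
      have e5 : Real.log k ≤ (k : ℝ) ^ ε / ε := Real.log_le_rpow_div hk0.le hε
      calc Real.log ((n : ℝ) + 1) ≤ (B + 1) * Real.log ((k : ℝ) + 1) := e3
        _ ≤ (B + 1) * (2 * ((k : ℝ) ^ ε / ε)) := by
            apply mul_le_mul_of_nonneg_left _ (by positivity)
            linarith
    have hkε : (k : ℝ) ^ ε * (k : ℝ) ^ (-ε) = 1 := by
      rw [← Real.rpow_add hk0, add_neg_cancel, Real.rpow_zero]
    have hkε0 : 0 < (k : ℝ) ^ (-ε) := Real.rpow_pos_of_pos hk0 _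
    calc (k : ℝ) ^ (1 + 1 / (d : ℝ)) * (k : ℝ) ^ (-ε)
        ≤ (80 * d ^ 2 * N * Real.log ((n : ℝ) + 1)) * (k : ℝ) ^ (-ε) := by gcongr
      _ ≤ (80 * d ^ 2 * N * ((B + 1) * (2 * ((k : ℝ) ^ ε / ε)))) * (k : ℝ) ^ (-ε) := by gcongr
      _ = 160 * d ^ 2 * (B + 1) / ε * N * ((k : ℝ) ^ ε * (k : ℝ) ^ (-ε)) := by
          field_simp
          ring
      _ = 160 * d ^ 2 * (B + 1) / ε * N := by rw [hkε, mul_one]

/-- TARGET 1. -/
theorem lo_numeric (d : ℕ) (hd : 1 ≤ d) (B : ℕ) (ε : ℝ) (hε : 0 < ε) :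
    ∃ c : ℝ, 0 < c ∧ ∀ k n N : ℕ, 1 ≤ k → 2 * k ≤ n → n ≤ (k + 1) ^ B → 1 ≤ N →
      (k + d ≤ n → ∀ s L : ℕ, s ≤ k → (N + 1) ^ d * (n - L) ^ s < n ^ s →
        (n.choose d ≤ 2 * (N + 1) ^ d ∨
          n.choose d * (k - s + 1) ≤ 2 * ((N + 1) ^ d * (L + d) ^ d))) →
      c * min (n : ℝ) ((k : ℝ) ^ (1 + 1 / (d : ℝ))) * (k : ℝ) ^ (-ε) ≤ N := by
  have hdR : (1 : ℝ) ≤ d := by exact_mod_cast hd
  set K : ℝ := (d : ℝ) + 2 with hK
  refine ⟨min (min 1 (1 / K ^ 2)) (min (1 / (8 * d)) (1 / (160 * d ^ 2 * (B + 1) / ε))),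
    by positivity, ?_⟩
  intro k n N hk hkn hn hN H
  set c := min (min 1 (1 / K ^ 2)) (min (1 / (8 * (d : ℝ))) (1 / (160 * d ^ 2 * (B + 1) / ε)))
    with hc
  have hc0 : 0 < c := by positivity
  have hc1 : c ≤ 1 := (min_le_left _ _).trans (min_le_left _ _)
  have hc2 : c ≤ 1 / K ^ 2 := (min_le_left _ _).trans (min_le_right _ _)
  have hc3 : c ≤ 1 / (8 * d) := (min_le_right _ _).trans (min_le_left _ _)
  have hc4 : c ≤ 1 / (160 * d ^ 2 * (B + 1) / ε) := (min_le_right _ _).trans (min_le_right _ _)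
  have hkR : (1 : ℝ) ≤ k := by exact_mod_cast hk
  have hNR : (1 : ℝ) ≤ N := by exact_mod_cast hN
  have hk0 : (0 : ℝ) < k := by linarith
  have hn0 : (0 : ℝ) ≤ n := by positivity
  have hke : (k : ℝ) ^ (-ε) ≤ 1 := by
    apply Real.rpow_le_one_of_one_le_of_nonpos hkR
    linarith
  have hke0 : 0 ≤ (k : ℝ) ^ (-ε) := by positivity
  set m := min (n : ℝ) ((k : ℝ) ^ (1 + 1 / (d : ℝ))) with hm
  have hm0 : 0 ≤ m := le_min hn0 (by positivity)
  have hmn : m ≤ n := min_le_left _ _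
  have hmk : m ≤ (k : ℝ) ^ (1 + 1 / (d : ℝ)) := min_le_right _ _
  by_cases h1 : n ≤ N
  · have : (n : ℝ) ≤ N := by exact_mod_cast h1
    calc c * m * (k : ℝ) ^ (-ε) ≤ 1 * n * 1 := by gcongr
      _ ≤ N := by linarith
  push Not at h1
  by_cases h2 : 2 ≤ k ∧ d ≤ k
  · rcases h298_main d hd B ε hε k n N h2.1 h2.2 hkn hn hN h1 (H (by omega)) with h3 | h3
    · calc c * m * (k : ℝ) ^ (-ε) ≤ (1 / (8 * d)) * n * 1 := by gcongr
        _ ≤ (1 / (8 * d)) * (8 * d * N) * 1 := by gcongr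
        _ = N := by field_simp
    · calc c * m * (k : ℝ) ^ (-ε) ≤ c * (k : ℝ) ^ (1 + 1 / (d : ℝ)) * (k : ℝ) ^ (-ε) := by gcongr
        _ = c * ((k : ℝ) ^ (1 + 1 / (d : ℝ)) * (k : ℝ) ^ (-ε)) := by ring
        _ ≤ (1 / (160 * d ^ 2 * (B + 1) / ε)) * (160 * d ^ 2 * (B + 1) / ε * N) := by gcongr
        _ = N := by field_simp
  · have hkK : (k : ℝ) ≤ K := by
      have : k ≤ d + 2 := by omega
      have : (k : ℝ) ≤ ((d + 2 : ℕ) : ℝ) := by exact_mod_cast this
      rw [hK]; push_cast at this; exact this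
    have h4 : (k : ℝ) ^ (1 + 1 / (d : ℝ)) ≤ K ^ 2 := by
      calc (k : ℝ) ^ (1 + 1 / (d : ℝ)) ≤ (k : ℝ) ^ (2 : ℝ) := by
            apply Real.rpow_le_rpow_of_exponent_le hkR
            have : 1 / (d : ℝ) ≤ 1 := by rw [div_le_one (by linarith)]; exact hdR
            linarith
        _ = (k : ℝ) ^ 2 := by norm_cast
        _ ≤ K ^ 2 := by gcongr
    calc c * m * (k : ℝ) ^ (-ε) ≤ (1 / K ^ 2) * K ^ 2 * 1 := by
          gcongr
          exact hmk.trans h4
      _ = 1 := by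
          have : K ≠ 0 := by positivity
          field_simp
      _ ≤ N := hNR

end Pool.Agent.Helper650_HSK

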