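import Pool.Agent.Helper650_HSK.LocDefs

/-!
# Job LO3: edge-local kernels give solution encodings

Plain words.  TARGET 1: let `k', B, F` be as in `LocalKernel`.  For a set `S` of size `k` let `E_S` be
the set of all nonempty `e` with at most `d` elements meeting `S` (contains the singletons of `S`,
as `1 ≤ d`); `S` meets `E_S`, so there is `T =: Y S` with at most `k'` elements meeting
`B ∪ E_S.biUnion F`.  Let `K E = B ∪ E.biUnion F`.  If `S` meets `E` then `E ⊆ E_S` so `Y S` meets
`K E`.  If `Y S` meets `K E`, it meets `K (E ∪ E_S)`, so there is `S'`, `|S'| ≤ k`, meeting `E ∪ E_S`;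
it contains `S` because of the singletons, so `S' = S` and `S` meets `E`.

TARGET 2: let `Y, K` be as in `SolutionEncoding`; put `Cl e = K {e}` if `e` is nonempty of size at
most `d`, and `∅` otherwise.  If `e` is disjoint from `Z`, `|Z| = k`, `|e| = d ≥ 1` then `Z` does not
meet `{e}`, so `Y Z` misses some `C ∈ K {e}`; if `C ∈ K {e'}`, `|e'| = d`, then `Y Z` does not meet
`K {e'}`, so `Z` does not meet `e'`.

TARGET 3: if `N = 0` then `K E = ∅` for all hypergraphs `E` (its members are nonempty subsets of
`Fin 0`), so all `S` of size `k` meet all `E`; but for `k < n` some `S` of size `k` does not contain some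
vertex `v`, `E = {{v}}`.

TARGET 4: the identity: `k' = k`, `B = ∅`, `F e = {e}` for `e` nonempty of size at most `d`, and `∅`
otherwise.
-/

namespace Pool.Agent.Helper650_HSK


/-- TARGET 1. -/
theorem lo_local_solution {d n k N : ℕ} (hd : 1 ≤ d) (h : LocalKernel d n k N) :
    SolutionEncoding d n k N := by
  classical
  obtain ⟨k', B, F, hB, hF, hE⟩ := h
  let ES : Finset (Fin n) → Finset (Finset (Fin n)) := fun S =>
    Finset.univ.filter (fun e => e.Nonempty ∧ e.card ≤ d ∧ ∃ v ∈ e, v ∈ S)
  have hES : ∀ S, IsHg d n (ES S) := by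
    intro S e he
    have := (Finset.mem_filter.1 he).2
    exact ⟨this.1, this.2.1⟩
  have hmeet : ∀ S, Meets S (ES S) := fun S e he => (Finset.mem_filter.1 he).2.2.2
  have hY : ∀ S : Finset (Fin n), ∃ T : Finset (Fin N), S.card ≤ k → T.card ≤ k' ∧ Meets T (B ∪ (ES S).biUnion F) := by
    intro S
    by_cases hS : S.card ≤ k
    · obtain ⟨T, hT⟩ := (hE (ES S) (hES S)).1 ⟨S, hS, hmeet S⟩
      exact ⟨T, fun _ => hT⟩
    · exact ⟨∅, fun h => absurd h hS⟩
  choose Y hY using hY
  refine ⟨Y, fun E => B ∪ E.biUnion F, ?_, ?_⟩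
  · intro E _ e he
    rcases Finset.mem_union.1 he with h | h
    · exact hB e h
    · obtain ⟨a, -, ha⟩ := Finset.mem_biUnion.1 h
      exact hF a e ha
  · intro E hEh S hS
    constructor
    · intro hSE e he
      obtain ⟨-, hT⟩ := hY S hS.le
      apply hT e
      rcases Finset.mem_union.1 he with h | h
      · exact Finset.mem_union_left _ h
      · obtain ⟨a, ha, hae⟩ := Finset.mem_biUnion.1 h
        refine Finset.mem_union_right _ (Finset.mem_biUnion.2 ⟨a, ?_, hae⟩)
        exact Finset.mem_filter.2 ⟨Finset.mem_univ _, (hEh a ha).1, (hEh a ha).2, hSE a ha⟩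
    · intro hYE
      obtain ⟨hTc, hT⟩ := hY S hS.le
      have hU : IsHg d n (E ∪ ES S) := by
        intro e he
        rcases Finset.mem_union.1 he with h | h
        · exact hEh e h
        · exact hES S e h
      obtain ⟨S', hS'c, hS'⟩ := (hE (E ∪ ES S) hU).2 ⟨Y S, hTc, by
        intro e he
        rcases Finset.mem_union.1 he with h | h
        · exact hT e (Finset.mem_union_left _ h)
        · obtain ⟨a, ha, hae⟩ := Finset.mem_biUnion.1 h
          rcases Finset.mem_union.1 ha with h' | h'
          · exact hYE e (Finset.mem_union_right _ (Finset.mem_biUnion.2 ⟨a, h', hae⟩))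
          · exact hT e (Finset.mem_union_right _ (Finset.mem_biUnion.2 ⟨a, h', hae⟩))⟩
      have hsub : S ⊆ S' := by
        intro v hv
        have hmem : ({v} : Finset (Fin n)) ∈ E ∪ ES S := by
          refine Finset.mem_union_right _ (Finset.mem_filter.2 ⟨Finset.mem_univ _, ⟨v, by simp⟩, ?_, v, by simp, hv⟩)
          simpa using hd
        obtain ⟨w, hw, hwS⟩ := hS' _ hmem
        rw [Finset.mem_singleton] at hw
        rwa [hw] at hwS
      have heq : S = S' := Finset.eq_of_subset_of_card_le hsub (by omega)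
      intro e he
      rw [heq]
      exact hS' e (Finset.mem_union_left _ he)

/-- TARGET 2. -/
theorem lo_solution_core {d n k N : ℕ} (hd : 1 ≤ d) (h : SolutionEncoding d n k N) :
    ∃ Cl : Finset (Fin n) → Finset (Finset (Fin N)), (∀ e, ∀ C ∈ Cl e, C.card ≤ d) ∧
      ∀ Z e : Finset (Fin n), Z.card = k → e.card = d → Disjoint e Z →
        ∃ C ∈ Cl e, ∀ e' : Finset (Fin n), e'.card = d → C ∈ Cl e' → Disjoint e' Z := by
  classical
  obtain ⟨Y, K, hK1, hK⟩ := h
  refine ⟨fun e => if e.Nonempty ∧ e.card ≤ d then K {e} else ∅, ?_, ?_⟩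
  · intro e C hC
    simp only at hC
    split_ifs at hC with he
    · exact (hK1 {e} (by intro a ha; rw [Finset.mem_singleton] at ha; rw [ha]; exact he) C hC).2
    · simp at hC
  · intro Z e hZ he hdis
    have hg : ∀ a : Finset (Fin n), a.card = d → (a.Nonempty ∧ a.card ≤ d) := fun a ha =>
      ⟨Finset.card_pos.1 (by omega), ha.le⟩
    have hsing : ∀ a : Finset (Fin n), a.card = d → IsHg d n {a} := by
      intro a ha b hb
      rw [Finset.mem_singleton] at hb
      rw [hb]; exact hg a ha
    have h1 : ¬ Meets Z {e} := by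
      intro hm
      obtain ⟨v, hv, hvZ⟩ := hm e (by simp)
      exact Finset.disjoint_left.1 hdis hv hvZ
    rw [hK {e} (hsing e he) Z hZ] at h1
    unfold Meets at h1
    push Not at h1
    obtain ⟨C, hC, hCY⟩ := h1
    refine ⟨C, by simp only; rw [if_pos (hg e he)]; exact hC, ?_⟩
    intro e' he' hCe'
    simp only at hCe'
    rw [if_pos (hg e' he')] at hCe'
    by_contra hnd
    have h2 : Meets Z {e'} := by
      intro a ha
      rw [Finset.mem_singleton] at ha
      rw [ha]
      rw [Finset.not_disjoint_iff] at hnd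
      exact hnd
    rw [hK {e'} (hsing e' he') Z hZ] at h2
    obtain ⟨v, hv, hvY⟩ := h2 C hCe'
    exact hCY v hv hvY

/-- TARGET 3. -/
theorem lo_solution_pos {d n k N : ℕ} (hd : 1 ≤ d) (hk : k < n) (h : SolutionEncoding d n k N) :
    1 ≤ N := by
  classical
  obtain ⟨Y, K, hK1, hK⟩ := h
  by_contra hN
  have hN0 : N = 0 := by omega
  subst hN0
  obtain ⟨S, hS⟩ : ∃ S : Finset (Fin n), S.card = k := by
    obtain ⟨S, -, hS⟩ := Finset.exists_subset_card_eq (s := (Finset.univ : Finset (Fin n))) (n := k) (by simpa using hk.le)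
    exact ⟨S, hS⟩
  obtain ⟨v, hv⟩ : ∃ v, v ∉ S := by
    by_contra hc
    push Not at hc
    have : S = Finset.univ := Finset.eq_univ_iff_forall.2 hc
    rw [this, Finset.card_univ, Fintype.card_fin] at hS
    omega
  have hg : IsHg d n {{v}} := by
    intro a ha
    rw [Finset.mem_singleton] at ha
    rw [ha]
    exact ⟨⟨v, by simp⟩, by simpa using hd⟩
  have h1 : Meets (Y S) (K {{v}}) := by
    intro a ha
    obtain ⟨x, -⟩ := (hK1 _ hg a ha).1
    exact x.elim0
  rw [← hK _ hg S hS] at h1
  obtain ⟨w, hw, hwS⟩ := h1 {v} (by simp)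
  rw [Finset.mem_singleton] at hw
  rw [hw] at hwS
  exact hv hwS

/-- TARGET 4. -/
theorem lo_local_id (d n k : ℕ) : LocalKernel d n k n := by
  classical
  refine ⟨k, ∅, fun e => if e.Nonempty ∧ e.card ≤ d then {e} else ∅, by intro e he; simp at he, ?_, ?_⟩
  · intro e a ha
    simp only at ha
    by_cases he : e.Nonempty ∧ e.card ≤ d
    · rw [if_pos he, Finset.mem_singleton] at ha
      rw [ha]; exact he
    · rw [if_neg he] at ha
      simp at ha
  · intro E hE
    have h1 : (∅ ∪ E.biUnion fun e => if e.Nonempty ∧ e.card ≤ d then ({e} : Finset (Finset (Fin n))) else ∅) = E := by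
      ext a
      rw [Finset.empty_union, Finset.mem_biUnion]
      constructor
      · rintro ⟨e, he, ha⟩
        rw [if_pos (hE e he), Finset.mem_singleton] at ha
        rw [ha]; exact he
      · intro ha
        exact ⟨a, ha, by rw [if_pos (hE a ha)]; simp⟩
    rw [h1]

end Pool.Agent.Helper650_HSK

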