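import Mathlib

/-!
# Edge-local kernels and solution encodings for hitting sets: definitions
-/

namespace Pool.Agent.Helper650_HSK

/-- `E` is a `d`-hypergraph with vertex set `Fin n`: its edges are nonempty sets of at most `d`
vertices. -/
def IsHg (d n : ℕ) (E : Finset (Finset (Fin n))) : Prop := ∀ e ∈ E, e.Nonempty ∧ e.card ≤ d

/-- The set `S` meets every member of `E`. -/
def Meets {n : ℕ} (S : Finset (Fin n)) (E : Finset (Finset (Fin n))) : Prop :=
  ∀ e ∈ E, ∃ v ∈ e, v ∈ S

/-- Edge-local kernels with `N` vertices for hypergraphs with vertex set `Fin n` and parameter `k`: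
a fixed parameter `k'`, a fixed hypergraph `B` and for every edge `e` a hypergraph `F e`, all of them
`d`-hypergraphs with vertex set `Fin N`, such that every hypergraph `E` can be replaced by the union
of `B` and the `F e`, `e ∈ E`. -/
def LocalKernel (d n k N : ℕ) : Prop :=
  ∃ (k' : ℕ) (B : Finset (Finset (Fin N))) (F : Finset (Fin n) → Finset (Finset (Fin N))),
    IsHg d N B ∧ (∀ e, IsHg d N (F e)) ∧
    ∀ E : Finset (Finset (Fin n)), IsHg d n E →
      ((∃ S, S.card ≤ k ∧ Meets S E) ↔ ∃ T, T.card ≤ k' ∧ Meets T (B ∪ E.biUnion F))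

/-- Solution encodings with `N` vertices: a map `K` from hypergraphs to hypergraphs and a map `Y` from
sets of vertices to sets of vertices such that a set `S` of `k` vertices meets every edge of `E` iff
`Y S` meets every edge of `K E`. -/
def SolutionEncoding (d n k N : ℕ) : Prop :=
  ∃ (Y : Finset (Fin n) → Finset (Fin N))
    (K : Finset (Finset (Fin n)) → Finset (Finset (Fin N))),
    (∀ E, IsHg d n E → IsHg d N (K E)) ∧
    ∀ E, IsHg d n E → ∀ S : Finset (Fin n), S.card = k → (Meets S E ↔ Meets (Y S) (K E))

end Pool.Agent.Helper650_HSK
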