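import Pool.Agent.Helper650_HSK.LocUp
import Pool.Agent.Helper650_HSK.LO1
import Pool.Agent.Helper650_HSK.LO2
import Pool.Agent.Helper650_HSK.LO3

/-!
# Edge-local kernels and solution encodings: the exact exponent
-/

namespace Pool.Agent.Helper650_HSK

theorem main_loc (d : ℕ) (hd : 3 ≤ d) (B : ℕ) (ε : ℝ) (hε : 0 < ε) :
    ∃ c C : ℝ, 0 < c ∧ 0 < C ∧ ∀ k n : ℕ, 1 ≤ k → 2 * k ≤ n → n ≤ (k + 1) ^ B →
      (∃ N : ℕ, (N : ℝ) ≤ C * min (n : ℝ) ((k : ℝ) ^ (1 + 1 / (d : ℝ))) * (k : ℝ) ^ ε ∧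
        LocalKernel d n k N) ∧
      (∀ N : ℕ, LocalKernel d n k N → SolutionEncoding d n k N) ∧
      ∀ N : ℕ, SolutionEncoding d n k N →
        c * min (n : ℝ) ((k : ℝ) ^ (1 + 1 / (d : ℝ))) * (k : ℝ) ^ (-ε) ≤ N := by
  obtain ⟨c, hc, hlow⟩ := lo_numeric d (by omega) B ε hε
  obtain ⟨C, hC, hup⟩ := local_upper d hd B ε hε
  refine ⟨c, max 1 (C * 2 ^ (1 + 1 / (d : ℝ) + ε)), hc, by positivity, ?_⟩
  intro k n hk hn hnB
  have hk1 : (1 : ℝ) ≤ k := by exact_mod_cast hk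
  have hkε : (1 : ℝ) ≤ (k : ℝ) ^ ε := Real.one_le_rpow hk1 hε.le
  refine ⟨?_, fun N hN => lo_local_solution (by omega) hN, ?_⟩
  · rcases le_total (n : ℝ) ((k : ℝ) ^ (1 + 1 / (d : ℝ))) with h1 | h1
    · refine ⟨n, ?_, lo_local_id d n k⟩
      rw [min_eq_left h1]
      have h2 : (0 : ℝ) ≤ n := Nat.cast_nonneg n
      calc (n : ℝ) = 1 * n * 1 := by ring
        _ ≤ max 1 (C * 2 ^ (1 + 1 / (d : ℝ) + ε)) * n * (k : ℝ) ^ ε := by
          apply mul_le_mul _ hkε zero_le_one (by positivity)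
          exact mul_le_mul_of_nonneg_right (le_max_left _ _) h2
    · obtain ⟨N, hN, hN'⟩ := hup k n hnB
      refine ⟨N, ?_, hN'⟩
      rw [min_eq_right h1]
      have hk2 : (k : ℝ) + 1 ≤ 2 * k := by linarith
      have h3 : ((k : ℝ) + 1) ^ (1 + 1 / (d : ℝ) + ε) ≤
          2 ^ (1 + 1 / (d : ℝ) + ε) * ((k : ℝ) ^ (1 + 1 / (d : ℝ)) * (k : ℝ) ^ ε) := by
        rw [← Real.rpow_add (by linarith), ← Real.mul_rpow (by norm_num) (by linarith)]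
        exact Real.rpow_le_rpow (by linarith) hk2 (by positivity)
      calc (N : ℝ) ≤ C * ((k : ℝ) + 1) ^ (1 + 1 / (d : ℝ) + ε) := hN
        _ ≤ C * (2 ^ (1 + 1 / (d : ℝ) + ε) * ((k : ℝ) ^ (1 + 1 / (d : ℝ)) * (k : ℝ) ^ ε)) :=
          mul_le_mul_of_nonneg_left h3 hC.le
        _ = (C * 2 ^ (1 + 1 / (d : ℝ) + ε)) * ((k : ℝ) ^ (1 + 1 / (d : ℝ)) * (k : ℝ) ^ ε) := by
          ring
        _ ≤ max 1 (C * 2 ^ (1 + 1 / (d : ℝ) + ε)) *
            ((k : ℝ) ^ (1 + 1 / (d : ℝ)) * (k : ℝ) ^ ε) :=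
          mul_le_mul_of_nonneg_right (le_max_right _ _) (by positivity)
        _ = _ := by ring
  · intro N hN
    refine hlow k n N hk hn hnB (lo_solution_pos (by omega) (by omega) hN) ?_
    intro hkd s L hs hL
    obtain ⟨Cl, h1, h2⟩ := lo_solution_core (by omega) hN
    exact lo_core d n k N s L hkd hs Cl h1 h2 hL

end Pool.Agent.Helper650_HSK
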