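import Pool.Agent.Helper650_HSK.FinA
import Pool.Agent.Helper650_HSK.LocDefs

/-!
# Edge-local kernels: the upper bound
-/

namespace Pool.Agent.Helper650_HSK

open List (range)

/-- The set of the members of a list which are less than `N`. -/
def fs (N : ℕ) (l : List ℕ) : Finset (Fin N) := Finset.univ.filter (fun i => i.val ∈ l)

/-- A set of vertices as a list of numbers. -/
noncomputable def lst {n : ℕ} (e : Finset (Fin n)) : List ℕ := e.toList.map Fin.val

theorem mem_fs {N : ℕ} {l : List ℕ} {i : Fin N} : i ∈ fs N l ↔ i.val ∈ l := by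
  simp [fs]

theorem mem_lst {n : ℕ} {e : Finset (Fin n)} {v : ℕ} : v ∈ lst e ↔ ∃ i ∈ e, i.val = v := by
  simp [lst]

theorem fs_lst {n : ℕ} (e : Finset (Fin n)) : fs n (lst e) = e := by
  ext i
  rw [mem_fs, mem_lst]
  constructor
  · rintro ⟨j, hj, h⟩
    rwa [← Fin.ext h]
  · exact fun h => ⟨i, h, rfl⟩

theorem exists_meets_iff {N m : ℕ} {EF : Finset (Finset (Fin N))} {EL : List (List ℕ)}
    (h : ∀ c : Finset (Fin N), c ∈ EF ↔ ∃ l ∈ EL, c = fs N l) (hlt : ∀ l ∈ EL, ∀ v ∈ l, v < N) :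
    (∃ T : Finset (Fin N), T.card ≤ m ∧ Meets T EF) ↔
      ∃ S : Finset ℕ, S ⊆ Finset.range N ∧ S.card ≤ m ∧ Hits S EL := by
  constructor
  · rintro ⟨T, hT, hT'⟩
    refine ⟨T.image Fin.val, ?_, Finset.card_image_le.trans hT, ?_⟩
    · intro v hv
      obtain ⟨i, _, rfl⟩ := Finset.mem_image.1 hv
      exact Finset.mem_range.2 i.2
    · intro l hl
      obtain ⟨i, hi, hi'⟩ := hT' (fs N l) ((h _).2 ⟨l, hl, rfl⟩)
      exact ⟨i.val, mem_fs.1 hi, Finset.mem_image_of_mem _ hi'⟩
  · rintro ⟨S, hS, hSc, hS'⟩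
    refine ⟨Finset.univ.filter (fun i => i.val ∈ S), ?_, ?_⟩
    · refine le_trans ?_ hSc
      apply Finset.card_le_card_of_injOn Fin.val
      · intro i hi
        exact (Finset.mem_filter.1 hi).2
      · intro i _ j _ hij
        exact Fin.ext hij
    · intro c hc
      obtain ⟨l, hl, rfl⟩ := (h c).1 hc
      obtain ⟨v, hv, hvS⟩ := hS' l hl
      refine ⟨⟨v, hlt l hl v hv⟩, mem_fs.2 hv, ?_⟩
      rw [Finset.mem_filter]
      exact ⟨Finset.mem_univ _, hvS⟩

theorem card_fs_le {N : ℕ} (l : List ℕ) : (fs N l).card ≤ l.length := by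
  have h1 : (fs N l).card ≤ l.toFinset.card := by
    apply Finset.card_le_card_of_injOn Fin.val
    · intro i hi
      rw [Finset.mem_coe, List.mem_toFinset]
      exact mem_fs.1 hi
    · intro i _ j _ hij
      exact Fin.ext hij
  exact h1.trans (List.toFinset_card_le l)

theorem isHg_of {d N : ℕ} {B : List (List ℕ)} (h : IsHyp d (N, B)) :
    IsHg d N (B.map (fs N)).toFinset := by
  intro c hc
  rw [List.mem_toFinset, List.mem_map] at hc
  obtain ⟨l, hl, rfl⟩ := hc
  obtain ⟨h1, _, h3, h4⟩ := h l hl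
  obtain ⟨v, hv⟩ := List.exists_mem_of_ne_nil l h1
  exact ⟨⟨⟨v, h4 v hv⟩, mem_fs.2 hv⟩, (card_fs_le l).trans h3⟩

/-- From lists to finite sets. -/
theorem localKernel_of_lists {d n k : ℕ} (N k' : ℕ) (B : List (List ℕ))
    (F : List ℕ → List (List ℕ)) (hB : IsHyp d (N, B))
    (hF : ∀ e : List ℕ, e ≠ [] → e.length ≤ d → (∀ v ∈ e, v < n) → IsHyp d (N, F e))
    (h : ∀ E : List (List ℕ), EdgesOk d n E →
      ((∃ S : Finset ℕ, S ⊆ Finset.range n ∧ S.card ≤ k ∧ Hits S E) ↔
        Yes ((N, B ++ E.flatMap F), k'))) : LocalKernel d n k N := by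
  classical
  have hok : ∀ e : Finset (Fin n), e.Nonempty → e.card ≤ d →
      lst e ≠ [] ∧ (lst e).length ≤ d ∧ ∀ v ∈ lst e, v < n := by
    intro e h1 h2
    refine ⟨?_, ?_, ?_⟩
    · obtain ⟨i, hi⟩ := h1
      exact List.ne_nil_of_mem (mem_lst.2 ⟨i, hi, rfl⟩)
    · rw [lst, List.length_map, Finset.length_toList]
      exact h2
    · intro v hv
      obtain ⟨i, _, rfl⟩ := mem_lst.1 hv
      exact i.2
  refine ⟨k', (B.map (fs N)).toFinset,
    fun e => if e.Nonempty ∧ e.card ≤ d then ((F (lst e)).map (fs N)).toFinset else ∅,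
    isHg_of hB, ?_, ?_⟩
  · intro e
    by_cases he : e.Nonempty ∧ e.card ≤ d
    · simp only [if_pos he]
      obtain ⟨h1, h2, h3⟩ := hok e he.1 he.2
      exact isHg_of (hF _ h1 h2 h3)
    · simp only [if_neg he]
      intro c hc
      simp at hc
  · intro E hE
    have hEok : EdgesOk d n (E.toList.map lst) := by
      intro l hl
      rw [List.mem_map] at hl
      obtain ⟨e, he, rfl⟩ := hl
      rw [Finset.mem_toList] at he
      exact hok e (hE e he).1 (hE e he).2
    rw [exists_meets_iff (EL := E.toList.map lst), h _ hEok, Yes]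
    · symm
      apply exists_meets_iff
      · intro c
        simp only [Finset.mem_union, List.mem_toFinset, List.mem_map, Finset.mem_biUnion,
          List.mem_append, List.mem_flatMap, Finset.mem_toList]
        constructor
        · rintro (⟨l, hl, rfl⟩ | ⟨e, he, hc⟩)
          · exact ⟨l, Or.inl hl, rfl⟩
          · rw [if_pos (hE e he)] at hc
            rw [List.mem_toFinset, List.mem_map] at hc
            obtain ⟨l, hl, rfl⟩ := hc
            exact ⟨l, Or.inr ⟨lst e, ⟨e, he, rfl⟩, hl⟩, rfl⟩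
        · rintro ⟨l, hl | ⟨_, ⟨e, he, rfl⟩, hl⟩, rfl⟩
          · exact Or.inl ⟨l, hl, rfl⟩
          · refine Or.inr ⟨e, he, ?_⟩
            rw [if_pos (hE e he), List.mem_toFinset, List.mem_map]
            exact ⟨l, hl, rfl⟩
      · intro l hl v hv
        rw [List.mem_append, List.mem_flatMap] at hl
        rcases hl with hl | ⟨e, he, hl⟩
        · exact (hB l hl).2.2.2 v hv
        · obtain ⟨h1, h2, h3⟩ := hEok e he
          exact (hF e h1 h2 h3 l hl).2.2.2 v hv
    · intro c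
      simp only [List.mem_map, Finset.mem_toList]
      constructor
      · exact fun hc => ⟨lst c, ⟨c, hc, rfl⟩, (fs_lst c).symm⟩
      · rintro ⟨_, ⟨e, he, rfl⟩, rfl⟩
        rwa [fs_lst]
    · intro l hl v hv
      exact (hEok l hl).2.2 v hv

/-- The parameters for a larger range of `n`. -/
theorem cond_of' {R w g G w0 d k p n g' B : ℕ} (hd : 3 ≤ d) (hg' : 2 ≤ g') (hgg : g = d * g')
    (hG : G = g - 2) (hw0 : w0 = 2 * g) (hw : w = d * w0) (hR : R = (g - 3) * B + 2)
    (hp : p.Prime) (hb1 : (G + 2) * R ^ g ≤ p) (hb2 : 4 * (R * 2 ^ w) ≤ p)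
    (hpk : 2 * (k + 2) ≤ p ^ (g - 3)) (hn : n ≤ (k + 1) ^ B) :
    Cond R w g G w0 d ((range w).sublistsLen w0) k p n := by
  have h6 : 6 ≤ g := by
    rw [hgg]
    exact Nat.mul_le_mul hd hg'
  have hpp := hp.two_le
  have h1 : p ^ (g - 3) ≤ p ^ G := Nat.pow_le_pow_right hp.pos (by omega)
  refine ⟨hp, by omega, by omega, ?_, by omega, hb1, hb2, by omega, by omega, hw, ?_, ?_⟩
  · calc 2 * (k + 1) * p ≤ p ^ (g - 3) * p := Nat.mul_le_mul_right _ (by omega)
      _ = p ^ G := by rw [← pow_succ]; congr 1; omega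
  · intro W
    rw [List.mem_sublistsLen]
  · have h2 : (k + 1) ^ B ≤ p ^ ((g - 3) * B) := by
      rw [pow_mul]
      exact Nat.pow_le_pow_left (by omega) B
    have h3 : 3 ≤ p ^ 2 := by nlinarith
    have h4 : 1 ≤ (k + 1) ^ B := Nat.one_le_pow _ _ (by omega)
    calc n + 2 ≤ (k + 1) ^ B + 2 := by omega
      _ ≤ 3 * (k + 1) ^ B := by omega
      _ ≤ p ^ 2 * p ^ ((g - 3) * B) := Nat.mul_le_mul h3 h2
      _ = p ^ R := by rw [← pow_add, hR]; congr 1; omega

/-- The upper bound. -/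
theorem local_upper (d : ℕ) (hd : 3 ≤ d) (B : ℕ) (ε : ℝ) (hε : 0 < ε) :
    ∃ C : ℝ, 0 < C ∧ ∀ k n : ℕ, n ≤ (k + 1) ^ B → ∃ N : ℕ,
      (N : ℝ) ≤ C * ((k : ℝ) + 1) ^ (1 + 1 / (d : ℝ) + ε) ∧ LocalKernel d n k N := by
  obtain ⟨g', hg', hexp⟩ := exists_exponent_A d hd ε hε
  obtain ⟨g, hgg⟩ : ∃ g, g = d * g' := ⟨_, rfl⟩
  obtain ⟨G, hG⟩ : ∃ G, G = g - 2 := ⟨_, rfl⟩
  obtain ⟨w0, hw0⟩ : ∃ w0, w0 = 2 * g := ⟨_, rfl⟩
  obtain ⟨w, hw⟩ : ∃ w, w = d * w0 := ⟨_, rfl⟩
  obtain ⟨R, hR⟩ : ∃ R, R = (g - 3) * B + 2 := ⟨_, rfl⟩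
  obtain ⟨Ws, hWs⟩ : ∃ Ws, Ws = (range w).sublistsLen w0 := ⟨_, rfl⟩
  have h6 : 6 ≤ g := by
    rw [hgg]
    exact Nat.mul_le_mul hd hg'
  obtain ⟨C1, b1, hC1⟩ := length_varsA_le R w g G d g' Ws (by omega) (by omega) hg'
  obtain ⟨b, hb⟩ : ∃ b, b = max (max 2 b1) (max ((G + 2) * R ^ g) (4 * (R * 2 ^ w))) := ⟨_, rfl⟩
  obtain ⟨C2, hC2⟩ := exists_prime_param (g - 3) b (by omega) (by omega)
  obtain ⟨D, hD⟩ := hexp (2 * C1) C2
  refine ⟨max D 1, by positivity, ?_⟩
  intro k n hn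
  obtain ⟨p, hp1, hp2, hp3, hp4⟩ := hC2 k
  have hcond : Cond R w g G w0 d Ws k p n := by
    rw [hWs]
    exact cond_of' hd hg' hgg hG hw0 hw hR hp1 (by omega) (by omega) hp3 hn
  have hWs' : ∀ W ∈ Ws, ∀ i ∈ W, i < w := fun W hW i hi =>
    List.mem_range.1 (((hcond.hWs W).1 hW).1.subset hi)
  have hvars := fun E : List (List ℕ) => formA_vars (R := R) (k := k) (E := E) (Ws := Ws)
    hcond.hg hgg hp1.one_le hWs'
  have hwidth := fun E : List (List ℕ) => formA_width (R := R) (w := w) (g := g) (G := G)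
    (g' := g') (k := k) (p := p) (Ws := Ws) (E := E) hd
  have hyp : ∀ E : List (List ℕ), IsHyp d (hypOf (varsA R w g G Ws d g' k p)
      (formA R w g G Ws d g' k p E)) := fun E => isHyp_hypOf (by omega) (hvars E) (hwidth E)
  set V := varsA R w g G Ws d g' k p with hV
  have hform : ∀ E : List (List ℕ), formA R w g G Ws d g' k p E =
      formA R w g G Ws d g' k p [] ++ E.flatMap (fun e => fX R w g d g' p [e]) := by
    intro E
    have h1 : fX R w g d g' p E = E.flatMap (fun e => fX R w g d g' p [e]) := by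
      simp [fX]
    have h2 : fX R w g d g' p [] = [] := by simp [fX]
    rw [formA, formA, narrowA, narrowA, h1, h2, List.append_nil]
    simp only [List.append_assoc]
  refine ⟨2 * V.length, ?_, ?_⟩
  · have h1 := hC1 k p (by omega) hp3
    have h2 := hD (2 * V.length) p k (by rw [← hgg]; exact hp4)
      (by rw [← hgg, mul_assoc]; exact Nat.mul_le_mul_left _ h1)
    have h3 : (0 : ℝ) ≤ ((k : ℝ) + 1) ^ (1 + 1 / (d : ℝ) + ε) := by positivity
    exact h2.trans (mul_le_mul_of_nonneg_right (le_max_left _ _) h3)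
  · refine localKernel_of_lists (2 * V.length) V.length
      (hypOf V (formA R w g G Ws d g' k p [])).2
      (fun e => (fX R w g d g' p [e]).map (fun C => (C.map (enc V)).dedup)) (hyp []) ?_ ?_
    · intro e _ _ _ c hc
      refine hyp [e] c ?_
      rw [hypOf, List.mem_append]
      refine Or.inr ?_
      rw [hform [e], List.map_append, List.mem_append]
      refine Or.inr ?_
      simpa using hc
    · intro E hE
      have h1 : (hypOf V (formA R w g G Ws d g' k p E)).2 =
          (hypOf V (formA R w g G Ws d g' k p [])).2 ++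
            E.flatMap (fun e => (fX R w g d g' p [e]).map (fun C => (C.map (enc V)).dedup)) := by
        rw [hypOf, hypOf, hform E]
        simp only [List.map_append, List.append_assoc, List.map_flatMap]
      have h2 : ((2 * V.length, (hypOf V (formA R w g G Ws d g' k p [])).2 ++
            E.flatMap (fun e => (fX R w g d g' p [e]).map (fun C => (C.map (enc V)).dedup))),
              V.length) = (hypOf V (formA R w g G Ws d g' k p E), V.length) := by
        rw [← h1]
        rfl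
      rw [h2, yes_hypOf_iff (hvars E)]
      constructor
      · rintro ⟨S, h1, h2, h3⟩
        exact formA_complete hcond hgg hE h1 h2 h3 wideA_head (narrowA_head hcond.hg hp1.one_le)
      · rintro ⟨A, hA⟩
        exact formA_sound hcond hgg hE hA

end Pool.Agent.Helper650_HSK
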