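import Pool.Agent.Helper650_HSK.Honest
import Pool.Agent.Helper650_HSK.Split

/-!
# The formulas are satisfiable iff there is a small hitting set
-/

namespace Pool.Agent.Helper650_HSK

open List (range)

/-! ### Good sequences of seeds -/

open Classical in
/-- The sequence of seeds `τ` is bad: some required node has at least `w0` bad levels. -/
def BadSeq (p R g G k w w0 : ℕ) (Z : ℕ → ℕ) (τ : Fin w → Fin g → Fin p) : Prop :=
  ∃ ν ∈ (Finset.range 2 ×ˢ Finset.range (k + 1) ×ˢ Finset.range R ×ˢ Finset.range p).filter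
      (fun ν => Req p R Z ν.1 ν.2.1 ν.2.2.1 ν.2.2.2),
    w0 ≤ (Finset.univ.filter (fun i : Fin w =>
      ¬ Good p R g G k Z (ext (τ i)) ν.1 ν.2.1 ν.2.2.1 ν.2.2.2)).card

section

variable {p R g G k w w0 : ℕ} {Z : ℕ → ℕ}

open Classical in
theorem card_badSeq (hp : p.Prime) (hg : g = G + 2) (hR : 1 ≤ R)
    (hk : 2 * (k + 1) * p ≤ p ^ G) (hk' : k + 2 ≤ p ^ G) (hpR : (G + 2) * R ^ g ≤ p)
    (hpw : 4 * (R * 2 ^ w) ≤ p) (hw0 : G + 1 ≤ w0)
    (hZ : ∀ j < k + 1, Z j ≤ Z (j + 1)) (hZR : ∀ j < k + 2, Z j < p ^ R) :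
    4 * (Finset.univ.filter (fun τ : Fin w → Fin g → Fin p =>
      BadSeq p R g G k w w0 Z τ)).card ≤ (p ^ g) ^ w := by
  have hp0 : 0 < p := hp.pos
  have h1 := card_bad_seqs (T := Fin g → Fin p)
    ((Finset.range 2 ×ˢ Finset.range (k + 1) ×ˢ Finset.range R ×ˢ Finset.range p).filter
      (fun ν => Req p R Z ν.1 ν.2.1 ν.2.2.1 ν.2.2.2))
    (fun ν τ => ¬ Good p R g G k Z (ext τ) ν.1 ν.2.1 ν.2.2.1 ν.2.2.2) p w w0 hp.one_le
    (fun ν hν => by
      rw [Finset.mem_filter, Finset.mem_product, Finset.mem_product, Finset.mem_product,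
        Finset.mem_range, Finset.mem_range, Finset.mem_range, Finset.mem_range] at hν
      have h2 := card_bad hp hg hR hk hk' hpR hZ hZR hν.1.1 hν.1.2.1 hν.1.2.2.1 hν.1.2.2.2 hν.2
      rw [Fintype.card_fun, Fintype.card_fin, Fintype.card_fin]
      convert h2)
  have h3 : (Finset.univ.filter (fun τ : Fin w → Fin g → Fin p =>
      BadSeq p R g G k w w0 Z τ)).card * p ^ w0 ≤
      ((Finset.range 2 ×ˢ Finset.range (k + 1) ×ˢ Finset.range R ×ˢ Finset.range p).filter
      (fun ν => Req p R Z ν.1 ν.2.1 ν.2.2.1 ν.2.2.2)).card *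
        (2 * Fintype.card (Fin g → Fin p)) ^ w := by
    unfold BadSeq
    convert h1
  replace h1 := h3
  set B := (Finset.univ.filter (fun τ : Fin w → Fin g → Fin p =>
      BadSeq p R g G k w w0 Z τ)).card with hB
  set F := ((Finset.range 2 ×ˢ Finset.range (k + 1) ×ˢ Finset.range R ×ˢ Finset.range p).filter
      (fun ν => Req p R Z ν.1 ν.2.1 ν.2.2.1 ν.2.2.2)).card with hF
  have h4 : F ≤ R * p ^ G := by
    have h5 : F ≤ 2 * ((k + 1) * (R * p)) := by
      refine (Finset.card_filter_le _ _).trans_eq ?_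
      simp only [Finset.card_product, Finset.card_range]
    calc F ≤ 2 * ((k + 1) * (R * p)) := h5
      _ = R * (2 * (k + 1) * p) := by ring
      _ ≤ R * p ^ G := Nat.mul_le_mul_left _ hk
  rw [Fintype.card_fun, Fintype.card_fin, Fintype.card_fin] at h1
  have h6 : 4 * B * p ^ w0 ≤ (p ^ g) ^ w * p ^ w0 := by
    calc 4 * B * p ^ w0 = 4 * (B * p ^ w0) := by ring
      _ ≤ 4 * (F * (2 * p ^ g) ^ w) := Nat.mul_le_mul_left _ h1
      _ ≤ 4 * ((R * p ^ G) * (2 * p ^ g) ^ w) :=
        Nat.mul_le_mul_left _ (Nat.mul_le_mul_right _ h4)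
      _ = (4 * (R * 2 ^ w)) * p ^ G * (p ^ g) ^ w := by rw [mul_pow]; ring
      _ ≤ p * p ^ G * (p ^ g) ^ w := Nat.mul_le_mul_right _ (Nat.mul_le_mul_right _ hpw)
      _ = p ^ (G + 1) * (p ^ g) ^ w := by ring
      _ ≤ p ^ w0 * (p ^ g) ^ w := Nat.mul_le_mul_right _ (Nat.pow_le_pow_right hp0 hw0)
      _ = _ := mul_comm _ _
  exact Nat.le_of_mul_le_mul_right h6 (pow_pos hp0 _)

/-- Seeds as functions on `ℕ`. -/
def exts (p g w : ℕ) (τ : Fin w → Fin g → Fin p) : ℕ → ℕ → ℕ :=
  fun i => if h : i < w then ext (τ ⟨i, h⟩) else fun _ => 0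

theorem exts_lt (hp : 0 < p) (τ : Fin w → Fin g → Fin p) (i e : ℕ) : exts p g w τ i e < p := by
  rw [exts]
  split_ifs
  · exact ext_lt hp _ _
  · exact hp

theorem good_of_not_badSeq {τ : Fin w → Fin g → Fin p} (h : ¬ BadSeq p R g G k w w0 Z τ) :
    ∀ l < R, ∀ s < 2, ∀ j < k + 1, ∀ β < p, Req p R Z s j l β →
    ∀ W : List ℕ, W.Sublist (range w) →
      (∀ i ∈ W, ¬ Good p R g G k Z (exts p g w τ i) s j l β) → W.length < w0 := by
  classical
  intro l hl s hs j hj β hβ hreq W hW hbad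
  by_contra hcon
  apply h
  refine ⟨(s, j, l, β), ?_, ?_⟩
  · rw [Finset.mem_filter, Finset.mem_product, Finset.mem_product, Finset.mem_product,
      Finset.mem_range, Finset.mem_range, Finset.mem_range, Finset.mem_range]
    exact ⟨⟨hs, hj, hl, hβ⟩, hreq⟩
  · rw [not_lt] at hcon
    refine hcon.trans ?_
    have hnd : W.Nodup := hW.nodup List.nodup_range
    rw [← List.toFinset_card_of_nodup hnd]
    have hlt : ∀ i ∈ W, i < w := fun i hi => List.mem_range.1 (hW.subset hi)
    have h1 : W.toFinset.card = (W.toFinset.attach.image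
        (fun i => (⟨i.1, hlt i.1 (List.mem_toFinset.1 i.2)⟩ : Fin w))).card := by
      rw [Finset.card_image_of_injective, Finset.card_attach]
      intro a b hab
      simp only [Fin.mk.injEq] at hab
      exact Subtype.ext hab
    rw [h1]
    apply Finset.card_le_card
    intro i hi
    rw [Finset.mem_image] at hi
    obtain ⟨a, _, rfl⟩ := hi
    rw [Finset.mem_filter]
    refine ⟨Finset.mem_univ _, ?_⟩
    have h2 := hbad a.1 (List.mem_toFinset.1 a.2)
    rw [exts, dif_pos (hlt a.1 (List.mem_toFinset.1 a.2))] at h2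
    exact h2

end

/-! ### The sorted list of a solution -/

theorem exists_sorted {k N : ℕ} (S : Finset ℕ) (hS : S.card ≤ k) (hN : ∀ v ∈ S, v + 2 ≤ N)
    (hN' : 1 ≤ N) :
    ∃ Z : ℕ → ℕ, (∀ j < k + 1, Z j ≤ Z (j + 1)) ∧ Z 0 = 0 ∧ Z (k + 1) + 1 = N ∧
      (∀ j < k + 2, Z j < N) ∧ ∀ v ∈ S, ∃ j, 1 ≤ j ∧ j ≤ k ∧ Z j = v + 1 := by
  set L : List ℕ := List.replicate (k - S.card) 0 ++ (S.sort (· ≤ ·)).map (· + 1) with hL
  have hLl : L.length = k := by
    rw [hL, List.length_append, List.length_replicate, List.length_map, Finset.length_sort]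
    omega
  have hLN : ∀ x ∈ L, x + 1 ≤ N := by
    intro x hx
    rw [hL, List.mem_append] at hx
    rcases hx with hx | hx
    · rw [List.eq_of_mem_replicate hx]; exact hN'
    · rw [List.mem_map] at hx
      obtain ⟨v, hv, rfl⟩ := hx
      exact hN v ((Finset.mem_sort _).1 hv)
  set M : List ℕ := 0 :: (L ++ [N - 1]) with hM
  have hMl : M.length = k + 2 := by
    rw [hM, List.length_cons, List.length_append, hLl, List.length_singleton]
  have hsorted : M.Pairwise (· ≤ ·) := by
    rw [hM, List.pairwise_cons]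
    refine ⟨fun _ _ => Nat.zero_le _, ?_⟩
    rw [List.pairwise_append]
    refine ⟨?_, List.pairwise_singleton _ _, ?_⟩
    · rw [hL, List.pairwise_append]
      refine ⟨List.pairwise_replicate.2 (Or.inr le_rfl), ?_, ?_⟩
      · rw [List.pairwise_map]
        exact (Finset.pairwise_sort S (· ≤ ·)).imp (fun h => Nat.succ_le_succ h)
      · intro x hx y _
        rw [List.eq_of_mem_replicate hx]
        exact Nat.zero_le _
    · intro x hx y hy
      rw [List.mem_singleton] at hy
      have := hLN x hx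
      omega
  have hget : ∀ (j : ℕ) (hj : j < M.length), M.getD j 0 = M[j] := fun j hj =>
    List.getD_eq_getElem _ _ hj
  refine ⟨fun j => M.getD j 0, ?_, ?_, ?_, ?_, ?_⟩
  · intro j hj
    show M.getD j 0 ≤ M.getD (j + 1) 0
    rw [hget j (by omega), hget (j + 1) (by omega)]
    exact List.pairwise_iff_getElem.1 hsorted j (j + 1) _ _ (Nat.lt_succ_self j)
  · rfl
  · show M.getD (k + 1) 0 + 1 = N
    rw [hM, List.getD_cons_succ, List.getD_append_right _ _ _ _ (by omega), hLl, Nat.sub_self]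
    show N - 1 + 1 = N
    omega
  · intro j hj
    show M.getD j 0 < N
    rw [hget j (by omega)]
    have h2 : ∀ x ∈ M, x + 1 ≤ N := by
      intro x hx
      rw [hM] at hx
      rcases List.mem_cons.1 hx with h | h
      · rw [h]; exact hN'
      · rcases List.mem_append.1 h with h | h
        · exact hLN _ h
        · rw [List.mem_singleton] at h
          rw [h]; omega
    exact h2 _ (List.getElem_mem _)
  · intro v hv
    have h1 : v + 1 ∈ L := by
      rw [hL, List.mem_append]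
      exact Or.inr (List.mem_map.2 ⟨v, (Finset.mem_sort _).2 hv, rfl⟩)
    obtain ⟨m, hm, he⟩ := List.mem_iff_getElem.1 h1
    refine ⟨m + 1, by omega, by omega, ?_⟩
    show M.getD (m + 1) 0 = v + 1
    rw [hM, List.getD_cons_succ, List.getD_append _ _ _ _ hm, List.getD_eq_getElem _ _ hm, he]

/-! ### The conditions on the parameters -/

/-- The conditions on the parameters. -/
structure Cond (R w g G w0 d : ℕ) (Ws : List (List ℕ)) (k p n : ℕ) : Prop where
  hp : p.Prime
  hg : g = G + 2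
  hR : 1 ≤ R
  hk : 2 * (k + 1) * p ≤ p ^ G
  hk' : k + 2 ≤ p ^ G
  hpR : (G + 2) * R ^ g ≤ p
  hpw : 4 * (R * 2 ^ w) ≤ p
  hw0 : G + 1 ≤ w0
  hd : 1 ≤ d
  hw : w = d * w0
  hWs : ∀ W : List ℕ, W ∈ Ws ↔ W.Sublist (range w) ∧ W.length = w0
  hn : n + 2 ≤ p ^ R

/-- the edges are fine -/
def EdgesOk (d n : ℕ) (E : List (List ℕ)) : Prop :=
  ∀ e ∈ E, e ≠ [] ∧ e.length ≤ d ∧ ∀ v ∈ e, v < n

theorem vtx_mem {e : List ℕ} (he : e ≠ []) (b : ℕ) : vtx e b ∈ e := by
  rw [vtx]
  by_cases hb : b < e.length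
  · rw [List.getD_eq_getElem _ _ hb]
    exact List.getElem_mem _
  · rw [List.getD_eq_default _ _ (by omega)]
    cases e with
    | nil => exact absurd rfl he
    | cons a e => simp

section

variable {R w g G w0 d k p n : ℕ} {Ws : List (List ℕ)} {A : Name → Bool}

/-- From a satisfying assignment of the base formula: a set of at most `k` vertices such that the
vertices outside of it have unmarked cells at most levels. -/
theorem sound_set (h : Cond R w g G w0 d Ws k p n)
    (hW : SatAll A (wideB R w g G Ws k p)) (hN : SatAll A (narrowB R w g G k p))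
    {τ : ℕ → ℕ → ℕ} (hτ : ∀ i < w, ∀ e < g, τ i e < p ∧ A (nT i e (τ i e)) = true) :
    ∃ S : Finset ℕ, S ⊆ Finset.range n ∧ S.card ≤ k ∧ ∀ v < n, v ∉ S →
      ∃ l < R, ((range w).filter
        (fun i => A (nY i l (addr p g (τ i) (l + 1) (pre p R (l + 1) (v + 1)))))).length < w0 := by
  classical
  obtain ⟨Z, hZ⟩ := base_sound h.hp.two_le h.hg (fun W h1 h2 => (h.hWs W).2 ⟨h1, h2⟩) hW hN hτ
  refine ⟨(Finset.range n).filter (fun v => ∃ j, 1 ≤ j ∧ j ≤ k ∧ Z j = v + 1),
    Finset.filter_subset _ _, ?_, ?_⟩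
  · have h1 : (Finset.range n).filter (fun v => ∃ j, 1 ≤ j ∧ j ≤ k ∧ Z j = v + 1) ⊆
        (Finset.Icc 1 k).image (fun j => Z j - 1) := by
      intro v hv
      rw [Finset.mem_filter] at hv
      obtain ⟨j, h2, h3, h4⟩ := hv.2
      rw [Finset.mem_image]
      exact ⟨j, Finset.mem_Icc.2 ⟨h2, h3⟩, by rw [h4]; rfl⟩
    refine (Finset.card_le_card h1).trans (Finset.card_image_le.trans_eq ?_)
    rw [Nat.card_Icc, Nat.add_sub_cancel]
  · intro v hv hvS
    have hn := h.hn
    refine hZ (v + 1) (by omega) (by omega) (fun j h1 h2 h3 => hvS ?_)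
    rw [Finset.mem_filter]
    exact ⟨Finset.mem_range.2 hv, j, h1, h2, h3⟩

/-- A common level at which the cells of `d` vertices are unmarked. -/
theorem common_level {P : ℕ → ℕ → Bool} (hd : 1 ≤ d) (hw : w = d * w0)
    (h : ∀ b < d, ((range w).filter (fun i => P b i)).length < w0) :
    ∃ i < w, ∀ b < d, P b i = false := by
  classical
  by_contra hcon
  push Not at hcon
  have h1 : Finset.range w ⊆ (Finset.range d).biUnion
      (fun b => (Finset.range w).filter (fun i => P b i = true)) := by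
    intro i hi
    obtain ⟨b, hb, hPb⟩ := hcon i (Finset.mem_range.1 hi)
    rw [Finset.mem_biUnion]
    refine ⟨b, Finset.mem_range.2 hb, Finset.mem_filter.2 ⟨hi, ?_⟩⟩
    simpa using hPb
  have h2 : ∀ b ∈ Finset.range d,
      ((Finset.range w).filter (fun i => P b i = true)).card ≤ w0 - 1 := by
    intro b hb
    have h3 := h b (Finset.mem_range.1 hb)
    have h4 : ((Finset.range w).filter (fun i => P b i = true)).card =
        ((range w).filter (fun i => P b i)).length := by
      rw [← List.toFinset_card_of_nodup (List.nodup_range.filter _)]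
      congr 1
      ext i
      simp
    omega
  have h3 := (Finset.card_le_card h1).trans (Finset.card_biUnion_le_card_mul _ _ _ h2)
  rw [Finset.card_range, Finset.card_range] at h3
  have h4 := h 0 (by omega)
  have h5 : d * (w0 - 1) + d = d * w0 := by
    obtain ⟨m, rfl⟩ : ∃ m, w0 = m + 1 := ⟨w0 - 1, by omega⟩
    rw [Nat.add_sub_cancel]; ring
  omega

end

end Pool.Agent.Helper650_HSK
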