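import Pool.Agent.Helper650_HSK.Main

/-!
# The formula with unknown seeds
-/

namespace Pool.Agent.Helper650_HSK

open List (range)

theorem sat_fD {A : Name → Bool} {w d g' p : ℕ} : SatAll A (fD w d g' p) ↔ ∀ i < w, ∀ b < d,
    ∀ s ∈ tup p g', (∀ q ∈ s.zipIdx, A (nT i (b * g' + q.2) q.1) = true) →
      A (nD i b s) = true := by
  simp only [fD, satAll_flatMap, satAll_map, List.mem_range]
  have key : ∀ (l : List (ℕ × ℕ)) (f : ℕ × ℕ → Name) (x : Name),
      SatC A ((l.map fun q => (f q, false)) ++ [(x, true)]) ↔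
        ((∀ q ∈ l, A (f q) = true) → A x = true) := by
    intro l f x
    simp only [SatC, List.mem_append, List.mem_map, List.mem_singleton]
    constructor
    · rintro ⟨y, hy | hy, hy'⟩ h
      · obtain ⟨q, hq, rfl⟩ := hy
        rw [h q hq] at hy'
        exact Bool.noConfusion hy'
      · subst hy
        exact hy'
    · intro h
      by_cases h1 : ∀ q ∈ l, A (f q) = true
      · exact ⟨(x, true), Or.inr rfl, h h1⟩
      · push Not at h1
        obtain ⟨q, hq, h2⟩ := h1
        exact ⟨(f q, false), Or.inl ⟨q, hq, rfl⟩, by simpa using h2⟩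
  have key2 : ∀ (i b : ℕ) (s : List ℕ),
      SatC A ((s.zipIdx.map fun q => (nT i (b * g' + q.2) q.1, false)) ++ [(nD i b s, true)]) ↔
        ((∀ q ∈ s.zipIdx, A (nT i (b * g' + q.2) q.1) = true) → A (nD i b s) = true) :=
    fun i b s => key s.zipIdx (fun q => nT i (b * g' + q.2) q.1) (nD i b s)
  simp only [key2]

theorem sat_fL {A : Name → Bool} {R w g d g' p : ℕ} : SatAll A (fL R w g d g' p) ↔
    ∀ i < w, ∀ l < R, ∀ b < d, ∀ s ∈ tup p g', ∀ c ∈ tup p g, A (nY i l c) = false →
      A (nD i b s) = true → A (nL i l b s c) = true := by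
  simp only [fL, satAll_flatMap, satAll_map, List.mem_range, satC3''']

theorem sat_fX {A : Name → Bool} {R w g d g' p : ℕ} {E : List (List ℕ)} :
    SatAll A (fX R w g d g' p E) ↔ ∀ e ∈ E, ∀ i < w, ∀ T ∈ tupL (tup p g') d, ∀ ls ∈ tup R d,
      ∃ b < d, A (nL i (ls.getD b 0) b (T.getD b [])
        (adr p R g T.flatten (ls.getD b 0) (vtx e b))) = false := by
  simp only [fX, satAll_flatMap, satAll_map, List.mem_range, SatC, List.mem_map]
  constructor
  · intro h e he i hi T hT ls hls
    obtain ⟨l, ⟨b, hb, rfl⟩, h2⟩ := h e he i hi T hT ls hls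
    exact ⟨b, hb, h2⟩
  · intro h e he i hi T hT ls hls
    obtain ⟨b, hb, h2⟩ := h e he i hi T hT ls hls
    exact ⟨_, ⟨b, hb, rfl⟩, h2⟩

/-- Blocks of a seed. -/
theorem flatten_blocks (g' : ℕ) (f : ℕ → ℕ) : ∀ d e : ℕ, e < d * g' →
    (((range d).map (fun b => (range g').map (fun e => f (b * g' + e)))).flatten).getD e 0 = f e := by
  have key : ∀ d : ℕ, ((range d).map (fun b => (range g').map (fun e => f (b * g' + e)))).flatten =
      (range (d * g')).map f := by
    intro d
    induction d with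
    | zero => simp
    | succ d ih =>
      rw [List.range_succ, List.map_append, List.flatten_append, ih, List.map_singleton,
        List.flatten_singleton, add_mul, one_mul, List.range_add, List.map_append, List.map_map]
      rfl
  intro d e he
  rw [key, List.getD_eq_getElem?_getD, List.getElem?_map, List.getElem?_range he]
  rfl

theorem adr_eq {p R g : ℕ} {τ : List ℕ} {θ : ℕ → ℕ} (h : ∀ e < g, τ.getD e 0 = θ e) (l v : ℕ) :
    adr p R g τ l v = addr p g θ (l + 1) (pre p R (l + 1) (v + 1)) := by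
  rw [adr, addr]
  apply List.map_congr_left
  intro e he
  rw [h e (List.mem_range.1 he)]

section

variable {R w g G w0 d g' k p n : ℕ} {Ws : List (List ℕ)} {E : List (List ℕ)}

/-- Soundness. -/
theorem formA_sound (h : Cond R w g G w0 d Ws k p n) (hg' : g = d * g') (hE : EdgesOk d n E)
    {A : Name → Bool} (hA : SatAll A (formA R w g G Ws d g' k p E)) :
    ∃ S : Finset ℕ, S ⊆ Finset.range n ∧ S.card ≤ k ∧ Hits S E := by
  classical
  rw [formA, satAll_append] at hA
  obtain ⟨hA1, hA2⟩ := hA
  have hA1 := satAll_of_split hA1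
  rw [wideA, satAll_append, satAll_append, sat_fT, sat_fD] at hA1
  rw [narrowA, satAll_append, satAll_append, sat_fL, sat_fX] at hA2
  obtain ⟨⟨hW, hT⟩, hD⟩ := hA1
  obtain ⟨⟨hN, hL⟩, hX⟩ := hA2
  obtain ⟨τ, hτ⟩ : ∃ τ : ℕ → ℕ → ℕ, ∀ i < w, ∀ e < g, τ i e < p ∧ A (nT i e (τ i e)) = true := by
    have h1 : ∀ i e : ℕ, ∃ θ : ℕ, i < w → e < g → θ < p ∧ A (nT i e θ) = true := by
      intro i e
      by_cases hi : i < w
      · by_cases he : e < g
        · obtain ⟨θ, h1, h2⟩ := hT i hi e he
          exact ⟨θ, fun _ _ => ⟨h1, h2⟩⟩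
        · exact ⟨0, fun _ h => absurd h he⟩
      · exact ⟨0, fun h => absurd h hi⟩
    choose τ hτ using h1
    exact ⟨τ, fun i hi e he => hτ i e hi he⟩
  obtain ⟨S, hS1, hS2, hS3⟩ := sound_set h hW hN hτ
  refine ⟨S, hS1, hS2, ?_⟩
  intro e he
  by_contra hcon
  push Not at hcon
  obtain ⟨he0, hed, hen⟩ := hE e he
  have h1 : ∀ b : ℕ, ∃ l < R, ((range w).filter (fun i => A (nY i l
      (addr p g (τ i) (l + 1) (pre p R (l + 1) (vtx e b + 1)))))).length < w0 := fun b =>
    hS3 _ (hen _ (vtx_mem he0 b)) (hcon _ (vtx_mem he0 b))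
  choose l hl hl' using h1
  obtain ⟨i, hi, hi'⟩ := common_level (P := fun b i => A (nY i (l b)
      (addr p g (τ i) (l b + 1) (pre p R (l b + 1) (vtx e b + 1))))) h.hd h.hw
      (fun b _ => hl' b)
  -- the blocks of the seed
  set T : List (List ℕ) := (range d).map (fun b => (range g').map (fun e => τ i (b * g' + e)))
    with hTdef
  have hblk : ∀ b < d, ∀ e' < g', b * g' + e' < g := by
    intro b hb e' he'
    have : (b + 1) * g' ≤ d * g' := Nat.mul_le_mul_right _ hb
    rw [add_mul, one_mul] at this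
    omega
  have hTm : ∀ b < d, (range g').map (fun e => τ i (b * g' + e)) ∈ tup p g' := by
    intro b hb
    rw [mem_tup]
    refine ⟨by simp, fun x hx => ?_⟩
    rw [List.mem_map] at hx
    obtain ⟨e', he', rfl⟩ := hx
    exact (hτ i hi _ (hblk b hb e' (List.mem_range.1 he'))).1
  have hT1 : T ∈ tupL (tup p g') d := by
    rw [mem_tupL]
    refine ⟨by simp [hTdef], fun x hx => ?_⟩
    rw [hTdef, List.mem_map] at hx
    obtain ⟨b, hb, rfl⟩ := hx
    exact hTm b (List.mem_range.1 hb)
  have hls : (range d).map l ∈ tup R d := by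
    rw [mem_tup]
    refine ⟨by simp, fun x hx => ?_⟩
    rw [List.mem_map] at hx
    obtain ⟨b, _, rfl⟩ := hx
    exact hl b
  obtain ⟨b, hb, hb'⟩ := hX e he i hi T hT1 _ hls
  have hlb : ((range d).map l).getD b 0 = l b := by
    rw [List.getD_eq_getElem?_getD, List.getElem?_map, List.getElem?_range hb]; rfl
  have hTb : T.getD b [] = (range g').map (fun e => τ i (b * g' + e)) := by
    rw [hTdef, List.getD_eq_getElem?_getD, List.getElem?_map, List.getElem?_range hb]; rfl
  rw [hlb, hTb, adr_eq (θ := τ i) (fun e he => flatten_blocks g' (τ i) d e (by omega))] at hb'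
  have hDb : A (nD i b ((range g').map (fun e => τ i (b * g' + e)))) = true := by
    refine hD i hi b hb _ (hTm b hb) (fun q hq => ?_)
    rw [List.mem_zipIdx_iff_getElem?, List.getElem?_map] at hq
    have hq2 : q.2 < g' := by
      by_contra hcon
      rw [List.getElem?_eq_none (by simpa using hcon)] at hq
      simp at hq
    rw [List.getElem?_range hq2] at hq
    simp only [Option.map_some, Option.some.injEq] at hq
    rw [← hq]
    exact (hτ i hi _ (hblk b hb _ hq2)).2
  have hcl : addr p g (τ i) (l b + 1) (pre p R (l b + 1) (vtx e b + 1)) ∈ tup p g := by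
    rw [mem_tup]
    refine ⟨length_addr _ _ _ _ _, fun x hx => ?_⟩
    rw [addr, List.mem_map] at hx
    obtain ⟨e', _, rfl⟩ := hx
    exact hsh_lt h.hp.pos _ _ _
  have h3 := hL i hi (l b) (hl b) b hb _ (hTm b hb) _ hcl (hi' b hb) hDb
  rw [h3] at hb'
  exact Bool.noConfusion hb'

/-- Completeness. -/
theorem formA_complete (h : Cond R w g G w0 d Ws k p n) (hg' : g = d * g') (hE : EdgesOk d n E)
    {S : Finset ℕ} (hS : S ⊆ Finset.range n) (hSk : S.card ≤ k) (hSE : Hits S E)
    (hhead : ∀ C ∈ wideA R w g G Ws d g' k p, ∀ l ∈ C, l.1.head? ≠ some 21)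
    (hhead' : ∀ C ∈ narrowA R w g G d g' k p E, ∀ l ∈ C, l.1.head? ≠ some 21) :
    ∃ A : Name → Bool, SatAll A (formA R w g G Ws d g' k p E) := by
  classical
  have hpos := h.hp.pos
  have hn := h.hn
  obtain ⟨Z, hZ, hZ0, hZ1, hZR, hZS⟩ := exists_sorted (N := p ^ R) S hSk (fun v hv => by
    have := Finset.mem_range.1 (hS hv)
    omega) (by omega)
  have hcard := card_badSeq (w0 := w0) h.hp h.hg h.hR h.hk h.hk' h.hpR h.hpw h.hw0 hZ hZR
  obtain ⟨τ, hτ⟩ : ∃ τ : Fin w → Fin g → Fin p, ¬ BadSeq p R g G k w w0 Z τ := by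
    by_contra hcon
    push Not at hcon
    have h1 : (Finset.univ.filter (fun τ : Fin w → Fin g → Fin p =>
      BadSeq p R g G k w w0 Z τ)) = Finset.univ := by
      rw [Finset.filter_true_of_mem]
      exact fun τ _ => hcon τ
    rw [h1, Finset.card_univ, Fintype.card_fun, Fintype.card_fun, Fintype.card_fin,
      Fintype.card_fin, Fintype.card_fin] at hcard
    have : 0 < (p ^ g) ^ w := by positivity
    omega
  set D : Dat := ⟨p, R, g, G, k, g', Z, exts p g w τ⟩ with hD
  have hok : Ok D w w0 Ws :=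
    { hp := hpos
      hg := h.hg
      hτ := exts_lt hpos τ
      hZ := hZ
      hZ0 := hZ0
      hZ1 := hZ1
      hWs := fun W hW => (h.hWs W).1 hW
      hgood := good_of_not_badSeq hτ }
  have hg0 : 0 < g := by have := h.hg; omega
  have hwide := honest_wide hok
  have hnarrow := honest_narrow hok hg0
  have hwA : SatAll (asg D) (wideA R w g G Ws d g' k p) := by
    rw [wideA, satAll_append, satAll_append, sat_fT, sat_fD]
    refine ⟨⟨hwide, ?_⟩, ?_⟩
    · intro i _ e _
      exact ⟨_, exts_lt hpos τ i e, asg_T.2 rfl⟩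
    · intro i _ b _ s hs hq
      rw [asg_D]
      rw [mem_tup] at hs
      apply List.ext_getElem
      · simp [hs.1, hD]
      · intro m h1 h2
        have h3 := hq (s[m], m) (by rw [List.mem_zipIdx_iff_getElem?]; simp [h1])
        rw [asg_T] at h3
        simp only [hD] at h3 ⊢
        simpa using h3
  have hnA : SatAll (asg D) (narrowA R w g G d g' k p E) := by
    rw [narrowA, satAll_append, satAll_append, sat_fL, sat_fX]
    refine ⟨⟨hnarrow, ?_⟩, ?_⟩
    · intro i _ l _ b _ s hs c _ h1 h2
      rw [asg_L (mem_tup.1 hs).1]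
      exact ⟨h1, h2⟩
    · intro e he i hi T hT ls hls
      obtain ⟨he0, hed, hen⟩ := hE e he
      by_contra hcon
      push Not at hcon
      simp only [ne_eq, Bool.not_eq_false] at hcon
      rw [mem_tupL] at hT
      rw [mem_tup] at hls
      have hTb : ∀ b < d, T.getD b [] ∈ tup p g' := by
        intro b hb
        rw [List.getD_eq_getElem _ _ (by omega)]
        exact hT.2 _ (List.getElem_mem _)
      have hTe : T = (range d).map (fun b => (range g').map
          (fun e => exts p g w τ i (b * g' + e))) := by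
        apply List.ext_getElem
        · simp [hT.1]
        · intro m h1 h2
          have h3 := hcon m (by omega)
          rw [asg_L (mem_tup.1 (hTb m (by omega))).1, asg_D] at h3
          rw [List.getD_eq_getElem _ _ h1] at h3
          simpa [hD] using h3.2
      obtain ⟨v, hve, hvS⟩ := hSE e he
      obtain ⟨b, hb, hbv⟩ := List.mem_iff_getElem.1 hve
      have hvtx : vtx e b = v := by rw [vtx, List.getD_eq_getElem _ _ hb, hbv]
      have h3 := hcon b (by omega)
      rw [asg_L (mem_tup.1 (hTb b (by omega))).1, hvtx, adr_eq (θ := exts p g w τ i) (by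
        rw [hTe]
        exact fun e he => flatten_blocks g' (exts p g w τ i) d e (by omega))] at h3
      obtain ⟨j, hj1, hj2, hj3⟩ := hZS v hvS
      have h4 : asg D (nY i (ls.getD b 0) (addr p g (exts p g w τ i) (ls.getD b 0 + 1)
          (pre p R (ls.getD b 0 + 1) (v + 1)))) = true := by
        rw [asg_Y]
        exact ⟨j, by simp only [hD]; omega, by simp only [hD]; rw [hj3]⟩
      rw [h4] at h3
      exact Bool.noConfusion h3.1
  obtain ⟨A', hA1, hA2⟩ := exists_split hwA hhead
  refine ⟨A', ?_⟩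
  rw [formA, satAll_append]
  refine ⟨hA2, fun C hC => ?_⟩
  obtain ⟨l, hl, hl'⟩ := hnA C hC
  exact ⟨l, hl, by rw [hA1 _ (hhead' C hC l hl)]; exact hl'⟩

end

end Pool.Agent.Helper650_HSK
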