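import Pool.Agent.Helper650_HSK.MainA

/-!
# The formula with given seeds
-/

namespace Pool.Agent.Helper650_HSK

open List (range)

section

variable {p R g G k w w0 : ℕ} {Z : ℕ → ℕ}

open Classical in
theorem card_badSeq' (hp : p.Prime) (hg : g = G + 2) (hR : 1 ≤ R)
    (hk : 2 * (k + 1) * p ≤ p ^ G) (hk' : k + 2 ≤ p ^ G) (hpR : (G + 2) * R ^ g ≤ p) {Q : ℕ}
    (hQ : Q * (R * 2 ^ w) * p ^ G ≤ p ^ w0)
    (hZ : ∀ j < k + 1, Z j ≤ Z (j + 1)) (hZR : ∀ j < k + 2, Z j < p ^ R) :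
    Q * (Finset.univ.filter (fun τ : Fin w → Fin g → Fin p =>
      BadSeq p R g G k w w0 Z τ)).card ≤ (p ^ g) ^ w := by
  have hp0 : 0 < p := hp.pos
  have h1 := card_bad_seqs (T := Fin g → Fin p)
    ((Finset.range 2 ×ˢ Finset.range (k + 1) ×ˢ Finset.range R ×ˢ Finset.range p).filter
      (fun ν => Req p R Z ν.1 ν.2.1 ν.2.2.1 ν.2.2.2))
    (fun ν τ => ¬ Good p R g G k Z (ext τ) ν.1 ν.2.1 ν.2.2.1 ν.2.2.2) p w w0 hp.one_le
    (fun ν hν => by
      rw [Finset.mem_filter, Finset.mem_product, Finset.mem_product, Finset.mem_product,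
        Finset.mem_range, Finset.mem_range, Finset.mem_range, Finset.mem_range] at hν
      have h2 := card_bad hp hg hR hk hk' hpR hZ hZR hν.1.1 hν.1.2.1 hν.1.2.2.1 hν.1.2.2.2 hν.2
      rw [Fintype.card_fun, Fintype.card_fin, Fintype.card_fin]
      convert h2)
  have h3 : (Finset.univ.filter (fun τ : Fin w → Fin g → Fin p =>
      BadSeq p R g G k w w0 Z τ)).card * p ^ w0 ≤
      ((Finset.range 2 ×ˢ Finset.range (k + 1) ×ˢ Finset.range R ×ˢ Finset.range p).filter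
      (fun ν => Req p R Z ν.1 ν.2.1 ν.2.2.1 ν.2.2.2)).card *
        (2 * Fintype.card (Fin g → Fin p)) ^ w := by
    unfold BadSeq
    convert h1
  replace h1 := h3
  set B := (Finset.univ.filter (fun τ : Fin w → Fin g → Fin p =>
      BadSeq p R g G k w w0 Z τ)).card with hB
  set F := ((Finset.range 2 ×ˢ Finset.range (k + 1) ×ˢ Finset.range R ×ˢ Finset.range p).filter
      (fun ν => Req p R Z ν.1 ν.2.1 ν.2.2.1 ν.2.2.2)).card with hF
  have h4 : F ≤ R * p ^ G := by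
    have h5 : F ≤ 2 * ((k + 1) * (R * p)) := by
      refine (Finset.card_filter_le _ _).trans_eq ?_
      simp only [Finset.card_product, Finset.card_range]
    calc F ≤ 2 * ((k + 1) * (R * p)) := h5
      _ = R * (2 * (k + 1) * p) := by ring
      _ ≤ R * p ^ G := Nat.mul_le_mul_left _ hk
  rw [Fintype.card_fun, Fintype.card_fin, Fintype.card_fin] at h1
  have h6 : Q * B * p ^ w0 ≤ (p ^ g) ^ w * p ^ w0 := by
    calc Q * B * p ^ w0 = Q * (B * p ^ w0) := by ring
      _ ≤ Q * (F * (2 * p ^ g) ^ w) := Nat.mul_le_mul_left _ h1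
      _ ≤ Q * ((R * p ^ G) * (2 * p ^ g) ^ w) :=
        Nat.mul_le_mul_left _ (Nat.mul_le_mul_right _ h4)
      _ = (Q * (R * 2 ^ w) * p ^ G) * (p ^ g) ^ w := by rw [mul_pow]; ring
      _ ≤ p ^ w0 * (p ^ g) ^ w := Nat.mul_le_mul_right _ hQ
      _ = _ := mul_comm _ _
  exact Nat.le_of_mul_le_mul_right h6 (pow_pos hp0 _)

end

theorem sat_fU {A : Name → Bool} {w g : ℕ} {σ : List (List ℕ)} : SatAll A (fU w g σ) ↔
    ∀ i < w, ∀ e < g, A (nT i e ((σ.getD i []).getD e 0)) = true := by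
  simp only [fU, satAll_flatMap, satAll_map, List.mem_range, satC1]

theorem sat_fY {A : Name → Bool} {R w g d p : ℕ} {σ E : List (List ℕ)} :
    SatAll A (fY R w g d p σ E) ↔ ∀ e ∈ E, ∀ i < w, ∀ ls ∈ tup R d,
      ∃ b < d, A (nY i (ls.getD b 0)
        (adr p R g (σ.getD i []) (ls.getD b 0) (vtx e b))) = true := by
  simp only [fY, satAll_flatMap, satAll_map, List.mem_range, SatC, List.mem_map]
  constructor
  · intro h e he i hi ls hls
    obtain ⟨l, ⟨b, hb, rfl⟩, h2⟩ := h e he i hi ls hls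
    exact ⟨b, hb, h2⟩
  · intro h e he i hi ls hls
    obtain ⟨b, hb, h2⟩ := h e he i hi ls hls
    exact ⟨_, ⟨b, hb, rfl⟩, h2⟩

/-- Lists of seeds as tuples. -/
def toTau (p g w : ℕ) (hp : 0 < p) (σ : List (List ℕ)) : Fin w → Fin g → Fin p :=
  fun i e => ⟨(σ.getD i []).getD e 0 % p, Nat.mod_lt _ hp⟩

theorem seed_lt {p g w : ℕ} {σ : List (List ℕ)} (hσ : σ ∈ tupL (tup p g) w) {i e : ℕ}
    (hi : i < w) (he : e < g) : (σ.getD i []).getD e 0 < p := by
  rw [mem_tupL] at hσ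
  have hi' : i < σ.length := by omega
  have h1 := mem_tup.1 (hσ.2 _ (List.getElem_mem hi'))
  have he' : e < σ[i].length := by omega
  have h2 : (σ.getD i []).getD e 0 = σ[i][e] := by
    rw [List.getD_eq_getElem _ _ hi', List.getD_eq_getElem _ _ he']
  rw [h2]
  exact h1.2 _ (List.getElem_mem _)

theorem exts_toTau {p g w : ℕ} (hp : 0 < p) {σ : List (List ℕ)} (hσ : σ ∈ tupL (tup p g) w)
    {i e : ℕ} (hi : i < w) (he : e < g) :
    exts p g w (toTau p g w hp σ) i e = (σ.getD i []).getD e 0 := by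
  rw [exts, dif_pos hi, ext, dif_pos he]
  show (σ.getD i []).getD e 0 % p = _
  exact Nat.mod_eq_of_lt (seed_lt hσ hi he)

theorem toTau_inj {p g w : ℕ} (hp : 0 < p) {σ σ' : List (List ℕ)} (hσ : σ ∈ tupL (tup p g) w)
    (hσ' : σ' ∈ tupL (tup p g) w) (h : toTau p g w hp σ = toTau p g w hp σ') : σ = σ' := by
  have h1 := mem_tupL.1 hσ
  have h1' := mem_tupL.1 hσ'
  apply List.ext_getElem (by rw [h1.1, h1'.1])
  intro i hi hi'
  have h2 := mem_tup.1 (h1.2 _ (List.getElem_mem hi))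
  have h2' := mem_tup.1 (h1'.2 _ (List.getElem_mem hi'))
  apply List.ext_getElem (by rw [h2.1, h2'.1])
  intro e he he'
  have h3 := congrFun (congrFun h ⟨i, by omega⟩) ⟨e, by omega⟩
  have h4 : (σ.getD i []).getD e 0 % p = (σ'.getD i []).getD e 0 % p := congrArg Fin.val h3
  rw [Nat.mod_eq_of_lt (seed_lt hσ (by omega) (by omega)),
    Nat.mod_eq_of_lt (seed_lt hσ' (by omega) (by omega)), List.getD_eq_getElem _ _ hi,
    List.getD_eq_getElem _ _ hi', List.getD_eq_getElem _ _ he, List.getD_eq_getElem _ _ he'] at h4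
  exact h4

theorem nodup_tupL {β : Type} {l : List β} (h : l.Nodup) : ∀ n : ℕ, (tupL l n).Nodup
  | 0 => by simp [tupL]
  | n + 1 => by
    rw [tupL, List.nodup_flatMap]
    refine ⟨fun x _ => (nodup_tupL h n).map (fun a b hab => (List.cons.inj hab).2), ?_⟩
    refine h.imp ?_
    intro a b hab
    rw [Function.onFun, List.disjoint_left]
    intro t ht ht'
    rw [List.mem_map] at ht ht'
    obtain ⟨u, _, rfl⟩ := ht
    obtain ⟨v, _, hv⟩ := ht'
    exact hab (List.cons.inj hv).1.symm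

section

variable {R w g G w0 d k p n : ℕ} {Ws : List (List ℕ)} {E : List (List ℕ)}

/-- Soundness. -/
theorem formB_sound (h : Cond R w g G w0 d Ws k p n) (hE : EdgesOk d n E) {σ : List (List ℕ)}
    (hσ : σ ∈ tupL (tup p g) w) {A : Name → Bool}
    (hA : SatAll A (formB R w g G Ws d k p σ E)) :
    ∃ S : Finset ℕ, S ⊆ Finset.range n ∧ S.card ≤ k ∧ Hits S E := by
  classical
  rw [formB, satAll_append] at hA
  obtain ⟨hA1, hA2⟩ := hA
  have hW := satAll_of_split hA1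
  rw [narrowB', satAll_append, satAll_append, sat_fU, sat_fY] at hA2
  obtain ⟨⟨hN, hU⟩, hX⟩ := hA2
  obtain ⟨S, hS1, hS2, hS3⟩ := sound_set h hW hN (τ := fun i e => (σ.getD i []).getD e 0)
    (fun i hi e he => ⟨seed_lt hσ hi he, hU i hi e he⟩)
  refine ⟨S, hS1, hS2, ?_⟩
  intro e he
  by_contra hcon
  push Not at hcon
  obtain ⟨he0, hed, hen⟩ := hE e he
  have h1 : ∀ b : ℕ, ∃ l < R, ((range w).filter (fun i => A (nY i l
      (addr p g (fun e => (σ.getD i []).getD e 0) (l + 1)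
        (pre p R (l + 1) (vtx e b + 1)))))).length < w0 := fun b =>
    hS3 _ (hen _ (vtx_mem he0 b)) (hcon _ (vtx_mem he0 b))
  choose l hl hl' using h1
  obtain ⟨i, hi, hi'⟩ := common_level (P := fun b i => A (nY i (l b)
      (addr p g (fun e => (σ.getD i []).getD e 0) (l b + 1)
        (pre p R (l b + 1) (vtx e b + 1))))) h.hd h.hw (fun b _ => hl' b)
  have hls : (range d).map l ∈ tup R d := by
    rw [mem_tup]
    refine ⟨by simp, fun x hx => ?_⟩
    rw [List.mem_map] at hx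
    obtain ⟨b, _, rfl⟩ := hx
    exact hl b
  obtain ⟨b, hb, hb'⟩ := hX e he i hi _ hls
  have hlb : ((range d).map l).getD b 0 = l b := by
    rw [List.getD_eq_getElem?_getD, List.getElem?_map, List.getElem?_range hb]; rfl
  rw [hlb, adr_eq (θ := fun e => (σ.getD i []).getD e 0) (fun e _ => rfl)] at hb'
  have h5 := hi' b hb
  rw [h5] at hb'
  exact Bool.noConfusion hb'

/-- Completeness. -/
theorem formB_complete (h : Cond R w g G w0 d Ws k p n) (hE : EdgesOk d n E)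
    {σ : List (List ℕ)} (hσ : σ ∈ tupL (tup p g) w) {S : Finset ℕ} (hSE : Hits S E)
    {Z : ℕ → ℕ} (hZ : ∀ j < k + 1, Z j ≤ Z (j + 1)) (hZ0 : Z 0 = 0)
    (hZ1 : Z (k + 1) + 1 = p ^ R) (hZS : ∀ v ∈ S, ∃ j, 1 ≤ j ∧ j ≤ k ∧ Z j = v + 1)
    (hbad : ¬ BadSeq p R g G k w w0 Z (toTau p g w h.hp.pos σ))
    (hhead : ∀ C ∈ wideB R w g G Ws k p, ∀ l ∈ C, l.1.head? ≠ some 21)
    (hhead' : ∀ C ∈ narrowB' R w g G d k p σ E, ∀ l ∈ C, l.1.head? ≠ some 21) :
    ∃ A : Name → Bool, SatAll A (formB R w g G Ws d k p σ E) := by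
  classical
  have hpos := h.hp.pos
  set D : Dat := ⟨p, R, g, G, k, 0, Z, exts p g w (toTau p g w h.hp.pos σ)⟩ with hD
  have hok : Ok D w w0 Ws :=
    { hp := hpos
      hg := h.hg
      hτ := exts_lt hpos _
      hZ := hZ
      hZ0 := hZ0
      hZ1 := hZ1
      hWs := fun W hW => (h.hWs W).1 hW
      hgood := good_of_not_badSeq hbad }
  have hg0 : 0 < g := by have := h.hg; omega
  have hwide := honest_wide hok
  have hnarrow := honest_narrow hok hg0
  have hnA : SatAll (asg D) (narrowB' R w g G d k p σ E) := by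
    rw [narrowB', satAll_append, satAll_append, sat_fU, sat_fY]
    refine ⟨⟨hnarrow, ?_⟩, ?_⟩
    · intro i hi e he
      rw [asg_T]
      exact (exts_toTau hpos hσ hi he).symm
    · intro e he i hi ls hls
      obtain ⟨he0, hed, hen⟩ := hE e he
      obtain ⟨v, hve, hvS⟩ := hSE e he
      obtain ⟨b, hb, hbv⟩ := List.mem_iff_getElem.1 hve
      have hvtx : vtx e b = v := by rw [vtx, List.getD_eq_getElem _ _ hb, hbv]
      obtain ⟨j, hj1, hj2, hj3⟩ := hZS v hvS
      refine ⟨b, by omega, ?_⟩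
      rw [hvtx, adr_eq (θ := exts p g w (toTau p g w h.hp.pos σ) i)
        (fun e he => (exts_toTau hpos hσ hi he).symm), asg_Y]
      exact ⟨j, by simp only [hD]; omega, by simp only [hD]; rw [hj3]⟩
  obtain ⟨A', hA1, hA2⟩ := exists_split hwide hhead
  refine ⟨A', ?_⟩
  rw [formB, satAll_append]
  refine ⟨hA2, fun C hC => ?_⟩
  obtain ⟨l, hl, hl'⟩ := hnA C hC
  exact ⟨l, hl, by rw [hA1 _ (hhead' C hC l hl)]; exact hl'⟩

end

end Pool.Agent.Helper650_HSK
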