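import Pool.Agent.Helper650_HSK.FinB

/-!
# Edges of size `d + 1`: near-linear number of vertices
-/

namespace Pool.Agent.Helper650_HSK

open Pool.Agent.NPC
open List (range)

/-- the clauses for the edges, with one literal for the seed -/
def fZ (R w g d p : ℕ) (E : List (List ℕ)) : List Clause :=
  E.flatMap fun e => (range w).flatMap fun i => (tup p g).flatMap fun τ => (tup R d).map fun ls =>
    (nD i 0 τ, false) :: (range d).map fun b =>
      (nY i (ls.getD b 0) (adr p R g τ (ls.getD b 0) (vtx e b)), true)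

def narrowC (R w g G d k p : ℕ) (E : List (List ℕ)) : List Clause :=
  narrowB R w g G k p ++ fZ R w g d p E

def formC (R w g G : ℕ) (Ws : List (List ℕ)) (d k p : ℕ) (E : List (List ℕ)) : List Clause :=
  split (wideA R w g G Ws 1 g k p) ++ narrowC R w g G d k p E

def varsC (R w g G : ℕ) (Ws : List (List ℕ)) (k p : ℕ) : List Name :=
  vBase R w g G k p ++ vD w 1 g p ++ zvars (wideA R w g G Ws 1 g k p)

theorem sat_fZ {A : Name → Bool} {R w g d p : ℕ} {E : List (List ℕ)} :
    SatAll A (fZ R w g d p E) ↔ ∀ e ∈ E, ∀ i < w, ∀ τ ∈ tup p g, ∀ ls ∈ tup R d,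
      A (nD i 0 τ) = true → ∃ b < d, A (nY i (ls.getD b 0)
        (adr p R g τ (ls.getD b 0) (vtx e b))) = true := by
  simp only [fZ, satAll_flatMap, satAll_map, List.mem_range]
  have key : ∀ (x : Name) (f : ℕ → Name), SatC A ((x, false) :: (range d).map fun b =>
      (f b, true)) ↔ (A x = true → ∃ b < d, A (f b) = true) := by
    intro x f
    simp only [SatC, List.mem_cons, List.mem_map, List.mem_range, exists_eq_or_imp]
    constructor
    · rintro (h | ⟨l, ⟨b, hb, rfl⟩, h2⟩) h1
      · rw [h1] at h; exact Bool.noConfusion h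
      · exact ⟨b, hb, h2⟩
    · intro h
      cases hx : A x
      · exact Or.inl rfl
      · obtain ⟨b, hb, h2⟩ := h hx
        exact Or.inr ⟨_, ⟨b, hb, rfl⟩, h2⟩
  have key2 : ∀ (i : ℕ) (e τ ls : List ℕ), SatC A ((nD i 0 τ, false) :: (range d).map fun b =>
      (nY i (ls.getD b 0) (adr p R g τ (ls.getD b 0) (vtx e b)), true)) ↔
      (A (nD i 0 τ) = true → ∃ b < d, A (nY i (ls.getD b 0)
        (adr p R g τ (ls.getD b 0) (vtx e b))) = true) := fun i e τ ls => key _ _
  simp only [key2]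

/-! ### Bookkeeping -/

section

variable {V : List Name} {R w g G k p : ℕ}

theorem V1_fZ {d : ℕ} {E : List (List ℕ)} (hp : 1 ≤ p) (hw : ∀ x ∈ vD w 1 g p, x ∈ V)
    (hV : V1Base V R w g G k p) : V1In V (fZ R w g d p E) := by
  intro C hC c hc
  simp only [fZ, List.mem_flatMap, List.mem_map, List.mem_range] at hC
  obtain ⟨e, he, i, hi, τ, hτ, ls, hls, rfl⟩ := hC
  simp only [List.mem_cons, List.mem_map, List.mem_range] at hc
  rcases hc with rfl | ⟨b, hb, rfl⟩
  · exact hw _ (V1_mem_vD hi (by omega) hτ)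
  · rw [mem_tup] at hls
    refine hV.inY _ (V1_mem_vY hi ?_ (V1_adr hp _ _ _))
    exact hls.2 _ (V1_getD_mem (by rw [hls.1]; exact hb) _)

theorem formC_vars {d : ℕ} {Ws : List (List ℕ)} {E : List (List ℕ)} (hG : g = G + 2)
    (hp : 1 ≤ p) (hWs : ∀ W ∈ Ws, ∀ i ∈ W, i < w) :
    ∀ C ∈ formC R w g G Ws d k p E, ∀ l ∈ C, l.1 ∈ varsC R w g G Ws k p := by
  have hV : V1Base (varsC R w g G Ws k p) R w g G k p := by
    apply V1Base_of
    intro x hx
    simp only [varsC, List.mem_append, hx, true_or]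
  have hD : ∀ x ∈ vD w 1 g p, x ∈ varsC R w g G Ws k p := by
    intro x hx
    simp only [varsC, List.mem_append, hx, true_or, or_true]
  have hz : ∀ x ∈ zvars (wideA R w g G Ws 1 g k p), x ∈ varsC R w g G Ws k p := by
    intro x hx
    simp only [varsC, List.mem_append, hx, or_true]
  exact V1In_append (V1_split (V1In_append (V1In_append (V1_wideB hG hp hWs hV) (V1_fT hV))
    (V1_fD (by omega) hV hD)) hz) (V1In_append (V1_narrowB hG hp hV) (V1_fZ hp hD hV))

theorem narrowC_head {d : ℕ} {E : List (List ℕ)} (hG : g = G + 2)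
    (hp : 1 ≤ p) : ∀ C ∈ narrowC R w g G d k p E, ∀ l ∈ C, l.1.head? ≠ some 21 := by
  intro C hC l hl
  have hV : V1Base (vBase R w g G k p ++ vD w 1 g p ++ vL R w g 1 g p) R w g G k p := by
    apply V1Base_of
    intro x hx
    simp only [List.mem_append, hx, true_or]
  have hD : ∀ x ∈ vD w 1 g p, x ∈ vBase R w g G k p ++ vD w 1 g p ++ vL R w g 1 g p := by
    intro x hx
    simp only [List.mem_append, hx, true_or, or_true]
  exact names_head (V1In_append (V1_narrowB hG hp hV) (V1_fZ hp hD hV) C hC l hl)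

theorem formC_width {d : ℕ} {Ws : List (List ℕ)} {E : List (List ℕ)} (hd : 3 ≤ d + 1) :
    ∀ C ∈ formC R w g G Ws d k p E, C ≠ [] ∧ C.length ≤ d + 1 := by
  refine V1Wd_append (V1w_split hd _) (V1Wd_append (V1w_narrowB hd) ?_)
  intro C hC
  simp only [fZ, List.mem_flatMap, List.mem_map, List.mem_range] at hC
  obtain ⟨e, he, i, hi, τ, hτ, ls, hls, rfl⟩ := hC
  simp

theorem length_varsC_le (R w g G : ℕ) (Ws : List (List ℕ)) (hg : 4 ≤ g) :
    ∃ C b : ℕ, ∀ k p : ℕ, b ≤ p → 2 * (k + 2) ≤ p ^ (g - 3) →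
      (varsC R w g G Ws k p).length ≤ C * p ^ (g + 2) := by
  obtain ⟨m, hm⟩ := V1_exists_m Ws
  refine ⟨(R + (R + 1) + w * g + w * (R + 1) * g + 2 * R + 2 * w * R + 2 * w * R * g +
        w * R * (G + 1) * g + w * R) + w +
        (2 * (R + w * R * g + 2 * R * Ws.length + 2 * w * R * g) + 2 * w * g + 2 * w),
        max (max 5 m) (g + 1), ?_⟩
  intro k p hb hk
  have h5 : 5 ≤ p := (le_max_left _ _).trans ((le_max_left _ _).trans hb)
  have hmp : m ≤ p := (le_max_right _ _).trans ((le_max_left _ _).trans hb)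
  have hgp : g + 1 ≤ p := (le_max_right _ _).trans hb
  have hp : 1 ≤ p := by omega
  have hX1 := V1_pows hg hp hk
  have hX2 : p * p ^ g ≤ p ^ (g + 2) := by
    rw [← pow_succ']
    exact Nat.pow_le_pow_right hp (by omega)
  set X := p ^ (g + 2) with hX
  have h1 := V1_base_le (R := R) (w := w) (G := G) hp hX1 hX2
  have h2 := V1_wideB_le (R := R) (w := w) (g := g) (G := G) (Ws := Ws) hp hX1
  have h3 := length_zvars_le (V1_wideA_len (R := R) (w := w) (g := g) (G := G) (k := k) (d := 1)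
    hm hmp h5 hgp)
  have h6 : p ^ g ≤ X := by
    have : p ^ g ≤ p * p ^ g := Nat.le_mul_of_pos_left _ hp
    exact this.trans hX2
  have h7 : (wideA R w g G Ws 1 g k p).length =
      (wideB R w g G Ws k p).length + w * g + w * p ^ g := by
    rw [wideA, List.length_append, List.length_append]
    congr 1
    · congr 1
      rw [fT, length_flatMap_const _ _ g, List.length_range]
      intro i _
      rw [List.length_map, List.length_range]
    · rw [fD, length_flatMap_const _ _ (p ^ g), List.length_range]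
      intro i _
      rw [length_flatMap_const _ _ (p ^ g), List.length_range, one_mul]
      intro b _
      rw [List.length_map, length_tup]
  have h8 : (vD w 1 g p).length = w * p ^ g := by
    rw [vD, length_flatMap_const _ _ (p ^ g), List.length_range]
    intro i _
    rw [length_flatMap_const _ _ (p ^ g), List.length_range, one_mul]
    intro b _
    rw [List.length_map, length_tup]
  have h9 : p + 1 ≤ 2 * X := by
    have : p ≤ X := by
      rw [hX]
      exact Nat.le_self_pow (by omega) p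
    omega
  have h10 : p ^ g * (p + 1) ≤ 2 * X := by
    calc p ^ g * (p + 1) ≤ p ^ g * (2 * p) := Nat.mul_le_mul_left _ (by omega)
      _ = 2 * (p * p ^ g) := by ring
      _ ≤ 2 * X := Nat.mul_le_mul_left _ hX2
  rw [varsC, List.length_append, List.length_append, add_mul, add_mul, h8]
  refine add_le_add (add_le_add h1 (Nat.mul_le_mul_left _ h6)) (h3.trans ?_)
  rw [h7]
  calc ((wideB R w g G Ws k p).length + w * g + w * p ^ g) * (p + 1)
      = (wideB R w g G Ws k p).length * (p + 1) + w * g * (p + 1) + w * (p ^ g * (p + 1)) := by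
        ring
    _ ≤ 2 * (R + w * R * g + 2 * R * Ws.length + 2 * w * R * g) * X + w * g * (2 * X) +
        w * (2 * X) := by gcongr
    _ = _ := by ring

end

/-! ### Running time and lengths -/

section

variable {α : Type} [TEnc α]

theorem j8_fZ (R w g d : ℕ) {p : α → ℕ} {E : α → List (List ℕ)} {T : α → List (List ℕ)}
    (hp : NPC.Poly p) (hT : NPC.Poly T) (hE : NPC.Poly E) :
    NPC.Poly (fun a =>
    ((E a).flatMap fun e => (range w).flatMap fun i => (T a).flatMap fun τ =>
      (tup R d).map fun ls => (nD i 0 τ, false) :: (range d).map fun b =>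
      (nY i (ls.getD b 0) (adr (p a) R g τ (ls.getD b 0) (vtx e b)), true) : List Clause)) := by
  refine NPC.Poly.flatMap (F := fun (a : α) (e : List ℕ) =>
    ((range w).flatMap fun i => (T a).flatMap fun τ =>
      (tup R d).map fun ls => (nD i 0 τ, false) :: (range d).map fun b =>
      (nY i (ls.getD b 0) (adr (p a) R g τ (ls.getD b 0) (vtx e b)), true) : List Clause)) hE ?_
  refine j8_flatMap_const (range w) (f := fun i (x : α × List ℕ) =>
    ((T x.1).flatMap fun τ => (tup R d).map fun ls => (nD i 0 τ, false) :: (range d).map fun b =>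
      (nY i (ls.getD b 0) (adr (p x.1) R g τ (ls.getD b 0) (vtx x.2 b)), true) : List Clause))
    fun i => ?_
  refine NPC.Poly.flatMap (F := fun (x : α × List ℕ) (τ : List ℕ) =>
    ((tup R d).map fun ls => (nD i 0 τ, false) :: (range d).map fun b =>
      (nY i (ls.getD b 0) (adr (p x.1) R g τ (ls.getD b 0) (vtx x.2 b)), true) : List Clause))
      (hT.comp (NPC.Poly.fst NPC.Poly.id)) ?_
  refine j8_map_const (tup R d) (f := fun ls (x : (α × List ℕ) × List ℕ) =>
    ((nD i 0 x.2, false) :: (range d).map fun b => (nY i (ls.getD b 0)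
      (adr (p x.1.1) R g x.2 (ls.getD b 0) (vtx x.1.2 b)), true) : Clause))
    fun ls => ?_
  have h0 : NPC.Poly (fun x : (α × List ℕ) × List ℕ => ((range d).map fun b =>
      (nY i (ls.getD b 0) (adr (p x.1.1) R g x.2 (ls.getD b 0) (vtx x.1.2 b)), true) :
        Clause)) := by
    refine j8_map_const (range d) (f := fun b (x : (α × List ℕ) × List ℕ) =>
      ((nY i (ls.getD b 0)
        (adr (p x.1.1) R g x.2 (ls.getD b 0) (vtx x.1.2 b)), true) : Lit)) fun b => ?_
    have h1 : NPC.Poly (fun x : (α × List ℕ) × List ℕ =>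
        adr (p x.1.1) R g x.2 (ls.getD b 0) (vtx x.1.2 b)) :=
      j8_adr (by fun_prop) (by fun_prop)
        (j8_vtx (by fun_prop) (NPC.Poly.const _)) _ _ _
    unfold nY
    fun_prop
  refine NPC.Poly.cons ?_ h0
  unfold nD
  fun_prop

theorem poly_formC (R w g G : ℕ) (Ws : List (List ℕ)) (d : ℕ) {k p : α → ℕ}
    {E : α → List (List ℕ)} (hk : UPoly k) (hp : UPoly p) (hE : NPC.Poly E) :
    NPC.Poly (fun a => formC R w g G Ws d (k a) (p a) (E a)) ∧
      NPC.Poly (fun a => varsC R w g G Ws (k a) (p a)) := by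
  have h1 := poly_split_zvars (j8_wideA R w g G Ws 1 g hk hp)
  have hT := j8_tupL hp.range g
  constructor
  · exact h1.1.append ((j8_narrowB R w g G hk hp).append (j8_fZ R w g d hp.toPoly hT hE))
  · exact ((j8_vBase R w g G hk hp).append (j8_vD w 1 hT)).append h1.2

end

theorem j8_length_fZ (R w g d p : ℕ) (E : List (List ℕ)) :
    (fZ R w g d p E).length = E.length * (w * (p ^ g * R ^ d)) := by
  unfold fZ
  refine length_flatMap_const _ _ _ fun e _ => ?_
  rw [length_flatMap_const _ _ (p ^ g * R ^ d), List.length_range]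
  intro i _
  rw [length_flatMap_const _ _ (R ^ d), length_tup]
  intro T _
  rw [List.length_map, length_tup]

theorem length_formC_le (R w g G : ℕ) (Ws : List (List ℕ)) (d : ℕ) :
    ∃ h : Polynomial ℕ, ∀ (k p : ℕ) (E : List (List ℕ)),
      (formC R w g G Ws d k p E).length + (varsC R w g G Ws k p).length ≤
        h.eval (k + p + E.length) := by
  have h1 : UPoly (fun x : List Unit × List Unit × List Unit => x.1.length) :=
    UPoly.length (by fun_prop)
  have h2 : UPoly (fun x : List Unit × List Unit × List Unit => x.2.1.length) :=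
    UPoly.length (by fun_prop)
  have h3 : NPC.Poly (fun x : List Unit × List Unit × List Unit =>
      x.2.2.map (fun _ => ([] : List ℕ))) := by fun_prop
  obtain ⟨h4, h5⟩ := poly_formC R w g G Ws d h1 h2 h3
  obtain ⟨h, hh⟩ := j8_bound h4 h5
  refine ⟨h, fun k p E => ?_⟩
  refine le_trans (le_of_eq ?_) (hh k p E.length)
  simp only [List.length_replicate]
  congr 1
  simp only [formC, narrowC, List.length_append, j8_length_fZ, List.length_map,
    List.length_replicate]

/-! ### Correctness -/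

section

variable {R w g G w0 d k p n : ℕ} {Ws : List (List ℕ)} {E : List (List ℕ)}

theorem formC_sound (h : Cond R w g G w0 d Ws k p n) (hE : EdgesOk d n E)
    {A : Name → Bool} (hA : SatAll A (formC R w g G Ws d k p E)) :
    ∃ S : Finset ℕ, S ⊆ Finset.range n ∧ S.card ≤ k ∧ Hits S E := by
  classical
  rw [formC, satAll_append] at hA
  obtain ⟨hA1, hA2⟩ := hA
  have hA1 := satAll_of_split hA1
  rw [wideA, satAll_append, satAll_append, sat_fT, sat_fD] at hA1
  rw [narrowC, satAll_append, sat_fZ] at hA2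
  obtain ⟨⟨hW, hT⟩, hD⟩ := hA1
  obtain ⟨hN, hX⟩ := hA2
  obtain ⟨τ, hτ⟩ : ∃ τ : ℕ → ℕ → ℕ, ∀ i < w, ∀ e < g, τ i e < p ∧ A (nT i e (τ i e)) = true := by
    have h1 : ∀ i e : ℕ, ∃ θ : ℕ, i < w → e < g → θ < p ∧ A (nT i e θ) = true := by
      intro i e
      by_cases hi : i < w
      · by_cases he : e < g
        · obtain ⟨θ, h1, h2⟩ := hT i hi e he
          exact ⟨θ, fun _ _ => ⟨h1, h2⟩⟩
        · exact ⟨0, fun _ h => absurd h he⟩
      · exact ⟨0, fun h => absurd h hi⟩
    choose τ hτ using h1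
    exact ⟨τ, fun i hi e he => hτ i e hi he⟩
  obtain ⟨S, hS1, hS2, hS3⟩ := sound_set h hW hN hτ
  refine ⟨S, hS1, hS2, ?_⟩
  intro e he
  by_contra hcon
  push Not at hcon
  obtain ⟨he0, hed, hen⟩ := hE e he
  have h1 : ∀ b : ℕ, ∃ l < R, ((range w).filter (fun i => A (nY i l
      (addr p g (τ i) (l + 1) (pre p R (l + 1) (vtx e b + 1)))))).length < w0 := fun b =>
    hS3 _ (hen _ (vtx_mem he0 b)) (hcon _ (vtx_mem he0 b))
  choose l hl hl' using h1
  obtain ⟨i, hi, hi'⟩ := common_level (P := fun b i => A (nY i (l b)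
      (addr p g (τ i) (l b + 1) (pre p R (l b + 1) (vtx e b + 1))))) h.hd h.hw
      (fun b _ => hl' b)
  have hTm : (range g).map (τ i) ∈ tup p g := by
    rw [mem_tup]
    refine ⟨by simp, fun x hx => ?_⟩
    rw [List.mem_map] at hx
    obtain ⟨e', he', rfl⟩ := hx
    exact (hτ i hi _ (List.mem_range.1 he')).1
  have hls : (range d).map l ∈ tup R d := by
    rw [mem_tup]
    refine ⟨by simp, fun x hx => ?_⟩
    rw [List.mem_map] at hx
    obtain ⟨b, _, rfl⟩ := hx
    exact hl b
  have hDb : A (nD i 0 ((range g).map (τ i))) = true := by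
    refine hD i hi 0 (by omega) _ hTm (fun q hq => ?_)
    rw [List.mem_zipIdx_iff_getElem?, List.getElem?_map] at hq
    have hq2 : q.2 < g := by
      by_contra hcon
      rw [List.getElem?_eq_none (by simpa using hcon)] at hq
      simp at hq
    rw [List.getElem?_range hq2] at hq
    simp only [Option.map_some, Option.some.injEq] at hq
    rw [← hq, zero_mul, zero_add]
    exact (hτ i hi _ hq2).2
  obtain ⟨b, hb, hb'⟩ := hX e he i hi _ hTm _ hls hDb
  have hlb : ((range d).map l).getD b 0 = l b := by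
    rw [List.getD_eq_getElem?_getD, List.getElem?_map, List.getElem?_range hb]; rfl
  rw [hlb, adr_eq (θ := τ i) (fun e he => by
    rw [List.getD_eq_getElem?_getD, List.getElem?_map, List.getElem?_range he]; rfl)] at hb'
  have h5 := hi' b hb
  rw [h5] at hb'
  exact Bool.noConfusion hb'

theorem formC_complete (h : Cond R w g G w0 d Ws k p n) (hE : EdgesOk d n E)
    {S : Finset ℕ} (hS : S ⊆ Finset.range n) (hSk : S.card ≤ k) (hSE : Hits S E)
    (hhead : ∀ C ∈ wideA R w g G Ws 1 g k p, ∀ l ∈ C, l.1.head? ≠ some 21)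
    (hhead' : ∀ C ∈ narrowC R w g G d k p E, ∀ l ∈ C, l.1.head? ≠ some 21) :
    ∃ A : Name → Bool, SatAll A (formC R w g G Ws d k p E) := by
  classical
  have hpos := h.hp.pos
  have hn := h.hn
  obtain ⟨Z, hZ, hZ0, hZ1, hZR, hZS⟩ := exists_sorted (N := p ^ R) S hSk (fun v hv => by
    have := Finset.mem_range.1 (hS hv)
    omega) (by omega)
  have hcard := card_badSeq (w0 := w0) h.hp h.hg h.hR h.hk h.hk' h.hpR h.hpw h.hw0 hZ hZR
  obtain ⟨τ, hτ⟩ : ∃ τ : Fin w → Fin g → Fin p, ¬ BadSeq p R g G k w w0 Z τ := by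
    by_contra hcon
    push Not at hcon
    have h1 : (Finset.univ.filter (fun τ : Fin w → Fin g → Fin p =>
      BadSeq p R g G k w w0 Z τ)) = Finset.univ := by
      rw [Finset.filter_true_of_mem]
      exact fun τ _ => hcon τ
    rw [h1, Finset.card_univ, Fintype.card_fun, Fintype.card_fun, Fintype.card_fin,
      Fintype.card_fin, Fintype.card_fin] at hcard
    have : 0 < (p ^ g) ^ w := by positivity
    omega
  set D : Dat := ⟨p, R, g, G, k, g, Z, exts p g w τ⟩ with hD
  have hok : Ok D w w0 Ws :=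
    { hp := hpos
      hg := h.hg
      hτ := exts_lt hpos τ
      hZ := hZ
      hZ0 := hZ0
      hZ1 := hZ1
      hWs := fun W hW => (h.hWs W).1 hW
      hgood := good_of_not_badSeq hτ }
  have hg0 : 0 < g := by have := h.hg; omega
  have hwide := honest_wide hok
  have hnarrow := honest_narrow hok hg0
  have hwA : SatAll (asg D) (wideA R w g G Ws 1 g k p) := by
    rw [wideA, satAll_append, satAll_append, sat_fT, sat_fD]
    refine ⟨⟨hwide, ?_⟩, ?_⟩
    · intro i _ e _
      exact ⟨_, exts_lt hpos τ i e, asg_T.2 rfl⟩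
    · intro i _ b _ s hs hq
      rw [asg_D]
      rw [mem_tup] at hs
      apply List.ext_getElem
      · simp [hs.1, hD]
      · intro m h1 h2
        have h3 := hq (s[m], m) (by rw [List.mem_zipIdx_iff_getElem?]; simp [h1])
        rw [asg_T] at h3
        simp only [hD] at h3 ⊢
        simpa using h3
  have hnA : SatAll (asg D) (narrowC R w g G d k p E) := by
    rw [narrowC, satAll_append, sat_fZ]
    refine ⟨hnarrow, ?_⟩
    intro e he i hi T hT ls hls hTD
    obtain ⟨he0, hed, hen⟩ := hE e he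
    rw [asg_D] at hTD
    simp only [hD, zero_mul, zero_add] at hTD
    obtain ⟨v, hve, hvS⟩ := hSE e he
    obtain ⟨b, hb, hbv⟩ := List.mem_iff_getElem.1 hve
    have hvtx : vtx e b = v := by rw [vtx, List.getD_eq_getElem _ _ hb, hbv]
    obtain ⟨j, hj1, hj2, hj3⟩ := hZS v hvS
    refine ⟨b, by omega, ?_⟩
    rw [hvtx, adr_eq (θ := exts p g w τ i) (fun e he => by
      rw [hTD, List.getD_eq_getElem?_getD, List.getElem?_map, List.getElem?_range he]; rfl),
      asg_Y]
    exact ⟨j, by simp only [hD]; omega, by simp only [hD]; rw [hj3]⟩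
  obtain ⟨A', hA1, hA2⟩ := exists_split hwA hhead
  refine ⟨A', ?_⟩
  rw [formC, satAll_append]
  refine ⟨hA2, fun C hC => ?_⟩
  obtain ⟨l, hl, hl'⟩ := hnA C hC
  exact ⟨l, hl, by rw [hA1 _ (hhead' C hC l hl)]; exact hl'⟩

end

/-! ### The reduction -/

/-- The reduction. -/
def kerC (R w g G : ℕ) (Ws : List (List ℕ)) (d C b : ℕ) (x : Inst) : Inst :=
  bif decide ((shrink d x).1.1 ≤ x.2) then ((0, []), 0) else
    (hypOf (varsC R w g G Ws (min x.2 (shrink d x).1.1)
        (findP C (g - 3) b (min x.2 (shrink d x).1.1)))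
      (formC R w g G Ws d (min x.2 (shrink d x).1.1)
        (findP C (g - 3) b (min x.2 (shrink d x).1.1)) (shrink d x).1.2),
      (varsC R w g G Ws (min x.2 (shrink d x).1.1)
        (findP C (g - 3) b (min x.2 (shrink d x).1.1))).length)

theorem poly_kerC (R w g G : ℕ) (Ws : List (List ℕ)) (d C b : ℕ) :
    NPC.Poly (kerC R w g G Ws d C b) := by
  have hs := poly_shrink d
  have hu := uPoly_shrink d
  have hk : UPoly (fun x : Inst => min x.2 (shrink d x).1.1) :=
    R544.uPoly_min (NPC.Poly.snd NPC.Poly.id) hu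
  have hp := uPoly_findP C (g - 3) b hk
  have hE : NPC.Poly (fun x : Inst => (shrink d x).1.2) := NPC.Poly.snd (NPC.Poly.fst hs)
  obtain ⟨h1, h2⟩ := poly_formC R w g G Ws d hk hp hE
  unfold kerC
  refine NPC.Poly.cond (NPC.Poly.decide_le hu.toPoly (NPC.Poly.snd NPC.Poly.id))
    (NPC.Poly.const _) ?_
  exact NPC.Poly.pair (poly_hypOf h2 h1) (NPC.Poly.length h2)

theorem cond_of'' {R w g G w0 d k p n c : ℕ} (hd : 1 ≤ d) (h4 : 4 ≤ g)
    (hG : G = g - 2) (hw0 : w0 = 2 * g + (g - 3) * c) (hw : w = d * w0)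
    (hR : R = (g - 3) * d + (d + 2))
    (hp : p.Prime) (hb1 : (G + 2) * R ^ g ≤ p) (hb2 : 4 * (R * 2 ^ w) ≤ p)
    (hpk : 2 * (k + 2) ≤ p ^ (g - 3)) (hn : n ≤ d * (k + 1) ^ d) :
    Cond R w g G w0 d ((range w).sublistsLen w0) k p n := by
  have hpp := hp.two_le
  have h1 : p ^ (g - 3) ≤ p ^ G := Nat.pow_le_pow_right hp.pos (by omega)
  refine ⟨hp, by omega, by omega, ?_, by omega, hb1, hb2, ?_, by omega, hw, ?_, ?_⟩
  · calc 2 * (k + 1) * p ≤ p ^ (g - 3) * p := Nat.mul_le_mul_right _ (by omega)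
      _ = p ^ G := by rw [← pow_succ]; congr 1; omega
  · have : G + 1 ≤ 2 * g := by omega
    exact this.trans (by rw [hw0]; exact Nat.le_add_right _ _)
  · intro W
    rw [List.mem_sublistsLen]
  · have h2 : (k + 1) ^ d ≤ p ^ ((g - 3) * d) := by
      rw [pow_mul]
      exact Nat.pow_le_pow_left (by omega) d
    have h3 : d + 2 ≤ p ^ (d + 2) := (Nat.lt_two_pow_self (n := d + 2)).le.trans
      (Nat.pow_le_pow_left hpp _)
    have h4 : 1 ≤ (k + 1) ^ d := Nat.one_le_pow _ _ (by omega)
    calc n + 2 ≤ d * (k + 1) ^ d + 2 := by omega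
      _ ≤ (d + 2) * (k + 1) ^ d := by nlinarith
      _ ≤ p ^ (d + 2) * p ^ ((g - 3) * d) := Nat.mul_le_mul h3 h2
      _ = p ^ R := by rw [← pow_add, hR]; congr 1; omega

theorem main_C (d : ℕ) (hd : 2 ≤ d) (ε : ℝ) (hε : 0 < ε) :
    ∃ (K : List Bool → List Bool) (C : ℝ) (h : Polynomial ℕ), PolyTime K ∧
      ∀ x : Inst, IsHyp d x.1 → ∃ y : Inst, K (bits x) = bits y ∧ IsHyp (d + 1) y.1 ∧
        (Yes x ↔ Yes y) ∧ y.2 ≤ y.1.1 ∧ (bits y).length ≤ h.eval x.2 ∧
        (y.1.1 : ℝ) ≤ C * ((x.2 : ℝ) + 1) ^ (1 + ε) := by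
  obtain ⟨g, h4, hexp⟩ := exists_exponent_B ε hε
  obtain ⟨G, hG⟩ : ∃ G, G = g - 2 := ⟨_, rfl⟩
  obtain ⟨w0, hw0⟩ : ∃ w0, w0 = 2 * g + (g - 3) * 0 := ⟨_, rfl⟩
  obtain ⟨w, hw⟩ : ∃ w, w = d * w0 := ⟨_, rfl⟩
  obtain ⟨R, hR⟩ : ∃ R, R = (g - 3) * d + (d + 2) := ⟨_, rfl⟩
  obtain ⟨Ws, hWs⟩ : ∃ Ws, Ws = (range w).sublistsLen w0 := ⟨_, rfl⟩
  obtain ⟨C1, b1, hC1⟩ := length_varsC_le R w g G Ws h4
  obtain ⟨b, hb⟩ : ∃ b, b = max (max 2 b1) (max ((G + 2) * R ^ g) (4 * (R * 2 ^ w))) := ⟨_, rfl⟩
  obtain ⟨C2, hC2⟩ := exists_prime_param (g - 3) b (by omega) (by omega)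
  obtain ⟨D, hD⟩ := hexp (2 * C1) C2
  obtain ⟨q, hq⟩ := length_formC_le R w g G Ws d
  obtain ⟨r, hr⟩ := length_bits_le (d + 1)
  have hPoly := poly_kerC R w g G Ws d C2 b
  refine ⟨_, max D 0, r.comp (Polynomial.C 4 * q.comp (Polynomial.X + Polynomial.C C2 *
    (Polynomial.X + 1) + (Polynomial.X + 1) ^ d)),
    polyTime_opt (NPC.Poly.optMap (o := unbits Inst) (f := fun _ a => kerC R w g G Ws d C2 b a)
      poly_unbits (hPoly.comp (NPC.Poly.snd NPC.Poly.id))), ?_⟩
  intro x hx
  refine ⟨kerC R w g G Ws d C2 b x, by simp [unbits_bits], ?_⟩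
  obtain ⟨hs1, hs2, hs3, hs4, hs5⟩ := shrink_ok d (by omega) x hx
  by_cases htriv : (shrink d x).1.1 ≤ x.2
  · have hker : kerC R w g G Ws d C2 b x = ((0, []), 0) := by
      rw [kerC, decide_eq_true htriv]
      rfl
    rw [hker]
    refine ⟨fun e he => by simp at he, ?_, le_rfl, ?_, ?_⟩
    · rw [hs2]
      exact ⟨fun _ => yes_zero, fun _ => yes_of_le hs1 (by rw [hs3]; exact htriv)⟩
    · refine (hr _ (fun e he => by simp at he)).trans ?_
      rw [Polynomial.eval_comp]
      exact eval_mono r (by simp)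
    · have : (0 : ℝ) ≤ max D 0 := le_max_right _ _
      simp only [Nat.cast_zero]
      positivity
  · have hmin : min x.2 (shrink d x).1.1 = x.2 := min_eq_left (by omega)
    obtain ⟨p, hpdef⟩ : ∃ p, p = findP C2 (g - 3) b x.2 := ⟨_, rfl⟩
    obtain ⟨hp1, hp2, hp3, hp4⟩ := findP_spec (C := C2) (b := b) (k := x.2)
      (h := g - 3) (by omega) (hC2 x.2)
    rw [← hpdef] at hp1 hp2 hp3 hp4
    have hker : kerC R w g G Ws d C2 b x = (hypOf (varsC R w g G Ws x.2 p)
        (formC R w g G Ws d x.2 p (shrink d x).1.2), (varsC R w g G Ws x.2 p).length) := by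
      rw [kerC, decide_eq_false htriv, hmin, ← hpdef]
      rfl
    have hcond : Cond R w g G w0 d Ws x.2 p (shrink d x).1.1 := by
      rw [hWs]
      exact cond_of'' (by omega) h4 hG hw0 hw hR hp1 (by omega) (by omega) hp3 hs4
    have hE : EdgesOk d (shrink d x).1.1 (shrink d x).1.2 := fun e he => by
      obtain ⟨h1, _, h3, h4⟩ := hs1 e he
      exact ⟨h1, h3, h4⟩
    have hWs' : ∀ W ∈ Ws, ∀ i ∈ W, i < w := fun W hW i hi =>
      List.mem_range.1 (((hcond.hWs W).1 hW).1.subset hi)
    have hvars := formC_vars (R := R) (d := d) (k := x.2) (E := (shrink d x).1.2) (Ws := Ws)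
      hcond.hg hp1.one_le hWs'
    have hwidth := formC_width (R := R) (w := w) (g := g) (G := G) (k := x.2) (p := p)
      (Ws := Ws) (E := (shrink d x).1.2) (d := d) (by omega)
    have hyp : IsHyp (d + 1) (hypOf (varsC R w g G Ws x.2 p)
        (formC R w g G Ws d x.2 p (shrink d x).1.2)) := isHyp_hypOf (by omega) hvars hwidth
    rw [hker]
    refine ⟨hyp, ?_, ?_, ?_, ?_⟩
    · rw [hs2, yes_hypOf_iff hvars]
      constructor
      · rintro ⟨S, h1, h2, h3⟩
        rw [hs3] at h2
        exact formC_complete hcond hE h1 h2 h3 wideA_head (narrowC_head hcond.hg hp1.one_le)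
      · rintro ⟨A, hA⟩
        obtain ⟨S, h1, h2, h3⟩ := formC_sound hcond hE hA
        exact ⟨S, h1, by rw [hs3]; exact h2, h3⟩
    · show (varsC R w g G Ws x.2 p).length ≤ 2 * (varsC R w g G Ws x.2 p).length
      omega
    · refine (hr _ hyp).trans ?_
      have h1 : (hypOf (varsC R w g G Ws x.2 p)
          (formC R w g G Ws d x.2 p (shrink d x).1.2)).2.length =
          (varsC R w g G Ws x.2 p).length +
            (formC R w g G Ws d x.2 p (shrink d x).1.2).length := by
        simp [hypOf]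
      have h2 := hq x.2 p (shrink d x).1.2
      have h3 : p ≤ C2 * (x.2 + 1) := by rw [hpdef]; exact findP_le _ _ _ _
      rw [Polynomial.eval_comp]
      refine eval_mono r ?_
      simp only [h1]
      rw [Polynomial.eval_mul, Polynomial.eval_C, Polynomial.eval_comp]
      have h4 : q.eval (x.2 + p + (shrink d x).1.2.length) ≤
          q.eval (Polynomial.eval x.2 (Polynomial.X + Polynomial.C C2 *
            (Polynomial.X + 1) + (Polynomial.X + 1) ^ d)) := by
        refine eval_mono q ?_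
        simp only [Polynomial.eval_add, Polynomial.eval_mul, Polynomial.eval_X,
          Polynomial.eval_C, Polynomial.eval_one, Polynomial.eval_pow]
        omega
      have h5 : (hypOf (varsC R w g G Ws x.2 p)
          (formC R w g G Ws d x.2 p (shrink d x).1.2)).1 =
            2 * (varsC R w g G Ws x.2 p).length := rfl
      rw [h5]
      omega
    · have h1 := hC1 x.2 p (by omega) hp3
      have h2 := hD (2 * (varsC R w g G Ws x.2 p).length) p x.2 hp4
        (by rw [mul_assoc]; exact Nat.mul_le_mul_left _ h1)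
      have h3 : (0 : ℝ) ≤ ((x.2 : ℝ) + 1) ^ (1 + ε) := by positivity
      exact h2.trans (mul_le_mul_of_nonneg_right (le_max_left _ _) h3)

end Pool.Agent.Helper650_HSK
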