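import Pool.Agent.Helper650_HSK.Gap

/-!
# Counting bad seeds
-/

namespace Pool.Agent.Helper650_HSK

open List (range)

/-- A tuple as a function on `ℕ`. -/
def ext {g p : ℕ} (τ : Fin g → Fin p) : ℕ → ℕ := fun e => if h : e < g then (τ ⟨e, h⟩ : ℕ) else 0

theorem ext_lt {g p : ℕ} (hp : 0 < p) (τ : Fin g → Fin p) (e : ℕ) : ext τ e < p := by
  rw [ext]
  split_ifs
  · exact (τ _).2
  · exact hp

theorem ext_val {g p : ℕ} (τ : Fin g → Fin p) (e : Fin g) : ext τ e = τ e := by
  rw [ext, dif_pos e.2]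

theorem take_addr_eq {p g : ℕ} {θ : ℕ → ℕ} {L f f' t : ℕ}
    (h : (addr p g θ L f).take t = (addr p g θ L f').take t) {e : ℕ} (he : e < t) (he' : e < g) :
    hsh p (θ e) L f = hsh p (θ e) L f' := by
  have h1 := congrArg (fun l => l.getD e 0) h
  simp only [addr, List.getD_eq_getElem?_getD] at h1
  rw [List.getElem?_take_of_lt he, List.getElem?_take_of_lt he] at h1
  simpa [he'] using h1

section

variable {p R g G k w w0 : ℕ} {Z : ℕ → ℕ}

theorem idx_lt (hk : 2 * (k + 1) * p ≤ p ^ G) {s j β : ℕ} (hs : s < 2) (hj : j < k + 1)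
    (hβ : β < p) : idx p s j β < p ^ G := by
  refine lt_of_lt_of_le ?_ hk
  rw [idx]
  have : (2 * j + s + 1) * p ≤ 2 * (k + 1) * p := Nat.mul_le_mul_right _ (by omega)
  rw [add_mul, one_mul] at this
  omega

theorem idx_inj {s j β s' j' β' : ℕ} (hs : s < 2) (hβ : β < p) (hs' : s' < 2)
    (hβ' : β' < p) (h : idx p s j β = idx p s' j' β') : s = s' ∧ j = j' ∧ β = β' := by
  have hp : 0 < p := by omega
  simp only [idx] at h
  have h1 : β = β' := by
    have := congrArg (· % p) h
    simpa [Nat.mul_add_mod', Nat.mod_eq_of_lt hβ, Nat.mod_eq_of_lt hβ'] using this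
  subst h1
  have h2 : 2 * j + s = 2 * j' + s' := by
    have h3 : (2 * j + s) * p = (2 * j' + s') * p := by omega
    exact Nat.eq_of_mul_eq_mul_right hp h3
  omega

open Classical in
/-- The number of seeds which are bad for a required node. -/
theorem card_bad (hp : p.Prime) (hg : g = G + 2) (hR : 1 ≤ R)
    (hk : 2 * (k + 1) * p ≤ p ^ G) (hk' : k + 2 ≤ p ^ G) (hpR : (G + 2) * R ^ g ≤ p)
    (hZ : ∀ j < k + 1, Z j ≤ Z (j + 1)) (hZR : ∀ j < k + 2, Z j < p ^ R) {s j l β : ℕ}
    (hs : s < 2) (hj : j < k + 1) (hl : l < R) (hβ : β < p) (h : Req p R Z s j l β) :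
    p * (Finset.univ.filter
      (fun τ : Fin g → Fin p => ¬ Good p R g G k Z (ext τ) s j l β)).card ≤ p ^ g := by
  have hp0 : 0 < p := hp.pos
  have hstr : ∀ s' < 2, ∀ j' < k + 1, ∀ β' < p, str p R Z s' j' l β' < p ^ (l + 1) := by
    intro s' hs' j' hj' β' hβ'
    have h1 := pre_lt (p := p) (l := l) hl.le (hZR (j' + s') (by omega))
    rw [str, pow_succ]
    have h2 : (pre p R l (Z (j' + s')) + 1) * p ≤ p ^ l * p := Nat.mul_le_mul_right _ h1
    rw [add_mul, one_mul] at h2
    omega
  have hRg : ∀ t ≤ g, (l + 1) ^ t ≤ R ^ g := fun t ht =>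
    (Nat.pow_le_pow_left (by omega) t).trans (Nat.pow_le_pow_right hR ht)
  -- the two kinds of bad events
  set E1 : ℕ → Finset (Fin g → Fin p) := fun j' => Finset.univ.filter
    (fun τ => ∀ e : Fin g, e.1 < g → hsh p (τ e) (l + 1) (str p R Z s j l β) =
      hsh p (τ e) (l + 1) (pre p R (l + 1) (Z j'))) with hE1
  set E2 : ℕ → ℕ × ℕ × ℕ → Finset (Fin g → Fin p) := fun t ν => Finset.univ.filter
    (fun τ => ∀ e : Fin g, e.1 < t + 2 → hsh p (τ e) (l + 1) (str p R Z s j l β) =
      hsh p (τ e) (l + 1) (str p R Z ν.1 ν.2.1 l ν.2.2)) with hE2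
  set N : ℕ → Finset (ℕ × ℕ × ℕ) := fun t =>
    (Finset.range 2 ×ˢ Finset.range (k + 1) ×ˢ Finset.range p).filter
      (fun ν => Req p R Z ν.1 ν.2.1 l ν.2.2 ∧ ν ≠ (s, j, β) ∧
        idx p ν.1 ν.2.1 ν.2.2 / p ^ t = idx p s j β / p ^ t) with hN
  have hsub : (Finset.univ.filter
      (fun τ : Fin g → Fin p => ¬ Good p R g G k Z (ext τ) s j l β)) ⊆
      (Finset.range (k + 2)).biUnion E1 ∪
        (Finset.range (G + 1)).biUnion (fun t => (N t).biUnion (E2 t)) := by
    intro τ hτ
    rw [Finset.mem_filter] at hτ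
    have hτ := hτ.2
    rw [Good, not_and_or] at hτ
    rw [Finset.mem_union]
    rcases hτ with hτ | hτ
    · left
      push Not at hτ
      obtain ⟨j', hj', he⟩ := hτ
      rw [Finset.mem_biUnion]
      refine ⟨j', Finset.mem_range.2 hj', ?_⟩
      rw [hE1, Finset.mem_filter]
      refine ⟨Finset.mem_univ _, fun e _ => ?_⟩
      rw [← ext_val τ e]
      exact take_addr_eq (t := g) (by rw [he]) e.2 e.2
    · right
      push Not at hτ
      obtain ⟨s', hs', j', hj', β', hβ', hreq, t, ht, hpos, hne⟩ := hτ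
      rw [Finset.mem_biUnion]
      refine ⟨t, Finset.mem_range.2 (by omega), ?_⟩
      rw [Finset.mem_biUnion]
      obtain ⟨hpos1, hpos2⟩ := List.append_inj hpos (by
        rw [List.length_take, List.length_take, length_addr, length_addr])
      refine ⟨(s', j', β'), ?_, ?_⟩
      · rw [hN, Finset.mem_filter, Finset.mem_product, Finset.mem_product]
        refine ⟨⟨Finset.mem_range.2 hs', Finset.mem_range.2 hj', Finset.mem_range.2 hβ'⟩, hreq,
          ?_, ?_⟩
        · intro he
          simp only [Prod.mk.injEq] at he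
          exact hne he.1 he.2.1 he.2.2
        · exact dig_drop_inj hp.one_lt (idx_lt hk hs' hj' hβ') (idx_lt hk hs hj hβ) hpos2
      · rw [hE2, Finset.mem_filter]
        refine ⟨Finset.mem_univ _, fun e he => ?_⟩
        rw [← ext_val τ e]
        exact take_addr_eq hpos1.symm he e.2
  have hc1 : ((Finset.range (k + 2)).biUnion E1).card ≤ (k + 2) * R ^ g := by
    have := Finset.card_biUnion_le_card_mul (Finset.range (k + 2)) E1 (R ^ g) (fun j' hj' => by
      have h1 := card_addr_eq_le p hp g (l + 1) g (str p R Z s j l β) (pre p R (l + 1) (Z j'))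
        le_rfl (hstr s hs j hj β hβ) (pre_lt (by omega) (hZR j' (Finset.mem_range.1 hj')))
        (req_ne hp0 hZ hj hl hβ h (Finset.mem_range.1 hj'))
      rw [Nat.sub_self, pow_zero, mul_one] at h1
      exact h1.trans (hRg g le_rfl))
    rwa [Finset.card_range] at this
  have hNc : ∀ t, (N t).card ≤ p ^ t := by
    intro t
    have h1 : (N t).card ≤ (Finset.Ico (idx p s j β / p ^ t * p ^ t)
        ((idx p s j β / p ^ t + 1) * p ^ t)).card := by
      refine Finset.card_le_card_of_injOn (fun ν => idx p ν.1 ν.2.1 ν.2.2) ?_ ?_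
      · intro ν hν
        rw [hN, Finset.mem_coe, Finset.mem_filter] at hν
        rw [Finset.mem_coe, Finset.mem_Ico, ← hν.2.2.2]
        exact ⟨Nat.div_mul_le_self _ _, Nat.lt_mul_of_div_lt (Nat.lt_succ_self _) (by positivity)⟩
      · intro ν hν ν' hν' he
        rw [hN, Finset.mem_coe, Finset.mem_filter, Finset.mem_product, Finset.mem_product,
          Finset.mem_range, Finset.mem_range, Finset.mem_range] at hν hν'
        obtain ⟨h1, h2, h3⟩ := idx_inj hν.1.1 hν.1.2.2 hν'.1.1 hν'.1.2.2 he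
        exact Prod.ext h1 (Prod.ext h2 h3)
    rw [Nat.card_Ico, ← Nat.sub_mul, Nat.add_sub_cancel_left, one_mul] at h1
    exact h1
  have hc2 : ((Finset.range (G + 1)).biUnion (fun t => (N t).biUnion (E2 t))).card ≤
      (G + 1) * (R ^ g * p ^ G) := by
    have := Finset.card_biUnion_le_card_mul (Finset.range (G + 1))
      (fun t => (N t).biUnion (E2 t)) (R ^ g * p ^ G) (fun t ht => by
      rw [Finset.mem_range] at ht
      have h1 := Finset.card_biUnion_le_card_mul (N t) (E2 t) (R ^ g * p ^ (g - (t + 2)))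
        (fun ν hν => by
          rw [hN, Finset.mem_filter, Finset.mem_product, Finset.mem_product,
            Finset.mem_range, Finset.mem_range, Finset.mem_range] at hν
          have h2 := card_addr_eq_le p hp g (l + 1) (t + 2) (str p R Z s j l β)
            (str p R Z ν.1 ν.2.1 l ν.2.2) (by omega) (hstr s hs j hj β hβ)
            (hstr _ hν.1.1 _ hν.1.2.1 _ hν.1.2.2) (by
              intro he
              obtain ⟨h3, h4, h5⟩ := str_inj hp0 hZ hj hl hβ h hν.1.2.1 hν.1.2.2 hν.2.1 he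
              exact hν.2.2.1 (Prod.ext h3.symm (Prod.ext h4.symm h5.symm)))
          exact h2.trans (Nat.mul_le_mul_right _ (hRg _ (by omega))))
      refine h1.trans ((Nat.mul_le_mul_right _ (hNc t)).trans_eq ?_)
      rw [mul_left_comm, ← pow_add]
      congr 2
      omega)
    rwa [Finset.card_range] at this
  have htot : (Finset.univ.filter
      (fun τ : Fin g → Fin p => ¬ Good p R g G k Z (ext τ) s j l β)).card ≤
      (G + 2) * (R ^ g * p ^ G) := by
    refine (Finset.card_le_card hsub).trans ((Finset.card_union_le _ _).trans ?_)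
    have h3 : (k + 2) * R ^ g ≤ R ^ g * p ^ G := by
      rw [mul_comm]; exact Nat.mul_le_mul_left _ hk'
    calc _ ≤ R ^ g * p ^ G + (G + 1) * (R ^ g * p ^ G) := by omega
      _ = (G + 2) * (R ^ g * p ^ G) := by ring
  calc _ ≤ p * ((G + 2) * (R ^ g * p ^ G)) := Nat.mul_le_mul_left _ htot
    _ = ((G + 2) * R ^ g) * p ^ (G + 1) := by ring
    _ ≤ p * p ^ (G + 1) := Nat.mul_le_mul_right _ hpR
    _ = p ^ g := by rw [hg]; ring

end

end Pool.Agent.Helper650_HSK
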