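import Pool.Agent.Helper650_HSK.Base

/-!
# Soundness of the base formula
-/

namespace Pool.Agent.Helper650_HSK

open List (range)

/-- The address of the string of `L` digits `f` under the seed `τ`. -/
def addr (p g : ℕ) (τ : ℕ → ℕ) (L f : ℕ) : List ℕ := (range g).map (fun e => hsh p (τ e) L f)

theorem length_addr (p g : ℕ) (τ : ℕ → ℕ) (L f : ℕ) : (addr p g τ L f).length = g := by
  simp [addr]

/-- The number with the digits `d 0, ..., d (l - 1)`. -/
def pf (p : ℕ) (d : ℕ → ℕ) : ℕ → ℕ
  | 0 => 0
  | l + 1 => pf p d l * p + d l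

theorem pf_div {p : ℕ} (hp : 0 < p) {d : ℕ → ℕ} (l : ℕ) : ∀ n : ℕ, (∀ m, l ≤ m → m < l + n → d m < p) →
    pf p d (l + n) / p ^ n = pf p d l
  | 0, _ => by simp
  | n + 1, h => by
    have h1 : pf p d (l + (n + 1)) = pf p d (l + n) * p + d (l + n) := rfl
    rw [h1, pow_succ', ← Nat.div_div_eq_div_mul]
    have h2 : (pf p d (l + n) * p + d (l + n)) / p = pf p d (l + n) := by
      rw [Nat.add_comm, Nat.add_mul_div_right _ _ hp, Nat.div_eq_of_lt (h _ (by omega) (by omega)),
        zero_add]
    rw [h2, pf_div hp l n (fun m hm hm' => h m hm (by omega))]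

theorem pf_lt {p : ℕ} {d : ℕ → ℕ} : ∀ l : ℕ, (∀ m < l, d m < p) → pf p d l < p ^ l
  | 0, _ => by simp [pf]
  | l + 1, h => by
    have h1 := pf_lt l (fun m hm => h m (by omega))
    have h2 := h l (by omega)
    have h3 : (pf p d l + 1) * p ≤ p ^ l * p := Nat.mul_le_mul_right _ h1
    rw [pf, pow_succ]
    nlinarith

theorem pre_pf {p R : ℕ} (hp : 0 < p) {d : ℕ → ℕ} (h : ∀ m < R, d m < p) {l : ℕ} (hl : l ≤ R) :
    pre p R l (pf p d R) = pf p d l := by
  obtain ⟨n, rfl⟩ := Nat.exists_eq_add_of_le hl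
  rw [pre, Nat.add_sub_cancel_left]
  exact pf_div hp l n (fun m _ hm => h m hm)

theorem pf_zero {p : ℕ} {d : ℕ → ℕ} : ∀ l : ℕ, (∀ m < l, d m = 0) → pf p d l = 0
  | 0, _ => rfl
  | l + 1, h => by
    rw [pf, pf_zero l (fun m hm => h m (by omega)), h l (by omega)]
    simp

theorem pf_top {p : ℕ} (hp : 0 < p) {d : ℕ → ℕ} : ∀ l : ℕ, (∀ m < l, d m = p - 1) →
    pf p d l + 1 = p ^ l
  | 0, _ => by simp [pf]
  | l + 1, h => by
    have h1 := pf_top hp l (fun m hm => h m (by omega))
    rw [pf, h l (by omega), pow_succ, ← h1, add_mul, one_mul]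
    omega

theorem pre_succ_div {p R l z : ℕ} (hl : l < R) : pre p R (l + 1) z / p = pre p R l z := by
  rw [pre, pre, Nat.div_div_eq_div_mul, ← pow_succ]
  congr 2
  omega

theorem pre_self {p R z : ℕ} : pre p R R z = z := by
  simp [pre]

theorem pre_zero {p R z : ℕ} (hz : z < p ^ R) : pre p R 0 z = 0 := by
  rw [pre, Nat.sub_zero]
  exact Nat.div_eq_of_lt hz

theorem pre_mono {p R l a b : ℕ} (h : a ≤ b) : pre p R l a ≤ pre p R l b :=
  Nat.div_le_div_right h

theorem pre_eq_of_pre_eq {p R l l' a b : ℕ} (h : pre p R l' a = pre p R l' b) (hl : l ≤ l')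
    (hl' : l' ≤ R) : pre p R l a = pre p R l b := by
  obtain ⟨n, rfl⟩ := Nat.exists_eq_add_of_le hl
  induction n with
  | zero => exact h
  | succ n ih =>
    refine ih ?_ (by omega) (by omega)
    have h1 : l + n < R := by omega
    rw [← pre_succ_div h1, ← pre_succ_div h1]
    exact congrArg (· / p) h

/-- The first digit where two numbers differ. -/
theorem exists_gap {p R a v : ℕ} (ha : a < v) (hv : v < p ^ R) :
    ∃ l < R, pre p R l a = pre p R l v ∧ pre p R (l + 1) a < pre p R (l + 1) v := by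
  by_contra hcon
  push Not at hcon
  have key : ∀ l ≤ R, pre p R l a = pre p R l v := by
    intro l
    induction l with
    | zero => intro _; rw [pre_zero hv, pre_zero (ha.trans hv)]
    | succ l ih =>
      intro hl
      have h1 := hcon l (by omega) (ih (by omega))
      exact le_antisymm (pre_mono ha.le) h1
  have h2 := key R le_rfl
  rw [pre_self, pre_self] at h2
  omega

theorem pre_succ {p R l z : ℕ} (hl : l < R) :
    pre p R (l + 1) z = pre p R l z * p + pre p R (l + 1) z % p := by
  rw [← pre_succ_div hl]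
  exact (Nat.div_add_mod' _ _).symm

section

variable {A : Name → Bool} {R w g G k p w0 : ℕ} {Ws : List (List ℕ)} {τ : ℕ → ℕ → ℕ}

/-- The network carries the packets to their addresses. -/
theorem network (hg : g = G + 2) (hN : SatAll A (fN R w g G p)) {i l : ℕ} (hi : i < w)
    (hl : l < R) {c n : List ℕ} (hc : c.length = g) (hc' : ∀ x ∈ c, x < p) (hn : n.length = G)
    (hn' : ∀ x ∈ n, x < p)
    (h0 : ∀ e < g, A (nN i l 0 e (c.getD e 0) (c.take 2 ++ n)) = true) :
    ∀ t ≤ G, ∀ e < g, A (nN i l t e (c.getD e 0) (c.take (t + 2) ++ n.drop t)) = true := by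
  rw [sat_fN] at hN
  intro t
  induction t with
  | zero => intro _ e he; simpa using h0 e he
  | succ t ih =>
    intro ht e he
    have ht' : t < n.length := by omega
    have htc : t + 2 < c.length := by omega
    have h1 := ih (by omega)
    obtain ⟨y, hy, hd⟩ : ∃ y ∈ n, n.drop t = y :: n.drop (t + 1) :=
      ⟨_, List.getElem_mem ht', List.drop_eq_getElem_cons ht'⟩
    rw [hd] at h1
    obtain ⟨z, hz, htk, hgd⟩ : ∃ z ∈ c, c.take (t + 1 + 2) = c.take (t + 2) ++ [z] ∧
        c.getD (t + 2) 0 = z :=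
      ⟨_, List.getElem_mem htc, (List.take_concat_get' c (t + 2) htc).symm,
        List.getD_eq_getElem _ _ htc⟩
    have h2 := h1 (t + 2) (by omega)
    rw [hgd] at h2
    have hed : c.getD e 0 < p := by
      rw [List.getD_eq_getElem _ _ (by omega)]
      exact hc' _ (List.getElem_mem _)
    have h3 := hN i hi l hl e he t (by omega) (c.take (t + 2)) (by
        rw [mem_tup]
        refine ⟨by rw [List.length_take]; omega, fun x hx => hc' x (List.mem_of_mem_take hx)⟩)
      y (hn' _ hy) (n.drop (t + 1)) (by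
        rw [mem_tup]
        refine ⟨by rw [List.length_drop]; omega, fun x hx => hn' x (List.mem_of_mem_drop hx)⟩)
      z (hc' _ hz) (c.getD e 0) hed h2 (h1 e he)
    rw [htk, List.append_assoc, List.singleton_append]
    exact h3

theorem base_sound (hp : 2 ≤ p) (hg : g = G + 2)
    (hWs : ∀ W : List ℕ, W.Sublist (range w) → W.length = w0 → W ∈ Ws)
    (hW : SatAll A (wideB R w g G Ws k p)) (hN : SatAll A (narrowB R w g G k p))
    (hτ : ∀ i < w, ∀ e < g, τ i e < p ∧ A (nT i e (τ i e)) = true) :
    ∃ Z : ℕ → ℕ, ∀ v, 0 < v → v + 1 < p ^ R → (∀ j, 1 ≤ j → j ≤ k → Z j ≠ v) →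
      ∃ l < R, ((range w).filter
        (fun i => A (nY i l (addr p g (τ i) (l + 1) (pre p R (l + 1) v))))).length < w0 := by
  have hp0 : 0 < p := by omega
  simp only [wideB, narrowB, satAll_append] at hW hN
  obtain ⟨⟨⟨hS, hH⟩, hWW⟩, hI⟩ := hW
  obtain ⟨⟨⟨⟨⟨⟨hE, hC⟩, hH0⟩, hR⟩, hA⟩, hNN⟩, hO⟩ := hN
  rw [sat_fS] at hS
  rw [sat_fH] at hH
  rw [sat_fW] at hWW
  rw [sat_fI] at hI
  rw [sat_fE] at hE
  rw [sat_fC] at hC
  rw [sat_fH0] at hH0
  rw [sat_fR] at hR
  rw [sat_fA] at hA
  rw [sat_fO] at hO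
  -- the digits
  have hdg : ∃ dg : ℕ → ℕ → ℕ, (∀ j < k + 2, ∀ m < R, dg j m < p ∧ A (nS j m (dg j m)) = true) ∧
      (∀ m < R, dg 0 m = 0) ∧ (∀ m < R, dg (k + 1) m = p - 1) := by
    have h1 : ∀ j m : ℕ, ∃ a : ℕ, (j < k + 2 → m < R → a < p ∧ A (nS j m a) = true) ∧
        (m < R → j = 0 → a = 0) ∧ (m < R → j = k + 1 → a = p - 1) := by
      intro j m
      by_cases hm : m < R
      · by_cases hj : j = 0
        · subst hj
          exact ⟨0, fun _ _ => ⟨hp0, hE.1 m hm⟩, fun _ _ => rfl, fun _ h => by omega⟩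
        · by_cases hj' : j = k + 1
          · subst hj'
            exact ⟨p - 1, fun _ _ => ⟨by omega, hE.2 m hm⟩, fun _ h => by omega, fun _ _ => rfl⟩
          · by_cases hj2 : j < k + 2
            · obtain ⟨a, ha, ha'⟩ := hS m hm j hj2
              exact ⟨a, fun _ _ => ⟨ha, ha'⟩, fun _ h => absurd h hj, fun _ h => absurd h hj'⟩
            · exact ⟨0, fun h => absurd h hj2, fun _ h => absurd h hj, fun _ h => absurd h hj'⟩
      · exact ⟨0, fun _ h => absurd h hm, fun h => absurd h hm, fun h => absurd h hm⟩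
    choose dg h using h1
    exact ⟨dg, fun j hj m hm => (h j m).1 hj hm, fun m hm => (h 0 m).2.1 hm rfl,
      fun m hm => (h (k + 1) m).2.2 hm rfl⟩
  obtain ⟨dg, hdg, hdg0, hdg1⟩ := hdg
  set Z : ℕ → ℕ := fun j => pf p (dg j) R with hZ
  have hZpre : ∀ j < k + 2, ∀ l ≤ R, pre p R l (Z j) = pf p (dg j) l := fun j hj l hl =>
    pre_pf hp0 (fun m hm => (hdg j hj m hm).1) hl
  have hZlt : ∀ j < k + 2, Z j < p ^ R := fun j hj => pf_lt R (fun m hm => (hdg j hj m hm).1)
  have hZ0 : Z 0 = 0 := pf_zero R hdg0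
  have hZ1 : Z (k + 1) + 1 = p ^ R := pf_top hp0 R hdg1
  -- digits of prefixes
  have hZdg : ∀ j < k + 2, ∀ l < R, pre p R (l + 1) (Z j) = pre p R l (Z j) * p + dg j l := by
    intro j hj l hl
    rw [hZpre j hj (l + 1) (by omega), hZpre j hj l (by omega), pf]
  -- hashes
  have hash : ∀ i < w, ∀ j < k + 2, ∀ e < g, ∀ l ≤ R,
      A (nH i j l e (hsh p (τ i e) l (pre p R l (Z j)))) = true := by
    intro i hi j hj e he l
    induction l with
    | zero => intro _; exact hH0 i hi e he j hj
    | succ l ih =>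
      intro hl
      have h1 := hH i hi l (by omega) e he j hj _ (hsh_lt hp0 (τ i e) l (pre p R l (Z j))) (dg j l)
        (hdg j hj l (by omega)).1 (τ i e) (hτ i hi e he).1 (ih (by omega))
        (hdg j hj l (by omega)).2 (hτ i hi e he).2
      rw [hZdg j hj l (by omega), hsh_succ' p (τ i e) l _ _ (hdg j hj l (by omega)).1]
      exact h1
  -- common prefixes
  have hcp : ∀ j < k + 1, ∀ l ≤ R, A (nC j l) = true → pre p R l (Z j) = pre p R l (Z (j + 1)) := by
    intro j hj l
    induction l with
    | zero =>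
      intro _ _
      rw [pre_zero (hZlt j (by omega)), pre_zero (hZlt (j + 1) (by omega))]
    | succ l ih =>
      intro hl hc
      have h1 := ih (by omega) ((hC l (by omega) j hj).1 hc)
      rw [hZdg j (by omega) l (by omega), hZdg (j + 1) (by omega) l (by omega), h1]
      congr 1
      by_contra hne
      have h2 := (hC l (by omega) j hj).2 (dg j l) (hdg j (by omega) l (by omega)).1
        (dg (j + 1) l) (hdg (j + 1) (by omega) l (by omega)).1 (fun h => hne h.symm) hc
        (hdg j (by omega) l (by omega)).2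
      rw [(hdg (j + 1) (by omega) l (by omega)).2] at h2
      exact Bool.noConfusion h2
  refine ⟨Z, fun v hv0 hv1 hvZ => ?_⟩
  have hvR : v < p ^ R := by omega
  -- the gap containing `v`
  obtain ⟨j, hj, hjv, hvj⟩ : ∃ j < k + 1, Z j < v ∧ v < Z (j + 1) := by
    by_contra hcon
    push Not at hcon
    have key : ∀ j ≤ k + 1, Z j < v := by
      intro j
      induction j with
      | zero => intro _; rw [hZ0]; exact hv0
      | succ j ih =>
        intro hj
        have h1 := hcon j (by omega) (ih (by omega))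
        rcases Nat.lt_or_ge (Z (j + 1)) v with h2 | h2
        · exact h2
        · exfalso
          have h3 : Z (j + 1) = v := le_antisymm h1 h2
          by_cases hjk : j + 1 ≤ k
          · exact hvZ (j + 1) (by omega) hjk h3
          · have : j + 1 = k + 1 := by omega
            rw [this] at h3
            omega
    have := key (k + 1) le_rfl
    omega
  obtain ⟨la, hla, hla1, hla2⟩ := exists_gap hjv hvR
  obtain ⟨lb, hlb, hlb1, hlb2⟩ := exists_gap hvj (hZlt (j + 1) (by omega))
  -- a required node which is a prefix of `v`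
  obtain ⟨s, hs, l, hl, hsl, hreq⟩ : ∃ s < 2, ∃ l < R, pre p R l (Z (j + s)) = pre p R l v ∧
      A (nR s j l (pre p R (l + 1) v % p)) = true := by
    have hda : dg j la < pre p R (la + 1) v % p := by
      have h1 := hZdg j (by omega) la hla
      have h2 := pre_succ (p := p) (z := v) hla
      rw [hla1] at h1
      omega
    have hdb : pre p R (lb + 1) v % p < dg (j + 1) lb := by
      have h1 := hZdg (j + 1) (by omega) lb hlb
      have h2 := pre_succ (p := p) (z := v) hlb
      rw [← hlb1] at h1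
      omega
    rcases lt_trichotomy la lb with hlt | heq | hgt
    · refine ⟨1, by omega, lb, hlb, hlb1.symm, ?_⟩
      refine (hR lb hlb j hj _ (Nat.mod_lt _ hp0)).2 (dg (j + 1) lb)
        (hdg (j + 1) (by omega) lb hlb).1 hdb (hdg (j + 1) (by omega) lb hlb).2 ?_
      by_contra hc
      rw [Bool.not_eq_false] at hc
      have h1 := hcp j hj lb hlb.le hc
      rw [← hlb1] at h1
      have h2 := pre_eq_of_pre_eq h1 (l := la + 1) (by omega) (by omega)
      omega
    · subst heq
      refine ⟨0, by omega, la, hla, by rw [Nat.add_zero]; exact hla1, ?_⟩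
      exact ((hR la hla j hj _ (Nat.mod_lt _ hp0)).1 (dg j la) (hdg j (by omega) la hla).1 hda).2
        (dg (j + 1) la) (hdg (j + 1) (by omega) la hla).1 hdb (hdg j (by omega) la hla).2
        (hdg (j + 1) (by omega) la hla).2
    · refine ⟨0, by omega, la, hla, by rw [Nat.add_zero]; exact hla1, ?_⟩
      refine ((hR la hla j hj _ (Nat.mod_lt _ hp0)).1 (dg j la) (hdg j (by omega) la hla).1 hda).1
        (hdg j (by omega) la hla).2 ?_
      by_contra hc
      rw [Bool.not_eq_false] at hc
      have h1 := hcp j hj la hla.le hc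
      rw [hla1] at h1
      have h2 := pre_eq_of_pre_eq h1 (l := lb + 1) (by omega) (by omega)
      omega
  set β := pre p R (l + 1) v % p with hβ
  have hβp : β < p := Nat.mod_lt _ hp0
  have hprev : pre p R (l + 1) v = pre p R l (Z (j + s)) * p + β := by
    rw [hsl]; exact pre_succ hl
  refine ⟨l, hl, ?_⟩
  -- cells at good levels are not marked
  have hgood : ∀ i < w, A (nG i s j l β) = true →
      A (nY i l (addr p g (τ i) (l + 1) (pre p R (l + 1) v))) = false := by
    intro i hi hgi
    set c := addr p g (τ i) (l + 1) (pre p R (l + 1) v) with hc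
    have hcl : c.length = g := length_addr _ _ _ _ _
    have hce : ∀ e < g, c.getD e 0 = hsh p (τ i e) (l + 1) (pre p R (l + 1) v) := by
      intro e he
      rw [List.getD_eq_getElem _ _ (by omega)]
      simp [hc, addr]
    have hcp' : ∀ x ∈ c, x < p := by
      intro x hx
      simp only [hc, addr, List.mem_map] at hx
      obtain ⟨e, _, rfl⟩ := hx
      exact hsh_lt hp0 _ _ _
    have hnA : ∀ e < g, A (nA i s j l β e (c.getD e 0)) = true := by
      intro e he
      have h1 := hA i hi l hl s hs e he j hj β hβp _ (hsh_lt hp0 (τ i e) l (pre p R l (Z (j + s))))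
        (τ i e) (hτ i hi e he).1 (hash i hi (j + s) (by omega) e he l hl.le) (hτ i hi e he).2
      rw [hce e he, hprev, hsh_succ' _ _ _ _ _ hβp]
      exact h1
    have hcg : ∀ e < g, c.getD e 0 < p := by
      intro e he
      rw [hce e he]
      exact hsh_lt hp0 _ _ _
    have h0 : ∀ e < g, A (nN i l 0 e (c.getD e 0)
        (c.take 2 ++ dig p G ((2 * j + s) * p + β))) = true := by
      intro e he
      have h1 := hI i hi l hl s hs e he j hj β hβp (c.getD 0 0) (hcg 0 (by omega)) (c.getD 1 0)
        (hcg 1 (by omega)) (c.getD e 0) (hcg e he) hgi (hnA 0 (by omega)) (hnA 1 (by omega))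
        (hnA e he)
      have h2 : c.take 2 = [c.getD 0 0, c.getD 1 0] := by
        match c, hcl with
        | [], h => simp at h; omega
        | [_], h => simp at h; omega
        | a :: b :: c', _ => simp
      rw [h2]
      exact h1
    have h3 := network hg hNN hi hl hcl hcp' (length_dig p G _) (fun x hx => dig_lt hp0 hx) h0
      G le_rfl 0 (by omega)
    have h4 : c.take (G + 2) ++ (dig p G ((2 * j + s) * p + β)).drop G = c := by
      rw [List.take_of_length_le (by omega), List.drop_of_length_le (by rw [length_dig]),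
        List.append_nil]
    rw [h4] at h3
    exact hO i hi l hl c (mem_tup.2 ⟨hcl, hcp'⟩) (c.getD 0 0) (hcg 0 (by omega)) h3
  -- counting
  by_contra hcon
  push Not at hcon
  set B := (range w).filter
    (fun i => A (nY i l (addr p g (τ i) (l + 1) (pre p R (l + 1) v)))) with hB
  have hW1 : B.take w0 ∈ Ws := hWs _
    ((List.take_sublist _ _).trans List.filter_sublist) (by rw [List.length_take]; omega)
  obtain ⟨i, hi, hgi⟩ := hWW l hl s hs _ hW1 j hj β hβp hreq
  have hi' : i ∈ B := List.mem_of_mem_take hi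
  rw [hB, List.mem_filter, List.mem_range] at hi'
  have := hgood i hi'.1 hgi
  rw [this] at hi'
  exact Bool.noConfusion hi'.2

end

end Pool.Agent.Helper650_HSK
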